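import Pool.Agent.Lib.MP_ee37cd_co.SpecM

/-!
# MP_ee37cd_co: ACY, the gluing lemma
-/

set_option autoImplicit false

namespace Pool.Agent.Lib.MP_ee37cd_co.BK

open Finset
open scoped Classical

theorem s_ACY : S_ACY := by
  intro V E A X r irr hA hAX hinj hnd hfw hwalk
  have harc : ∀ s ∈ X, ∀ t ∈ X, E s t → r s < r t := by
    intro s hs t ht hst
    have hne : s ≠ t := by
      rintro rfl
      exact irr _ hst
    rcases lt_trichotomy (r s) (r t) with h | h | h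
    · exact h
    · exact absurd (hinj s hs t ht h) hne
    · exact absurd ⟨hst, hfw t ht s hs h⟩ (hnd s hs t ht hne)
  have claim1 : ∀ u ∈ X, ∀ t,
      Relation.TransGen (fun a b => E a b ∧ a ∈ A ∪ X ∧ b ∈ A ∪ X) u t →
      (t ∈ X → r u < r t) ∧ (t ∈ A → ∃ u' ∈ X, r u ≤ r u' ∧ ∃ a ∈ A, E u' a ∧
        Relation.ReflTransGen (fun s t => E s t ∧ s ∈ A ∧ t ∈ A) a t) := by
    intro u hu t hut
    induction hut with
    | single h1 =>
      rename_i t
      exact ⟨fun ht => harc u hu t ht h1.1, fun ht => ⟨u, hu, le_rfl, t, ht, h1.1,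
        Relation.ReflTransGen.refl⟩⟩
    | tail h' h1 ih =>
      rename_i s t
      rcases Finset.mem_union.mp h1.2.1 with hs | hs
      · obtain ⟨u', hu', hru, a, ha, hEa, hw⟩ := ih.2 hs
        refine ⟨fun ht => ?_, fun ht => ?_⟩
        · by_contra hcon
          refine hwalk u' hu' t ht (by omega) ⟨a, ha, s, hs, hEa, h1.1, hw⟩
        · exact ⟨u', hu', hru, a, ha, hEa, hw.tail ⟨h1.1, hs, ht⟩⟩
      · have h2 := ih.1 hs
        refine ⟨fun ht => h2.trans (harc s hs t ht h1.1), fun ht => ?_⟩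
        exact ⟨s, hs, h2.le, t, ht, h1.1, Relation.ReflTransGen.refl⟩
  have claim2 : ∀ x t,
      Relation.TransGen (fun a b => E a b ∧ a ∈ A ∪ X ∧ b ∈ A ∪ X) x t → x ∈ A →
      (Relation.TransGen (fun s t => E s t ∧ s ∈ A ∧ t ∈ A) x t ∧ t ∈ A) ∨
      ∃ u ∈ X, Relation.TransGen (fun a b => E a b ∧ a ∈ A ∪ X ∧ b ∈ A ∪ X) x u ∧
        Relation.ReflTransGen (fun a b => E a b ∧ a ∈ A ∪ X ∧ b ∈ A ∪ X) u t := by
    intro x t hxt hx
    induction hxt with
    | single h1 =>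
      rename_i t
      rcases Finset.mem_union.mp h1.2.2 with ht | ht
      · exact Or.inl ⟨Relation.TransGen.single ⟨h1.1, hx, ht⟩, ht⟩
      · exact Or.inr ⟨t, ht, Relation.TransGen.single h1, Relation.ReflTransGen.refl⟩
    | tail h' h1 ih =>
      rename_i s t
      rcases ih with ⟨h2, hs⟩ | ⟨u, hu, h2, h3⟩
      · rcases Finset.mem_union.mp h1.2.2 with ht | ht
        · exact Or.inl ⟨h2.tail ⟨h1.1, hs, ht⟩, ht⟩
        · exact Or.inr ⟨t, ht, h'.tail h1, Relation.ReflTransGen.refl⟩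
      · exact Or.inr ⟨u, hu, h2, h3.tail h1⟩
  have claim3 : ∀ u ∈ X,
      ¬ Relation.TransGen (fun a b => E a b ∧ a ∈ A ∪ X ∧ b ∈ A ∪ X) u u :=
    fun u hu h => lt_irrefl _ ((claim1 u hu u h).1 hu)
  intro v hv
  obtain ⟨b, hb, -⟩ := Relation.TransGen.head'_iff.mp hv
  rcases Finset.mem_union.mp hb.2.1 with hvA | hvX
  · rcases claim2 v v hv hvA with ⟨h, -⟩ | ⟨u, hu, h2, h3⟩
    · exact hA v h
    · exact claim3 u hu (Relation.TransGen.trans_right h3 h2)
  · exact claim3 v hvX hv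

end Pool.Agent.Lib.MP_ee37cd_co.BK
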