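import Pool.Agent.Lib.MP_ee37cd_co.SpecL

/-!
# MP_ee37cd_co: the abstract local lemma, final step
-/

set_option autoImplicit false

namespace Pool.Agent.Lib.MP_ee37cd_co.LL

open Finset
open scoped Classical

theorem s_ALL : S_OBS → S_ALL := by
  intro hO V K r dg P O I k v0 f0 hL hT hv0 hmax hf0
  by_contra hcon
  obtain ⟨U, C, hUK, hUne, hcard, hUC, hdig, hs⟩ := hO V K r dg P O I k hL hT hcon
  have hv0U : v0 ∉ U := by
    intro h
    obtain ⟨v, hv, hlt⟩ := hs v0 h
    exact absurd hlt (not_lt.mpr (hmax v hv))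
  have hUe : U ⊆ K.erase v0 := by
    intro u hu
    rw [Finset.mem_erase]
    refine ⟨?_, hUK hu⟩
    intro h
    exact hv0U (h ▸ hu)
  have hinj : Set.InjOn f0 (U : Set V) := by
    intro u hu u' hu' h
    by_contra hne
    exact hf0.2.1 u (hUe (Finset.mem_coe.1 hu)) u' (hUe (Finset.mem_coe.1 hu')) hne h
      (hdig u (Finset.mem_coe.1 hu) u' (Finset.mem_coe.1 hu') hne)
  have himg : (U.image f0).card = U.card := Finset.card_image_of_injOn hinj
  have hdisj : Disjoint (U.image f0) C := by
    rw [Finset.disjoint_left]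
    intro c hc hcC
    obtain ⟨u, hu, rfl⟩ := Finset.mem_image.1 hc
    have h1 := hUC u hu hcC
    rw [F, Finset.mem_filter] at h1
    exact hf0.2.2 u (hUe hu) u (hUe hu) rfl le_rfl h1.2
  have hsub : U.image f0 ∪ C ⊆ range k := by
    intro c hc
    rcases Finset.mem_union.1 hc with h | h
    · obtain ⟨u, hu, rfl⟩ := Finset.mem_image.1 h
      exact Finset.mem_range.2 (hf0.1 u (hUe hu))
    · obtain ⟨u, hu⟩ := hUne
      have h1 := hUC u hu h
      rw [F, Finset.mem_filter] at h1
      exact h1.1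
  have h2 := Finset.card_le_card hsub
  rw [Finset.card_union_of_disjoint hdisj, himg, Finset.card_range] at h2
  omega

end Pool.Agent.Lib.MP_ee37cd_co.LL
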