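import Pool.Agent.Lib.MP_ee37cd_co.Spec

/-!
# MP_ee37cd_co: copies of `H` which use the new arc (module CH)

A copy of `H_{k+1}` in the digraph with the two new arcs `y → u`, `g → x` has vertex set `W`. If
`y` is in the biclique part, `y` has too many arcs leaving the near biclique `T`. If `y` is in the
triangle, there is a vertex of `Z` in the biclique part, so by (PQ) only one vertex of `W` is outside
`T`, it is `u`, and `u` is joined by digons to all of `Z`.
-/

set_option autoImplicit false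

namespace Pool.Agent.Lib.MP_ee37cd_co.BK

open Finset
open scoped Classical

namespace CH

variable {V : Type} {E : V → V → Prop}

theorem isH_mono {E' : V → V → Prop} {k : ℕ} {a b c : V} {X : Finset V} (h : IsH E k a b c X)
    (hm : ∀ s t, (s = a ∨ s = b ∨ s = c ∨ s ∈ X) → (t = a ∨ t = b ∨ t = c ∨ t ∈ X) →
      E s t → E' s t) : IsH E' k a b c X := by
  obtain ⟨h1, h2, h3, h4, h5, h6⟩ := h
  refine ⟨h1, ?_, ?_, ?_, ?_, ?_⟩
  · intro s hs t ht hst
    exact hm s t (Or.inr (Or.inr (Or.inr hs))) (Or.inr (Or.inr (Or.inr ht))) (h2 s hs t ht hst)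
  · exact hm _ _ (Or.inl rfl) (Or.inr (Or.inl rfl)) h3
  · exact hm _ _ (Or.inr (Or.inl rfl)) (Or.inr (Or.inr (Or.inl rfl))) h4
  · exact hm _ _ (Or.inr (Or.inr (Or.inl rfl))) (Or.inl rfl) h5
  · intro x hx
    have hx' : x = a ∨ x = b ∨ x = c ∨ x ∈ X := Or.inr (Or.inr (Or.inr hx))
    obtain ⟨ha, hb, hc⟩ := h6 x hx
    exact ⟨⟨hm _ _ (Or.inl rfl) hx' ha.1, hm _ _ hx' (Or.inl rfl) ha.2⟩,
      ⟨hm _ _ (Or.inr (Or.inl rfl)) hx' hb.1, hm _ _ hx' (Or.inr (Or.inl rfl)) hb.2⟩,
      ⟨hm _ _ (Or.inr (Or.inr (Or.inl rfl))) hx' hc.1,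
        hm _ _ hx' (Or.inr (Or.inr (Or.inl rfl))) hc.2⟩⟩

theorem isH_rot {k : ℕ} {a b c : V} {X : Finset V} (h : IsH E k a b c X) : IsH E k b c a X :=
  ⟨h.1, h.2.1, h.2.2.2.1, h.2.2.2.2.1, h.2.2.1, fun x hx =>
    ⟨(h.2.2.2.2.2 x hx).2.1, (h.2.2.2.2.2 x hx).2.2, (h.2.2.2.2.2 x hx).1⟩⟩

/-- the number of vertices of a copy -/
theorem isH_card (irr : ∀ v, ¬ E v v) {k : ℕ} {a b c : V} {X : Finset V}
    (h : IsH E k a b c X) : (insert a (insert b (insert c X))).card = k + 1 := by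
  obtain ⟨h1, -, h3, h4, h5, h6⟩ := h
  have hc : c ∉ X := fun hx => irr _ (h6 c hx).2.2.1
  have hb : b ∉ insert c X := by
    rw [Finset.mem_insert, not_or]
    refine ⟨?_, fun hx => irr _ (h6 b hx).2.1.1⟩
    rintro rfl
    exact irr _ h4
  have ha : a ∉ insert b (insert c X) := by
    rw [Finset.mem_insert, Finset.mem_insert, not_or, not_or]
    refine ⟨?_, ?_, fun hx => irr _ (h6 a hx).1.1⟩
    · rintro rfl
      exact irr _ h3
    · rintro rfl
      exact irr _ h5
  rw [Finset.card_insert_of_notMem ha, Finset.card_insert_of_notMem hb,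
    Finset.card_insert_of_notMem hc]
  omega

/-- the number of vertices of a near biclique -/
theorem nbk_card (irr : ∀ v, ¬ E v v) {S : Finset V} {k : ℕ} {x y : V} {Z : Finset V}
    (h : NB E S k x y Z) : (NBK x y Z).card = k + 1 := by
  have hx : x ∉ insert y Z := by
    rw [Finset.mem_insert, not_or]
    refine ⟨?_, h.xZ⟩
    rintro rfl
    exact irr _ h.xy
  rw [NBK, Finset.card_insert_of_notMem hx, Finset.card_insert_of_notMem h.yZ]
  have := h.card
  omega

/-- (1): the arcs between `y` and `R \ T` -/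
theorem arcs_y {S : Finset V} {k : ℕ} {x y : V} {Z R : Finset V} {z1 : V} (hk : 8 ≤ k)
    (h : MinCex E S k) (hN : NB E S k x y Z) (hTR : NBK x y Z ⊆ R) (hRS : R ⊆ S) (hz1 : z1 ∈ S)
    (hz1R : z1 ∉ R) (hyz : E y z1) {O I : Finset V} (hO : O ⊆ R \ NBK x y Z)
    (hI : I ⊆ R \ NBK x y Z) (hO' : ∀ t ∈ O, E y t) (hI' : ∀ t ∈ I, E t y) :
    O.card + I.card ≤ 2 := by
  have hZT : Z ⊆ NBK x y Z := fun z hz => mem_NBK.mpr (Or.inr (Or.inr hz))
  have hZO : Disjoint Z O := by
    rw [Finset.disjoint_left]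
    intro z hz hzO
    exact (Finset.mem_sdiff.mp (hO hzO)).2 (hZT hz)
  have hZI : Disjoint Z I := by
    rw [Finset.disjoint_left]
    intro z hz hzI
    exact (Finset.mem_sdiff.mp (hI hzI)).2 (hZT hz)
  have h1 : z1 ∉ Z ∪ O := by
    rw [Finset.mem_union, not_or]
    exact ⟨fun hz => hz1R (hTR (hZT hz)), fun hz => hz1R (Finset.mem_sdiff.mp (hO hz)).1⟩
  have h2 : x ∉ Z ∪ I := by
    rw [Finset.mem_union, not_or]
    exact ⟨hN.xZ, fun hz => (Finset.mem_sdiff.mp (hI hz)).2 (mem_NBK.mpr (Or.inl rfl))⟩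
  have h3 : Z.card + O.card + 1 ≤ outdeg E S y := by
    rw [← Finset.card_union_of_disjoint hZO, ← Finset.card_insert_of_notMem h1]
    refine Finset.card_le_card ?_
    intro w hw
    rw [Finset.mem_filter]
    rcases Finset.mem_insert.mp hw with rfl | hw
    · exact ⟨hz1, hyz⟩
    · rcases Finset.mem_union.mp hw with hw | hw
      · exact ⟨hN.ZS hw, (hN.dy w hw).1⟩
      · exact ⟨hRS (Finset.mem_sdiff.mp (hO hw)).1, hO' w hw⟩
  have h4 : Z.card + I.card + 1 ≤ indeg E S y := by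
    rw [← Finset.card_union_of_disjoint hZI, ← Finset.card_insert_of_notMem h2]
    refine Finset.card_le_card ?_
    intro w hw
    rw [Finset.mem_filter]
    rcases Finset.mem_insert.mp hw with rfl | hw
    · exact ⟨hN.xS, hN.xy⟩
    · rcases Finset.mem_union.mp hw with hw | hw
      · exact ⟨hN.ZS hw, (hN.dy w hw).2⟩
      · exact ⟨hRS (Finset.mem_sdiff.mp (hI hw)).1, hI' w hw⟩
  have h5 := h.dsum (by omega) hN.yS
  have h6 := hN.card
  omega

/-- The situation of the statement, with `¬ E y u`. -/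
structure Sit (E : V → V → Prop) (S : Finset V) (k : ℕ) (x y : V) (Z R : Finset V)
    (u g z1 : V) : Prop where
  hk : 8 ≤ k
  h : MinCex E S k
  hN : NB E S k x y Z
  hTR : NBK x y Z ⊆ R
  hRS : R ⊆ S
  hz1 : z1 ∈ S
  hz1R : z1 ∉ R
  hyz : E y z1
  hu : u ∈ R
  hux : u ≠ x
  hgy : g ≠ y
  hyu : ¬ E y u
  hne : y ≠ u

section sit

variable {S : Finset V} {k : ℕ} {x y : V} {Z R : Finset V} {u g z1 : V}

theorem Sit.xy (s : Sit E S k x y Z R u g z1) : x ≠ y := by
  rintro rfl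
  exact s.h.irr _ s.hN.xy

theorem Sit.uZ (s : Sit E S k x y Z R u g z1) : u ∉ Z := fun hz => s.hyu (s.hN.dy u hz).1

theorem Sit.uT (s : Sit E S k x y Z R u g z1) : u ∉ NBK x y Z := by
  rw [mem_NBK, not_or, not_or]
  exact ⟨s.hux, s.hne.symm, s.uZ⟩

theorem Sit.irr2 (s : Sit E S k x y Z R u g z1) (v : V) :
    ¬ addArc (addArc E y u) g x v v := by
  rintro ((h1 | ⟨h1, h2, h3⟩) | ⟨h1, h2, h3⟩)
  · exact s.h.irr _ h1
  · exact h3 (h1.symm.trans h2)
  · exact h3 (h1.symm.trans h2)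

theorem Sit.nyx (s : Sit E S k x y Z R u g z1) : ¬ addArc (addArc E y u) g x y x := by
  rintro ((h1 | ⟨h1, h2, h3⟩) | ⟨h1, h2, h3⟩)
  · exact s.hN.yx h1
  · exact s.hux h2.symm
  · exact s.hgy h1.symm

/-- arcs from `y` -/
theorem Sit.outy (s : Sit E S k x y Z R u g z1) {t : V} (ht : addArc (addArc E y u) g x y t)
    (htu : t ≠ u) : E y t := by
  rcases ht with (h1 | ⟨h1, h2, h3⟩) | ⟨h1, h2, h3⟩
  · exact h1
  · exact absurd h2 htu
  · exact absurd h1.symm s.hgy

/-- arcs to `y` -/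
theorem Sit.iny (s : Sit E S k x y Z R u g z1) {t : V} (ht : addArc (addArc E y u) g x t y) :
    E t y := by
  rcases ht with (h1 | ⟨h1, h2, h3⟩) | ⟨h1, h2, h3⟩
  · exact h1
  · exact absurd h2 s.hne
  · exact absurd h2.symm s.xy

/-- arcs from `Z` -/
theorem Sit.outz (s : Sit E S k x y Z R u g z1) {z w : V} (hz : z ∈ Z) (hw : w ≠ x)
    (ht : addArc (addArc E y u) g x z w) : E z w := by
  rcases ht with (h1 | ⟨h1, h2, h3⟩) | ⟨h1, h2, h3⟩
  · exact h1
  · exact absurd (h1 ▸ hz) s.hN.yZ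
  · exact absurd h2 hw

/-- arcs to `Z` -/
theorem Sit.inz (s : Sit E S k x y Z R u g z1) {z w : V} (hz : z ∈ Z)
    (ht : addArc (addArc E y u) g x w z) : E w z := by
  rcases ht with (h1 | ⟨h1, h2, h3⟩) | ⟨h1, h2, h3⟩
  · exact h1
  · exact absurd (h2 ▸ hz) s.uZ
  · exact absurd (h2 ▸ hz) s.hN.xZ

/-- Case A: a set of vertices outside `T` joined by digons to `y` has at most one element. -/
theorem Sit.one (s : Sit E S k x y Z R u g z1) {D : Finset V} (hD : D ⊆ R \ NBK x y Z)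
    (hD' : ∀ t ∈ D, Dg (addArc (addArc E y u) g x) y t) : D.card ≤ 1 := by
  have h1 := arcs_y s.hk s.h s.hN s.hTR s.hRS s.hz1 s.hz1R s.hyz
    (O := D.erase u) (I := D) ((Finset.erase_subset _ _).trans hD) hD
    (fun t ht => s.outy (hD' t (Finset.mem_of_mem_erase ht)).1 (Finset.ne_of_mem_erase ht))
    (fun t ht => s.iny (hD' t ht).2)
  have h2 := Finset.pred_card_le_card_erase (s := D) (a := u)
  omega

theorem Sit.caseA (s : Sit E S k x y Z R u g z1) {a b c : V} {X : Finset V}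
    (hH : IsH (addArc (addArc E y u) g x) (k + 1) a b c X) (ha : a ∈ R) (hb : b ∈ R)
    (hc : c ∈ R) (hX : X ⊆ R) (hy : y ∈ X) : False := by
  have hW := isH_card s.irr2 hH
  obtain ⟨h1, h2, h3, h4, h5, h6⟩ := hH
  obtain ⟨W, hWd⟩ : ∃ W : Finset V, W = insert a (insert b (insert c X)) := ⟨_, rfl⟩
  rw [← hWd] at hW
  have hWR : W ⊆ R := by
    rw [hWd]
    intro w hw
    simp only [Finset.mem_insert] at hw
    rcases hw with rfl | rfl | rfl | hw
    · exact ha
    · exact hb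
    · exact hc
    · exact hX hw
  have hdg : ∀ t ∈ W, t ≠ y → Dg (addArc (addArc E y u) g x) y t := by
    intro t ht hty
    rw [hWd] at ht
    simp only [Finset.mem_insert] at ht
    rcases ht with rfl | rfl | rfl | ht
    · exact (h6 y hy).1.symm
    · exact (h6 y hy).2.1.symm
    · exact (h6 y hy).2.2.symm
    · exact h2.dg hy ht hty.symm
  have hxW : x ∉ W := fun hx => s.nyx (hdg x hx s.xy).1
  have hint : (W ∩ NBK x y Z).card ≤ k := by
    have hsub : W ∩ NBK x y Z ⊆ insert y Z := by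
      intro w hw
      rw [Finset.mem_inter, mem_NBK] at hw
      rw [Finset.mem_insert]
      rcases hw.2 with rfl | h | h
      · exact absurd hw.1 hxW
      · exact Or.inl h
      · exact Or.inr h
    have h7 := Finset.card_le_card hsub
    rw [Finset.card_insert_of_notMem s.hN.yZ, s.hN.card] at h7
    exact h7
  have h8 := Finset.card_sdiff_add_card_inter W (NBK x y Z)
  have h9 := s.one (D := W \ NBK x y Z) (Finset.sdiff_subset_sdiff hWR (Finset.Subset.refl _))
    (by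
      intro t ht
      rw [Finset.mem_sdiff] at ht
      refine hdg t ht.1 ?_
      rintro rfl
      exact ht.2 (mem_NBK.mpr (Or.inr (Or.inl rfl))))
  omega

theorem Sit.caseB (hPQ : S_PQ) (hIII : S_III) (s : Sit E S k x y Z R u g z1) {b c : V}
    {X : Finset V} (hH : IsH (addArc (addArc E y u) g x) (k + 1) y b c X) (hb : b ∈ R)
    (hc : c ∈ R) (hX : X ⊆ R) (huW : u = y ∨ u = b ∨ u = c ∨ u ∈ X) : False := by
  have hW := isH_card s.irr2 hH
  obtain ⟨h1, h2, h3, h4, h5, h6⟩ := hH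
  obtain ⟨W, hWd⟩ : ∃ W : Finset V, W = insert y (insert b (insert c X)) := ⟨_, rfl⟩
  rw [← hWd] at hW
  have hmem : ∀ w, w ∈ W ↔ w = y ∨ w = b ∨ w = c ∨ w ∈ X := by
    intro w
    rw [hWd]
    simp only [Finset.mem_insert]
  have hyT : y ∈ NBK x y Z := mem_NBK.mpr (Or.inr (Or.inl rfl))
  have hWR : W ⊆ R := by
    intro w hw
    rcases (hmem w).mp hw with rfl | rfl | rfl | hw
    · exact s.hTR hyT
    · exact hb
    · exact hc
    · exact hX hw
  have hyX : y ∉ X := fun hx => s.irr2 _ (h6 y hx).1.1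
  -- at most one vertex of `X` is outside `T`
  have h7 : (X \ NBK x y Z).card ≤ 1 := by
    refine s.one (Finset.sdiff_subset_sdiff hX (Finset.Subset.refl _)) ?_
    intro t ht
    exact (h6 t (Finset.mem_sdiff.mp ht).1).1
  -- a vertex `t` in `X ∩ Z`
  obtain ⟨t, htX, htZ⟩ : ∃ t, t ∈ X ∧ t ∈ Z := by
    by_contra hcon
    push Not at hcon
    have hsub : X ∩ NBK x y Z ⊆ {x} := by
      intro w hw
      rw [Finset.mem_inter, mem_NBK] at hw
      rw [Finset.mem_singleton]
      rcases hw.2 with h | rfl | h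
      · exact h
      · exact absurd hw.1 hyX
      · exact absurd h (hcon w hw.1)
    have h8 := Finset.card_le_card hsub
    rw [Finset.card_singleton] at h8
    have h9 := Finset.card_sdiff_add_card_inter X (NBK x y Z)
    have := s.hk
    omega
  obtain ⟨p, q, hpq⟩ := hPQ V E S k x y Z s.hk s.h s.hN
  have h8 : (W \ NBK x y Z).card ≤ 1 := by
    have h9 : ∀ w ∈ W \ NBK x y Z, w = p t := by
      intro w hw
      rw [Finset.mem_sdiff] at hw
      have hwx : w ≠ x := by
        rintro rfl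
        exact hw.2 (mem_NBK.mpr (Or.inl rfl))
      have hwt : t ≠ w := by
        rintro rfl
        exact hw.2 (mem_NBK.mpr (Or.inr (Or.inr htZ)))
      have h10 : addArc (addArc E y u) g x t w := by
        rcases (hmem w).mp hw.1 with rfl | rfl | rfl | hw'
        · exact absurd hyT hw.2
        · exact (h6 t htX).2.1.2
        · exact (h6 t htX).2.2.2
        · exact h2 t htX w hw' hwt
      exact (hpq.1 t htZ).2.2.2.2.1 w (Finset.mem_sdiff.mpr ⟨s.hRS (hWR hw.1), hw.2⟩)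
        (s.outz htZ hwx h10)
    rw [Finset.card_le_one]
    intro v hv w hw
    rw [h9 v hv, h9 w hw]
  have hTW : W ∩ NBK x y Z = NBK x y Z := by
    refine Finset.eq_of_subset_of_card_le Finset.inter_subset_right ?_
    rw [nbk_card s.h.irr s.hN]
    have h9 := Finset.card_sdiff_add_card_inter W (NBK x y Z)
    omega
  have hTW' : NBK x y Z ⊆ W := by
    rw [← hTW]
    exact Finset.inter_subset_left
  have hxc : x = c := by
    rcases (hmem x).mp (hTW' (mem_NBK.mpr (Or.inl rfl))) with h | rfl | h | h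
    · exact absurd h s.xy
    · exact absurd h3 s.nyx
    · exact h
    · exact absurd (h6 x h).1.1 s.nyx
  have hub : u ∈ insert b X := by
    rw [Finset.mem_insert]
    rcases huW with h | h | h | h
    · exact absurd h.symm s.hne
    · exact Or.inl h
    · exact absurd (h.trans hxc.symm) s.hux
    · exact Or.inr h
  have hbic : Bic (addArc (addArc E y u) g x) (insert b X) := h2.insert fun w hw => (h6 w hw).2.1
  refine hIII V E S k x y Z u s.hk s.h s.hN (Finset.mem_sdiff.mpr ⟨s.hRS s.hu, s.uT⟩) ?_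
  intro z hz
  have hzb : z ∈ insert b X := by
    rw [Finset.mem_insert]
    rcases (hmem z).mp (hTW' (mem_NBK.mpr (Or.inr (Or.inr hz)))) with h | h | h | h
    · exact absurd (h ▸ hz) s.hN.yZ
    · exact Or.inl h
    · exact absurd (show x ∈ Z by rw [hxc, ← h]; exact hz) s.hN.xZ
    · exact Or.inr h
  have hzu : z ≠ u := by
    rintro rfl
    exact s.uZ hz
  have hd := hbic.dg hzb hub hzu
  exact ⟨s.outz hz s.hux hd.1, s.inz hz hd.2⟩

end sit

end CH

theorem s_CH : S_PQ → S_III → S_CH := by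
  intro hPQ hIII V E S k x y Z R u g z1 hk h hN hTR hRS hz1 hz1R hyz hu hux hgy hH
  obtain ⟨a, b, c, X, ha, hb, hc, hX, hH⟩ := hH
  by_cases hE : E y u
  · refine ⟨a, b, c, X, ha, hb, hc, hX, CH.isH_mono hH ?_⟩
    rintro s t - - ((h1 | ⟨h1, h2, -⟩) | h1)
    · exact Or.inl h1
    · rw [h1, h2]
      exact Or.inl hE
    · exact Or.inr h1
  by_cases hyu : y = u
  · refine ⟨a, b, c, X, ha, hb, hc, hX, CH.isH_mono hH ?_⟩
    rintro s t - - ((h1 | ⟨-, -, h3⟩) | h1)
    · exact Or.inl h1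
    · exact absurd hyu h3
    · exact Or.inr h1
  by_cases hyW : y = a ∨ y = b ∨ y = c ∨ y ∈ X
  swap
  · refine ⟨a, b, c, X, ha, hb, hc, hX, CH.isH_mono hH ?_⟩
    rintro s t hs - ((h1 | ⟨h1, -, -⟩) | h1)
    · exact Or.inl h1
    · exact absurd (h1 ▸ hs) hyW
    · exact Or.inr h1
  by_cases huW : u = a ∨ u = b ∨ u = c ∨ u ∈ X
  swap
  · refine ⟨a, b, c, X, ha, hb, hc, hX, CH.isH_mono hH ?_⟩
    rintro s t - ht ((h1 | ⟨-, h2, -⟩) | h1)
    · exact Or.inl h1
    · exact absurd (h2 ▸ ht) huW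
    · exact Or.inr h1
  exfalso
  have s : CH.Sit E S k x y Z R u g z1 := ⟨hk, h, hN, hTR, hRS, hz1, hz1R, hyz, hu, hux, hgy, hE,
    hyu⟩
  rcases hyW with rfl | rfl | rfl | hy
  · exact s.caseB hPQ hIII hH hb hc hX huW
  · refine s.caseB hPQ hIII (CH.isH_rot hH) hc ha hX ?_
    rcases huW with h | h | h | h
    · exact Or.inr (Or.inr (Or.inl h))
    · exact Or.inl h
    · exact Or.inr (Or.inl h)
    · exact Or.inr (Or.inr (Or.inr h))
  · refine s.caseB hPQ hIII (CH.isH_rot (CH.isH_rot hH)) ha hb hX ?_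
    rcases huW with h | h | h | h
    · exact Or.inr (Or.inl h)
    · exact Or.inr (Or.inr (Or.inl h))
    · exact Or.inl h
    · exact Or.inr (Or.inr (Or.inr h))
  · exact s.caseA hH ha hb hc hX hy

end Pool.Agent.Lib.MP_ee37cd_co.BK
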