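import Pool.Agent.Lib.MP_ee37cd_co.Spec

/-!
# MP_ee37cd_co: module CK
-/

set_option autoImplicit false

namespace Pool.Agent.Lib.MP_ee37cd_co.BK

open Finset
open scoped Classical

theorem s_CK : S_III → S_CK := by
  intro hIII V E S k x y Z R u g z1 hk h hN hTR hRS hz1S hz1R hyz1 huR hux hgy B hBR hB hBc
  by_contra hcon
  have hxy : x ≠ y := by
    rintro rfl
    exact h.irr _ hN.xy
  obtain ⟨hyB, huB, hyu, hnE⟩ : y ∈ B ∧ u ∈ B ∧ y ≠ u ∧ ¬ E y u := by
    unfold Bic at hcon
    push Not at hcon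
    obtain ⟨a, ha, b, hb, hab, hn⟩ := hcon
    have h1 := hB a ha b hb hab
    unfold addArc at h1 hn
    rcases h1 with (h1 | ⟨rfl, rfl, h1⟩) | h1
    · exact absurd (Or.inl h1) hn
    · exact ⟨ha, hb, h1, fun h2 => hn (Or.inl h2)⟩
    · exact absurd (Or.inr h1) hn
  have huT : u ∉ NBK x y Z := by
    rw [mem_NBK]
    rintro (h1 | h1 | h1)
    · exact hux h1
    · exact hyu h1.symm
    · exact hnE (hN.dy u h1).1
  have hxB : x ∉ B := by
    intro hx
    have h1 := hB y hyB x hx hxy.symm
    unfold addArc at h1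
    rcases h1 with (h1 | ⟨-, h1, -⟩) | ⟨h1, -, -⟩
    · exact hN.yx h1
    · exact hux h1.symm
    · exact hgy h1.symm
  have hin : ∀ t ∈ B \ NBK x y Z, E t y := by
    intro t ht
    rw [Finset.mem_sdiff, mem_NBK] at ht
    have hty : t ≠ y := fun h1 => ht.2 (Or.inr (Or.inl h1))
    have h1 := hB t ht.1 y hyB hty
    unfold addArc at h1
    rcases h1 with (h1 | ⟨h1, -, -⟩) | ⟨-, h1, -⟩
    · exact h1
    · exact absurd h1 hty
    · exact absurd h1.symm hxy
  have hout : ∀ t ∈ B \ NBK x y Z, t ≠ u → E y t := by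
    intro t ht htu
    rw [Finset.mem_sdiff, mem_NBK] at ht
    have hty : t ≠ y := fun h1 => ht.2 (Or.inr (Or.inl h1))
    have h1 := hB y hyB t ht.1 hty.symm
    unfold addArc at h1
    rcases h1 with (h1 | ⟨-, h1, -⟩) | ⟨h1, -, -⟩
    · exact h1
    · exact absurd h1 htu
    · exact absurd h1.symm hgy
  have hTS : NBK x y Z ⊆ S := hTR.trans hRS
  have hdeg : 2 * Z.card + (∅ : Finset V).card + ({x} : Finset V).card ≤
      outdeg E (NBK x y Z) y + indeg E (NBK x y Z) y := by
    refine deg_ge ?_ (Finset.empty_subset _) ?_ (Finset.disjoint_empty_right _) ?_ hN.dy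
      (by simp) ?_
    · intro z hz
      exact mem_NBK.2 (Or.inr (Or.inr hz))
    · intro z hz
      rw [Finset.mem_singleton] at hz
      exact mem_NBK.2 (Or.inl hz)
    · rw [Finset.disjoint_singleton_right]
      exact hN.xZ
    · intro z hz
      rw [Finset.mem_singleton] at hz
      rw [hz]
      exact hN.xy
  have hside := h.outside (by omega) hTS hN.yS hdeg
  rw [Finset.card_empty, Finset.card_singleton] at hside
  have hcard := hN.card
  have huBT : u ∈ B \ NBK x y Z := Finset.mem_sdiff.2 ⟨huB, huT⟩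
  have ho : (B \ NBK x y Z).card ≤ outdeg E (S \ NBK x y Z) y := by
    have h1 : insert z1 ((B \ NBK x y Z).erase u) ⊆ (S \ NBK x y Z).filter (fun w => E y w) := by
      intro w hw
      rw [Finset.mem_filter, Finset.mem_sdiff]
      rcases Finset.mem_insert.1 hw with rfl | hw
      · exact ⟨⟨hz1S, fun h2 => hz1R (hTR h2)⟩, hyz1⟩
      · rw [Finset.mem_erase] at hw
        have h2 := Finset.mem_sdiff.1 hw.2
        exact ⟨⟨hRS (hBR h2.1), h2.2⟩, hout w hw.2 hw.1⟩
    have h2 := Finset.card_le_card h1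
    rw [Finset.card_insert_of_notMem, Finset.card_erase_of_mem huBT] at h2
    · have h3 : 0 < (B \ NBK x y Z).card := Finset.card_pos.2 ⟨u, huBT⟩
      unfold outdeg
      omega
    · intro h3
      rw [Finset.mem_erase, Finset.mem_sdiff] at h3
      exact hz1R (hBR h3.2.1)
  have hi : (B \ NBK x y Z).card ≤ indeg E (S \ NBK x y Z) y := by
    refine Finset.card_le_card ?_
    intro w hw
    rw [Finset.mem_filter, Finset.mem_sdiff]
    have h2 := Finset.mem_sdiff.1 hw
    exact ⟨⟨hRS (hBR h2.1), h2.2⟩, hin w hw⟩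
  have h1c : (B \ NBK x y Z).card ≤ 1 := by omega
  have hone : ∀ t ∈ B \ NBK x y Z, t = u := fun t ht =>
    Finset.card_le_one.1 h1c t ht u huBT
  have hsub : B ⊆ insert y (insert u Z) := by
    intro b hb
    rw [Finset.mem_insert, Finset.mem_insert]
    by_cases hbT : b ∈ NBK x y Z
    · rcases mem_NBK.1 hbT with rfl | h2 | h2
      · exact absurd hb hxB
      · exact Or.inl h2
      · exact Or.inr (Or.inr h2)
    · exact Or.inr (Or.inl (hone b (Finset.mem_sdiff.2 ⟨hb, hbT⟩)))
  have hcc : (insert y (insert u Z)).card ≤ B.card := by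
    have h2 := Finset.card_insert_le y (insert u Z)
    have h3 := Finset.card_insert_le u Z
    omega
  have heq : B = insert y (insert u Z) := Finset.eq_of_subset_of_card_le hsub hcc
  have hZB : ∀ z ∈ Z, z ∈ B := by
    intro z hz
    rw [heq]
    exact Finset.mem_insert_of_mem (Finset.mem_insert_of_mem hz)
  refine hIII V E S k x y Z u hk h hN (Finset.mem_sdiff.2 ⟨hRS huR, huT⟩) ?_
  intro z hz
  have hzu : z ≠ u := by
    rintro rfl
    exact huT (mem_NBK.2 (Or.inr (Or.inr hz)))
  have hzy : z ≠ y := by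
    rintro rfl
    exact hN.yZ hz
  have hzx : z ≠ x := by
    rintro rfl
    exact hN.xZ hz
  constructor
  · have h1 := hB z (hZB z hz) u huB hzu
    unfold addArc at h1
    rcases h1 with (h1 | ⟨h1, -, -⟩) | ⟨-, h1, -⟩
    · exact h1
    · exact absurd h1 hzy
    · exact absurd h1 hux
  · have h1 := hB u huB z (hZB z hz) hzu.symm
    unfold addArc at h1
    rcases h1 with (h1 | ⟨h1, -, -⟩) | ⟨-, h1, -⟩
    · exact h1
    · exact absurd h1.symm hyu
    · exact absurd h1 hzx

end Pool.Agent.Lib.MP_ee37cd_co.BK
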