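import Pool.Agent.Lib.MP_ee37cd_co.SpecL

/-!
# MP_ee37cd_co: ENG, the extension engine
-/

set_option autoImplicit false

namespace Pool.Agent.Lib.MP_ee37cd_co.LL

open Finset
open scoped Classical

namespace ENG

variable {V : Type} {K : Finset V} {r : V → ℕ} {dg : V → V → Prop} {P : ℕ → V → V → Prop}
  {O I : V → Finset ℕ} {k : ℕ}

private theorem step (h : Loc K r dg P O I k) {A D : Finset V} {f f' : V → ℕ} (hAD : A ⊆ D)
    (hDK : D ⊆ K) (hf' : Val r dg P k D f') (hff : ∀ a ∈ A, f' a = f a) {v : V} (hv : v ∈ K)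
    (hvD : v ∉ D)
    (hc : (O v ∪ I v).card + 1 + ((nd K dg v ∩ A).image f).card ≤
      sd K dg v + (nd K dg v ∩ A).card) :
    ∃ f'' : V → ℕ, Val r dg P k (insert v D) f'' ∧ ∀ a ∈ A, f'' a = f a := by
  have h1 : ((nd K dg v ∩ D).image f').card ≤
      ((nd K dg v ∩ A).image f).card + (nd K dg v \ A).card := by
    have h2 : (nd K dg v ∩ D).image f' ⊆
        (nd K dg v ∩ A).image f ∪ (nd K dg v \ A).image f' := by
      intro c hc
      obtain ⟨u, hu, rfl⟩ := Finset.mem_image.mp hc
      rw [Finset.mem_inter] at hu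
      by_cases hA : u ∈ A
      · rw [hff u hA]
        exact Finset.mem_union_left _
          (Finset.mem_image_of_mem f (Finset.mem_inter.mpr ⟨hu.1, hA⟩))
      · exact Finset.mem_union_right _
          (Finset.mem_image_of_mem f' (Finset.mem_sdiff.mpr ⟨hu.1, hA⟩))
    have h3 := (Finset.card_le_card h2).trans (Finset.card_union_le _ _)
    have h4 : ((nd K dg v \ A).image f').card ≤ (nd K dg v \ A).card := Finset.card_image_le
    omega
  have h2 : (nd K dg v \ A).card + (nd K dg v ∩ A).card = (nd K dg v).card :=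
    Finset.card_sdiff_add_card_inter _ _
  have h3 := card_nd h hv
  have h4 : ((O v ∪ I v) ∪ (nd K dg v ∩ D).image f').card < (range k).card := by
    have h5 := Finset.card_union_le (O v ∪ I v) ((nd K dg v ∩ D).image f')
    rw [card_range]
    omega
  obtain ⟨c, hck, hcF⟩ := Finset.exists_mem_notMem_of_card_lt_card h4
  rw [Finset.mem_range] at hck
  rw [Finset.mem_union, not_or, Finset.mem_union, not_or] at hcF
  obtain ⟨⟨hcO, hcI⟩, hcD⟩ := hcF
  have hdgc : ∀ w ∈ D, f' w = c → ¬ dg v w := by
    intro w hw hwc hd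
    refine hcD (Finset.mem_image.mpr ⟨w, Finset.mem_inter.mpr ⟨mem_nd.mpr ⟨hDK hw, ?_, hd⟩, hw⟩,
      hwc⟩)
    rintro rfl
    exact hvD hw
  have hne : ∀ w ∈ D, w ≠ v := by
    rintro w hw rfl
    exact hvD hw
  refine ⟨fun u => if u = v then c else f' u, ⟨?_, ?_, ?_⟩, ?_⟩
  · intro u hu
    rw [Finset.mem_insert] at hu
    rcases hu with rfl | hu
    · simp only [if_true]
      exact hck
    · simp only [hne u hu, if_false]
      exact hf'.1 u hu
  · intro u hu w hw huw hfw
    rw [Finset.mem_insert] at hu hw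
    rcases hu with rfl | hu <;> rcases hw with rfl | hw
    · exact absurd rfl huw
    · simp only [hne w hw, if_true, if_false] at hfw
      exact hdgc w hw hfw.symm
    · simp only [hne u hu, if_true, if_false] at hfw
      exact fun hd => hdgc u hu hfw (h.symm _ _ hd)
    · simp only [hne u hu, hne w hw, if_false] at hfw
      exact hf'.2.1 u hu w hw huw hfw
  · intro u hu w hw hfw hr
    rw [Finset.mem_insert] at hu hw
    rcases hu with rfl | hu <;> rcases hw with rfl | hw
    · simp only [if_true]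
      exact fun hP => hcO (h.PO c _ hv _ hv hP).1
    · simp only [if_true]
      exact fun hP => hcO (h.PO c _ hv w (hDK hw) hP).1
    · simp only [hne u hu, if_true, if_false] at hfw ⊢
      rw [hfw]
      exact fun hP => hcI (h.PO c u (hDK hu) _ hv hP).2
    · simp only [hne u hu, hne w hw, if_false] at hfw ⊢
      exact hf'.2.2 u hu w hw hfw hr
  · intro a ha
    simp only [hne a (hAD ha), if_false]
    exact hff a ha

end ENG

theorem s_ENG : S_ENG := by
  intro V K r dg P O I k A Q f g h hAK hQK hAQ hf hQ hW hinj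
  obtain ⟨W, hWdef⟩ : ∃ W : Finset V, W = K \ (A ∪ Q) := ⟨_, rfl⟩
  rw [← hWdef] at hW hinj
  have hWK : W ⊆ K := by
    rw [hWdef]
    exact Finset.sdiff_subset
  have hWA : ∀ w ∈ W, w ∉ A := by
    intro w hw hA
    rw [hWdef, Finset.mem_sdiff] at hw
    exact hw.2 (Finset.mem_union_left _ hA)
  have hWQ : ∀ w ∈ W, w ∉ Q := by
    intro w hw hA
    rw [hWdef, Finset.mem_sdiff] at hw
    exact hw.2 (Finset.mem_union_right _ hA)
  have hg : Val r dg P k W g := by
    refine ⟨fun w hw => (hW w hw).1, ?_, ?_⟩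
    · intro u hu w hw huw hgw
      exact absurd (hinj u hu w hw hgw) huw
    · intro u hu w hw hgw _ hP
      have h1 := hinj u hu w hw hgw
      subst h1
      exact (hW u hu).2.2 (Finset.mem_filter.mpr ⟨Finset.mem_range.mpr (hW u hu).1, hP⟩)
  have hbase := val_union hf hg (Finset.disjoint_left.mpr fun a ha hw => hWA a hw ha)
    (fun a ha w hw hfg => (hW w hw).2.1 (hfg ▸ Finset.mem_image_of_mem f ha))
  have key : ∀ Q' : Finset V, Q' ⊆ Q →
      ∃ f' : V → ℕ, Val r dg P k (A ∪ W ∪ Q') f' ∧ ∀ a ∈ A, f' a = f a := by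
    intro Q'
    induction Q' using Finset.induction_on with
    | empty =>
      intro _
      rw [Finset.union_empty]
      refine ⟨_, hbase, fun a ha => ?_⟩
      simp only [ha, if_true]
    | insert v Q' hv ih =>
      intro hQ'
      have hvQ : v ∈ Q := hQ' (Finset.mem_insert_self _ _)
      obtain ⟨f', hf', hff⟩ := ih ((Finset.subset_insert _ _).trans hQ')
      have h1 : v ∉ A ∪ W ∪ Q' := by
        intro h2
        rcases Finset.mem_union.mp h2 with h2 | h2
        · rcases Finset.mem_union.mp h2 with h2 | h2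
          · exact Finset.disjoint_left.mp hAQ h2 hvQ
          · exact hWQ v h2 hvQ
        · exact hv h2
      have h2 : A ∪ W ∪ Q' ⊆ K := by
        refine Finset.union_subset (Finset.union_subset hAK hWK) ?_
        exact ((Finset.subset_insert _ _).trans hQ').trans hQK
      have h3 : A ⊆ A ∪ W ∪ Q' :=
        Finset.subset_union_left.trans Finset.subset_union_left
      obtain ⟨f'', hf'', hff''⟩ := ENG.step h h3 h2 hf' hff (hQK hvQ) h1 (hQ v hvQ)
      refine ⟨f'', ?_, hff''⟩
      rw [Finset.union_insert]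
      exact hf''
  obtain ⟨f', hf', -⟩ := key Q (Finset.Subset.refl _)
  refine ⟨f', val_mono hf' ?_⟩
  intro x hx
  by_cases hA : x ∈ A
  · exact Finset.mem_union_left _ (Finset.mem_union_left _ hA)
  by_cases hQx : x ∈ Q
  · exact Finset.mem_union_right _ hQx
  · refine Finset.mem_union_left _ (Finset.mem_union_right _ ?_)
    rw [hWdef, Finset.mem_sdiff, Finset.mem_union, not_or]
    exact ⟨hx, hA, hQx⟩

end Pool.Agent.Lib.MP_ee37cd_co.LL
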