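import Pool.Agent.Lib.MP_ee37cd_co.Spec

/-!
# MP_ee37cd_co, module EQ1

From the transfer theorem `S_TR` we get: the Borodin and Kostochka assertion for graphs implies
the assertion `Q1` for digraphs.
-/

set_option autoImplicit false

namespace Pool.Agent.Lib.MP_ee37cd_co.BK

open Finset
open scoped Classical

private theorem EQ1_min_le {a b D m : ℕ} (h : Real.sqrt ((a : ℝ) * (b : ℝ)) ≤ D) (ha : m ≤ a)
    (hb : m ≤ b) : m ≤ D := by
  have h1 : (m : ℝ) * m ≤ (a : ℝ) * b := by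
    have e1 : (m : ℝ) ≤ a := by exact_mod_cast ha
    have e2 : (m : ℝ) ≤ b := by exact_mod_cast hb
    have e3 : (0 : ℝ) ≤ m := Nat.cast_nonneg m
    exact mul_le_mul e1 e2 e3 (e3.trans e1)
  have h2 : (m : ℝ) ≤ Real.sqrt ((a : ℝ) * b) := by
    apply Real.le_sqrt_of_sq_le
    rw [sq]
    exact h1
  exact_mod_cast h2.trans h

private theorem EQ1_colour {V : Type} (T : Finset V) (G : SimpleGraph V) (D : ℕ) (hD : 9 ≤ D)
    (hBK : BorodinKostochka D)
    (hdeg : ∀ v ∈ T, (T.filter (fun w => G.Adj v w)).card ≤ D)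
    (hcl : ∀ B ⊆ T, (∀ a ∈ B, ∀ b ∈ B, a ≠ b → G.Adj a b) → B.card ≤ D - 1) :
    ∃ f : V → ℕ, (∀ v ∈ T, f v < D - 1) ∧ ∀ u ∈ T, ∀ v ∈ T, G.Adj u v → f u ≠ f v := by
  have hcol := hBK {v : V // v ∈ T} (G.comap (Subtype.val : {v : V // v ∈ T} → V)) ?_ ?_
  · obtain ⟨C⟩ := hcol
    refine ⟨fun v => if h : v ∈ T then (C ⟨v, h⟩ : Fin (D - 1)).1 else 0, ?_, ?_⟩
    · intro v hv
      simp only [hv, dif_pos]
      exact (C ⟨v, hv⟩).2
    · intro u hu v hv huv
      simp only [hu, hv, dif_pos]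
      intro he
      have h1 : C ⟨u, hu⟩ = C ⟨v, hv⟩ := Fin.ext he
      have h2 : (G.comap (Subtype.val : {v : V // v ∈ T} → V)).Adj ⟨u, hu⟩ ⟨v, hv⟩ := huv
      exact C.valid h2 h1
  · intro v
    rw [← SimpleGraph.card_neighborFinset_eq_degree]
    have h1 : (((G.comap (Subtype.val : {v : V // v ∈ T} → V)).neighborFinset v).map
        (Function.Embedding.subtype _)) ⊆ T.filter (fun w => G.Adj v.1 w) := by
      intro w hw
      rw [Finset.mem_map] at hw
      obtain ⟨x, hx, rfl⟩ := hw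
      rw [SimpleGraph.mem_neighborFinset] at hx
      rw [Finset.mem_filter]
      exact ⟨x.2, hx⟩
    have h2 := Finset.card_le_card h1
    rw [Finset.card_map] at h2
    exact h2.trans (hdeg v.1 v.2)
  · intro B hB
    have h1 := hcl (B.map (Function.Embedding.subtype _)) ?_ ?_
    · rw [Finset.card_map, hB.card_eq] at h1
      omega
    · intro w hw
      rw [Finset.mem_map] at hw
      obtain ⟨x, hx, rfl⟩ := hw
      exact x.2
    · intro a ha b hb hab
      rw [Finset.mem_map] at ha hb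
      obtain ⟨x, hx, rfl⟩ := ha
      obtain ⟨y, hy, rfl⟩ := hb
      have hxy : x ≠ y := by
        rintro rfl
        exact hab rfl
      exact hB.isClique hx hy hxy

theorem s_EQ1 : S_TR → S_EQ1 := by
  intro hTR D hD hBK V E S hirr hsqrt hbic
  by_contra hcon
  rw [not_or] at hcon
  obtain ⟨T, G, hTS, hdeg, hcl, hf⟩ := hTR V E S D hD hirr ⟨hsqrt, hbic, hcon.2, hcon.1⟩
  exact hf (EQ1_colour T G D hD hBK
    (fun v hv => EQ1_min_le (hsqrt v (hTS hv)) (hdeg v hv).1 (hdeg v hv).2) hcl)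

end Pool.Agent.Lib.MP_ee37cd_co.BK
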