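import Pool.Agent.Lib.MP_ee37cd_co.Spec

/-!
# MP_ee37cd_co: Q1 implies the conjecture of Borodin and Kostochka
-/

set_option autoImplicit false

namespace Pool.Agent.Lib.MP_ee37cd_co.BK

open Finset
open scoped Classical

namespace EQ2

theorem outdeg_adj {V : Type} [Fintype V] (G : SimpleGraph V) [DecidableRel G.Adj] (v : V) :
    outdeg G.Adj univ v = G.degree v := by
  unfold outdeg
  rw [← G.card_neighborFinset_eq_degree]
  congr 1
  ext w
  simp only [Finset.mem_filter, SimpleGraph.mem_neighborFinset, Finset.mem_univ, true_and]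

theorem indeg_adj {V : Type} [Fintype V] (G : SimpleGraph V) [DecidableRel G.Adj] (v : V) :
    indeg G.Adj univ v = G.degree v := by
  rw [← outdeg_adj]
  unfold indeg outdeg
  congr 1
  ext w
  simp only [Finset.mem_filter, G.adj_comm v w]

end EQ2

open EQ2 in
theorem s_EQ2 : S_EQ2 := by
  intro D hD hQ V _ G _ hdeg hfree
  have hclique : ∀ B : Finset V, Bic G.Adj B → B.card ≤ D - 1 := by
    intro B hB
    by_contra hcon
    have h1 : D ≤ B.card := by omega
    obtain ⟨C, hC, hCc⟩ := Finset.exists_subset_card_eq h1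
    refine hfree C ⟨?_, hCc⟩
    intro a ha b hb hab
    exact hB a (hC ha) b (hC hb) hab
  have hsq : ∀ v ∈ (univ : Finset V),
      Real.sqrt ((outdeg G.Adj univ v : ℝ) * (indeg G.Adj univ v : ℝ)) ≤ D := by
    intro v _
    rw [outdeg_adj, indeg_adj, Real.sqrt_mul_self (Nat.cast_nonneg _)]
    exact_mod_cast hdeg v
  rcases hQ V G.Adj univ (fun v => G.loopless.irrefl v) hsq (fun B _ hB => hclique B hB) with
    ⟨f, hf1, hf2⟩ | ⟨a, b, c, X, -, -, -, -, hX, hBic, hab, -, -, hall⟩
  · refine ⟨SimpleGraph.Coloring.mk (fun v => (⟨f v, hf1 v (Finset.mem_univ v)⟩ : Fin (D - 1))) ?_⟩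
    intro u v huv heq
    have h1 : f u = f v := congrArg Fin.val heq
    refine not_acyc_digon (E := G.Adj) (A := {u, v}) (a := u) (b := v) (by simp) (by simp)
      ⟨huv, huv.symm⟩ (hf2 (f u) {u, v} ?_)
    intro w hw
    rw [Finset.mem_insert, Finset.mem_singleton] at hw
    rcases hw with rfl | rfl
    · exact ⟨Finset.mem_univ _, rfl⟩
    · exact ⟨Finset.mem_univ _, h1.symm⟩
  · exfalso
    have hbX : Bic G.Adj (insert b X) := hBic.insert fun x hx => (hall x hx).2.1
    have habX : Bic G.Adj (insert a (insert b X)) := by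
      refine hbX.insert fun x hx => ?_
      rw [Finset.mem_insert] at hx
      rcases hx with rfl | hx
      · exact ⟨hab, hab.symm⟩
      · exact (hall x hx).1
    have h1 := hclique _ habX
    have h2 : b ∉ X := fun h => G.loopless.irrefl b (hall b h).2.1.1
    have h3 : a ∉ insert b X := by
      rw [Finset.mem_insert]
      rintro (rfl | h)
      · exact G.loopless.irrefl _ hab
      · exact G.loopless.irrefl a (hall a h).1.1
    rw [Finset.card_insert_of_notMem h3, Finset.card_insert_of_notMem h2] at h1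
    omega

end Pool.Agent.Lib.MP_ee37cd_co.BK
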