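import Pool.Agent.Lib.MP_ee37cd_co.Spec

/-!
# MP_ee37cd_co: FIN, there is no near biclique in a smallest counterexample
-/

set_option autoImplicit false

namespace Pool.Agent.Lib.MP_ee37cd_co.BK

open Finset
open scoped Classical

namespace FIN

variable {V : Type} {E : V → V → Prop}

theorem hasH_mono {R S : Finset V} {k : ℕ} (hRS : R ⊆ S) (h : HasH E R k) : HasH E S k := by
  obtain ⟨a, b, c, X, ha, hb, hc, hX, hH⟩ := h
  exact ⟨a, b, c, X, hRS ha, hRS hb, hRS hc, hX.trans hRS, hH⟩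

theorem addDg_cases {p q a b : V} (h : addDg E p q a b) :
    E a b ∨ (a = p ∧ b = q) ∨ (a = q ∧ b = p) := by
  rcases h with (h | h) | h
  · exact Or.inl h
  · exact Or.inr (Or.inl ⟨h.1, h.2.1⟩)
  · exact Or.inr (Or.inr ⟨h.1, h.2.1⟩)

/-- a biclique on at least `k + 1` vertices after adding a digon -/
theorem bic_addDg {S R B : Finset V} {k : ℕ} {w1 w2 : V} (hM : MinCex E S k) (hR : R ⊆ S)
    (hB : B ⊆ R) (hbic : Bic (addDg E w1 w2) B) (hc : k + 1 ≤ B.card) (hne : w1 ≠ w2) :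
    ∃ Q ⊆ R, Q.card + 1 = k ∧ Bic E Q ∧ (∀ t ∈ Q, Dg E w1 t ∧ Dg E w2 t) ∧ ¬ Dg E w1 w2 := by
  have h1 : ¬ Bic E B := by
    intro h
    have := hM.noK B (hB.trans hR) h
    omega
  have h2 : w1 ∈ B ∧ w2 ∈ B ∧ ¬ Dg E w1 w2 := by
    unfold Bic at h1
    push Not at h1
    obtain ⟨a, ha, b, hb, hab, hE⟩ := h1
    rcases addDg_cases (hbic a ha b hb hab) with h | ⟨rfl, rfl⟩ | ⟨rfl, rfl⟩
    · exact absurd h hE
    · exact ⟨ha, hb, fun h => hE h.1⟩
    · exact ⟨hb, ha, fun h => hE h.2⟩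
  obtain ⟨hw1, hw2, hnd⟩ := h2
  have h3 : Bic E (B.erase w1) := by
    intro a ha b hb hab
    rw [Finset.mem_erase] at ha hb
    rcases addDg_cases (hbic a ha.2 b hb.2 hab) with h | ⟨h, -⟩ | ⟨-, h⟩
    · exact h
    · exact absurd h ha.1
    · exact absurd h hb.1
  have h4 := hM.noK _ ((Finset.erase_subset _ _).trans (hB.trans hR)) h3
  have h5 : (B.erase w1).card + 1 = B.card := Finset.card_erase_add_one hw1
  have hw2' : w2 ∈ B.erase w1 := Finset.mem_erase.mpr ⟨hne.symm, hw2⟩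
  have h6 : ((B.erase w1).erase w2).card + 1 = (B.erase w1).card :=
    Finset.card_erase_add_one hw2'
  refine ⟨(B.erase w1).erase w2,
    ((Finset.erase_subset _ _).trans (Finset.erase_subset _ _)).trans hB, by omega,
    h3.mono (Finset.erase_subset _ _), ?_, hnd⟩
  intro t ht
  rw [Finset.mem_erase, Finset.mem_erase] at ht
  obtain ⟨ht2, ht1, htB⟩ := ht
  refine ⟨⟨?_, ?_⟩, h3.dg hw2' (Finset.mem_erase.mpr ⟨ht1, htB⟩) (Ne.symm ht2)⟩
  · rcases addDg_cases (hbic w1 hw1 t htB (Ne.symm ht1)) with h | ⟨-, h⟩ | ⟨-, h⟩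
    · exact h
    · exact absurd h ht2
    · exact absurd h ht1
  · rcases addDg_cases (hbic t htB w1 hw1 ht1) with h | ⟨h, -⟩ | ⟨h, -⟩
    · exact h
    · exact absurd h ht1
    · exact absurd h ht2

end FIN

open FIN in
theorem s_FIN : S_PQ → S_HM → S_III → S_TWO → S_CNT → S_RR → S_FIN := by
  intro hPQ hHM hIII hTWO hCNT hRR V E S k x y Z hk hM hN
  obtain ⟨p, q, hpq⟩ := hPQ V E S k x y Z hk hM hN
  have hcnt : ∀ z ∈ Z, p z = q z := hCNT V E S k x y Z p q hk hM hN hpq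
  have hRS : S \ NBK x y Z ⊆ S := Finset.sdiff_subset
  have hpR : ∀ z ∈ Z, p z ∈ S \ NBK x y Z := fun z hz => (hpq.1 z hz).1
  have hpD : ∀ z ∈ Z, Dg E z (p z) := by
    intro z hz
    obtain ⟨-, -, h1, h2, -, -⟩ := hpq.1 z hz
    refine ⟨h1, ?_⟩
    rw [hcnt z hz]
    exact h2
  have hZK : ∀ z ∈ Z, z ∉ S \ NBK x y Z := by
    intro z hz h
    exact (Finset.mem_sdiff.mp h).2 (mem_NBK.mpr (Or.inr (Or.inr hz)))
  have hZc := hN.card
  -- (1)
  have one : ∀ z1 ∈ Z, ∀ z2 ∈ Z, p z1 ≠ p z2 → ∃ Q ⊆ S \ NBK x y Z, Q.card + 1 = k ∧ Bic E Q ∧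
      (∀ t ∈ Q, Dg E (p z1) t ∧ Dg E (p z2) t) ∧ ¬ Dg E (p z1) (p z2) := by
    intro z1 hz1 z2 hz2 hne
    have hz12 : z1 ≠ z2 := by
      rintro rfl
      exact hne rfl
    have h := hTWO V E S k x y Z p q hk hM hN hpq z1 hz1 z2 hz2 hz12 (fun h => hne h.2.2)
    rw [← hcnt z1 hz1, ← hcnt z2 hz2] at h
    rcases h with ⟨B, hB, hbic, hc⟩ | h
    · exact bic_addDg hM hRS hB hbic hc hne
    · exact absurd (hasH_mono hRS h) (hHM V E S k (p z1) (p z2) hk hM)
  -- `w` is not constant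
  have nonconst : ∀ z0 ∈ Z, ∃ z2 ∈ Z, p z0 ≠ p z2 := by
    intro z0 hz0
    by_contra hcon
    push Not at hcon
    refine hIII V E S k x y Z (p z0) hk hM hN (hpR z0 hz0) ?_
    intro z hz
    rw [hcon z hz]
    exact hpD z hz
  -- (2)
  have two : ∀ z0 ∈ Z, (Z.filter (fun z => p z = p z0)).card ≤ 2 := by
    intro z0 hz0
    obtain ⟨z2, hz2, hne⟩ := nonconst z0 hz0
    obtain ⟨Q, hQ, hQc, -, hQd, -⟩ := one z0 hz0 z2 hz2 hne
    have hdis : Disjoint (Z.filter (fun z => p z = p z0)) Q := by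
      rw [Finset.disjoint_left]
      intro z hz hzQ
      exact hZK z (Finset.mem_filter.mp hz).1 (hQ hzQ)
    have h1 := hM.dgB (by omega) (hRS (hpR z0 hz0)) (A := Z.filter (fun z => p z = p z0) ∪ Q)
      (Finset.union_subset ((Finset.filter_subset _ _).trans hN.ZS) (hQ.trans hRS)) (by
        intro a ha
        rcases Finset.mem_union.mp ha with h | h
        · obtain ⟨h2, h3⟩ := Finset.mem_filter.mp h
          rw [← h3]
          exact (hpD a h2).symm
        · exact (hQd a h).1)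
    rw [Finset.card_union_of_disjoint hdis] at h1
    omega
  -- (3)
  have hZne : Z.Nonempty := by
    rw [← Finset.card_pos]
    omega
  obtain ⟨z1, hz1⟩ := hZne
  obtain ⟨z2, hz2, h12⟩ := nonconst z1 hz1
  obtain ⟨z3, hz3, h13, h23⟩ : ∃ z3 ∈ Z, p z1 ≠ p z3 ∧ p z2 ≠ p z3 := by
    by_contra hcon
    push Not at hcon
    have h1 : Z ⊆ Z.filter (fun z => p z = p z1) ∪ Z.filter (fun z => p z = p z2) := by
      intro z hz
      rw [Finset.mem_union, Finset.mem_filter, Finset.mem_filter]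
      by_cases h : p z1 = p z
      · exact Or.inl ⟨hz, h.symm⟩
      · exact Or.inr ⟨hz, (hcon z hz h).symm⟩
    have h2 := (Finset.card_le_card h1).trans (Finset.card_union_le _ _)
    have h3 := two z1 hz1
    have h4 := two z2 hz2
    omega
  -- (4)
  obtain ⟨Q, hQ, hQc, hQb, hQd, hn12⟩ := one z1 hz1 z2 hz2 h12
  obtain ⟨Q', hQ', hQc', hQb', hQd', hn13⟩ := one z1 hz1 z3 hz3 h13
  obtain ⟨-, -, -, -, -, hn23⟩ := one z2 hz2 z3 hz3 h23
  have hw1Q : p z1 ∉ Q ∪ Q' := by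
    intro h
    rcases Finset.mem_union.mp h with h | h
    · exact (hQd _ h).1.ne hM.irr rfl
    · exact (hQd' _ h).1.ne hM.irr rfl
  have hw2Q : p z2 ∉ Q ∪ Q' := by
    intro h
    rcases Finset.mem_union.mp h with h | h
    · exact (hQd _ h).2.ne hM.irr rfl
    · exact hn12 (hQd' _ h).1
  have hw3Q : p z3 ∉ Q ∪ Q' := by
    intro h
    rcases Finset.mem_union.mp h with h | h
    · exact hn13 (hQd _ h).1
    · exact (hQd' _ h).2.ne hM.irr rfl
  have hUR : Q ∪ Q' ⊆ S \ NBK x y Z := Finset.union_subset hQ hQ'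
  have hz1U : z1 ∉ Q ∪ Q' := fun h => hZK z1 hz1 (hUR h)
  have hU : (Q ∪ Q').card + 1 ≤ k + 1 := by
    have h1 := hM.dgB (by omega) (hRS (hpR z1 hz1)) (A := insert z1 (Q ∪ Q'))
      (Finset.insert_subset (hN.ZS hz1) (hUR.trans hRS)) (by
        intro a ha
        rcases Finset.mem_insert.mp ha with rfl | h
        · exact (hpD _ hz1).symm
        · rcases Finset.mem_union.mp h with h | h
          · exact (hQd _ h).1
          · exact (hQd' _ h).1)
    rw [Finset.card_insert_of_notMem hz1U] at h1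
    exact h1
  have hui := Finset.card_union_add_card_inter Q Q'
  have hint : (Q ∩ Q').Nonempty := by
    rw [← Finset.card_pos]
    omega
  obtain ⟨t, ht⟩ := hint
  obtain ⟨htQ, htQ'⟩ := Finset.mem_inter.mp ht
  have htU : t ∈ Q ∪ Q' := Finset.mem_union_left _ htQ
  have hfull : (Q ∪ Q').card + 2 ≤ k + 1 := by
    have h1 := hM.dgB (by omega) (v := t) (hRS (hUR htU))
      (A := insert (p z1) (insert (p z2) (insert (p z3) ((Q ∪ Q').erase t))))
      (Finset.insert_subset (hRS (hpR z1 hz1)) (Finset.insert_subset (hRS (hpR z2 hz2))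
        (Finset.insert_subset (hRS (hpR z3 hz3))
          ((Finset.erase_subset _ _).trans (hUR.trans hRS))))) (by
        intro a ha
        simp only [Finset.mem_insert, Finset.mem_erase, Finset.mem_union] at ha
        rcases ha with rfl | rfl | rfl | ⟨hat, h | h⟩
        · exact (hQd t htQ).1.symm
        · exact (hQd t htQ).2.symm
        · exact (hQd' t htQ').2.symm
        · exact hQb.dg htQ h (Ne.symm hat)
        · exact hQb'.dg htQ' h (Ne.symm hat))
    have e3 : p z3 ∉ (Q ∪ Q').erase t := fun h => hw3Q (Finset.mem_of_mem_erase h)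
    have e2 : p z2 ∉ insert (p z3) ((Q ∪ Q').erase t) := by
      rw [Finset.mem_insert, not_or]
      exact ⟨h23, fun h => hw2Q (Finset.mem_of_mem_erase h)⟩
    have e1 : p z1 ∉ insert (p z2) (insert (p z3) ((Q ∪ Q').erase t)) := by
      rw [Finset.mem_insert, Finset.mem_insert, not_or, not_or]
      exact ⟨h12, h13, fun h => hw1Q (Finset.mem_of_mem_erase h)⟩
    rw [Finset.card_insert_of_notMem e1, Finset.card_insert_of_notMem e2,
      Finset.card_insert_of_notMem e3] at h1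
    have h2 := Finset.card_erase_add_one htU
    omega
  have hQU : Q = Q ∪ Q' := Finset.eq_of_subset_of_card_le Finset.subset_union_left (by omega)
  have hQU' : Q' = Q ∪ Q' := Finset.eq_of_subset_of_card_le Finset.subset_union_right (by omega)
  have hQQ : Q' = Q := hQU'.trans hQU.symm
  rw [hQQ] at hQd'
  exact hRR V E S k (p z1) (p z2) (p z3) Q hk hM (hRS (hpR z1 hz1)) (hRS (hpR z2 hz2))
    (hRS (hpR z3 hz3)) (hQ.trans hRS) hQc hQb h12 h13 h23 hn12 hn13 hn23
    (fun t ht => ⟨(hQd t ht).1, (hQd t ht).2, (hQd' t ht).2⟩)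

end Pool.Agent.Lib.MP_ee37cd_co.BK
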