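import Pool.Agent.Lib.MP_ee37cd_co.SpecL

/-!
# MP_ee37cd_co, module HALL: lists missing at most two colours
-/

set_option autoImplicit false

namespace Pool.Agent.Lib.MP_ee37cd_co.LL

open Finset
open scoped Classical

/-- a Hall violator -/
private theorem hall_violator {V : Type} {W : Finset V} {Γ : Finset ℕ} {L : V → Finset ℕ}
    (hno : ¬ ∃ g : V → ℕ, (∀ w ∈ W, g w ∈ Γ ∧ g w ∉ L w) ∧
      ∀ w ∈ W, ∀ w' ∈ W, g w = g w' → w = w') :
    ∃ U ⊆ W, (U.biUnion (fun w => Γ \ L w)).card < U.card := by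
  by_contra hcon
  push Not at hcon
  apply hno
  have h1 : ∀ s : Finset {w // w ∈ W}, s.card ≤ (s.biUnion (fun w => Γ \ L w.1)).card := by
    intro s
    have h2 := hcon (s.map (Function.Embedding.subtype _)) (by
      intro w hw
      obtain ⟨w', _, rfl⟩ := Finset.mem_map.1 hw
      exact w'.2)
    rw [Finset.card_map] at h2
    refine h2.trans (Finset.card_le_card ?_)
    intro c hc
    obtain ⟨w, hw, hcw⟩ := Finset.mem_biUnion.1 hc
    obtain ⟨w', hw', rfl⟩ := Finset.mem_map.1 hw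
    exact Finset.mem_biUnion.2 ⟨w', hw', hcw⟩
  obtain ⟨f, hf, hft⟩ := (Finset.all_card_le_biUnion_card_iff_exists_injective
    (fun w : {w // w ∈ W} => Γ \ L w.1)).1 h1
  refine ⟨fun w => if h : w ∈ W then f ⟨w, h⟩ else 0, ?_, ?_⟩
  · intro w hw
    simp only [dif_pos hw]
    exact Finset.mem_sdiff.1 (hft ⟨w, hw⟩)
  · intro w hw w' hw' heq
    simp only [dif_pos hw, dif_pos hw'] at heq
    exact congrArg Subtype.val (hf heq)

/-- equality in the count -/
private theorem hall_eq {V : Type} {U : Finset V} {Γ : Finset ℕ} {L : V → Finset ℕ}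
    (hL : ∀ w ∈ U, (L w).card ≤ 2)
    (h : Γ.card = (U.biUnion (fun w => Γ \ L w)).card + 2) :
    ∃ C : Finset ℕ, C.card = 2 ∧ C ⊆ Γ ∧ ∀ w ∈ U, L w = C := by
  obtain ⟨N, hN⟩ : ∃ N, N = U.biUnion (fun w => Γ \ L w) := ⟨_, rfl⟩
  rw [← hN] at h
  have hNΓ : N ⊆ Γ := by
    intro c hc
    rw [hN] at hc
    obtain ⟨w, _, hcw⟩ := Finset.mem_biUnion.1 hc
    exact (Finset.mem_sdiff.1 hcw).1
  have h1 := Finset.card_sdiff_add_card_eq_card hNΓ
  have hC : (Γ \ N).card = 2 := by omega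
  refine ⟨Γ \ N, hC, Finset.sdiff_subset, fun w hw => ?_⟩
  have h2 : Γ \ L w ⊆ N := by
    rw [hN]
    exact Finset.subset_biUnion_of_mem (fun w => Γ \ L w) hw
  have h3 : Γ.card ≤ (Γ \ L w).card + (L w).card := Finset.card_le_card_sdiff_add_card
  have h4 := hL w hw
  have h5 : Γ \ L w = N := Finset.eq_of_subset_of_card_le h2 (by omega)
  have h6 : Γ \ N ⊆ L w := by
    intro c hc
    obtain ⟨hc1, hc2⟩ := Finset.mem_sdiff.1 hc
    by_contra hc3
    exact hc2 (h5 ▸ Finset.mem_sdiff.2 ⟨hc1, hc3⟩)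
  exact (Finset.eq_of_subset_of_card_le h6 (by omega)).symm

/-- HALL. Lists missing at most two colours of `Γ`. -/
theorem s_HALL : S_HALL := by
  intro V W Γ L hL hno
  obtain ⟨U, hUW, hU⟩ := hall_violator hno
  obtain ⟨N, hN⟩ : ∃ N, N = U.biUnion (fun w => Γ \ L w) := ⟨_, rfl⟩
  have hUc := Finset.card_le_card hUW
  have hUL : ∀ w ∈ U, (L w).card ≤ 2 := fun w hw => hL w (hUW hw)
  have hΓ : Γ.card ≤ N.card + 2 := by
    obtain ⟨w, hw⟩ : U.Nonempty := Finset.card_pos.1 (lt_of_le_of_lt (Nat.zero_le _) hU)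
    have h2 : (Γ \ L w).card ≤ N.card := by
      rw [hN]
      exact Finset.card_le_card (Finset.subset_biUnion_of_mem (fun w => Γ \ L w) hw)
    have h3 : Γ.card ≤ (Γ \ L w).card + (L w).card := Finset.card_le_card_sdiff_add_card
    have h4 := hUL w hw
    omega
  have heq : Γ.card = N.card + 2 → ∃ C : Finset ℕ, C.card = 2 ∧ C ⊆ Γ ∧ ∀ w ∈ U, L w = C := by
    intro h
    rw [hN] at h
    exact hall_eq hUL h
  rw [← hN] at hU
  refine ⟨fun h => by omega, fun h => ?_, fun h => ?_⟩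
  · have h1 : U = W := Finset.eq_of_subset_of_card_le hUW (by omega)
    rw [h1] at heq
    exact heq (by omega)
  · by_cases h2 : U.card = W.card
    · left
      have h1 : U = W := Finset.eq_of_subset_of_card_le hUW (by omega)
      have h3 : ¬ Γ ⊆ N := by
        intro h4
        have h5 := Finset.card_le_card h4
        omega
      obtain ⟨c, hc, hcN⟩ := Finset.not_subset.1 h3
      refine ⟨c, hc, fun w hw => ?_⟩
      by_contra h6
      apply hcN
      rw [hN, h1]
      exact Finset.mem_biUnion.2 ⟨w, hw, Finset.mem_sdiff.2 ⟨hc, h6⟩⟩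
    · right
      obtain ⟨C, hC1, hC2, hC3⟩ := heq (by omega)
      have h4 := Finset.card_sdiff_add_card_eq_card hUW
      obtain ⟨r0, hr0⟩ := Finset.card_eq_one.1 (show (W \ U).card = 1 by omega)
      refine ⟨C, r0, hC1, hC2, fun w hw hne => hC3 w ?_⟩
      by_contra h5
      have h6 : w ∈ W \ U := Finset.mem_sdiff.2 ⟨hw, h5⟩
      rw [hr0, Finset.mem_singleton] at h6
      exact hne h6

end Pool.Agent.Lib.MP_ee37cd_co.LL
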