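import Pool.Agent.Lib.MP_ee37cd_co.Spec

/-!
# MP_ee37cd_co: HM, adding a digon never creates a copy of `H_{k+1}`
-/

set_option autoImplicit false

namespace Pool.Agent.Lib.MP_ee37cd_co.BK

open Finset
open scoped Classical

namespace HM

variable {V : Type} {E : V → V → Prop} {S : Finset V} {k : ℕ} {p q : V}

theorem old {u v : V} (h : addDg E p q u v) (h1 : ¬ (u = p ∧ v = q)) (h2 : ¬ (u = q ∧ v = p)) :
    E u v := by
  rcases h with (h | ⟨h3, h4, -⟩) | ⟨h3, h4, -⟩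
  · exact h
  · exact absurd ⟨h3, h4⟩ h1
  · exact absurd ⟨h3, h4⟩ h2

theorem oldDg {u v : V} (h : Dg (addDg E p q) u v) (h1 : ¬ (u = p ∧ v = q))
    (h2 : ¬ (u = q ∧ v = p)) : Dg E u v :=
  ⟨old h.1 h1 h2, old h.2 (fun h3 => h2 ⟨h3.2, h3.1⟩) (fun h3 => h1 ⟨h3.2, h3.1⟩)⟩

theorem swap {u v : V} (h : addDg E p q u v) : addDg E q p u v := by
  rcases h with (h | h) | h
  · exact Or.inl (Or.inl h)
  · exact Or.inr h
  · exact Or.inl (Or.inr h)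

theorem loopless (irr : ∀ v, ¬ E v v) (v : V) : ¬ addDg E p q v v := by
  rintro ((h | ⟨h3, h4, h5⟩) | ⟨h3, h4, h5⟩)
  · exact irr v h
  · exact h5 (h3.symm.trans h4)
  · exact h5 (h3.symm.trans h4)

/-- a copy of `H_{k+1}` in the digraph with the two arcs added -/
structure Cp (E : V → V → Prop) (S : Finset V) (k : ℕ) (a b c : V) (X : Finset V) : Prop where
  aS : a ∈ S
  bS : b ∈ S
  cS : c ∈ S
  XS : X ⊆ S
  card : X.card + 2 = k + 1
  bic : Bic E X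
  ab : E a b
  bc : E b c
  ca : E c a
  da : ∀ x ∈ X, Dg E a x
  db : ∀ x ∈ X, Dg E b x
  dc : ∀ x ∈ X, Dg E c x

theorem Cp.rot {a b c : V} {X : Finset V} (h : Cp E S k a b c X) : Cp E S k b c a X :=
  ⟨h.bS, h.cS, h.aS, h.XS, h.card, h.bic, h.bc, h.ca, h.ab, h.db, h.dc, h.da⟩

theorem Cp.mono {E' : V → V → Prop} (hE : ∀ u v, E u v → E' u v) {a b c : V} {X : Finset V}
    (h : Cp E S k a b c X) : Cp E' S k a b c X :=
  ⟨h.aS, h.bS, h.cS, h.XS, h.card, fun u hu v hv huv => hE _ _ (h.bic u hu v hv huv),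
    hE _ _ h.ab, hE _ _ h.bc, hE _ _ h.ca, fun x hx => ⟨hE _ _ (h.da x hx).1, hE _ _ (h.da x hx).2⟩,
    fun x hx => ⟨hE _ _ (h.db x hx).1, hE _ _ (h.db x hx).2⟩,
    fun x hx => ⟨hE _ _ (h.dc x hx).1, hE _ _ (h.dc x hx).2⟩⟩

theorem Cp.false (hM : MinCex E S k) {a b c : V} {X : Finset V} (h : Cp E S k a b c X) : False :=
  hM.noH ⟨a, b, c, X, h.aS, h.bS, h.cS, h.XS, h.card, h.bic, h.ab, h.bc, h.ca,
    fun x hx => ⟨h.da x hx, h.db x hx, h.dc x hx⟩⟩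

/-- `q` is not in the copy -/
theorem noNew (hM : MinCex E S k) {a b c : V} {X : Finset V} (h : Cp (addDg E p q) S k a b c X)
    (ha : q ≠ a) (hb : q ≠ b) (hc : q ≠ c) (hX : q ∉ X) : False := by
  have key : ∀ u v, u ≠ q → v ≠ q → addDg E p q u v → E u v := fun u v hu hv huv =>
    old huv (fun h1 => hv h1.2) (fun h1 => hu h1.1)
  have hXq : ∀ x ∈ X, x ≠ q := by
    rintro x hx rfl
    exact hX hx
  refine Cp.false hM (a := a) (b := b) (c := c) (X := X) ⟨h.aS, h.bS, h.cS, h.XS, h.card, ?_,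
    key _ _ ha.symm hb.symm h.ab, key _ _ hb.symm hc.symm h.bc, key _ _ hc.symm ha.symm h.ca,
    fun x hx => ⟨key _ _ ha.symm (hXq x hx) (h.da x hx).1, key _ _ (hXq x hx) ha.symm (h.da x hx).2⟩,
    fun x hx => ⟨key _ _ hb.symm (hXq x hx) (h.db x hx).1, key _ _ (hXq x hx) hb.symm (h.db x hx).2⟩,
    fun x hx => ⟨key _ _ hc.symm (hXq x hx) (h.dc x hx).1,
      key _ _ (hXq x hx) hc.symm (h.dc x hx).2⟩⟩
  intro u hu v hv huv
  exact key _ _ (hXq u hu) (hXq v hv) (h.bic u hu v hv huv)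

theorem Cp.ne (irr : ∀ v, ¬ E v v) {a b c : V} {X : Finset V} (h : Cp E S k a b c X) :
    a ≠ b ∧ b ≠ c ∧ c ≠ a ∧ a ∉ X ∧ b ∉ X ∧ c ∉ X := by
  refine ⟨?_, ?_, ?_, fun ha => ?_, fun ha => ?_, fun ha => ?_⟩
  · intro h1
    have h2 := h.ab
    rw [h1] at h2
    exact irr _ h2
  · intro h1
    have h2 := h.bc
    rw [h1] at h2
    exact irr _ h2
  · intro h1
    have h2 := h.ca
    rw [h1] at h2
    exact irr _ h2
  · exact irr _ (h.da a ha).1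
  · exact irr _ (h.db b ha).1
  · exact irr _ (h.dc c ha).1

/-- Case 1 -/
theorem case1 (h1 : S_HM1) (hk : 8 ≤ k) (hM : MinCex E S k) (hpq : p ≠ q) (hd : ¬ Dg E p q)
    {a b c : V} {X : Finset V} (h : Cp (addDg E p q) S k a b c X) (hp : p ∈ X) (hq : q ∈ X) :
    False := by
  obtain ⟨hab, hbc, hca, haX, hbX, hcX⟩ := h.ne (loopless hM.irr)
  have hnp : ∀ v, v ∉ X → v ≠ p ∧ v ≠ q := by
    intro v hv
    refine ⟨?_, ?_⟩
    · rintro rfl
      exact hv hp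
    · rintro rfl
      exact hv hq
  have hX0 : ∀ x ∈ (X.erase p).erase q, x ∈ X ∧ x ≠ p ∧ x ≠ q := by
    intro x hx
    rw [Finset.mem_erase, Finset.mem_erase] at hx
    exact ⟨hx.2.2, hx.2.1, hx.1⟩
  -- arcs at a vertex different from `p`, `q` are old
  have k1 : ∀ u v, u ≠ p → u ≠ q → addDg E p q u v → E u v := fun u v hu hu' huv =>
    old huv (fun h3 => hu h3.1) (fun h3 => hu' h3.1)
  have k2 : ∀ u v, u ≠ p → u ≠ q → Dg (addDg E p q) u v → Dg E u v := fun u v hu hu' huv =>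
    oldDg huv (fun h3 => hu h3.1) (fun h3 => hu' h3.1)
  have ha := hnp a haX
  have hb := hnp b hbX
  have hc := hnp c hcX
  refine h1 V E S k a b c p q ((X.erase p).erase q) hk hM h.aS h.bS h.cS (h.XS hp) (h.XS hq)
    (fun x hx => h.XS (hX0 x hx).1) ?_ ?_ (k1 _ _ ha.1 ha.2 h.ab) (k1 _ _ hb.1 hb.2 h.bc)
    (k1 _ _ hc.1 hc.2 h.ca) hpq hd ?_ (k2 _ _ ha.1 ha.2 (h.da p hp)) (k2 _ _ hb.1 hb.2 (h.db p hp))
    (k2 _ _ hc.1 hc.2 (h.dc p hp)) (k2 _ _ ha.1 ha.2 (h.da q hq)) (k2 _ _ hb.1 hb.2 (h.db q hq))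
    (k2 _ _ hc.1 hc.2 (h.dc q hq))
  · have h3 : q ∈ X.erase p := Finset.mem_erase.mpr ⟨hpq.symm, hq⟩
    have h4 := Finset.card_erase_of_mem h3
    have h5 := Finset.card_erase_of_mem hp
    have h6 := h.card
    omega
  · intro u hu v hv huv
    have hu' := hX0 u hu
    exact k1 _ _ hu'.2.1 hu'.2.2 (h.bic u hu'.1 v (hX0 v hv).1 huv)
  · intro x hx
    have hx' := hX0 x hx
    refine ⟨k2 _ _ ha.1 ha.2 (h.da x hx'.1), k2 _ _ hb.1 hb.2 (h.db x hx'.1),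
      k2 _ _ hc.1 hc.2 (h.dc x hx'.1), ?_, ?_⟩
    · exact (k2 _ _ hx'.2.1 hx'.2.2 (h.bic.dg hx'.1 hp hx'.2.1)).symm
    · exact (k2 _ _ hx'.2.1 hx'.2.2 (h.bic.dg hx'.1 hq hx'.2.2)).symm

/-- Case 2, `p ∈ X`, `q = a` -/
theorem case2a (h2 : S_HM2) (hk : 8 ≤ k) (hM : MinCex E S k) (hpq : p ≠ q) (hd : ¬ Dg E p q)
    {b c : V} {X : Finset V} (h : Cp (addDg E p q) S k q b c X) (hp : p ∈ X) : False := by
  obtain ⟨hab, hbc, hca, haX, hbX, hcX⟩ := h.ne (loopless hM.irr)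
  have hnp : ∀ v, v ∉ X → v ≠ p := by
    rintro v hv rfl
    exact hv hp
  have hX0 : ∀ x ∈ X.erase p, x ∈ X ∧ x ≠ p ∧ x ≠ q := by
    intro x hx
    rw [Finset.mem_erase] at hx
    refine ⟨hx.2, hx.1, ?_⟩
    rintro rfl
    exact haX hx.2
  have k1 : ∀ u v, u ≠ p → u ≠ q → addDg E p q u v → E u v := fun u v hu hu' huv =>
    old huv (fun h3 => hu h3.1) (fun h3 => hu' h3.1)
  have k2 : ∀ u v, u ≠ p → u ≠ q → Dg (addDg E p q) u v → Dg E u v := fun u v hu hu' huv =>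
    oldDg huv (fun h3 => hu h3.1) (fun h3 => hu' h3.1)
  have hb : b ≠ p ∧ b ≠ q := ⟨hnp b hbX, hab.symm⟩
  have hc : c ≠ p ∧ c ≠ q := ⟨hnp c hcX, hca⟩
  refine h2 V E S k q b c p (X.erase p) hk hM h.aS h.bS h.cS (h.XS hp)
    (fun x hx => h.XS (hX0 x hx).1) ?_ ?_ ?_ (k1 _ _ hb.1 hb.2 h.bc)
    (k1 _ _ hc.1 hc.2 h.ca) hpq hd ?_ (k2 _ _ hb.1 hb.2 (h.db p hp))
    (k2 _ _ hc.1 hc.2 (h.dc p hp))
  · have h5 := Finset.card_erase_of_mem hp
    have h6 := h.card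
    omega
  · intro u hu v hv huv
    have hu' := hX0 u hu
    exact k1 _ _ hu'.2.1 hu'.2.2 (h.bic u hu'.1 v (hX0 v hv).1 huv)
  · exact old h.ab (fun h3 => hpq h3.1.symm) (fun h3 => hb.1 h3.2)
  · intro x hx
    have hx' := hX0 x hx
    refine ⟨(k2 _ _ hx'.2.1 hx'.2.2 (h.da x hx'.1).symm).symm, k2 _ _ hb.1 hb.2 (h.db x hx'.1),
      k2 _ _ hc.1 hc.2 (h.dc x hx'.1), ?_⟩
    exact (k2 _ _ hx'.2.1 hx'.2.2 (h.bic.dg hx'.1 hp hx'.2.1)).symm

/-- Case 2, `p ∈ X`, `q ∉ X` -/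
theorem case2 (h2 : S_HM2) (hk : 8 ≤ k) (hM : MinCex E S k) (hpq : p ≠ q) (hd : ¬ Dg E p q)
    {a b c : V} {X : Finset V} (h : Cp (addDg E p q) S k a b c X) (hp : p ∈ X) (hq : q ∉ X) :
    False := by
  by_cases ha : q = a
  · subst ha
    exact case2a h2 hk hM hpq hd h hp
  by_cases hb : q = b
  · subst hb
    exact case2a h2 hk hM hpq hd h.rot hp
  by_cases hc : q = c
  · subst hc
    exact case2a h2 hk hM hpq hd h.rot.rot hp
  exact noNew hM h ha hb hc hq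

/-- Case 3, `{p, q} = {a, b}` -/
theorem case3a (h3 : S_HM3) (hk : 8 ≤ k) (hM : MinCex E S k)
    {a b c : V} {X : Finset V} (h : Cp (addDg E p q) S k a b c X)
    (hab' : (p = a ∧ q = b) ∨ (p = b ∧ q = a)) : False := by
  obtain ⟨hab, hbc, hca, haX, hbX, hcX⟩ := h.ne (loopless hM.irr)
  have hcp : c ≠ p ∧ c ≠ q := by
    rcases hab' with ⟨h4, h5⟩ | ⟨h4, h5⟩
    · rw [h4, h5]
      exact ⟨hca, hbc.symm⟩
    · rw [h4, h5]
      exact ⟨hbc.symm, hca⟩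
  have hX0 : ∀ x ∈ X, x ≠ p ∧ x ≠ q := by
    intro x hx
    have ha : x ≠ a := by
      rintro rfl
      exact haX hx
    have hb : x ≠ b := by
      rintro rfl
      exact hbX hx
    rcases hab' with ⟨h4, h5⟩ | ⟨h4, h5⟩
    · rw [h4, h5]
      exact ⟨ha, hb⟩
    · rw [h4, h5]
      exact ⟨hb, ha⟩
  have k1 : ∀ u v, u ≠ p → u ≠ q → addDg E p q u v → E u v := fun u v hu hu' huv =>
    old huv (fun h3 => hu h3.1) (fun h3 => hu' h3.1)
  have k2 : ∀ u v, u ≠ p → u ≠ q → Dg (addDg E p q) u v → Dg E u v := fun u v hu hu' huv =>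
    oldDg huv (fun h3 => hu h3.1) (fun h3 => hu' h3.1)
  have e1 : E b c := old h.bc (fun h4 => hcp.2 h4.2) (fun h4 => hcp.1 h4.2)
  have e2 : E c a := k1 _ _ hcp.1 hcp.2 h.ca
  have e3 : Bic E X := fun u hu v hv huv =>
    k1 _ _ (hX0 u hu).1 (hX0 u hu).2 (h.bic u hu v hv huv)
  have e4 : ∀ x ∈ X, Dg E a x := fun x hx =>
    (k2 _ _ (hX0 x hx).1 (hX0 x hx).2 (h.da x hx).symm).symm
  have e5 : ∀ x ∈ X, Dg E b x := fun x hx =>
    (k2 _ _ (hX0 x hx).1 (hX0 x hx).2 (h.db x hx).symm).symm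
  have e6 : ∀ x ∈ X, Dg E c x := fun x hx =>
    (k2 _ _ (hX0 x hx).1 (hX0 x hx).2 (h.dc x hx).symm).symm
  by_cases hE : E a b
  · exact Cp.false hM (a := a) (b := b) (c := c) (X := X)
      ⟨h.aS, h.bS, h.cS, h.XS, h.card, e3, hE, e1, e2, e4, e5, e6⟩
  · refine h3 V E S k a b c X hk hM h.aS h.bS h.cS h.XS ?_ e3 hab e1 e2 hE
      (fun x hx => ⟨e4 x hx, e5 x hx, e6 x hx⟩)
    have := h.card
    omega

/-- Case 3, `p ∉ X`, `q ∉ X` -/
theorem case3 (h3 : S_HM3) (hk : 8 ≤ k) (hM : MinCex E S k) (hpq : p ≠ q)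
    {a b c : V} {X : Finset V} (h : Cp (addDg E p q) S k a b c X) (hp : p ∉ X) (hq : q ∉ X) :
    False := by
  by_cases hqa : q = a ∨ q = b ∨ q = c
  · by_cases hpa : p = a ∨ p = b ∨ p = c
    · rcases hqa with h4 | h4 | h4
      · rcases hpa with h5 | h5 | h5
        · exact hpq (h5.trans h4.symm)
        · exact case3a h3 hk hM h (Or.inr ⟨h5, h4⟩)
        · exact case3a h3 hk hM h.rot.rot (Or.inl ⟨h5, h4⟩)
      · rcases hpa with h5 | h5 | h5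
        · exact case3a h3 hk hM h (Or.inl ⟨h5, h4⟩)
        · exact hpq (h5.trans h4.symm)
        · exact case3a h3 hk hM h.rot (Or.inr ⟨h5, h4⟩)
      · rcases hpa with h5 | h5 | h5
        · exact case3a h3 hk hM h.rot.rot (Or.inr ⟨h5, h4⟩)
        · exact case3a h3 hk hM h.rot (Or.inl ⟨h5, h4⟩)
        · exact hpq (h5.trans h4.symm)
    · push Not at hpa
      exact noNew (p := q) (q := p) hM (h.mono fun _ _ => swap) hpa.1 hpa.2.1 hpa.2.2 hp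
  · push Not at hqa
    exact noNew hM h hqa.1 hqa.2.1 hqa.2.2 hq

end HM

theorem s_HM : S_HM1 → S_HM2 → S_HM3 → S_HM := by
  intro h1 h2 h3 V E S k p q hk hM hH
  obtain ⟨a, b, c, X, ha, hb, hc, hX, e1, e2, e3, e4, e5, e6⟩ := hH
  have h : HM.Cp (addDg E p q) S k a b c X := ⟨ha, hb, hc, hX, e1, e2, e3, e4, e5,
    fun x hx => (e6 x hx).1, fun x hx => (e6 x hx).2.1, fun x hx => (e6 x hx).2.2⟩
  by_cases hpq : p = q
  · refine HM.Cp.false hM (h.mono ?_)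
    rintro u v ((h4 | h4) | h4)
    · exact h4
    · exact absurd hpq h4.2.2
    · exact absurd hpq.symm h4.2.2
  by_cases hd : Dg E p q
  · refine HM.Cp.false hM (h.mono ?_)
    rintro u v ((h4 | h4) | h4)
    · exact h4
    · rw [h4.1, h4.2.1]
      exact hd.1
    · rw [h4.1, h4.2.1]
      exact hd.2
  by_cases hp : p ∈ X
  · by_cases hq : q ∈ X
    · exact HM.case1 h1 hk hM hpq hd h hp hq
    · exact HM.case2 h2 hk hM hpq hd h hp hq
  · by_cases hq : q ∈ X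
    · exact HM.case2 (p := q) (q := p) h2 hk hM (Ne.symm hpq) (fun h4 => hd h4.symm)
        (h.mono fun _ _ => HM.swap) hq hp
    · exact HM.case3 h3 hk hM hpq h hp hq

end Pool.Agent.Lib.MP_ee37cd_co.BK
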