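import Pool.Agent.Lib.MP_ee37cd_co.Spec

/-!
# MP_ee37cd_co: HM2
-/

set_option autoImplicit false

namespace Pool.Agent.Lib.MP_ee37cd_co.BK

open Finset
open scoped Classical

theorem s_HM2 : S_HM2 := by
  intro V E S k a b c p X0 hk hM ha hb hc hp hX0 hcard hbic hab hbc hca hpa hndg hx hbp hcp
  have irr := hM.irr
  have e1 : a ≠ b := by
    rintro rfl
    exact irr _ hab
  have e2 : b ≠ c := by
    rintro rfl
    exact irr _ hbc
  have e3 : c ≠ a := by
    rintro rfl
    exact irr _ hca
  have e4 : b ≠ p := hbp.ne irr
  have e5 : c ≠ p := hcp.ne irr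
  have na : a ∉ X0 := fun h => irr _ (hx a h).1.1
  have nb : b ∉ X0 := fun h => irr _ (hx b h).2.1.1
  have nc : c ∉ X0 := fun h => irr _ (hx c h).2.2.1.1
  have np : p ∉ X0 := fun h => irr _ (hx p h).2.2.2.1
  have c1 : (insert p X0).card = X0.card + 1 := card_insert_of_notMem np
  have c2 : (insert c X0).card = X0.card + 1 := card_insert_of_notMem nc
  have c3 : (insert b (insert c X0)).card = X0.card + 2 := by
    rw [card_insert_of_notMem, c2]
    simp [e2, nb]
  have c4 : (insert a (insert b (insert c X0))).card = X0.card + 3 := by
    rw [card_insert_of_notMem, c3]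
    simp [e1, e3.symm, na]
  have c5 : (insert p (insert a (insert b (insert c X0)))).card = X0.card + 4 := by
    rw [card_insert_of_notMem, c4]
    simp [hpa, e4.symm, e5.symm, np]
  set T : Finset V := insert p (insert a (insert b (insert c X0))) with hTdef
  have hTm : ∀ v, v ∈ T ↔ v = p ∨ v = a ∨ v = b ∨ v = c ∨ v ∈ X0 := by
    intro v
    simp [hTdef]
  have hT : T ⊆ S := by
    intro v hv
    rcases (hTm v).1 hv with rfl | rfl | rfl | rfl | h
    · exact hp
    · exact ha
    · exact hb
    · exact hc
    · exact hX0 h
  have hXT : X0 ⊆ T := fun v hv => (hTm v).2 (by tauto)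
  have hpT : p ∈ T := (hTm p).2 (by tauto)
  have haT : a ∈ T := (hTm a).2 (by tauto)
  have hbT : b ∈ T := (hTm b).2 (by tauto)
  have hcT : c ∈ T := (hTm c).2 (by tauto)
  have hpX : insert p X0 ⊆ T := Finset.insert_subset hpT hXT
  -- no digon between b and c
  have hnbc : ¬ Dg E b c := by
    intro h
    have h1 : Bic E (insert b (insert c (insert p X0))) := by
      apply Bic.insert
      · apply Bic.insert
        · apply hbic.insert
          intro x hxx
          exact (hx x hxx).2.2.2
        · intro x hxx
          rcases Finset.mem_insert.1 hxx with rfl | h2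
          · exact hcp
          · exact (hx x h2).2.2.1
      · intro x hxx
        rcases Finset.mem_insert.1 hxx with rfl | h2
        · exact h
        · rcases Finset.mem_insert.1 h2 with rfl | h3
          · exact hbp
          · exact (hx x h3).2.1
    have h2 : insert b (insert c (insert p X0)) ⊆ S :=
      (Finset.insert_subset hbT (Finset.insert_subset hcT hpX)).trans hT
    have h3 := hM.noK _ h2 h1
    have h4 : (insert c (insert p X0)).card = X0.card + 2 := by
      rw [card_insert_of_notMem, c1]
      simp [e5, nc]
    have h5 : (insert b (insert c (insert p X0))).card = X0.card + 3 := by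
      rw [card_insert_of_notMem, h4]
      simp [e2, e4, nb]
    omega
  -- outside arcs
  have o0 : ∀ x ∈ X0, outdeg E (S \ T) x + indeg E (S \ T) x = 0 := by
    intro x hxx
    have hd : ∀ y ∈ T.erase x, Dg E x y := by
      intro y hy
      rw [Finset.mem_erase] at hy
      rcases (hTm y).1 hy.2 with rfl | rfl | rfl | rfl | h
      · exact (hx x hxx).2.2.2.symm
      · exact (hx x hxx).1.symm
      · exact (hx x hxx).2.1.symm
      · exact (hx x hxx).2.2.1.symm
      · exact hbic.dg hxx h hy.1.symm
    have h1 := deg_ge (E := E) (B := ∅) (C := ∅) (Finset.erase_subset x T)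
      (Finset.empty_subset _) (Finset.empty_subset _) (Finset.disjoint_empty_right _)
      (Finset.disjoint_empty_right _) hd (by simp) (by simp)
    have h2 : (T.erase x).card = T.card - 1 := Finset.card_erase_of_mem (hXT hxx)
    have h3 := hM.outside (by omega) hT (hX0 hxx) h1
    simp only [Finset.card_empty] at h3
    omega
  have ob : outdeg E (S \ T) b + indeg E (S \ T) b ≤ 2 := by
    have h1 := deg_ge (E := E) (T := T) (A := insert p X0) (B := {c}) (C := {a}) (v := b) hpX
      (Finset.singleton_subset_iff.2 hcT) (Finset.singleton_subset_iff.2 haT)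
      (by simp [e5, nc]) (by simp [hpa.symm, na])
      (by
        intro x hxx
        rcases Finset.mem_insert.1 hxx with rfl | h2
        · exact hbp
        · exact (hx x h2).2.1) (by simpa using hbc) (by simpa using hab)
    have h3 := hM.outside (by omega) hT hb h1
    simp only [Finset.card_singleton, c1] at h3
    omega
  have oc : outdeg E (S \ T) c + indeg E (S \ T) c ≤ 2 := by
    have h1 := deg_ge (E := E) (T := T) (A := insert p X0) (B := {a}) (C := {b}) (v := c) hpX
      (Finset.singleton_subset_iff.2 haT) (Finset.singleton_subset_iff.2 hbT)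
      (by simp [hpa.symm, na]) (by simp [e4, nb])
      (by
        intro x hxx
        rcases Finset.mem_insert.1 hxx with rfl | h2
        · exact hcp
        · exact (hx x h2).2.2.1) (by simpa using hca) (by simpa using hbc)
    have h3 := hM.outside (by omega) hT hc h1
    simp only [Finset.card_singleton, c1] at h3
    omega
  have oa : outdeg E (S \ T) a + indeg E (S \ T) a ≤ 4 := by
    have h1 := deg_ge (E := E) (T := T) (A := X0) (B := {b}) (C := {c}) (v := a) hXT
      (Finset.singleton_subset_iff.2 hbT) (Finset.singleton_subset_iff.2 hcT)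
      (by simp [nb]) (by simp [nc]) (fun x hxx => (hx x hxx).1) (by simpa using hab)
      (by simpa using hca)
    have h3 := hM.outside (by omega) hT ha h1
    simp only [Finset.card_singleton] at h3
    omega
  have op : outdeg E (S \ T) p + indeg E (S \ T) p ≤ 2 := by
    have hs : insert b (insert c X0) ⊆ T := Finset.insert_subset hbT (Finset.insert_subset hcT hXT)
    have h1 := deg_ge (E := E) (T := T) (A := insert b (insert c X0)) (B := ∅) (C := ∅) (v := p)
      hs (Finset.empty_subset _) (Finset.empty_subset _) (Finset.disjoint_empty_right _)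
      (Finset.disjoint_empty_right _)
      (by
        intro x hxx
        rcases Finset.mem_insert.1 hxx with rfl | h2
        · exact hbp.symm
        · rcases Finset.mem_insert.1 h2 with rfl | h3
          · exact hcp.symm
          · exact (hx x h3).2.2.2) (by simp) (by simp)
    have h3 := hM.outside (by omega) hT hp h1
    simp only [Finset.card_empty, c3] at h3
    omega
  obtain ⟨f, hf⟩ := hM.sub hT ⟨p, hpT⟩
  have hnap : ¬ Dg E a p := fun h => hndg h.symm
  refine hM.ncol (ext2 irr hT hf {b, c} {a, p} X0 ?_ (acyc_pair irr hnbc) (acyc_pair irr hnap)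
    ?_ ?_ o0 (by omega))
  · intro v hv
    rcases (hTm v).1 hv with rfl | rfl | rfl | rfl | h
    · right; right; simp
    · right; right; simp
    · right; left; simp
    · right; left; simp
    · exact Or.inl h
  · rw [Finset.sum_pair e2]
    omega
  · rw [Finset.sum_pair hpa.symm]
    omega

end Pool.Agent.Lib.MP_ee37cd_co.BK
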