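import Pool.Agent.Lib.MP_ee37cd_co.Spec

/-!
# MP_ee37cd_co: module HM3
-/

set_option autoImplicit false

namespace Pool.Agent.Lib.MP_ee37cd_co.BK

open Finset
open scoped Classical

theorem s_HM3 : S_HM3 := by
  intro V E S k a b c X hk hM ha hb hc hX hXc hBic hab hbc hca hnab hd
  have irr := hM.irr
  have hbc' : b ≠ c := by
    rintro rfl
    exact irr _ hbc
  have hca' : c ≠ a := by
    rintro rfl
    exact irr _ hca
  have haX : a ∉ X := fun h => irr _ (hd a h).1.1
  have hbX : b ∉ X := fun h => irr _ (hd b h).2.1.1
  have hcX : c ∉ X := fun h => irr _ (hd c h).2.2.1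
  -- no digons among `a, b, c`
  have key : ∀ p q : V, p ∈ S → q ∈ S → p ≠ q → p ∉ X → q ∉ X → (∀ x ∈ X, Dg E p x) →
      (∀ x ∈ X, Dg E q x) → ¬ Dg E p q := by
    intro p q hp hq hpq hpX hqX hpd hqd hdg
    have h1 : Bic E (insert q X) := hBic.insert hqd
    have h2 : Bic E (insert p (insert q X)) := by
      refine h1.insert ?_
      intro x hx
      rcases Finset.mem_insert.mp hx with rfl | hx
      · exact hdg
      · exact hpd x hx
    have h3 := hM.noK (insert p (insert q X)) (by
      intro v hv
      rcases Finset.mem_insert.mp hv with rfl | hv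
      · exact hp
      · rcases Finset.mem_insert.mp hv with rfl | hv
        · exact hq
        · exact hX hv) h2
    have h4 : p ∉ insert q X := by
      intro h
      rcases Finset.mem_insert.mp h with h | h
      · exact hpq h
      · exact hpX h
    rw [Finset.card_insert_of_notMem h4, Finset.card_insert_of_notMem hqX] at h3
    omega
  have hnbc : ¬ Dg E b c := key b c hb hc hbc' hbX hcX (fun x hx => (hd x hx).2.1)
    (fun x hx => (hd x hx).2.2)
  have hnca : ¬ Dg E c a := key c a hc ha hca' hcX haX (fun x hx => (hd x hx).2.2)
    (fun x hx => (hd x hx).1)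
  have hnac : ¬ E a c := fun h => hnca ⟨hca, h⟩
  -- the set `T`
  set T : Finset V := X ∪ {a, b, c} with hTdef
  have haT : a ∈ T := by simp [hTdef]
  have hbT : b ∈ T := by simp [hTdef]
  have hcT : c ∈ T := by simp [hTdef]
  have hXT : X ⊆ T := Finset.subset_union_left
  have hTS : T ⊆ S := by
    intro v hv
    rcases Finset.mem_union.mp hv with h | h
    · exact hX h
    · simp only [Finset.mem_insert, Finset.mem_singleton] at h
      rcases h with rfl | rfl | rfl
      · exact ha
      · exact hb
      · exact hc
  obtain ⟨f, hf⟩ := hM.sub hTS ⟨a, haT⟩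
  -- the vertices of `X` are full
  have hfull : ∀ x ∈ X, outdeg E (S \ T) x + indeg E (S \ T) x = 0 := by
    intro x hx
    have hxa : x ≠ a := fun h => haX (h ▸ hx)
    have hxb : x ≠ b := fun h => hbX (h ▸ hx)
    have hxc : x ≠ c := fun h => hcX (h ▸ hx)
    have h1 : insert a (insert b (insert c (X.erase x))) ⊆ T := by
      intro v hv
      simp only [Finset.mem_insert, Finset.mem_erase] at hv
      rcases hv with rfl | rfl | rfl | hv
      · exact haT
      · exact hbT
      · exact hcT
      · exact hXT hv.2
    have h2 := deg_ge (E := E) (v := x) (B := ∅) (C := ∅) h1 (Finset.empty_subset _)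
      (Finset.empty_subset _) (Finset.disjoint_empty_right _) (Finset.disjoint_empty_right _) (by
        intro v hv
        simp only [Finset.mem_insert, Finset.mem_erase] at hv
        rcases hv with rfl | rfl | rfl | hv
        · exact (hd x hx).1.symm
        · exact (hd x hx).2.1.symm
        · exact (hd x hx).2.2.symm
        · exact hBic.dg hx hv.2 hv.1.symm) (by simp) (by simp)
    have h3 : (insert a (insert b (insert c (X.erase x)))).card = k + 1 := by
      rw [Finset.card_insert_of_notMem, Finset.card_insert_of_notMem,
        Finset.card_insert_of_notMem, Finset.card_erase_of_mem hx]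
      · have : 0 < X.card := Finset.card_pos.mpr ⟨x, hx⟩
        omega
      · simp [hcX]
      · simp [hbX, hbc']
      · simp [haX, hab, hca'.symm]
    rw [h3] at h2
    simp only [Finset.card_empty] at h2
    have h4 := hM.outside (by omega) hTS (hX hx) (m := 2 * (k + 1)) (by omega)
    omega
  have houta : outdeg E (S \ T) a + indeg E (S \ T) a ≤ 3 := by
    have h2 := deg_ge (E := E) (v := a) (T := T) (A := X) (B := ∅) (C := {c}) hXT
      (Finset.empty_subset _) (by simpa using hcT) (Finset.disjoint_empty_right _)
      (by simpa using hcX) (fun x hx => (hd x hx).1) (by simp) (by simpa using hca)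
    simp only [Finset.card_empty, Finset.card_singleton] at h2
    have h4 := hM.outside (by omega) hTS ha (m := 2 * X.card + 0 + 1) h2
    omega
  have houtb : outdeg E (S \ T) b + indeg E (S \ T) b ≤ 3 := by
    have h2 := deg_ge (E := E) (v := b) (T := T) (A := X) (B := {c}) (C := ∅) hXT
      (by simpa using hcT) (Finset.empty_subset _) (by simpa using hcX)
      (Finset.disjoint_empty_right _) (fun x hx => (hd x hx).2.1) (by simpa using hbc) (by simp)
    simp only [Finset.card_empty, Finset.card_singleton] at h2
    have h4 := hM.outside (by omega) hTS hb (m := 2 * X.card + 1 + 0) h2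
    omega
  have houtc : outdeg E (S \ T) c + indeg E (S \ T) c ≤ 3 := by
    have h2 := deg_ge (E := E) (v := c) (T := T) (A := X) (B := {a}) (C := ∅) hXT
      (by simpa using haT) (Finset.empty_subset _) (by simpa using haX)
      (Finset.disjoint_empty_right _) (fun x hx => (hd x hx).2.2) (by simpa using hca) (by simp)
    simp only [Finset.card_empty, Finset.card_singleton] at h2
    have h4 := hM.outside (by omega) hTS hc (m := 2 * X.card + 1 + 0) h2
    omega
  -- the special class
  have hac : Acyc E (insert a {b, c}) := by
    refine acyc_insert_out irr (acyc_pair irr hnbc) ?_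
    intro w hw
    simp only [Finset.mem_insert, Finset.mem_singleton] at hw
    rcases hw with rfl | rfl
    · exact hnab
    · exact hnac
  refine hM.ncol (ext1 irr hTS hf (insert a {b, c}) X ?_ hac ?_ hfull (by omega))
  · intro v hv
    rcases Finset.mem_union.mp hv with h | h
    · exact Or.inl h
    · exact Or.inr h
  · rw [Finset.sum_insert (by simp [hab, hca'.symm]), Finset.sum_pair hbc']
    omega

end Pool.Agent.Lib.MP_ee37cd_co.BK
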