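import Pool.Agent.Lib.MP_ee37cd_co.Spec

/-!
# MP_ee37cd_co: no vertex outside a near biclique is joined by digons to its kernel
-/

set_option autoImplicit false

namespace Pool.Agent.Lib.MP_ee37cd_co.BK

open Finset
open scoped Classical

theorem s_III : S_III := by
  intro V E S k x y Z w hk hM hN hw hall
  rw [Finset.mem_sdiff, mem_NBK] at hw
  obtain ⟨hwS, hwK⟩ := hw
  push Not at hwK
  obtain ⟨hwx, hwy, hwZ⟩ := hwK
  have hcard := hN.card
  have hxy : x ≠ y := by
    intro h
    exact hM.irr y (h ▸ hN.xy)
  have hxS := hN.xS
  have hyS := hN.yS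
  -- the pairs
  have hnx : ¬ Dg E w x := by
    intro h
    have h1 : Bic E (insert w (insert x Z)) := by
      refine (hN.bic.insert hN.dx).insert ?_
      intro v hv
      rcases Finset.mem_insert.mp hv with rfl | hv
      · exact h
      · exact (hall v hv).symm
    have h2 := hM.noK _ (by
      intro v hv
      rcases Finset.mem_insert.mp hv with rfl | hv
      · exact hwS
      · rcases Finset.mem_insert.mp hv with rfl | hv
        · exact hxS
        · exact hN.ZS hv) h1
    rw [Finset.card_insert_of_notMem (by
      rw [Finset.mem_insert]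
      push Not
      exact ⟨hwx, hwZ⟩), Finset.card_insert_of_notMem hN.xZ] at h2
    omega
  have hnot : ¬ (E y w ∧ E w x) := by
    rintro ⟨h1, h2⟩
    refine hM.noH ⟨x, y, w, Z, hxS, hyS, hwS, hN.ZS, by omega, hN.bic, hN.xy, h1, h2, ?_⟩
    intro z hz
    exact ⟨hN.dx z hz, hN.dy z hz, (hall z hz).symm⟩
  have hny : ¬ Dg E w y := by
    intro h
    have h1 : Bic E (insert w (insert y Z)) := by
      refine (hN.bic.insert hN.dy).insert ?_
      intro v hv
      rcases Finset.mem_insert.mp hv with rfl | hv
      · exact h
      · exact (hall v hv).symm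
    have h2 := hM.noK _ (by
      intro v hv
      rcases Finset.mem_insert.mp hv with rfl | hv
      · exact hwS
      · rcases Finset.mem_insert.mp hv with rfl | hv
        · exact hyS
        · exact hN.ZS hv) h1
    rw [Finset.card_insert_of_notMem (by
      rw [Finset.mem_insert]
      push Not
      exact ⟨hwy, hwZ⟩), Finset.card_insert_of_notMem hN.yZ] at h2
    omega
  have hac : Acyc E {x, y, w} := by
    by_cases h : E y w
    · have h1 : ¬ E w x := fun h2 => hnot ⟨h, h2⟩
      refine acyc_insert_in hM.irr (acyc_pair hM.irr fun h2 => hny h2.symm) ?_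
      intro v hv
      rcases Finset.mem_insert.mp hv with rfl | hv
      · exact hN.yx
      · rw [Finset.mem_singleton] at hv
        rw [hv]
        exact h1
    · have h1 : Acyc E (insert y {x, w}) := by
        refine acyc_insert_out hM.irr (acyc_pair hM.irr fun h2 => hnx h2.symm) ?_
        intro v hv
        rcases Finset.mem_insert.mp hv with rfl | hv
        · exact hN.yx
        · rw [Finset.mem_singleton] at hv
          rw [hv]
          exact h
      refine h1.mono ?_
      intro v hv
      simp only [Finset.mem_insert, Finset.mem_singleton] at hv ⊢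
      tauto
  -- the set `T`
  obtain ⟨T, hT⟩ : ∃ T : Finset V, T = insert w (insert x (insert y Z)) := ⟨_, rfl⟩
  have hmem : ∀ v, v ∈ T ↔ v = w ∨ v = x ∨ v = y ∨ v ∈ Z := by
    intro v
    rw [hT]
    simp only [Finset.mem_insert]
  have hTS : T ⊆ S := by
    intro v hv
    rcases (hmem v).mp hv with rfl | rfl | rfl | h
    · exact hwS
    · exact hxS
    · exact hyS
    · exact hN.ZS h
  have hZT : Z ⊆ T := fun v hv => (hmem v).mpr (Or.inr (Or.inr (Or.inr hv)))
  have hTcard : T.card = k + 2 := by
    rw [hT, Finset.card_insert_of_notMem (by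
      simp only [Finset.mem_insert]
      push Not
      exact ⟨hwx, hwy, hwZ⟩), Finset.card_insert_of_notMem (by
      simp only [Finset.mem_insert]
      push Not
      exact ⟨hxy, hN.xZ⟩), Finset.card_insert_of_notMem hN.yZ]
    omega
  obtain ⟨f, hf⟩ := hM.sub hTS ⟨w, (hmem w).mpr (Or.inl rfl)⟩
  have hox : outdeg E (S \ T) x + indeg E (S \ T) x + (2 * Z.card + 1) ≤ 2 * k + 2 := by
    refine hM.outside (by omega) hTS hxS ?_
    have := deg_ge (E := E) (T := T) (A := Z) (B := {y}) (C := ∅) (v := x) hZT
      (Finset.singleton_subset_iff.mpr ((hmem y).mpr (Or.inr (Or.inr (Or.inl rfl)))))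
      (Finset.empty_subset _) (Finset.disjoint_singleton_right.mpr hN.yZ)
      (Finset.disjoint_empty_right _) hN.dx
      (fun b hb => by rw [Finset.mem_singleton.mp hb]; exact hN.xy)
      (fun c hc => absurd hc (Finset.notMem_empty _))
    rw [Finset.card_singleton, Finset.card_empty] at this
    omega
  have hoy : outdeg E (S \ T) y + indeg E (S \ T) y + (2 * Z.card + 1) ≤ 2 * k + 2 := by
    refine hM.outside (by omega) hTS hyS ?_
    have := deg_ge (E := E) (T := T) (A := Z) (B := ∅) (C := {x}) (v := y) hZT
      (Finset.empty_subset _)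
      (Finset.singleton_subset_iff.mpr ((hmem x).mpr (Or.inr (Or.inl rfl))))
      (Finset.disjoint_empty_right _) (Finset.disjoint_singleton_right.mpr hN.xZ) hN.dy
      (fun c hc => absurd hc (Finset.notMem_empty _))
      (fun b hb => by rw [Finset.mem_singleton.mp hb]; exact hN.xy)
    rw [Finset.card_singleton, Finset.card_empty] at this
    omega
  have how : outdeg E (S \ T) w + indeg E (S \ T) w + (2 * Z.card) ≤ 2 * k + 2 := by
    refine hM.outside (by omega) hTS hwS ?_
    have := deg_ge (E := E) (T := T) (A := Z) (B := ∅) (C := ∅) (v := w) hZT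
      (Finset.empty_subset _) (Finset.empty_subset _)
      (Finset.disjoint_empty_right _) (Finset.disjoint_empty_right _)
      (fun z hz => (hall z hz).symm)
      (fun c hc => absurd hc (Finset.notMem_empty _))
      (fun c hc => absurd hc (Finset.notMem_empty _))
    rw [Finset.card_empty] at this
    omega
  have hoz : ∀ z ∈ Z, outdeg E (S \ T) z + indeg E (S \ T) z = 0 := by
    intro z hz
    have h1 : outdeg E (S \ T) z + indeg E (S \ T) z + (2 * (T.erase z).card) ≤ 2 * k + 2 := by
      refine hM.outside (by omega) hTS (hN.ZS hz) ?_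
      have := deg_ge (E := E) (T := T) (A := T.erase z) (B := ∅) (C := ∅) (v := z)
        (Finset.erase_subset _ _)
        (Finset.empty_subset _) (Finset.empty_subset _)
        (Finset.disjoint_empty_right _) (Finset.disjoint_empty_right _)
        (fun v hv => by
          rw [Finset.mem_erase, hmem] at hv
          obtain ⟨hvz, hv⟩ := hv
          rcases hv with rfl | rfl | rfl | h
          · exact hall z hz
          · exact (hN.dx z hz).symm
          · exact (hN.dy z hz).symm
          · exact hN.bic.dg hz h hvz.symm)
        (fun c hc => absurd hc (Finset.notMem_empty _))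
        (fun c hc => absurd hc (Finset.notMem_empty _))
      rw [Finset.card_empty] at this
      omega
    rw [Finset.card_erase_of_mem (hZT hz), hTcard] at h1
    omega
  refine hM.ncol (ext1 hM.irr hTS hf {x, y, w} Z ?_ hac ?_ hoz (by omega))
  · intro v hv
    simp only [Finset.mem_insert, Finset.mem_singleton]
    rcases (hmem v).mp hv with h | h | h | h
    · exact Or.inr (Or.inr (Or.inr h))
    · exact Or.inr (Or.inl h)
    · exact Or.inr (Or.inr (Or.inl h))
    · exact Or.inl h
  · rw [Finset.sum_insert (by
      simp only [Finset.mem_insert, Finset.mem_singleton]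
      push Not
      exact ⟨hxy, hwx.symm⟩), Finset.sum_insert (by
      simp only [Finset.mem_singleton]
      exact hwy.symm), Finset.sum_singleton]
    omega

end Pool.Agent.Lib.MP_ee37cd_co.BK
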