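import Pool.Agent.Lib.MP_ee37cd_co.SpecL

/-!
# MP_ee37cd_co, module J0a: some simple pair has a good colour
-/

set_option autoImplicit false

namespace Pool.Agent.Lib.MP_ee37cd_co.LL

open Finset
open scoped Classical

/-- J0a. `Hi = ∅` and there is a simple pair: some simple pair has a good colour. -/
theorem s_J0a : S_TRI → S_J0a := by
  intro hTRI V K r dg P O I k h hHi hTwo
  by_contra hcon
  have hG : ∀ x ∈ K, ∀ y ∈ K, x ≠ y → ¬ dg x y → (G r P k x y).card = 0 := by
    intro x hx y hy hxy hd
    rw [Finset.card_eq_zero]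
    by_contra hne
    exact hcon ⟨x, hx, y, hy, hxy, hd, Finset.nonempty_iff_ne_empty.2 hne⟩
  have hlo : ∀ v ∈ K, Lo K dg O I v := fun v hv =>
    lo_of hv (by rw [hHi]; exact Finset.notMem_empty v)
  have hpair : ∀ u ∈ K, ∀ v ∈ K, r u < r v → ¬ dg u v →
      k ≤ (F P k u).card + (O v).card ∧ k ≤ (F P k v).card + (I u).card := by
    intro u hu v hv huv hd
    have hne : u ≠ v := fun h1 => absurd huv (by rw [h1]; exact lt_irrefl _)
    have h1 := G_ge h hu hv huv
    rw [hG u hu v hv hne hd] at h1
    have h2 := Finset.card_union_le (F P k u) (O v)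
    have h3 := Finset.card_union_le (F P k v) (I u)
    constructor <;> omega
  have hmain : ∀ u ∈ K, ∀ v ∈ K, r u < r v → ¬ dg u v → False := by
    intro u hu v hv huv hd
    have hne : u ≠ v := fun h1 => absurd huv (by rw [h1]; exact lt_irrefl _)
    have h1 := (hTRI V K r dg P O I k h K (Finset.Subset.refl K) hlo (by
      intro u hu v hv huv hd
      have h2 := hpair u hu v hv huv hd
      have h3 := F_le h hu (hlo u hu)
      have h4 := F_le h hv (hlo v hv)
      constructor <;> omega) u hu v hv hne hd).1
    have h2 := hpair u hu v hv huv hd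
    have h3 := Finset.card_le_card (F_subO h hu)
    have h4 := Finset.card_le_card (F_subI h hv)
    have h5 := h.deg u hu
    have h6 := h.deg v hv
    have h7 := h.card
    have h8 := h.hk
    omega
  obtain ⟨a, ha, b, hb, _, _, _, _, hab, _, hd, _⟩ := hTwo
  rcases lt_trichotomy (r a) (r b) with h1 | h1 | h1
  · exact hmain a ha b hb h1 hd
  · exact hab (h.inj a ha b hb h1)
  · exact hmain b hb a ha h1 fun h2 => hd (h.symm _ _ h2)

end Pool.Agent.Lib.MP_ee37cd_co.LL
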