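import Pool.Agent.Lib.MP_ee37cd_co.SpecL

/-!
# MP_ee37cd_co: the abstract local lemma, module J0b

The case `Hi = ∅` in which a simple pair `x, y` has a good colour and no two disjoint simple pairs
have distinct good colours.
-/

set_option autoImplicit false

namespace Pool.Agent.Lib.MP_ee37cd_co.LL

open Finset
open scoped Classical

namespace J0b

variable {V : Type} {K : Finset V} {r : V → ℕ} {dg : V → V → Prop} {P : ℕ → V → V → Prop}
  {O I : V → Finset ℕ} {k : ℕ}

/-- an element of `K` outside a set with at most `3` elements -/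
theorem exists_out (h : Loc K r dg P O I k) (A : Finset V) (hA : A.card ≤ 3) :
    ∃ v ∈ K, v ∉ A := by
  have h1 : A.card < K.card := by
    rw [h.card]
    have := h.hk
    omega
  exact Finset.exists_mem_notMem_of_card_lt_card h1

/-- the hypothesis of the module -/
def NoTwo (K : Finset V) (r : V → ℕ) (dg : V → V → Prop) (P : ℕ → V → V → Prop) (k : ℕ) : Prop :=
  ∀ x ∈ K, ∀ y ∈ K, ∀ x' ∈ K, ∀ y' ∈ K, x ≠ y → x' ≠ y' → x ≠ x' → x ≠ y' → y ≠ x' →
    y ≠ y' → ¬ dg x y → ¬ dg x' y' → ∀ α ∈ G r P k x y, ∀ α' ∈ G r P k x' y', α = α'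

/-- simple pairs in `W` have at most one good colour -/
theorem G_le_one (hD : NoTwo K r dg P k) {x y : V} (hx : x ∈ K) (hy : y ∈ K) (hxy : x ≠ y)
    (hdxy : ¬ dg x y) {α : ℕ} (hα : α ∈ G r P k x y) {u v : V} (hu : u ∈ K) (hv : v ∈ K)
    (hux : u ≠ x) (huy : u ≠ y) (hvx : v ≠ x) (hvy : v ≠ y) (huv : u ≠ v) (hd : ¬ dg u v) :
    (G r P k u v).card ≤ 1 := by
  have h1 : G r P k u v ⊆ {α} := by
    intro β hβ
    rw [Finset.mem_singleton]
    exact (hD x hx y hy u hu v hv hxy huv hux.symm hvx.symm huy.symm hvy.symm hdxy hd α hα β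
      hβ).symm
  exact (Finset.card_le_card h1).trans (by simp)

/-- (1) There is no simple pair in `W`. -/
theorem step1 (hTRI : S_TRI) (h : Loc K r dg P O I k) (T : Tees K r dg P O I k)
    (hHi : Hi K dg O I = ∅) (hD : NoTwo K r dg P k) {x y : V} (hx : x ∈ K) (hy : y ∈ K)
    (hxy : x ≠ y) (hdxy : ¬ dg x y) {α : ℕ} (hα : α ∈ G r P k x y) :
    ∀ u ∈ K, ∀ v ∈ K, u ≠ x → u ≠ y → v ≠ x → v ≠ y → u ≠ v → dg u v := by
  have hk := h.hk
  have hlo : ∀ v ∈ K, Lo K dg O I v := fun v hv => lo_of hv (by rw [hHi]; exact Finset.notMem_empty v)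
  obtain ⟨W, hW⟩ : ∃ W : Finset V, W = (K.erase x).erase y := ⟨_, rfl⟩
  have hmem : ∀ w, w ∈ W ↔ w ≠ y ∧ w ≠ x ∧ w ∈ K := by
    intro w
    rw [hW, Finset.mem_erase, Finset.mem_erase]
  have hWc : W.card + 1 = k := by
    have h1 : y ∈ K.erase x := Finset.mem_erase.mpr ⟨hxy.symm, hy⟩
    rw [hW, Finset.card_erase_of_mem h1, Finset.card_erase_of_mem hx, h.card]
    omega
  have hWK : W ⊆ K := fun w hw => ((hmem w).mp hw).2.2
  -- the number of good colours
  have hG1 : ∀ u ∈ W, ∀ v ∈ W, u ≠ v → ¬ dg u v → (G r P k u v).card ≤ 1 := by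
    intro u hu v hv huv hd
    obtain ⟨hu1, hu2, hu3⟩ := (hmem u).mp hu
    obtain ⟨hv1, hv2, hv3⟩ := (hmem v).mp hv
    exact G_le_one hD hx hy hxy hdxy hα hu3 hv3 hu2 hu1 hv2 hv1 huv hd
  intro u₀ hu₀ v₀ hv₀ hu₀x hu₀y hv₀x hv₀y huv₀
  by_contra hd₀
  have hu₀W : u₀ ∈ W := (hmem u₀).mpr ⟨hu₀y, hu₀x, hu₀⟩
  have hv₀W : v₀ ∈ W := (hmem v₀).mpr ⟨hv₀y, hv₀x, hv₀⟩
  rcases T.t10 hHi x hx y hy hxy hdxy α hα with ⟨c, -, hc⟩ | ⟨C, r0, hC, -, hCF⟩
  · -- case (B)
    have hFc : ∀ w ∈ W, c ∈ F P k w := by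
      intro w hw
      obtain ⟨h1, h2, h3⟩ := (hmem w).mp hw
      exact hc w h3 h2 h1
    have key : ∀ u ∈ W, ∀ v ∈ W, r u < r v → ¬ dg u v →
        k ≤ (F P k u).card + (O v).card ∧ k ≤ (F P k v).card + (I u).card := by
      intro u hu v hv huv hd
      have hne : u ≠ v := by
        rintro rfl
        exact lt_irrefl _ huv
      have h1 := G_ge h (hWK hu) (hWK hv) huv
      have h2 := hG1 u hu v hv hne hd
      have h3 := Finset.card_union_add_card_inter (F P k u) (O v)
      have h4 := Finset.card_union_add_card_inter (F P k v) (I u)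
      have h5 : 1 ≤ (F P k u ∩ O v).card := Finset.card_pos.mpr
        ⟨c, Finset.mem_inter.mpr ⟨hFc u hu, F_subO h (hWK hv) (hFc v hv)⟩⟩
      have h6 : 1 ≤ (F P k v ∩ I u).card := Finset.card_pos.mpr
        ⟨c, Finset.mem_inter.mpr ⟨hFc v hv, F_subI h (hWK hu) (hFc u hu)⟩⟩
      omega
    have hT : ∀ u ∈ W, ∀ v ∈ W, r u < r v → ¬ dg u v →
        k ≤ (O v).card + 2 ∧ k ≤ (I u).card + 2 := by
      intro u hu v hv huv hd
      have h1 := key u hu v hv huv hd
      have h2 := F_le h (hWK hu) (hlo u (hWK hu))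
      have h3 := F_le h (hWK hv) (hlo v (hWK hv))
      omega
    have main : ∀ u ∈ W, ∀ v ∈ W, r u < r v → ¬ dg u v → False := by
      intro u hu v hv huv hd
      have hne : u ≠ v := by
        rintro rfl
        exact lt_irrefl _ huv
      have h1 := key u hu v hv huv hd
      have h2 := (hTRI V K r dg P O I k h W hWK (fun w hw => hlo w (hWK hw)) hT u hu v hv hne
        hd).1
      have h3 := OI_le h (hWK hu)
      have h4 := OI_le h (hWK hv)
      omega
    rcases lt_trichotomy (r u₀) (r v₀) with h3 | h3 | h3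
    · exact main u₀ hu₀W v₀ hv₀W h3 hd₀
    · exact huv₀ (h.inj u₀ hu₀ v₀ hv₀ h3)
    · exact main v₀ hv₀W u₀ hu₀W h3 fun h4 => hd₀ (h.symm _ _ h4)
  · -- case (A)
    have hFC : ∀ w ∈ W, w ≠ r0 → F P k w = C := by
      intro w hw hw0
      obtain ⟨h1, h2, h3⟩ := (hmem w).mp hw
      exact hCF w h3 h2 h1 hw0
    have hBK : W.erase r0 ⊆ K := (Finset.erase_subset _ _).trans hWK
    have key : ∀ u ∈ W.erase r0, ∀ v ∈ W.erase r0, r u < r v → ¬ dg u v →
        k ≤ (O v).card + 1 ∧ k ≤ (I u).card + 1 := by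
      intro u hu v hv huv hd
      have hne : u ≠ v := by
        rintro rfl
        exact lt_irrefl _ huv
      have huW := Finset.mem_of_mem_erase hu
      have hvW := Finset.mem_of_mem_erase hv
      have hFu := hFC u huW (Finset.ne_of_mem_erase hu)
      have hFv := hFC v hvW (Finset.ne_of_mem_erase hv)
      have h1 := G_ge h (hWK huW) (hWK hvW) huv
      have h2 := hG1 u huW v hvW hne hd
      have h3 : F P k u ∪ O v = O v := by
        rw [hFu, ← hFv]
        exact Finset.union_eq_right.mpr (F_subO h (hWK hvW))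
      have h4 : F P k v ∪ I u = I u := by
        rw [hFv, ← hFu]
        exact Finset.union_eq_right.mpr (F_subI h (hWK huW))
      rw [h3, h4] at h1
      omega
    have hBc : k ≤ (W.erase r0).card + 2 := by
      have := Finset.pred_card_le_card_erase (s := W) (a := r0)
      omega
    have main : ∀ u ∈ W.erase r0, ∀ v ∈ W.erase r0, r u < r v → ¬ dg u v → False := by
      intro u hu v hv huv hd
      have hne : u ≠ v := by
        rintro rfl
        exact lt_irrefl _ huv
      have h1 := key u hu v hv huv hd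
      have h2 := (hTRI V K r dg P O I k h (W.erase r0) hBK (fun w hw => hlo w (hBK hw))
        (fun u hu v hv huv hd => by
          have := key u hu v hv huv hd
          omega) u hu v hv hne hd).1
      have h3 := OI_le h (hBK hu)
      have h4 := OI_le h (hBK hv)
      rw [hFC u (Finset.mem_of_mem_erase hu) (Finset.ne_of_mem_erase hu), hC] at h3
      rw [hFC v (Finset.mem_of_mem_erase hv) (Finset.ne_of_mem_erase hv), hC] at h4
      omega
    have hdg : ∀ u ∈ W.erase r0, ∀ v ∈ W.erase r0, u ≠ v → dg u v := by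
      intro u hu v hv hne
      by_contra hd
      rcases lt_trichotomy (r u) (r v) with h3 | h3 | h3
      · exact main u hu v hv h3 hd
      · exact hne (h.inj u (hBK hu) v (hBK hv) h3)
      · exact main v hv u hu h3 fun h4 => hd (h.symm _ _ h4)
    have fin : ∀ w ∈ W, w ≠ r0 → r0 ∈ W → ¬ dg w r0 → False := by
      intro w hw hw0 hr0 hd
      have hsd : sd K dg w ≤ 3 := by
        have h1 : sd K dg w ≤ ({x, y, r0} : Finset V).card := by
          refine sd_le ?_
          intro a ha haw hda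
          by_contra hcon
          rw [Finset.mem_insert, Finset.mem_insert, Finset.mem_singleton, not_or, not_or] at hcon
          exact hda (hdg w (Finset.mem_erase.mpr ⟨hw0, hw⟩) a (Finset.mem_erase.mpr
            ⟨hcon.2.2, (hmem a).mpr ⟨hcon.2.1, hcon.1, ha⟩⟩) haw.symm)
        exact h1.trans Finset.card_le_three
      have h3 := OI_le h (hWK hw)
      rw [hFC w hw hw0, hC] at h3
      have h4 := G_ge' h (hWK hr0) (hWK hw) hw0.symm (m := 3) (by omega) (by omega)
      have h5 := F_le h (hWK hr0) (hlo r0 (hWK hr0))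
      have h6 := hG1 r0 hr0 w hw hw0.symm fun h7 => hd (h.symm _ _ h7)
      omega
    by_cases h1 : u₀ = r0
    · subst h1
      exact fin v₀ hv₀W huv₀.symm hu₀W fun h2 => hd₀ (h.symm _ _ h2)
    · by_cases h2 : v₀ = r0
      · subst h2
        exact fin u₀ hu₀W h1 hv₀W hd₀
      · exact hd₀ (hdg u₀ (Finset.mem_erase.mpr ⟨h1, hu₀W⟩) v₀ (Finset.mem_erase.mpr ⟨h2, hv₀W⟩)
          huv₀)

/-- (2) good colours of the pairs `a, w` with `a ∈ {x, y}`, `w ∈ W` -/
theorem step2 (h : Loc K r dg P O I k) (hHi : Hi K dg O I = ∅) {x y : V}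
    (h1 : ∀ u ∈ K, ∀ v ∈ K, u ≠ x → u ≠ y → v ≠ x → v ≠ y → u ≠ v → dg u v) {a w : V}
    (ha : a ∈ K) (hw : w ∈ K) (haw : a ≠ w) (hwx : w ≠ x) (hwy : w ≠ y) :
    2 ≤ (G r P k a w).card := by
  have hk := h.hk
  have hlo : ∀ v ∈ K, Lo K dg O I v := fun v hv => lo_of hv (by rw [hHi]; exact Finset.notMem_empty v)
  have hsd : sd K dg w ≤ 2 := by
    have h2 : sd K dg w ≤ ({x, y} : Finset V).card := by
      refine sd_le ?_
      intro b hb hbw hdb
      by_contra hcon
      rw [Finset.mem_insert, Finset.mem_singleton, not_or] at hcon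
      exact hdb (h1 w hw b hb hwx hwy hcon.1 hcon.2 hbw.symm)
    exact h2.trans Finset.card_le_two
  have h3 := OI_le h hw
  have h4 := G_ge' h ha hw haw (m := 4) (by omega) (by omega)
  have h5 := F_le h ha (hlo a ha)
  omega

/-- (3) the case (i) -/
theorem caseI (h : Loc K r dg P O I k) (T : Tees K r dg P O I k)
    (hHi : Hi K dg O I = ∅) {x y : V} (hx : x ∈ K) (hy : y ∈ K)
    (hxy : x ≠ y) (hdxy : ¬ dg x y) {α : ℕ} (hα : α ∈ G r P k x y)
    (h1 : ∀ u ∈ K, ∀ v ∈ K, u ≠ x → u ≠ y → v ≠ x → v ≠ y → u ≠ v → dg u v)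
    (hyW : ∀ w ∈ K, w ≠ x → w ≠ y → dg y w) {w1 : V} (hw1 : w1 ∈ K) (hw1x : w1 ≠ x)
    (hw1y : w1 ≠ y) (hdw1 : ¬ dg x w1) : Obs K dg P k := by
  have hk := h.hk
  -- all pairs of `K \ {x}` are digons
  have hdg : ∀ u ∈ K, ∀ v ∈ K, u ≠ x → v ≠ x → u ≠ v → dg u v := by
    intro u hu v hv hux hvx huv
    by_cases h2 : u = y
    · subst h2
      exact hyW v hv hvx huv.symm
    · by_cases h3 : v = y
      · subst h3
        exact h.symm _ _ (hyW u hu hux huv)
      · exact h1 u hu v hv hux h2 hvx h3 huv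
  have hsd : ∀ v ∈ K, v ≠ x → sd K dg v ≤ 1 := by
    intro v hv hvx
    have h2 : sd K dg v ≤ ({x} : Finset V).card := by
      refine sd_le ?_
      intro b hb hbv hdb
      by_contra hcon
      rw [Finset.mem_singleton] at hcon
      exact hdb (hdg v hv b hb hvx hcon hbv.symm)
    exact h2.trans (by simp)
  have hF1 : ∀ v ∈ K, v ≠ x → (F P k v).card ≤ 1 := by
    intro v hv hvx
    have h2 := F_sd h hv
    have h3 := hsd v hv hvx
    omega
  obtain ⟨c, hc⟩ : ∃ c, ∀ w ∈ K, w ≠ x → w ≠ y → c ∈ F P k w := by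
    rcases T.t10 hHi x hx y hy hxy hdxy α hα with ⟨c, -, hc⟩ | ⟨C, r0, hC, -, hCF⟩
    · exact ⟨c, hc⟩
    · exfalso
      obtain ⟨v, hv, hv2⟩ := exists_out h {x, y, r0} Finset.card_le_three
      rw [Finset.mem_insert, Finset.mem_insert, Finset.mem_singleton, not_or, not_or] at hv2
      have h2 := hF1 v hv hv2.1
      rw [hCF v hv hv2.1 hv2.2.1 hv2.2.2, hC] at h2
      omega
  have hcy : c ∈ F P k y := by
    have h2 := step2 h hHi h1 hx hw1 hw1x.symm hw1x hw1y
    obtain ⟨β, hβ⟩ : (G r P k x w1).Nonempty := Finset.card_pos.mp (by omega)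
    rcases T.t10 hHi x hx w1 hw1 hw1x.symm hdw1 β hβ with ⟨c', -, hc'⟩ | ⟨C, r0, hC, -, hCF⟩
    · obtain ⟨v, hv, hv2⟩ := exists_out h {x, y, w1} Finset.card_le_three
      rw [Finset.mem_insert, Finset.mem_insert, Finset.mem_singleton, not_or, not_or] at hv2
      have h3 := hc v hv hv2.1 hv2.2.1
      have h4 := hc' v hv hv2.1 hv2.2.2
      have h5 := Finset.card_le_one.mp (hF1 v hv hv2.1) c h3 c' h4
      rw [h5]
      exact hc' y hy hxy.symm hw1y.symm
    · exfalso
      obtain ⟨v, hv, hv2⟩ := exists_out h {x, w1, r0} Finset.card_le_three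
      rw [Finset.mem_insert, Finset.mem_insert, Finset.mem_singleton, not_or, not_or] at hv2
      have h3 := hF1 v hv hv2.1
      rw [hCF v hv hv2.1 hv2.2.1 hv2.2.2, hC] at h3
      omega
  refine ⟨K.erase x, {c}, Finset.erase_subset _ _, ⟨y, Finset.mem_erase.mpr ⟨hxy.symm, hy⟩⟩, ?_,
    ?_, ?_, ?_⟩
  · rw [Finset.card_erase_of_mem hx, h.card, Finset.card_singleton]
    omega
  · intro u hu
    rw [Finset.mem_erase] at hu
    rw [Finset.singleton_subset_iff]
    by_cases h2 : u = y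
    · subst h2
      exact hcy
    · exact hc u hu.2 hu.1 h2
  · intro u hu u' hu' hne
    rw [Finset.mem_erase] at hu hu'
    exact hdg u hu.2 u' hu'.2 hu.1 hu'.1 hne
  · intro u hu
    rw [Finset.mem_erase] at hu
    refine ⟨x, hx, ?_⟩
    have h2 := hsd u hu.2 hu.1
    have h3 : ({y, w1} : Finset V).card ≤ sd K dg x := by
      refine le_sd ?_ ?_
      · intro a ha
        rw [Finset.mem_insert, Finset.mem_singleton] at ha
        rcases ha with rfl | rfl
        · exact hy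
        · exact hw1
      · intro a ha
        rw [Finset.mem_insert, Finset.mem_singleton] at ha
        rcases ha with rfl | rfl
        · exact ⟨hxy.symm, hdxy⟩
        · exact ⟨hw1x, hdw1⟩
    rw [Finset.card_pair hw1y.symm] at h3
    omega

/-- (4) the case (ii) -/
theorem caseII (h : Loc K r dg P O I k) (T : Tees K r dg P O I k)
    (hHi : Hi K dg O I = ∅) {x y w0 : V} (hx : x ∈ K) (hy : y ∈ K) (hw0 : w0 ∈ K)
    (hxy : x ≠ y) (hw0x : w0 ≠ x) (hw0y : w0 ≠ y) (hdxy : ¬ dg x y) (hdx : ¬ dg x w0)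
    (hdy : ¬ dg y w0) (h1 : ∀ u ∈ K, ∀ v ∈ K, u ≠ x → u ≠ y → v ≠ x → v ≠ y → u ≠ v → dg u v)
    (h2x : ∀ w ∈ K, w ≠ x → w ≠ y → w ≠ w0 → dg x w)
    (h2y : ∀ w ∈ K, w ≠ x → w ≠ y → w ≠ w0 → dg y w) : False := by
  have hk := h.hk
  -- the other vertices have no simple pairs
  have hF1 : ∀ v ∈ K, v ≠ x → v ≠ y → v ≠ w0 → (F P k v).card ≤ 1 := by
    intro v hv hvx hvy hvw
    have h2 : sd K dg v ≤ (∅ : Finset V).card := by
      refine sd_le ?_
      intro b hb hbv hdb
      exfalso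
      apply hdb
      by_cases h3 : b = x
      · subst h3
        exact h.symm _ _ (h2x v hv hvx hvy hvw)
      · by_cases h4 : b = y
        · subst h4
          exact h.symm _ _ (h2y v hv hvx hvy hvw)
        · exact h1 v hv b hb hvx hvy h3 h4 hbv.symm
    have h3 := F_sd h hv
    rw [Finset.card_empty] at h2
    omega
  have hsx : sd K dg x ≤ 2 := by
    have h2 : sd K dg x ≤ ({y, w0} : Finset V).card := by
      refine sd_le ?_
      intro b hb hbv hdb
      by_contra hcon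
      rw [Finset.mem_insert, Finset.mem_singleton, not_or] at hcon
      exact hdb (h2x b hb hbv hcon.1 hcon.2)
    exact h2.trans Finset.card_le_two
  have hsy : sd K dg y ≤ 2 := by
    have h2 : sd K dg y ≤ ({x, w0} : Finset V).card := by
      refine sd_le ?_
      intro b hb hbv hdb
      by_contra hcon
      rw [Finset.mem_insert, Finset.mem_singleton, not_or] at hcon
      exact hdb (h2y b hb hcon.1 hbv hcon.2)
    exact h2.trans Finset.card_le_two
  have hsw : sd K dg w0 ≤ 2 := by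
    have h2 : sd K dg w0 ≤ ({x, y} : Finset V).card := by
      refine sd_le ?_
      intro b hb hbv hdb
      by_contra hcon
      rw [Finset.mem_insert, Finset.mem_singleton, not_or] at hcon
      exact hdb (h1 w0 hw0 b hb hw0x hw0y hcon.1 hcon.2 hbv.symm)
    exact h2.trans Finset.card_le_two
  obtain ⟨β, hβk, hβ⟩ : ∃ β, β < k ∧
      ¬ (β ∈ O x ∪ O y ∪ O w0 ∧ β ∈ I x ∪ I y ∪ I w0) := by
    by_contra hcon
    push Not at hcon
    have h3 : range k ⊆ O x ∪ O y ∪ O w0 := fun c hc => (hcon c (Finset.mem_range.mp hc)).1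
    have h4 : range k ⊆ I x ∪ I y ∪ I w0 := fun c hc => (hcon c (Finset.mem_range.mp hc)).2
    have h5 := (Finset.card_le_card h3).trans ((Finset.card_union_le _ _).trans
      (Nat.add_le_add_right (Finset.card_union_le _ _) _))
    have h6 := (Finset.card_le_card h4).trans ((Finset.card_union_le _ _).trans
      (Nat.add_le_add_right (Finset.card_union_le _ _) _))
    rw [card_range] at h5 h6
    have h7 := h.deg x hx
    have h8 := h.deg y hy
    have h9 := h.deg w0 hw0
    omega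
  have hO : ∀ u, (u = x ∨ u = y ∨ u = w0) → β ∈ O u → β ∈ O x ∪ O y ∪ O w0 := by
    intro u hu hb
    rcases hu with rfl | rfl | rfl
    · exact Finset.mem_union_left _ (Finset.mem_union_left _ hb)
    · exact Finset.mem_union_left _ (Finset.mem_union_right _ hb)
    · exact Finset.mem_union_right _ hb
  have hI : ∀ u, (u = x ∨ u = y ∨ u = w0) → β ∈ I u → β ∈ I x ∪ I y ∪ I w0 := by
    intro u hu hb
    rcases hu with rfl | rfl | rfl
    · exact Finset.mem_union_left _ (Finset.mem_union_left _ hb)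
    · exact Finset.mem_union_left _ (Finset.mem_union_right _ hb)
    · exact Finset.mem_union_right _ hb
  have hK : ∀ u, (u = x ∨ u = y ∨ u = w0) → u ∈ K := by
    intro u hu
    rcases hu with rfl | rfl | rfl
    · exact hx
    · exact hy
    · exact hw0
  have hval : Val r dg P k {x, y, w0} (fun _ => β) := by
    refine ⟨fun v _ => hβk, ?_, ?_⟩
    · intro u hu v hv huv _
      rw [Finset.mem_insert, Finset.mem_insert, Finset.mem_singleton] at hu hv
      rcases hu with rfl | rfl | rfl <;> rcases hv with rfl | rfl | rfl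
      · exact absurd rfl huv
      · exact hdxy
      · exact hdx
      · exact fun h3 => hdxy (h.symm _ _ h3)
      · exact absurd rfl huv
      · exact hdy
      · exact fun h3 => hdx (h.symm _ _ h3)
      · exact fun h3 => hdy (h.symm _ _ h3)
      · exact absurd rfl huv
    · intro u hu v hv _ _ hP
      rw [Finset.mem_insert, Finset.mem_insert, Finset.mem_singleton] at hu hv
      have h3 := h.PO β u (hK u hu) v (hK v hv) hP
      exact hβ ⟨hO u hu h3.1, hI v hv h3.2⟩
  obtain ⟨C, hC, hCF⟩ := T.t23 hHi x hx y hy w0 hw0 hxy hw0x.symm hw0y.symm β hval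
  obtain ⟨v, hv, hv2⟩ := exists_out h {x, y, w0} Finset.card_le_three
  rw [Finset.mem_insert, Finset.mem_insert, Finset.mem_singleton, not_or, not_or] at hv2
  have h3 := hF1 v hv hv2.1 hv2.2.1 hv2.2.2
  rw [hCF v hv hv2.1 hv2.2.1 hv2.2.2, hC] at h3
  omega

end J0b

open J0b in
theorem s_J0b : S_TRI → S_J0b := by
  intro hTRI V K r dg P O I k h T hHi hTP hD x hx y hy hxy hdxy hne
  obtain ⟨α, hα⟩ := hne
  have hD' : NoTwo K r dg P k := hD
  have h1 := step1 hTRI h T hHi hD' hx hy hxy hdxy hα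
  -- (2)
  have h2 : ∀ w1 ∈ K, ∀ w2 ∈ K, w1 ≠ x → w1 ≠ y → w2 ≠ x → w2 ≠ y → ¬ dg x w1 → ¬ dg y w2 →
      w1 = w2 := by
    intro w1 hw1 w2 hw2 hw1x hw1y hw2x hw2y hd1 hd2
    by_contra hne
    have h3 := step2 (r := r) (P := P) h hHi h1 hx hw1 hw1x.symm hw1x hw1y
    have h4 := step2 (r := r) (P := P) h hHi h1 hy hw2 hw2y.symm hw2x hw2y
    obtain ⟨β2, hβ2⟩ : (G r P k y w2).Nonempty := Finset.card_pos.mp (by omega)
    obtain ⟨β, hβ, γ, hγ, hβγ⟩ := Finset.one_lt_card.mp (show 1 < (G r P k x w1).card by omega)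
    have h5 := hD x hx w1 hw1 y hy w2 hw2 hw1x.symm hw2y.symm hxy hw2x.symm hw1y hne hd1 hd2
      β hβ β2 hβ2
    have h6 := hD x hx w1 hw1 y hy w2 hw2 hw1x.symm hw2y.symm hxy hw2x.symm hw1y hne hd1 hd2
      γ hγ β2 hβ2
    exact hβγ (h5.trans h6.symm)
  -- a simple pair between `{x, y}` and `W`
  have key : ∀ a ∈ K, ∀ b ∈ K, a ≠ b → ¬ dg a b → (a = x ∧ b = y) ∨ (a = y ∧ b = x) ∨
      ∃ w ∈ K, w ≠ x ∧ w ≠ y ∧ (¬ dg x w ∨ ¬ dg y w) := by
    intro a ha b hb hab hd
    have hd' : ¬ dg b a := fun h3 => hd (h.symm _ _ h3)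
    by_cases hax : a = x
    · subst hax
      by_cases hby : b = y
      · exact Or.inl ⟨rfl, hby⟩
      · exact Or.inr (Or.inr ⟨b, hb, hab.symm, hby, Or.inl hd⟩)
    · by_cases hay : a = y
      · subst hay
        by_cases hbx : b = x
        · exact Or.inr (Or.inl ⟨rfl, hbx⟩)
        · exact Or.inr (Or.inr ⟨b, hb, hbx, hab.symm, Or.inr hd⟩)
      · by_cases hbx : b = x
        · subst hbx
          exact Or.inr (Or.inr ⟨a, ha, hax, hay, Or.inl hd'⟩)
        · by_cases hby : b = y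
          · subst hby
            exact Or.inr (Or.inr ⟨a, ha, hax, hay, Or.inr hd'⟩)
          · exact absurd (h1 a ha b hb hax hay hbx hby hab) hd
  have hex : ∃ w ∈ K, w ≠ x ∧ w ≠ y ∧ (¬ dg x w ∨ ¬ dg y w) := by
    obtain ⟨a, ha, b, hb, c, hc, d, hd, hab, hcd, hdab, hdcd, hn1, hn2⟩ := hTP
    rcases key a ha b hb hab hdab with h3 | h3 | h3
    · rcases key c hc d hd hcd hdcd with h4 | h4 | h4
      · exact absurd ⟨h3.1.trans h4.1.symm, h3.2.trans h4.2.symm⟩ hn1
      · exact absurd ⟨h3.1.trans h4.2.symm, h3.2.trans h4.1.symm⟩ hn2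
      · exact h4
    · rcases key c hc d hd hcd hdcd with h4 | h4 | h4
      · exact absurd ⟨h3.1.trans h4.2.symm, h3.2.trans h4.1.symm⟩ hn2
      · exact absurd ⟨h3.1.trans h4.1.symm, h3.2.trans h4.2.symm⟩ hn1
      · exact h4
    · exact h3
  by_cases hY : ∃ w ∈ K, w ≠ x ∧ w ≠ y ∧ ¬ dg y w
  · by_cases hX : ∃ w ∈ K, w ≠ x ∧ w ≠ y ∧ ¬ dg x w
    · exfalso
      obtain ⟨w2, hw2, hw2x, hw2y, hd2⟩ := hY
      obtain ⟨w1, hw1, hw1x, hw1y, hd1⟩ := hX
      have h3 := h2 w1 hw1 w2 hw2 hw1x hw1y hw2x hw2y hd1 hd2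
      subst h3
      refine caseII h T hHi hx hy hw1 hxy hw1x hw1y hdxy hd1 hd2 h1 ?_ ?_
      · intro w hw hwx hwy hwne
        by_contra hcon
        exact hwne (h2 w hw w1 hw1 hwx hwy hw1x hw1y hcon hd2)
      · intro w hw hwx hwy hwne
        by_contra hcon
        exact hwne (h2 w1 hw1 w hw hw1x hw1y hwx hwy hd1 hcon).symm
    · push Not at hX
      obtain ⟨w2, hw2, hw2x, hw2y, hd2⟩ := hY
      refine caseI h T hHi hy hx hxy.symm (fun h3 => hdxy (h.symm _ _ h3))
        (α := α) (by rw [G_comm]; exact hα) ?_ ?_ hw2 hw2y hw2x hd2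
      · intro u hu v hv huy hux hvy hvx huv
        exact h1 u hu v hv hux huy hvx hvy huv
      · intro w hw hwy hwx
        exact hX w hw hwx hwy
  · push Not at hY
    obtain ⟨w, hw, hwx, hwy, hd⟩ := hex
    have hd1 : ¬ dg x w := by
      rcases hd with h3 | h3
      · exact h3
      · exact absurd (hY w hw hwx hwy) h3
    exact caseI h T hHi hx hy hxy hdxy hα h1 hY hw hwx hwy hd1

end Pool.Agent.Lib.MP_ee37cd_co.LL
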