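import Pool.Agent.Lib.MP_ee37cd_co.SpecL

set_option autoImplicit false
set_option linter.unusedVariables false

namespace Pool.Agent.Lib.MP_ee37cd_co.LL

open Finset
open scoped Classical

namespace J0c

variable {V : Type} {K : Finset V} {r : V → ℕ} {dg : V → V → Prop} {P : ℕ → V → V → Prop}
  {O I : V → Finset ℕ} {k : ℕ}

/-- the configuration: two disjoint simple pairs with distinct good colours, the remaining vertices
`W` are pairwise joined by digons, with the same set `C` of bad colours -/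
structure Cfg (K : Finset V) (r : V → ℕ) (dg : V → V → Prop) (P : ℕ → V → V → Prop) (k : ℕ)
    (x y x' y' : V) (α α' : ℕ) (C : Finset ℕ) : Prop where
  hx : x ∈ K
  hy : y ∈ K
  hx' : x' ∈ K
  hy' : y' ∈ K
  n1 : x ≠ y
  n2 : x' ≠ y'
  n3 : x ≠ x'
  n4 : x ≠ y'
  n5 : y ≠ x'
  n6 : y ≠ y'
  d1 : ¬ dg x y
  d2 : ¬ dg x' y'
  g1 : α ∈ G r P k x y
  g2 : α' ∈ G r P k x' y'
  ne : α ≠ α'
  hW : ∀ w ∈ K \ {x, y, x', y'}, ∀ w' ∈ K \ {x, y, x', y'}, w ≠ w' → dg w w'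
  hC : C.card = 2
  hF : ∀ w ∈ K \ {x, y, x', y'}, F P k w = C ∧ (¬ dg w x ∨ ¬ dg w y) ∧ (¬ dg w x' ∨ ¬ dg w y')

theorem mem4 {w x y x' y' : V} : w ∈ K \ {x, y, x', y'} ↔
    w ∈ K ∧ w ≠ x ∧ w ≠ y ∧ w ≠ x' ∧ w ≠ y' := by
  simp only [Finset.mem_sdiff, Finset.mem_insert, Finset.mem_singleton]
  tauto

theorem Cfg.swap1 {x y x' y' : V} {α α' : ℕ} {C : Finset ℕ} (hs : ∀ a b, dg a b → dg b a)
    (c : Cfg K r dg P k x y x' y' α α' C) : Cfg K r dg P k y x x' y' α α' C := by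
  have e : K \ {y, x, x', y'} = K \ {x, y, x', y'} := by
    ext w; rw [mem4, mem4]; tauto
  refine ⟨c.hy, c.hx, c.hx', c.hy', c.n1.symm, c.n2, c.n5, c.n6, c.n3, c.n4,
    fun h => c.d1 (hs _ _ h), c.d2, ?_, c.g2, c.ne, ?_, c.hC, ?_⟩
  · rw [G_comm]; exact c.g1
  · rw [e]; exact c.hW
  · rw [e]
    intro w hw
    obtain ⟨h1, h2, h3⟩ := c.hF w hw
    exact ⟨h1, h2.symm, h3⟩

theorem Cfg.swap2 {x y x' y' : V} {α α' : ℕ} {C : Finset ℕ} (hs : ∀ a b, dg a b → dg b a)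
    (c : Cfg K r dg P k x y x' y' α α' C) : Cfg K r dg P k x' y' x y α' α C := by
  have e : K \ {x', y', x, y} = K \ {x, y, x', y'} := by
    ext w; rw [mem4, mem4]; tauto
  refine ⟨c.hx', c.hy', c.hx, c.hy, c.n2, c.n1, c.n3.symm, c.n5.symm, c.n4.symm, c.n6.symm,
    c.d2, c.d1, c.g2, c.g1, c.ne.symm, ?_, c.hC, ?_⟩
  · rw [e]; exact c.hW
  · rw [e]
    intro w hw
    obtain ⟨h1, h2, h3⟩ := c.hF w hw
    exact ⟨h1, h3, h2⟩

theorem Cfg.cardW {x y x' y' : V} {α α' : ℕ} {C : Finset ℕ} (h : Loc K r dg P O I k)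
    (c : Cfg K r dg P k x y x' y' α α' C) : (K \ {x, y, x', y'}).card + 3 = k := by
  have hsub : ({x, y, x', y'} : Finset V) ⊆ K := by
    intro w hw
    simp only [Finset.mem_insert, Finset.mem_singleton] at hw
    rcases hw with rfl | rfl | rfl | rfl
    · exact c.hx
    · exact c.hy
    · exact c.hx'
    · exact c.hy'
  have h4 : ({x, y, x', y'} : Finset V).card = 4 := by
    rw [Finset.card_insert_of_notMem, Finset.card_insert_of_notMem, Finset.card_pair c.n2]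
    · simp only [Finset.mem_insert, Finset.mem_singleton, not_or]
      exact ⟨c.n5, c.n6⟩
    · simp only [Finset.mem_insert, Finset.mem_singleton, not_or]
      exact ⟨c.n1, c.n3, c.n4⟩
  have h5 := Finset.card_sdiff_of_subset hsub
  have h6 := h.card
  have h7 := h.hk
  have h8 := Finset.card_le_card hsub
  omega

theorem card_le4 (a b c d : V) : ({a, b, c, d} : Finset V).card ≤ 4 := by
  have h1 := Finset.card_insert_le a {b, c, d}
  have h2 := Finset.card_insert_le b {c, d}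
  have h3 := Finset.card_insert_le c {d}
  have h4 : ({d} : Finset V).card = 1 := Finset.card_singleton d
  omega

theorem card_le3 (a b c : V) : ({a, b, c} : Finset V).card ≤ 3 := by
  have h2 := Finset.card_insert_le a {b, c}
  have h3 := Finset.card_insert_le b {c}
  have h4 : ({c} : Finset V).card = 1 := Finset.card_singleton c
  omega

theorem card_le2 (a b : V) : ({a, b} : Finset V).card ≤ 2 := by
  have h3 := Finset.card_insert_le a {b}
  have h4 : ({b} : Finset V).card = 1 := Finset.card_singleton b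
  omega

/-- an element of a set with more than one element, different from a given number -/
theorem ex1 {A : Finset ℕ} (hA : 2 ≤ A.card) (a : ℕ) : ∃ b ∈ A, b ≠ a :=
  Finset.exists_mem_ne hA a

theorem ex2 {A : Finset ℕ} (hA : 3 ≤ A.card) (a a' : ℕ) : ∃ b ∈ A, b ≠ a ∧ b ≠ a' := by
  have h1 : 0 < (A \ {a, a'}).card := by
    have h2 := Finset.le_card_sdiff {a, a'} A
    have h3 : ({a, a'} : Finset ℕ).card ≤ 2 := Finset.card_le_two
    omega
  obtain ⟨b, hb⟩ := Finset.card_pos.1 h1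
  rw [Finset.mem_sdiff, Finset.mem_insert, Finset.mem_singleton, not_or] at hb
  exact ⟨b, hb.1, hb.2.1, hb.2.2⟩

/-- many good colours if the sets of bad colours of the two vertices are equal -/
theorem G_big (h : Loc K r dg P O I k) {u w : V} (hu : u ∈ K) (hw : w ∈ K) (huw : u ≠ w) {m : ℕ}
    (hF : F P k u = F P k w) (h1 : (O w).card ≤ m) (h2 : (I w).card ≤ m) :
    k ≤ (G r P k u w).card + m := by
  rcases lt_trichotomy (r u) (r w) with h3 | h3 | h3
  · have h4 := (G_ge h hu hw h3).1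
    rw [hF, Finset.union_eq_right.2 (F_subO h hw)] at h4
    omega
  · exact absurd (h.inj u hu w hw h3) huw
  · have h4 := (G_ge h hw hu h3).2
    rw [hF, Finset.union_eq_right.2 (F_subI h hw), G_comm] at h4
    omega

theorem Cfg.sdW {x y x' y' : V} {α α' : ℕ} {C : Finset ℕ}
    (c : Cfg K r dg P k x y x' y' α α' C) {w : V} (hw : w ∈ K \ {x, y, x', y'}) :
    sd K dg w ≤ 4 := by
  refine (sd_le (A := {x, y, x', y'}) ?_).trans (card_le4 x y x' y')
  intro a ha haw hd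
  by_contra hcon
  have ha' : a ∈ K \ {x, y, x', y'} := Finset.mem_sdiff.2 ⟨ha, hcon⟩
  exact hd (c.hW w hw a ha' haw.symm)

theorem Cfg.OI4 {x y x' y' : V} {α α' : ℕ} {C : Finset ℕ} (h : Loc K r dg P O I k)
    (c : Cfg K r dg P k x y x' y' α α' C) {w : V} (hw : w ∈ K \ {x, y, x', y'}) :
    (O w).card ≤ 4 ∧ (I w).card ≤ 4 := by
  have h1 := OI_le h (mem4.1 hw).1
  rw [(c.hF w hw).1, c.hC] at h1
  have h2 := c.sdW hw
  omega

theorem F2 (h : Loc K r dg P O I k) (hHi : Hi K dg O I = ∅) {v : V} (hv : v ∈ K) :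
    (F P k v).card ≤ 2 :=
  F_le h hv (lo_of hv (by rw [hHi]; exact Finset.notMem_empty v))

/-- an element of `W` different from a given one -/
theorem Cfg.exW {x y x' y' : V} {α α' : ℕ} {C : Finset ℕ} (h : Loc K r dg P O I k)
    (c : Cfg K r dg P k x y x' y' α α' C) (w : V) : ∃ w' ∈ K \ {x, y, x', y'}, w' ≠ w := by
  have h1 := c.cardW h
  have h2 := h.hk
  exact Finset.exists_mem_ne (by omega) w

theorem Cfg.sw {x y x' y' : V} {α α' : ℕ} {C : Finset ℕ} (h : Loc K r dg P O I k)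
    (T : Tees K r dg P O I k) (hHi : Hi K dg O I = ∅)
    (c : Cfg K r dg P k x y x' y' α α' C) {w : V} (hw : w ∈ K \ {x, y, x', y'})
    (hd : ¬ dg w x) : F P k y = C ∧ ∀ w' ∈ K \ {x, y, x', y'}, ¬ dg w' x := by
  obtain ⟨m0, m1, m2, m3, m4⟩ := mem4.1 hw
  obtain ⟨o1, o2⟩ := c.OI4 h hw
  have hk := h.hk
  have hG := G_ge' h c.hx m0 m1.symm o1 o2
  have hFx := F2 h hHi c.hx
  obtain ⟨β, hβ, hβ'⟩ := ex1 (A := G r P k x w) (by omega) α'
  obtain ⟨C', hC', a1, a2, a3⟩ := T.t22 hHi x c.hx w m0 x' c.hx' y' c.hy' m1.symm c.n2 c.n3 c.n4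
    m3 m4 (fun hh => hd (h.symm _ _ hh)) c.d2 β hβ α' c.g2 hβ'
  have hCC : C' = C := by
    obtain ⟨w1, hw1, hne⟩ := c.exW h w
    obtain ⟨b0, b1, b2, b3, b4⟩ := mem4.1 hw1
    have e1 := (a3 w1 b0 b1 hne b3 b4).1
    have e2 := (c.hF w1 hw1).1
    rw [← e1, e2]
  refine ⟨?_, ?_⟩
  · rw [← hCC]
    exact (a3 y c.hy c.n1.symm m2.symm c.n5 c.n6).1
  · intro w' hw'
    by_cases hww : w' = w
    · rw [hww]; exact hd
    · obtain ⟨b0, b1, b2, b3, b4⟩ := mem4.1 hw'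
      rcases (a3 w' b0 b1 hww b3 b4).2.1 with h5 | h5
      · exact h5
      · exact absurd (c.hW w' hw' w hw hww) h5

theorem Cfg.notboth {x y x' y' : V} {α α' : ℕ} {C : Finset ℕ} (h : Loc K r dg P O I k)
    (T : Tees K r dg P O I k) (hHi : Hi K dg O I = ∅)
    (c : Cfg K r dg P k x y x' y' α α' C) {w w' : V} (hw : w ∈ K \ {x, y, x', y'})
    (hd : ¬ dg w x) (hw' : w' ∈ K \ {x, y, x', y'}) (hd' : ¬ dg w' y) : False := by
  have hk := h.hk
  obtain ⟨e1, e2⟩ := c.sw h T hHi hw hd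
  have cs := c.swap1 h.symm
  have eW : K \ {y, x, x', y'} = K \ {x, y, x', y'} := by
    ext w; rw [mem4, mem4]; tauto
  obtain ⟨e3, e4⟩ := cs.sw h T hHi (by rw [eW]; exact hw') hd'
  rw [eW] at e4
  obtain ⟨w1, hw1, hne1⟩ := c.exW h x
  obtain ⟨w2, hw2, hne2⟩ := c.exW h w1
  obtain ⟨m0, m1, m2, m3, m4⟩ := mem4.1 hw1
  obtain ⟨l0, l1, l2, l3, l4⟩ := mem4.1 hw2
  obtain ⟨o1, o2⟩ := c.OI4 h hw1
  obtain ⟨o3, o4⟩ := c.OI4 h hw2
  have G1 := G_big h c.hx m0 m1.symm (e3.trans (c.hF w1 hw1).1.symm) o1 o2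
  have G2 := G_big h c.hy l0 l2.symm (e1.trans (c.hF w2 hw2).1.symm) o3 o4
  obtain ⟨β1, hβ1, b1⟩ := ex1 (A := G r P k x w1) (by omega) α'
  obtain ⟨β2, hβ2, b2, b3⟩ := ex2 (A := G r P k y w2) (by omega) α' β1
  have := T.t33 hHi x c.hx w1 m0 y c.hy w2 l0 x' c.hx' y' c.hy' m1.symm l2.symm c.n2 c.n1
    l1.symm m2 hne2.symm c.n3 c.n4 m3 m4 c.n5 c.n6 l3 l4
    (fun hh => e2 w1 hw1 (h.symm _ _ hh)) (fun hh => e4 w2 hw2 (h.symm _ _ hh)) c.d2
    β1 hβ1 β2 hβ2 α' c.g2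
  rcases this with h1 | h1 | h1
  · exact b3 h1.symm
  · exact b1 h1
  · exact b2 h1

theorem Cfg.main {x y x' y' : V} {α α' : ℕ} {C : Finset ℕ} (h : Loc K r dg P O I k)
    (T : Tees K r dg P O I k) (hHi : Hi K dg O I = ∅)
    (c : Cfg K r dg P k x y x' y' α α' C) (hx : ∀ w ∈ K \ {x, y, x', y'}, ¬ dg w x)
    (hx' : ∀ w ∈ K \ {x, y, x', y'}, ¬ dg w x') (hy : ∀ w ∈ K \ {x, y, x', y'}, dg w y)
    (hy' : ∀ w ∈ K \ {x, y, x', y'}, dg w y') (Fy : F P k y = C) (Fy' : F P k y' = C) :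
    Obs K dg P k := by
  have hk := h.hk
  have hW := c.cardW h
  have hC := c.hC
  have hsd : ∀ w ∈ K \ {x, y, x', y'}, sd K dg w ≤ 2 := by
    intro w hw
    refine (sd_le (A := {x, x'}) ?_).trans (card_le2 x x')
    intro a ha haw hd
    by_contra hcon
    rw [Finset.mem_insert, Finset.mem_singleton, not_or] at hcon
    by_cases h1 : a = y
    · exact hd (h1 ▸ hy w hw)
    by_cases h2 : a = y'
    · exact hd (h2 ▸ hy' w hw)
    exact hd (c.hW w hw a (mem4.2 ⟨ha, hcon.1, h1, hcon.2, h2⟩) haw.symm)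
  have hOI : ∀ w ∈ K \ {x, y, x', y'}, (O w).card ≤ 2 ∧ (I w).card ≤ 2 := by
    intro w hw
    have h1 := OI_le h (mem4.1 hw).1
    rw [(c.hF w hw).1, c.hC] at h1
    have h2 := hsd w hw
    omega
  -- the pair `y, y'` is a digon
  have hyy : dg y y' := by
    by_contra hcon
    obtain ⟨w1, hw1, hne1⟩ := c.exW h x
    obtain ⟨w2, hw2, hne2⟩ := c.exW h w1
    obtain ⟨m0, m1, m2, m3, m4⟩ := mem4.1 hw1
    obtain ⟨l0, l1, l2, l3, l4⟩ := mem4.1 hw2
    have G1 := G_ge' h c.hx m0 m1.symm (hOI w1 hw1).1 (hOI w1 hw1).2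
    have G2 := G_ge' h c.hx' l0 l3.symm (hOI w2 hw2).1 (hOI w2 hw2).2
    have F1 := F2 h hHi c.hx
    have F3 := F2 h hHi c.hx'
    have hsy : sd K dg y' ≤ 3 := by
      refine (sd_le (A := {x, x', y}) ?_).trans (card_le3 x x' y)
      intro a ha haw hd
      by_contra hcon2
      rw [Finset.mem_insert, Finset.mem_insert, Finset.mem_singleton, not_or, not_or] at hcon2
      exact hd (h.symm _ _ (hy' a (mem4.2 ⟨ha, hcon2.1, hcon2.2.2, hcon2.2.1, haw⟩)))
    have hOy := OI_le h c.hy'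
    rw [Fy', hC] at hOy
    have G3 := G_ge' h c.hy c.hy' c.n6 (m := 3) (by omega) (by omega)
    rw [Fy, hC] at G3
    obtain ⟨β3, hβ3⟩ := Finset.card_pos.1 (show 0 < (G r P k y y').card by omega)
    obtain ⟨β1, hβ1, b1⟩ := ex1 (A := G r P k x w1) (by omega) β3
    obtain ⟨β2, hβ2, b2, b3⟩ := ex2 (A := G r P k x' w2) (by omega) β3 β1
    have := T.t33 hHi x c.hx w1 m0 x' c.hx' w2 l0 y c.hy y' c.hy' m1.symm l3.symm c.n6 c.n3
      l1.symm m3 hne2.symm c.n1 c.n4 m2 m4 c.n5.symm c.n2 l2 l4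
      (fun hh => hx w1 hw1 (h.symm _ _ hh)) (fun hh => hx' w2 hw2 (h.symm _ _ hh)) hcon
      β1 hβ1 β2 hβ2 β3 hβ3
    rcases this with h1 | h1 | h1
    · exact b3 h1.symm
    · exact b1 h1
    · exact b2 h1
  -- membership in `U`
  have hU : ∀ u, u ∈ K \ {x, x'} ↔ u ∈ K \ {x, y, x', y'} ∨ u = y ∨ u = y' := by
    intro u
    rw [mem4]
    simp only [Finset.mem_sdiff, Finset.mem_insert, Finset.mem_singleton, not_or]
    constructor
    · rintro ⟨u0, u1, u2⟩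
      by_cases h1 : u = y
      · exact Or.inr (Or.inl h1)
      by_cases h2 : u = y'
      · exact Or.inr (Or.inr h2)
      exact Or.inl ⟨u0, u1, h1, u2, h2⟩
    · rintro (⟨u0, u1, _, u3, _⟩ | h1 | h1)
      · exact ⟨u0, u1, u3⟩
      · exact h1 ▸ ⟨c.hy, c.n1.symm, c.n5⟩
      · exact h1 ▸ ⟨c.hy', c.n4.symm, c.n2.symm⟩
  have hdig : ∀ u ∈ K \ {x, x'}, ∀ u' ∈ K \ {x, x'}, u ≠ u' → dg u u' := by
    intro u hu u' hu' hne
    rcases (hU u).1 hu with h1 | h1 | h1 <;> rcases (hU u').1 hu' with h2 | h2 | h2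
    · exact c.hW u h1 u' h2 hne
    · rw [h2]; exact hy u h1
    · rw [h2]; exact hy' u h1
    · rw [h1]; exact h.symm _ _ (hy u' h2)
    · exact absurd (h1.trans h2.symm) hne
    · rw [h1, h2]; exact hyy
    · rw [h1]; exact h.symm _ _ (hy' u' h2)
    · rw [h1, h2]; exact h.symm _ _ hyy
    · exact absurd (h1.trans h2.symm) hne
  have hsubU : ({x, x'} : Finset V) ⊆ K := by
    intro w hw
    rw [Finset.mem_insert, Finset.mem_singleton] at hw
    rcases hw with rfl | rfl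
    · exact c.hx
    · exact c.hx'
  have hcardU : (K \ {x, x'}).card + 1 = k := by
    have h5 := Finset.card_sdiff_of_subset hsubU
    have h6 := h.card
    rw [Finset.card_pair c.n3] at h5
    omega
  refine ⟨K \ {x, x'}, C, Finset.sdiff_subset, ?_, ?_, ?_, hdig, ?_⟩
  · exact Finset.card_pos.1 (by omega)
  · omega
  · intro u hu
    rcases (hU u).1 hu with h1 | h1 | h1
    · rw [(c.hF u h1).1]
    · rw [h1, Fy]
    · rw [h1, Fy']
  · intro u hu
    refine ⟨x, c.hx, ?_⟩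
    have h1 : sd K dg u ≤ 2 := by
      refine (sd_le (A := {x, x'}) ?_).trans (card_le2 x x')
      intro a ha hau hd
      by_contra hcon
      exact hd (hdig u hu a (Finset.mem_sdiff.2 ⟨ha, hcon⟩) hau.symm)
    have h2 : (K \ {x, y, x', y'}).card ≤ sd K dg x :=
      le_sd Finset.sdiff_subset (fun a ha =>
        ⟨(mem4.1 ha).2.1, fun hh => hx a ha (h.symm _ _ hh)⟩)
    omega

end J0c

open J0c in
theorem s_J0c : S_J0c := by
  intro V K r dg P O I k h T hHi x hx y hy x' hx' y' hy' n1 n2 n3 n4 n5 n6 d1 d2 α g1 α' g2 ne hWW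
  have hk := h.hk
  obtain ⟨C, hC, _, _, hF⟩ := T.t22 hHi x hx y hy x' hx' y' hy' n1 n2 n3 n4 n5 n6 d1 d2 α g1 α' g2
    ne
  have c : Cfg K r dg P k x y x' y' α α' C := by
    refine ⟨hx, hy, hx', hy', n1, n2, n3, n4, n5, n6, d1, d2, g1, g2, ne, ?_, hC, ?_⟩
    · intro w hw w' hw' hww
      obtain ⟨m0, m1, m2, m3, m4⟩ := mem4.1 hw
      obtain ⟨l0, l1, l2, l3, l4⟩ := mem4.1 hw'
      exact hWW w m0 w' l0 m1 m2 m3 m4 l1 l2 l3 l4 hww
    · intro w hw
      obtain ⟨m0, m1, m2, m3, m4⟩ := mem4.1 hw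
      exact hF w m0 m1 m2 m3 m4
  -- it is enough to treat the case that the first vertices of the pairs are simple to a vertex
  have key : ∀ (x y x' y' : V) (α α' : ℕ), Cfg K r dg P k x y x' y' α α' C →
      ∀ w ∈ K \ {x, y, x', y'}, ¬ dg w x → ¬ dg w x' → Obs K dg P k := by
    intro x y x' y' α α' c w hw hd hd'
    have e2 : K \ {x', y', x, y} = K \ {x, y, x', y'} := by
      ext w; rw [mem4, mem4]; tauto
    have c2 := c.swap2 h.symm
    obtain ⟨s1, s2⟩ := c.sw h T hHi hw hd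
    obtain ⟨s3, s4⟩ := c2.sw h T hHi (by rw [e2]; exact hw) hd'
    rw [e2] at s4
    refine c.main h T hHi s2 s4 ?_ ?_ s1 s3
    · intro u hu
      by_contra hcon
      exact c.notboth h T hHi hw hd hu hcon
    · intro u hu
      by_contra hcon
      exact c2.notboth h T hHi (by rw [e2]; exact hw) hd' (by rw [e2]; exact hu) hcon
  obtain ⟨w, hw, _⟩ := c.exW h x
  obtain ⟨m0, m1, m2, m3, m4⟩ := mem4.1 hw
  obtain ⟨_, q1, q2⟩ := c.hF w hw
  have c1 := c.swap1 h.symm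
  have c3 := ((c.swap2 h.symm).swap1 h.symm).swap2 h.symm
  have c4 := ((c1.swap2 h.symm).swap1 h.symm).swap2 h.symm
  rcases q1 with q1 | q1 <;> rcases q2 with q2 | q2
  · exact key x y x' y' α α' c w hw q1 q2
  · exact key x y y' x' α α' c3 w (mem4.2 ⟨m0, m1, m2, m4, m3⟩) q1 q2
  · exact key y x x' y' α α' c1 w (mem4.2 ⟨m0, m2, m1, m3, m4⟩) q1 q2
  · exact key y x y' x' α α' c4 w (mem4.2 ⟨m0, m2, m1, m4, m3⟩) q1 q2

end Pool.Agent.Lib.MP_ee37cd_co.LL
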