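import Pool.Agent.Lib.MP_ee37cd_co.SpecL

/-!
# MP_ee37cd_co: J0d

`Hi = ∅`, two disjoint simple pairs with distinct good colours, and a simple pair in the rest:
impossible.
-/

set_option autoImplicit false

namespace Pool.Agent.Lib.MP_ee37cd_co.LL

open Finset
open scoped Classical

namespace J0d

variable {V : Type} {K : Finset V} {r : V → ℕ} {dg : V → V → Prop} {P : ℕ → V → V → Prop}
  {O I : V → Finset ℕ} {k : ℕ}

/-- the vertices different from four given ones -/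
noncomputable def W4 (K : Finset V) (x y x' y' : V) : Finset V :=
  K.filter (fun w => w ≠ x ∧ w ≠ y ∧ w ≠ x' ∧ w ≠ y')

theorem mem_W4 {x y x' y' w : V} :
    w ∈ W4 K x y x' y' ↔ w ∈ K ∧ w ≠ x ∧ w ≠ y ∧ w ≠ x' ∧ w ≠ y' := by
  simp [W4]

theorem card_W4 {x y x' y' : V} (hx : x ∈ K) (hy : y ∈ K) (hx' : x' ∈ K) (hy' : y' ∈ K)
    (h1 : x ≠ y) (h2 : x' ≠ y') (h3 : x ≠ x') (h4 : x ≠ y') (h5 : y ≠ x') (h6 : y ≠ y') :
    (W4 K x y x' y').card + 4 = K.card := by
  have e : W4 K x y x' y' = (((K.erase x).erase y).erase x').erase y' := by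
    ext w
    simp only [mem_W4, Finset.mem_erase]
    tauto
  have m2 : y ∈ K.erase x := Finset.mem_erase.2 ⟨h1.symm, hy⟩
  have m3 : x' ∈ (K.erase x).erase y :=
    Finset.mem_erase.2 ⟨h5.symm, Finset.mem_erase.2 ⟨h3.symm, hx'⟩⟩
  have m4 : y' ∈ ((K.erase x).erase y).erase x' :=
    Finset.mem_erase.2 ⟨h2.symm, Finset.mem_erase.2 ⟨h6.symm, Finset.mem_erase.2 ⟨h4.symm, hy'⟩⟩⟩
  have c1 := Finset.card_erase_add_one hx
  have c2 := Finset.card_erase_add_one m2
  have c3 := Finset.card_erase_add_one m3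
  have c4 := Finset.card_erase_add_one m4
  rw [e]
  omega

/-- the hypotheses, for the pairs `a, b` and `a', b'` -/
structure Ctx (K : Finset V) (r : V → ℕ) (dg : V → V → Prop) (P : ℕ → V → V → Prop)
    (O I : V → Finset ℕ) (k : ℕ) (a b a' b' : V) (γ : ℕ) : Prop where
  h : Loc K r dg P O I k
  T : Tees K r dg P O I k
  hHi : Hi K dg O I = ∅
  ha : a ∈ K
  hb : b ∈ K
  ha' : a' ∈ K
  hb' : b' ∈ K
  h1 : a ≠ b
  h2 : a' ≠ b'
  h3 : a ≠ a'
  h4 : a ≠ b'
  h5 : b ≠ a'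
  h6 : b ≠ b'
  d1 : ¬ dg a b
  d2 : ¬ dg a' b'
  hγ : γ ∈ G r P k a' b'
  hα : ∃ α ∈ G r P k a b, α ≠ γ

/-- the consequences for `W` -/
structure Fct (K : Finset V) (r : V → ℕ) (dg : V → V → Prop) (P : ℕ → V → V → Prop)
    (O I : V → Finset ℕ) (k : ℕ) (W : Finset V) (C : Finset ℕ) : Prop where
  c2 : C.card = 2
  cr : C ⊆ range k
  hF : ∀ w ∈ W, F P k w = C
  wk : W.card + 3 = k
  low : ∀ u ∈ W, ∀ v ∈ W, r u < r v → ¬ dg u v → k ≤ (I u).card + 2 ∧ k ≤ (O v).card + 2 ∧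
    k ≤ sd K dg u + 2 ∧ k ≤ sd K dg v + 2
  tri : ∀ u ∈ W, ∀ v ∈ W, u ≠ v → ¬ dg u v → W.card + sd K dg u + sd K dg v ≤ 2 * k + 2 ∧
    ∀ w ∈ W, w ≠ u → w ≠ v → dg w u ∨ dg w v

theorem lo_all (hHi : Hi K dg O I = ∅) {v : V} (hv : v ∈ K) : Lo K dg O I v :=
  lo_of hv (by rw [hHi]; exact Finset.notMem_empty _)

theorem facts (hT : S_TRI) {a b a' b' : V} {γ : ℕ} (X : Ctx K r dg P O I k a b a' b' γ) :
    ∃ C : Finset ℕ, Fct K r dg P O I k (W4 K a b a' b') C := by
  obtain ⟨α, hα, hαγ⟩ := X.hα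
  have hk := X.h.hk
  obtain ⟨C, hC2, -, -, hC⟩ := X.T.t22 X.hHi a X.ha b X.hb a' X.ha' b' X.hb' X.h1 X.h2 X.h3 X.h4
    X.h5 X.h6 X.d1 X.d2 α hα γ X.hγ hαγ
  have hF : ∀ w ∈ W4 K a b a' b', F P k w = C := by
    intro w hw
    obtain ⟨hwK, w1, w2, w3, w4⟩ := mem_W4.1 hw
    exact (hC w hwK w1 w2 w3 w4).1
  have hWc := card_W4 X.ha X.hb X.ha' X.hb' X.h1 X.h2 X.h3 X.h4 X.h5 X.h6
  rw [X.h.card] at hWc
  have hlow : ∀ u ∈ W4 K a b a' b', ∀ v ∈ W4 K a b a' b', r u < r v → ¬ dg u v →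
      k ≤ (I u).card + 2 ∧ k ≤ (O v).card + 2 ∧ k ≤ sd K dg u + 2 ∧ k ≤ sd K dg v + 2 := by
    intro u hu v hv huv hd
    obtain ⟨huK, u1, u2, u3, u4⟩ := mem_W4.1 hu
    obtain ⟨hvK, v1, v2, v3, v4⟩ := mem_W4.1 hv
    have hne : u ≠ v := fun e => by
      rw [e] at huv
      exact lt_irrefl _ huv
    have hG : G r P k u v ⊆ {α, γ} := by
      intro β hβ
      rw [Finset.mem_insert, Finset.mem_singleton]
      rcases X.T.t33 X.hHi a X.ha b X.hb a' X.ha' b' X.hb' u huK v hvK X.h1 X.h2 hne X.h3 X.h4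
        X.h5 X.h6 u1.symm v1.symm u2.symm v2.symm u3.symm v3.symm u4.symm v4.symm X.d1 X.d2 hd
        α hα γ X.hγ β hβ with e | e | e
      · exact absurd e hαγ
      · exact Or.inl e.symm
      · exact Or.inr e.symm
    have hG2 : (G r P k u v).card ≤ 2 := (Finset.card_le_card hG).trans Finset.card_le_two
    have g := G_ge X.h huK hvK huv
    have e1 : F P k u ∪ O v = O v := by
      rw [hF u hu, ← hF v hv]
      exact Finset.union_eq_right.2 (F_subO X.h hvK)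
    have e2 : F P k v ∪ I u = I u := by
      rw [hF v hv, ← hF u hu]
      exact Finset.union_eq_right.2 (F_subI X.h huK)
    rw [e1, e2] at g
    have ou := OI_le X.h huK
    have ov := OI_le X.h hvK
    rw [hF u hu, hC2] at ou
    rw [hF v hv, hC2] at ov
    omega
  refine ⟨C, hC2, ?_, hF, by omega, hlow, ?_⟩
  · obtain ⟨w, hw⟩ : (W4 K a b a' b').Nonempty := Finset.card_pos.1 (by omega)
    rw [← hF w hw]
    exact F_range
  · intro u hu v hv huv hd
    refine hT V K r dg P O I k X.h (W4 K a b a' b') (fun w hw => (mem_W4.1 hw).1)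
      (fun w hw => lo_all X.hHi (mem_W4.1 hw).1) ?_ u hu v hv huv hd
    intro u hu v hv huv hd
    have := hlow u hu v hv huv hd
    exact ⟨this.2.1, this.1⟩

/-- lower bound for the number of good colours, by the sets `O` -/
theorem G_lo (h : Loc K r dg P O I k) {u l : V} (hu : u ∈ K) (hl : l ∈ K) (hne : u ≠ l) {m : ℕ}
    (h1 : (F P k l ∪ O u).card ≤ m) (h2 : (F P k u ∪ O l).card ≤ m) :
    k ≤ (G r P k u l).card + m := by
  rcases lt_trichotomy (r u) (r l) with h3 | h3 | h3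
  · have := (G_ge h hu hl h3).1
    omega
  · exact absurd (h.inj u hu l hl h3) hne
  · have := (G_ge h hl hu h3).1
    rw [G_comm] at this
    omega

/-- lower bound for the number of good colours, by the sets `I` -/
theorem G_up (h : Loc K r dg P O I k) {u l : V} (hu : u ∈ K) (hl : l ∈ K) (hne : u ≠ l) {m : ℕ}
    (h1 : (F P k l ∪ I u).card ≤ m) (h2 : (F P k u ∪ I l).card ≤ m) :
    k ≤ (G r P k u l).card + m := by
  rcases lt_trichotomy (r u) (r l) with h3 | h3 | h3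
  · have := (G_ge h hu hl h3).2
    omega
  · exact absurd (h.inj u hu l hl h3) hne
  · have := (G_ge h hl hu h3).2
    rw [G_comm] at this
    omega

theorem card_union_le' (C A : Finset ℕ) : (C ∪ A).card ≤ C.card + (A \ C).card := by
  rw [← Finset.union_sdiff_self_eq_union]
  exact Finset.card_union_le _ _

/-- the sizes of `O u` and `I u` outside `C` -/
theorem split (h : Loc K r dg P O I k) {u : V} (hu : u ∈ K) (hlo : Lo K dg O I u)
    {C : Finset ℕ} (hC : C.card = 2) (hCr : C ⊆ range k) :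
    (O u \ C).card + (I u \ C).card ≤ k ∧
      (C ⊆ O u ∩ I u → (O u \ C).card + (I u \ C).card + 2 ≤ k) := by
  have h1 := Finset.card_union_add_card_inter (O u \ C) (I u \ C)
  have h2 : (O u \ C) ∪ (I u \ C) ⊆ range k \ C := by
    intro c hc
    rw [Finset.mem_union, Finset.mem_sdiff, Finset.mem_sdiff] at hc
    rw [Finset.mem_sdiff]
    rcases hc with hc | hc
    · exact ⟨h.O_lt u hu hc.1, hc.2⟩
    · exact ⟨h.I_lt u hu hc.1, hc.2⟩
  have h3 := Finset.card_le_card h2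
  have h4 : (range k \ C).card + 2 = k := by
    rw [← hC, Finset.card_sdiff_add_card_eq_card hCr, card_range]
  have h5 : (O u \ C) ∩ (I u \ C) ⊆ (O u ∩ I u) \ C := by
    intro c hc
    simp only [Finset.mem_inter, Finset.mem_sdiff] at hc ⊢
    exact ⟨⟨hc.1.1, hc.2.1⟩, hc.1.2⟩
  have h6 := Finset.card_le_card h5
  have h7 := Finset.card_le_card (Finset.sdiff_subset (s := O u ∩ I u) (t := C))
  have h8 := inter_le h hu hlo
  refine ⟨by omega, fun hCs => ?_⟩
  have h9 := Finset.card_sdiff_add_card_eq_card hCs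
  omega

/-- choice of distinct colours -/
theorem choose3 {A B : Finset ℕ} (γ : ℕ) (hA : 3 ≤ A.card) (hB : 3 ≤ B.card) :
    ∃ β1 ∈ A, ∃ β2 ∈ B, β1 ≠ β2 ∧ β1 ≠ γ ∧ β2 ≠ γ := by
  have h1 := Finset.pred_card_le_card_erase (s := B) (a := γ)
  obtain ⟨β2, hβ2⟩ : (B.erase γ).Nonempty := Finset.card_pos.1 (by omega)
  have h2 := Finset.pred_card_le_card_erase (s := A) (a := γ)
  have h3 := Finset.pred_card_le_card_erase (s := A.erase γ) (a := β2)
  obtain ⟨β1, hβ1⟩ : ((A.erase γ).erase β2).Nonempty := Finset.card_pos.1 (by omega)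
  rw [Finset.mem_erase, Finset.mem_erase] at hβ1
  rw [Finset.mem_erase] at hβ2
  exact ⟨β1, hβ1.2.2, β2, hβ2.2, hβ1.1, hβ1.2.1, hβ2.1⟩

/-- at least one element besides three given ones -/
theorem exists_other {W : Finset V} (hW : 5 ≤ W.card) (p q : V) : ∃ w ∈ W, w ≠ p ∧ w ≠ q := by
  have h1 := Finset.pred_card_le_card_erase (s := W) (a := p)
  have h2 := Finset.pred_card_le_card_erase (s := W.erase p) (a := q)
  obtain ⟨w, hw⟩ : ((W.erase p).erase q).Nonempty := Finset.card_pos.1 (by omega)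
  rw [Finset.mem_erase, Finset.mem_erase] at hw
  exact ⟨w, hw.2.2, hw.2.1, hw.1⟩

/-- a vertex with `sd ≥ k - 2` has at most two digons -/
theorem nd_two (h : Loc K r dg P O I k) {v : V} (hv : v ∈ K) (hs : k ≤ sd K dg v + 2) :
    (nd K dg v).card ≤ 2 := by
  have := card_nd h hv
  omega

/-- three distinct vertices are not all joined to `v` -/
theorem not_three (h : Loc K r dg P O I k) {v : V} (hv : v ∈ K) (hs : k ≤ sd K dg v + 2)
    {p q t : V} (hp : p ∈ K) (hq : q ∈ K) (ht : t ∈ K) (hpv : p ≠ v) (hqv : q ≠ v) (htv : t ≠ v)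
    (hpq : p ≠ q) (hpt : p ≠ t) (hqt : q ≠ t) : ¬ dg v p ∨ ¬ dg v q ∨ ¬ dg v t := by
  by_contra hcon
  rw [not_or, not_or, not_not, not_not, not_not] at hcon
  obtain ⟨e1, e2, e3⟩ := hcon
  have h1 := nd_two h hv hs
  have h2 : ({p, q, t} : Finset V) ⊆ nd K dg v := by
    intro w hw
    rw [Finset.mem_insert, Finset.mem_insert, Finset.mem_singleton] at hw
    rcases hw with rfl | rfl | rfl
    · exact mem_nd.2 ⟨hp, hpv, e1⟩
    · exact mem_nd.2 ⟨hq, hqv, e2⟩
    · exact mem_nd.2 ⟨ht, htv, e3⟩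
  have h3 := Finset.card_le_card h2
  have h4 : ({p, q, t} : Finset V).card = 3 := Finset.card_eq_three.2 ⟨p, q, t, hpq, hpt, hqt, rfl⟩
  omega

/-- there is a vertex of `W` other than `z`, `z'` which is simple to `v` -/
theorem exists_simple (h : Loc K r dg P O I k) {W : Finset V} (hWK : W ⊆ K) (hW : 5 ≤ W.card)
    {v : V} (hv : v ∈ K) (hs : k ≤ sd K dg v + 2) (z z' : V) :
    ∃ l ∈ W, l ≠ z ∧ l ≠ z' ∧ (l = v ∨ ¬ dg v l) := by
  by_contra hcon
  have h1 : (W.erase z).erase z' ⊆ nd K dg v := by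
    intro w hw
    rw [Finset.mem_erase, Finset.mem_erase] at hw
    have h2 : ¬ (w = v ∨ ¬ dg v w) := fun h3 => hcon ⟨w, hw.2.2, hw.2.1, hw.1, h3⟩
    rw [not_or, not_not] at h2
    exact mem_nd.2 ⟨hWK hw.2.2, h2.1, h2.2⟩
  have h3 := Finset.card_le_card h1
  have h4 := nd_two h hv hs
  have h5 := Finset.pred_card_le_card_erase (s := W) (a := z)
  have h6 := Finset.pred_card_le_card_erase (s := W.erase z) (a := z')
  omega

section core

variable {a b a' b' z z' : V} {γ : ℕ} {C : Finset ℕ}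

/-- `(1)` -/
theorem step1 (X : Ctx K r dg P O I k a b a' b' γ)
    (Y : Fct K r dg P O I k (W4 K a b a' b') C) (hk9 : k ≤ 9)
    (hz : z ∈ W4 K a b a' b') (hz' : z' ∈ W4 K a b a' b') (hOz : (O z).card ≤ 4)
    (hIz : (I z').card ≤ 4) {u : V} (hu : u ∈ K) (huz : u ≠ z) (huz' : u ≠ z')
    (hdz : ¬ dg z u) (hdz' : ¬ dg z' u) :
    ∃ t, (t = z ∨ t = z') ∧ ¬ dg u t ∧ ∃ β ∈ G r P k u t, β ≠ γ := by
  have hk := X.h.hk
  have hs := (split X.h hu (lo_all X.hHi hu) Y.c2 Y.cr).1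
  have hFu := F_le X.h hu (lo_all X.hHi hu)
  have hzK := (mem_W4.1 hz).1
  have hzK' := (mem_W4.1 hz').1
  have pick : ∀ t, 2 ≤ (G r P k u t).card → ∃ β ∈ G r P k u t, β ≠ γ := by
    intro t ht
    have h1 := Finset.pred_card_le_card_erase (s := G r P k u t) (a := γ)
    obtain ⟨β, hβ⟩ : ((G r P k u t).erase γ).Nonempty := Finset.card_pos.1 (by omega)
    rw [Finset.mem_erase] at hβ
    exact ⟨β, hβ.2, hβ.1⟩
  by_cases h1 : (O u \ C).card ≤ 4
  · refine ⟨z, Or.inl rfl, fun e => hdz (X.h.symm _ _ e), pick z ?_⟩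
    have h2 : (F P k z ∪ O u).card ≤ 6 := by
      rw [Y.hF z hz]
      have := card_union_le' C (O u)
      have := Y.c2
      omega
    have h3 : (F P k u ∪ O z).card ≤ 6 := by
      have := Finset.card_union_le (F P k u) (O z)
      omega
    have h4 := G_lo X.h hu hzK huz h2 h3
    omega
  · refine ⟨z', Or.inr rfl, fun e => hdz' (X.h.symm _ _ e), pick z' ?_⟩
    have h2 : (F P k z' ∪ I u).card ≤ 6 := by
      rw [Y.hF z' hz']
      have := card_union_le' C (I u)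
      have := Y.c2
      omega
    have h3 : (F P k u ∪ I z').card ≤ 6 := by
      have := Finset.card_union_le (F P k u) (I z')
      omega
    have h4 := G_up X.h hu hzK' huz' h2 h3
    omega

/-- `(3)`, for a lower end -/
theorem step3O (X : Ctx K r dg P O I k a b a' b' γ)
    (Y : Fct K r dg P O I k (W4 K a b a' b') C) {u : V} (hu : u ∈ K) (hFu : F P k u = C)
    (hO : (O u \ C).card ≤ 3) {l : V} (hl : l ∈ W4 K a b a' b') (hul : u ≠ l)
    (hOl : (O l).card ≤ 4) : 3 ≤ (G r P k u l).card := by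
  have hk := X.h.hk
  have hlK := (mem_W4.1 hl).1
  have h2 : (F P k l ∪ O u).card ≤ 5 := by
    rw [Y.hF l hl]
    have := card_union_le' C (O u)
    have := Y.c2
    omega
  have h3 : (F P k u ∪ O l).card ≤ 5 := by
    rw [hFu, ← Y.hF l hl, Finset.union_eq_right.2 (F_subO X.h hlK)]
    omega
  have h4 := G_lo X.h hu hlK hul h2 h3
  omega

/-- `(3)`, for an upper end -/
theorem step3I (X : Ctx K r dg P O I k a b a' b' γ)
    (Y : Fct K r dg P O I k (W4 K a b a' b') C) {u : V} (hu : u ∈ K) (hFu : F P k u = C)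
    (hO : (I u \ C).card ≤ 3) {l : V} (hl : l ∈ W4 K a b a' b') (hul : u ≠ l)
    (hOl : (I l).card ≤ 4) : 3 ≤ (G r P k u l).card := by
  have hk := X.h.hk
  have hlK := (mem_W4.1 hl).1
  have h2 : (F P k l ∪ I u).card ≤ 5 := by
    rw [Y.hF l hl]
    have := card_union_le' C (I u)
    have := Y.c2
    omega
  have h3 : (F P k u ∪ I l).card ≤ 5 := by
    rw [hFu, ← Y.hF l hl, Finset.union_eq_right.2 (F_subI X.h hlK)]
    omega
  have h4 := G_up X.h hu hlK hul h2 h3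
  omega

/-- `(5)` -/
theorem step5 (X : Ctx K r dg P O I k a b a' b' γ) {w1 w2 : V} (hw1 : w1 ∈ W4 K a b a' b')
    (hw2 : w2 ∈ W4 K a b a' b') (hne : w1 ≠ w2) (d1 : ¬ dg a w1) (d2 : ¬ dg b w2)
    (g1 : 3 ≤ (G r P k a w1).card) (g2 : 3 ≤ (G r P k b w2).card) : False := by
  obtain ⟨β1, hβ1, β2, hβ2, n12, n1, n2⟩ := choose3 γ g1 g2
  obtain ⟨k1, p1, p2, p3, p4⟩ := mem_W4.1 hw1
  obtain ⟨k2, q1, q2, q3, q4⟩ := mem_W4.1 hw2
  rcases X.T.t33 X.hHi a X.ha w1 k1 b X.hb w2 k2 a' X.ha' b' X.hb' p1.symm q2.symm X.h2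
    X.h1 q1.symm p2 hne X.h3 X.h4 p3 p4 X.h5 X.h6 q3 q4 d1 d2 X.d2 β1 hβ1 β2 hβ2 γ X.hγ
    with e | e | e
  · exact n12 e
  · exact n1 e
  · exact n2 e

theorem core (X : Ctx K r dg P O I k a b a' b' γ)
    (Y : Fct K r dg P O I k (W4 K a b a' b') C)
    (hz : z ∈ W4 K a b a' b') (hz' : z' ∈ W4 K a b a' b') (hzz : r z < r z') (hd : ¬ dg z z')
    (ea : ¬ dg z a) (eb : ¬ dg z b) (ea' : ¬ dg z' a) (eb' : ¬ dg z' b) : False := by
  have hk := X.h.hk
  have hwk := Y.wk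
  have hW5 : 5 ≤ (W4 K a b a' b').card := by omega
  have hWK : W4 K a b a' b' ⊆ K := fun w hw => (mem_W4.1 hw).1
  have hne : z ≠ z' := fun e => by
    rw [e] at hzz
    exact lt_irrefl _ hzz
  obtain ⟨hzK, z1, z2, z3, z4⟩ := mem_W4.1 hz
  obtain ⟨hzK', z1', z2', z3', z4'⟩ := mem_W4.1 hz'
  obtain ⟨l1, l2, l3, l4⟩ := Y.low z hz z' hz' hzz hd
  have htri := (Y.tri z hz z' hz' hne hd).1
  have hk9 : k ≤ 9 := by omega
  have hsz := sum_le X.h hzK (lo_all X.hHi hzK)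
  have hsz' := sum_le X.h hzK' (lo_all X.hHi hzK')
  have hOz : (O z).card ≤ 4 := by omega
  have hIz : (I z').card ≤ 4 := by omega
  -- (2) `F b = C` and `F a = C`
  have hFb : F P k b = C := by
    obtain ⟨t, ht, hdt, β, hβ, hβγ⟩ := step1 X Y hk9 hz hz' hOz hIz X.ha z1.symm z1'.symm ea ea'
    have htW : t ∈ W4 K a b a' b' := by
      rcases ht with rfl | rfl
      · exact hz
      · exact hz'
    obtain ⟨htK, t1, t2, t3, t4⟩ := mem_W4.1 htW
    obtain ⟨C', -, -, -, hC'⟩ := X.T.t22 X.hHi a X.ha t htK a' X.ha' b' X.hb' t1.symm X.h2 X.h3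
      X.h4 t3 t4 hdt X.d2 β hβ γ X.hγ hβγ
    obtain ⟨w, hw, hwz, hwz'⟩ := exists_other hW5 z z'
    obtain ⟨hwK, w1, w2, w3, w4⟩ := mem_W4.1 hw
    have hwt : w ≠ t := by
      rcases ht with rfl | rfl
      · exact hwz
      · exact hwz'
    have e1 := (hC' w hwK w1 hwt w3 w4).1
    rw [Y.hF w hw] at e1
    rw [e1]
    exact (hC' b X.hb X.h1.symm t2.symm X.h5 X.h6).1
  have hFa : F P k a = C := by
    obtain ⟨t, ht, hdt, β, hβ, hβγ⟩ := step1 X Y hk9 hz hz' hOz hIz X.hb z2.symm z2'.symm eb eb'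
    have htW : t ∈ W4 K a b a' b' := by
      rcases ht with rfl | rfl
      · exact hz
      · exact hz'
    obtain ⟨htK, t1, t2, t3, t4⟩ := mem_W4.1 htW
    obtain ⟨C', -, -, -, hC'⟩ := X.T.t22 X.hHi b X.hb t htK a' X.ha' b' X.hb' t2.symm X.h2 X.h5
      X.h6 t3 t4 hdt X.d2 β hβ γ X.hγ hβγ
    obtain ⟨w, hw, hwz, hwz'⟩ := exists_other hW5 z z'
    obtain ⟨hwK, w1, w2, w3, w4⟩ := mem_W4.1 hw
    have hwt : w ≠ t := by
      rcases ht with rfl | rfl
      · exact hwz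
      · exact hwz'
    have e1 := (hC' w hwK w2 hwt w3 w4).1
    rw [Y.hF w hw] at e1
    rw [e1]
    exact (hC' a X.ha X.h1 t1.symm X.h3 X.h4).1
  have hsa := (split X.h X.ha (lo_all X.hHi X.ha) Y.c2 Y.cr).2 (by
    rw [← hFa]; exact F_sub X.h X.ha)
  have hsb := (split X.h X.hb (lo_all X.hHi X.hb) Y.c2 Y.cr).2 (by
    rw [← hFb]; exact F_sub X.h X.hb)
  have da : ¬ dg a z := fun e => ea (X.h.symm _ _ e)
  have db : ¬ dg b z := fun e => eb (X.h.symm _ _ e)
  have da' : ¬ dg a z' := fun e => ea' (X.h.symm _ _ e)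
  have db' : ¬ dg b z' := fun e => eb' (X.h.symm _ _ e)
  by_cases hOa : (O a \ C).card ≤ 3
  · have ga := step3O X Y X.ha hFa hOa hz z1.symm hOz
    by_cases hOb : (O b \ C).card ≤ 3
    · -- a further lower end
      obtain ⟨l, hl, hlz, hlz', hls⟩ := exists_simple X.h hWK hW5 hzK' l4 z z'
      have hdl : ¬ dg z' l := hls.resolve_left hlz'
      have hdl' : ¬ dg l z' := fun e => hdl (X.h.symm _ _ e)
      obtain ⟨hlK, m1, m2, m3, m4⟩ := mem_W4.1 hl
      have hlt : r l < r z' := by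
        rcases lt_trichotomy (r l) (r z') with h3 | h3 | h3
        · exact h3
        · exact absurd (X.h.inj l hlK z' hzK' h3) hlz'
        · have := (Y.low z' hz' l hl h3 hdl).1
          omega
      obtain ⟨n1, n2, n3, n4⟩ := Y.low l hl z' hz' hlt hdl'
      have hOl : (O l).card ≤ 4 := by
        have := sum_le X.h hlK (lo_all X.hHi hlK)
        omega
      have hzl : dg z l :=
        ((Y.tri l hl z' hz' hlz' hdl').2 z hz hlz.symm hne).resolve_right hd
      rcases not_three X.h hlK n3 hzK X.ha X.hb hlz.symm m1.symm m2.symm z1 z2 X.h1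
        with e | e | e
      · exact e (X.h.symm _ _ hzl)
      · -- `w1 = l`, `w2 = z`
        exact step5 X hl hz hlz (fun e' => e (X.h.symm _ _ e')) db
          (step3O X Y X.ha hFa hOa hl m1.symm hOl) (step3O X Y X.hb hFb hOb hz z2.symm hOz)
      · -- `w1 = z`, `w2 = l`
        exact step5 X hz hl hlz.symm da (fun e' => e (X.h.symm _ _ e'))
          ga (step3O X Y X.hb hFb hOb hl m2.symm hOl)
    · have hIb : (I b \ C).card ≤ 3 := by omega
      exact step5 X hz hz' hne da db' ga (step3I X Y X.hb hFb hIb hz' z2'.symm hIz)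
  · have hIa : (I a \ C).card ≤ 3 := by omega
    have ga := step3I X Y X.ha hFa hIa hz' z1'.symm hIz
    by_cases hIb : (I b \ C).card ≤ 3
    · -- a further upper end
      obtain ⟨l, hl, hlz, hlz', hls⟩ := exists_simple X.h hWK hW5 hzK l3 z z'
      have hdl : ¬ dg z l := hls.resolve_left hlz
      have hdl' : ¬ dg l z := fun e => hdl (X.h.symm _ _ e)
      obtain ⟨hlK, m1, m2, m3, m4⟩ := mem_W4.1 hl
      have hlt : r z < r l := by
        rcases lt_trichotomy (r l) (r z) with h3 | h3 | h3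
        · have := (Y.low l hl z hz h3 hdl').2.1
          omega
        · exact absurd (X.h.inj l hlK z hzK h3) hlz
        · exact h3
      obtain ⟨n1, n2, n3, n4⟩ := Y.low z hz l hl hlt hdl
      have hIl : (I l).card ≤ 4 := by
        have := sum_le X.h hlK (lo_all X.hHi hlK)
        omega
      have hzl : dg z' l :=
        ((Y.tri z hz l hl hlz.symm hdl).2 z' hz' hne.symm hlz'.symm).resolve_left
          (fun e => hd (X.h.symm _ _ e))
      rcases not_three X.h hlK n4 hzK' X.ha X.hb hlz'.symm m1.symm m2.symm z1' z2' X.h1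
        with e | e | e
      · exact e (X.h.symm _ _ hzl)
      · exact step5 X hl hz' hlz' (fun e' => e (X.h.symm _ _ e')) db'
          (step3I X Y X.ha hFa hIa hl m1.symm hIl) (step3I X Y X.hb hFb hIb hz' z2'.symm hIz)
      · exact step5 X hz' hl hlz'.symm da' (fun e' => e (X.h.symm _ _ e'))
          ga (step3I X Y X.hb hFb hIb hl m2.symm hIl)
    · have hOb : (O b \ C).card ≤ 3 := by omega
      exact step5 X hz' hz hne.symm da' db ga (step3O X Y X.hb hFb hOb hz z2.symm hOz)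

end core

end J0d

open J0d in
theorem s_J0d : S_TRI → S_J0d := by
  intro hT V K r dg P O I k h T hHi x hx y hy x' hx' y' hy' h1 h2 h3 h4 h5 h6 d1 d2 α hα α' hα'
    hne z hz z' hz' z1 z2 z3 z4 z1' z2' z3' z4' hzz hd
  have X : Ctx K r dg P O I k x y x' y' α' :=
    ⟨h, T, hHi, hx, hy, hx', hy', h1, h2, h3, h4, h5, h6, d1, d2, hα', α, hα, hne⟩
  have X' : Ctx K r dg P O I k x' y' x y α :=
    ⟨h, T, hHi, hx', hy', hx, hy, h2, h1, h3.symm, h5.symm, h4.symm, h6.symm, d2, d1, hα, α',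
      hα', hne.symm⟩
  obtain ⟨C, Y⟩ := facts hT X
  obtain ⟨C', Y'⟩ := facts hT X'
  have hzW : z ∈ W4 K x y x' y' := mem_W4.2 ⟨hz, z1, z2, z3, z4⟩
  have hzW' : z' ∈ W4 K x y x' y' := mem_W4.2 ⟨hz', z1', z2', z3', z4'⟩
  have hzV : z ∈ W4 K x' y' x y := mem_W4.2 ⟨hz, z3, z4, z1, z2⟩
  have hzV' : z' ∈ W4 K x' y' x y := mem_W4.2 ⟨hz', z3', z4', z1', z2'⟩
  have hzne : z ≠ z' := fun e => by
    rw [e] at hzz
    exact lt_irrefl _ hzz
  have hk := h.hk
  have hwk := Y.wk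
  obtain ⟨l1, l2, l3, l4⟩ := Y.low z hzW z' hzW' hzz hd
  have n1 := nd_two h hz l3
  have n2 := nd_two h hz' l4
  -- two of the four vertices are not both joined to `z` or `z'`
  have key : ∀ p ∈ K, ∀ q ∈ K, p ∉ W4 K x y x' y' → q ∉ W4 K x y x' y' → p ≠ q →
      ¬ (p ∈ nd K dg z ∪ nd K dg z' ∧ q ∈ nd K dg z ∪ nd K dg z') := by
    rintro p hp q hq hpW hqW hpq ⟨hpN, hqN⟩
    have hsub : insert p (insert q (((W4 K x y x' y').erase z).erase z')) ⊆
        nd K dg z ∪ nd K dg z' := by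
      intro w hw
      rw [Finset.mem_insert, Finset.mem_insert] at hw
      rcases hw with rfl | rfl | hw
      · exact hpN
      · exact hqN
      · rw [Finset.mem_erase, Finset.mem_erase] at hw
        have hwK := (mem_W4.1 hw.2.2).1
        rcases (Y.tri z hzW z' hzW' hzne hd).2 w hw.2.2 hw.2.1 hw.1 with e | e
        · exact Finset.mem_union_left _ (mem_nd.2 ⟨hwK, hw.2.1, h.symm _ _ e⟩)
        · exact Finset.mem_union_right _ (mem_nd.2 ⟨hwK, hw.1, h.symm _ _ e⟩)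
    have c1 := Finset.card_le_card hsub
    have c2 := Finset.card_union_le (nd K dg z) (nd K dg z')
    have hq' : q ∉ ((W4 K x y x' y').erase z).erase z' := fun e =>
      hqW (Finset.mem_of_mem_erase (Finset.mem_of_mem_erase e))
    have hp' : p ∉ insert q (((W4 K x y x' y').erase z).erase z') := fun e => by
      rw [Finset.mem_insert] at e
      rcases e with e | e
      · exact hpq e
      · exact hpW (Finset.mem_of_mem_erase (Finset.mem_of_mem_erase e))
    rw [Finset.card_insert_of_notMem hp', Finset.card_insert_of_notMem hq'] at c1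
    have c3 := Finset.pred_card_le_card_erase (s := W4 K x y x' y') (a := z)
    have c4 := Finset.pred_card_le_card_erase (s := (W4 K x y x' y').erase z) (a := z')
    omega
  have nx : x ∉ W4 K x y x' y' := fun e => (mem_W4.1 e).2.1 rfl
  have ny : y ∉ W4 K x y x' y' := fun e => (mem_W4.1 e).2.2.1 rfl
  have nx' : x' ∉ W4 K x y x' y' := fun e => (mem_W4.1 e).2.2.2.1 rfl
  have ny' : y' ∉ W4 K x y x' y' := fun e => (mem_W4.1 e).2.2.2.2 rfl
  have simp1 : ∀ p ∈ K, p ≠ z → p ≠ z' → p ∉ nd K dg z ∪ nd K dg z' →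
      ¬ dg z p ∧ ¬ dg z' p := by
    intro p hp hpz hpz' hpN
    rw [Finset.mem_union, mem_nd, mem_nd] at hpN
    exact ⟨fun e => hpN (Or.inl ⟨hp, hpz, e⟩), fun e => hpN (Or.inr ⟨hp, hpz', e⟩)⟩
  by_cases hxy : x ∉ nd K dg z ∪ nd K dg z' ∧ y ∉ nd K dg z ∪ nd K dg z'
  · have sx := simp1 x hx z1.symm z1'.symm hxy.1
    have sy := simp1 y hy z2.symm z2'.symm hxy.2
    exact core X Y hzW hzW' hzz hd sx.1 sy.1 sx.2 sy.2
  · have hp : ∃ p ∈ K, p ∉ W4 K x y x' y' ∧ p ≠ x' ∧ p ≠ y' ∧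
        p ∈ nd K dg z ∪ nd K dg z' := by
      by_cases hxN : x ∈ nd K dg z ∪ nd K dg z'
      · exact ⟨x, hx, nx, h3, h4, hxN⟩
      · refine ⟨y, hy, ny, h5, h6, ?_⟩
        by_contra hyN
        exact hxy ⟨hxN, hyN⟩
    obtain ⟨p, hpK, hpW, hpx, hpy, hpN⟩ := hp
    have sx := simp1 x' hx' z3.symm z3'.symm (fun e => key p hpK x' hx' hpW nx' hpx ⟨hpN, e⟩)
    have sy := simp1 y' hy' z4.symm z4'.symm (fun e => key p hpK y' hy' hpW ny' hpy ⟨hpN, e⟩)
    exact core X' Y' hzV hzV' hzz hd sx.1 sy.1 sx.2 sy.2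

end Pool.Agent.Lib.MP_ee37cd_co.LL
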