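import Pool.Agent.Lib.MP_ee37cd_co.SpecL

/-!
# MP_ee37cd_co, module J1a of the local lemma: one postponable vertex, no good colours
-/

set_option autoImplicit false

namespace Pool.Agent.Lib.MP_ee37cd_co.LL

open Finset
open scoped Classical

namespace J1a

variable {V : Type} {K : Finset V} {r : V → ℕ} {dg : V → V → Prop} {P : ℕ → V → V → Prop}
  {O I : V → Finset ℕ} {k : ℕ}

/-- no simple pair among the normal vertices -/
theorem no_pair (hTRI : S_TRI) (h : Loc K r dg P O I k) (hT : Tees K r dg P O I k)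
    (hHi : (Hi K dg O I).card = 1)
    (hG : ∀ x ∈ K \ Hi K dg O I, ∀ y ∈ K \ Hi K dg O I, x ≠ y → ¬ dg x y → G r P k x y = ∅) :
    ∀ x ∈ K \ Hi K dg O I, ∀ y ∈ K \ Hi K dg O I, x ≠ y → dg x y := by
  by_contra hcon
  push Not at hcon
  obtain ⟨x, hx, y, hy, hxy, hd⟩ := hcon
  have hk := h.hk
  have hHiK : Hi K dg O I ⊆ K := Finset.filter_subset _ _
  have hcard : (K \ Hi K dg O I).card = k := by
    rw [Finset.card_sdiff_of_subset hHiK, hHi, h.card]
    rfl
  have hK : ∀ {v}, v ∈ K \ Hi K dg O I → v ∈ K := fun hv => (Finset.mem_sdiff.mp hv).1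
  have hLo : ∀ v ∈ K \ Hi K dg O I, Lo K dg O I v := fun v hv =>
    lo_of (Finset.mem_sdiff.mp hv).1 (Finset.mem_sdiff.mp hv).2
  have hge : ∀ u ∈ K \ Hi K dg O I, ∀ v ∈ K \ Hi K dg O I, r u < r v → ¬ dg u v →
      k ≤ (F P k u ∪ O v).card ∧ k ≤ (F P k v ∪ I u).card := by
    intro u hu v hv huv hduv
    have hne : u ≠ v := by
      rintro rfl
      exact lt_irrefl _ huv
    have h1 := G_ge h (hK hu) (hK hv) huv
    rw [hG u hu v hv hne hduv, Finset.card_empty, zero_add, zero_add] at h1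
    exact h1
  rcases hT.t11 hHi with ⟨c, hc⟩ | ⟨C, r0, hC, hCF⟩
  · -- a common bad colour
    have hpair : ∀ u ∈ K \ Hi K dg O I, ∀ v ∈ K \ Hi K dg O I, r u < r v → ¬ dg u v →
        k ≤ (O v).card + 1 ∧ k ≤ (I u).card + 1 := by
      intro u hu v hv huv hduv
      obtain ⟨h1, h2⟩ := hge u hu v hv huv hduv
      have h3 := F_le h (hK hu) (hLo u hu)
      have h4 := F_le h (hK hv) (hLo v hv)
      have h5 := Finset.card_union_add_card_inter (F P k u) (O v)
      have h6 := Finset.card_union_add_card_inter (F P k v) (I u)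
      have h7 : 0 < (F P k u ∩ O v).card := Finset.card_pos.mpr
        ⟨c, Finset.mem_inter.mpr ⟨hc u hu, F_subO h (hK hv) (hc v hv)⟩⟩
      have h8 : 0 < (F P k v ∩ I u).card := Finset.card_pos.mpr
        ⟨c, Finset.mem_inter.mpr ⟨hc v hv, F_subI h (hK hu) (hc u hu)⟩⟩
      omega
    have hsd : ∀ u ∈ K \ Hi K dg O I, ∀ v ∈ K \ Hi K dg O I, r u < r v → ¬ dg u v →
        k ≤ sd K dg u + 2 ∧ k ≤ sd K dg v + 2 := by
      intro u hu v hv huv hduv
      obtain ⟨h1, h2⟩ := hpair u hu v hv huv hduv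
      have h3 := OI_le h (hK hu)
      have h4 := OI_le h (hK hv)
      have h5 : 0 < (F P k u).card := Finset.card_pos.mpr ⟨c, hc u hu⟩
      have h6 : 0 < (F P k v).card := Finset.card_pos.mpr ⟨c, hc v hv⟩
      omega
    have h1 := (hTRI V K r dg P O I k h (K \ Hi K dg O I) Finset.sdiff_subset hLo
      (fun u hu v hv huv hduv => by
        obtain ⟨h1, h2⟩ := hpair u hu v hv huv hduv
        omega) x hx y hy hxy hd).1
    rw [hcard] at h1
    rcases lt_trichotomy (r x) (r y) with h2 | h2 | h2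
    · obtain ⟨h3, h4⟩ := hsd x hx y hy h2 hd
      omega
    · exact hxy (h.inj x (hK hx) y (hK hy) h2)
    · obtain ⟨h3, h4⟩ := hsd y hy x hx h2 (fun hdd => hd (h.symm _ _ hdd))
      omega
  · -- all sets of bad colours but one are equal to `C`
    have hpair : ∀ u ∈ (K \ Hi K dg O I).erase r0, ∀ v ∈ (K \ Hi K dg O I).erase r0,
        r u < r v → ¬ dg u v → k ≤ (O v).card ∧ k ≤ (I u).card ∧ k ≤ sd K dg u ∧
          k ≤ sd K dg v := by
      intro u hu v hv huv hduv
      rw [Finset.mem_erase] at hu hv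
      obtain ⟨h1, h2⟩ := hge u hu.2 v hv.2 huv hduv
      have e1 : F P k u = F P k v := by rw [hCF u hu.2 hu.1, hCF v hv.2 hv.1]
      have h3 : F P k u ∪ O v = O v := by
        rw [e1]
        exact Finset.union_eq_right.mpr (F_subO h (hK hv.2))
      have h4 : F P k v ∪ I u = I u := by
        rw [← e1]
        exact Finset.union_eq_right.mpr (F_subI h (hK hu.2))
      rw [h3] at h1
      rw [h4] at h2
      have h5 := OI_le h (hK hu.2)
      have h6 := OI_le h (hK hv.2)
      rw [hCF u hu.2 hu.1, hC] at h5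
      rw [hCF v hv.2 hv.1, hC] at h6
      omega
    have hno : ∀ u ∈ (K \ Hi K dg O I).erase r0, ∀ v ∈ (K \ Hi K dg O I).erase r0,
        u ≠ v → dg u v := by
      intro u hu v hv huv
      by_contra hduv
      have h1 := (hTRI V K r dg P O I k h ((K \ Hi K dg O I).erase r0)
        ((Finset.erase_subset _ _).trans Finset.sdiff_subset)
        (fun v hv => hLo v (Finset.mem_of_mem_erase hv))
        (fun u hu v hv huv hduv => by
          obtain ⟨h1, h2, -, -⟩ := hpair u hu v hv huv hduv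
          omega) u hu v hv huv hduv).1
      have h2 : k ≤ ((K \ Hi K dg O I).erase r0).card + 1 := by
        have := Finset.pred_card_le_card_erase (s := K \ Hi K dg O I) (a := r0)
        omega
      have huK := hK (Finset.mem_of_mem_erase hu)
      have hvK := hK (Finset.mem_of_mem_erase hv)
      rcases lt_trichotomy (r u) (r v) with h3 | h3 | h3
      · obtain ⟨-, -, h4, h5⟩ := hpair u hu v hv h3 hduv
        omega
      · exact huv (h.inj u huK v hvK h3)
      · obtain ⟨-, -, h4, h5⟩ := hpair v hv u hu h3 (fun hdd => hduv (h.symm _ _ hdd))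
        omega
    -- a simple pair `w, r0`
    have hfin : ∀ w ∈ K \ Hi K dg O I, w ≠ r0 → r0 ∈ K \ Hi K dg O I → ¬ dg r0 w → False := by
      intro w hw hwr hr0 hdw
      obtain ⟨p, hp⟩ := Finset.card_eq_one.mp hHi
      have h1 : sd K dg w ≤ 2 := by
        have h2 : sd K dg w ≤ ({p, r0} : Finset V).card := by
          refine sd_le fun a ha haw hda => ?_
          rw [Finset.mem_insert, Finset.mem_singleton]
          by_contra hcon
          push Not at hcon
          have ha' : a ∈ (K \ Hi K dg O I).erase r0 := by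
            rw [Finset.mem_erase, Finset.mem_sdiff, hp, Finset.mem_singleton]
            exact ⟨hcon.2, ha, hcon.1⟩
          exact hda (hno w (Finset.mem_erase.mpr ⟨hwr, hw⟩) a ha' haw.symm)
        exact h2.trans Finset.card_le_two
      have h3 := OI_le h (hK hw)
      rw [hCF w hw hwr, hC] at h3
      have h4 := G_ge' h (hK hr0) (hK hw) hwr.symm (m := 2) (by omega) (by omega)
      rw [hG r0 hr0 w hw hwr.symm hdw, Finset.card_empty] at h4
      have h5 := F_le h (hK hr0) (hLo r0 hr0)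
      omega
    by_cases hxr : x = r0
    · subst hxr
      exact hfin y hy hxy.symm hx hd
    by_cases hyr : y = r0
    · subst hyr
      exact hfin x hx hxy hy (fun hdd => hd (h.symm _ _ hdd))
    exact hd (hno x (Finset.mem_erase.mpr ⟨hxr, hx⟩) y (Finset.mem_erase.mpr ⟨hyr, hy⟩) hxy)

end J1a

theorem s_J1a : S_TRI → S_J1a := by
  intro hTRI V K r dg P O I k h hT hHi hTP hG
  have hno := J1a.no_pair hTRI h hT hHi hG
  have hk := h.hk
  have hHiK : Hi K dg O I ⊆ K := Finset.filter_subset _ _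
  have hcard : (K \ Hi K dg O I).card = k := by
    rw [Finset.card_sdiff_of_subset hHiK, hHi, h.card]
    rfl
  obtain ⟨p, hp⟩ := Finset.card_eq_one.mp hHi
  have hpK : p ∈ K := hHiK (by rw [hp]; exact Finset.mem_singleton_self p)
  have hmem : ∀ {v}, v ∈ K \ Hi K dg O I ↔ v ∈ K ∧ v ≠ p := by
    intro v
    rw [Finset.mem_sdiff, hp, Finset.mem_singleton]
  have hsd : ∀ w ∈ K \ Hi K dg O I, sd K dg w ≤ 1 := by
    intro w hw
    have h2 : sd K dg w ≤ ({p} : Finset V).card := by
      refine sd_le fun a ha haw hda => ?_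
      rw [Finset.mem_singleton]
      by_contra hcon
      exact hda (hno w hw a (hmem.mpr ⟨ha, hcon⟩) haw.symm)
    rwa [Finset.card_singleton] at h2
  have hF1 : ∀ w ∈ K \ Hi K dg O I, (F P k w).card ≤ 1 := by
    intro w hw
    have h1 := F_sd h (hmem.mp hw).1
    have h2 := hsd w hw
    omega
  -- the vertex `p` has at least two simple neighbours
  have hother : ∀ a ∈ K, ∀ b ∈ K, a ≠ b → ¬ dg a b → a = p ∨ b = p := by
    intro a ha b hb hab hd
    by_contra hcon
    push Not at hcon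
    exact hd (hno a (hmem.mpr ⟨ha, hcon.1⟩) b (hmem.mpr ⟨hb, hcon.2⟩) hab)
  have hone : ∀ a ∈ K, ∀ b ∈ K, a ≠ b → ¬ dg a b → ∃ e ∈ K, e ≠ p ∧ ¬ dg p e ∧
      ((a = p ∧ b = e) ∨ (a = e ∧ b = p)) := by
    intro a ha b hb hab hd
    rcases hother a ha b hb hab hd with rfl | rfl
    · exact ⟨b, hb, hab.symm, hd, Or.inl ⟨rfl, rfl⟩⟩
    · exact ⟨a, ha, hab, fun hdd => hd (h.symm _ _ hdd), Or.inr ⟨rfl, rfl⟩⟩
  have hsp : 2 ≤ sd K dg p := by
    obtain ⟨a, ha, b, hb, c, hc, d, hd, hab, hcd, hdab, hdcd, hn1, hn2⟩ := hTP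
    obtain ⟨e, he, hep, hde, h1⟩ := hone a ha b hb hab hdab
    obtain ⟨e', he', hep', hde', h2⟩ := hone c hc d hd hcd hdcd
    have hee : e ≠ e' := by
      rintro rfl
      rcases h1 with ⟨rfl, rfl⟩ | ⟨rfl, rfl⟩ <;> rcases h2 with ⟨rfl, rfl⟩ | ⟨rfl, rfl⟩
      · exact hn1 ⟨rfl, rfl⟩
      · exact hn2 ⟨rfl, rfl⟩
      · exact hn2 ⟨rfl, rfl⟩
      · exact hn1 ⟨rfl, rfl⟩
    rw [← Finset.card_pair hee]
    refine le_sd (fun z hz => ?_) (fun z hz => ?_)
    · rw [Finset.mem_insert, Finset.mem_singleton] at hz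
      rcases hz with rfl | rfl
      · exact he
      · exact he'
    · rw [Finset.mem_insert, Finset.mem_singleton] at hz
      rcases hz with rfl | rfl
      · exact ⟨hep, hde⟩
      · exact ⟨hep', hde'⟩
  rcases hT.t11 hHi with ⟨c, hc⟩ | ⟨C, r0, hC, hCF⟩
  · refine ⟨K \ Hi K dg O I, {c}, Finset.sdiff_subset, ?_, ?_, ?_, ?_, ?_⟩
    · rw [← Finset.card_pos, hcard]
      omega
    · rw [hcard, Finset.card_singleton]
    · intro u hu
      rw [Finset.singleton_subset_iff]
      exact hc u hu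
    · intro u hu u' hu' huu
      exact hno u hu u' hu' huu
    · intro u hu
      refine ⟨p, hpK, ?_⟩
      have h1 := hsd u hu
      omega
  · exfalso
    obtain ⟨w, hw, hwr⟩ : ∃ w ∈ K \ Hi K dg O I, w ≠ r0 := by
      refine Finset.exists_mem_ne ?_ r0
      rw [hcard]
      omega
    have h1 := hF1 w hw
    rw [hCF w hw hwr, hC] at h1
    omega

end Pool.Agent.Lib.MP_ee37cd_co.LL
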