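import Pool.Agent.Lib.MP_ee37cd_co.SpecL

/-!
# MP_ee37cd_co: the abstract local lemma, one vertex is not normal and a simple pair has a good colour
-/

set_option autoImplicit false

namespace Pool.Agent.Lib.MP_ee37cd_co.LL

open Finset
open scoped Classical

namespace J1b

variable {V : Type} {K : Finset V} {r : V → ℕ} {dg : V → V → Prop} {P : ℕ → V → V → Prop}
  {O I : V → Finset ℕ} {k : ℕ}

/-- the final step -/
private theorem fin (h : Loc K r dg P O I k) {p x y : V} {W : Finset V} {C : Finset ℕ}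
    (hcov : ∀ v ∈ K, v = p ∨ v = x ∨ v = y ∨ v ∈ W) (hWK : W ⊆ K) (hx : x ∈ K) (hy : y ∈ K)
    (hxW : x ∉ W) (hyW : y ∉ W) (hW : W.card + 2 = k) (hC : C.card = 2)
    (hWF : ∀ w ∈ W, F P k w = C) (hWW : ∀ w ∈ W, ∀ w' ∈ W, w ≠ w' → dg w w')
    (hFy : F P k y = C) (hsx : ∀ w ∈ W, ¬ dg w x) (hdy : ∀ w ∈ W, dg w y) : Obs K dg P k := by
  have hk := h.hk
  have hsdx : k ≤ sd K dg x + 2 := by
    have h1 : W.card ≤ sd K dg x := le_sd hWK fun w hw =>
      ⟨fun h2 => hxW (h2 ▸ hw), fun h2 => hsx w hw (h.symm _ _ h2)⟩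
    omega
  refine ⟨insert y W, C, ?_, ⟨y, Finset.mem_insert_self _ _⟩, ?_, ?_, ?_, ?_⟩
  · intro v hv
    rcases Finset.mem_insert.mp hv with rfl | hv
    · exact hy
    · exact hWK hv
  · rw [Finset.card_insert_of_notMem hyW, hC]
    omega
  · intro u hu
    rcases Finset.mem_insert.mp hu with rfl | hu
    · rw [hFy]
    · rw [hWF u hu]
  · intro u hu u' hu' hne
    rcases Finset.mem_insert.mp hu with h3 | h3
    · rcases Finset.mem_insert.mp hu' with h4 | h4
      · exact absurd (h3.trans h4.symm) hne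
      · rw [h3]
        exact h.symm _ _ (hdy u' h4)
    · rcases Finset.mem_insert.mp hu' with h4 | h4
      · rw [h4]
        exact hdy u h3
      · exact hWW u h3 u' h4 hne
  · intro u hu
    refine ⟨x, hx, ?_⟩
    have h1 : sd K dg u ≤ ({p, x} : Finset V).card := by
      refine sd_le fun a ha hau hda => ?_
      rw [Finset.mem_insert, Finset.mem_singleton]
      rcases hcov a ha with h2 | h2 | h2 | h2
      · exact Or.inl h2
      · exact Or.inr h2
      · exfalso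
        rcases Finset.mem_insert.mp hu with h3 | h3
        · exact hau (h2.trans h3.symm)
        · exact hda (h2 ▸ hdy u h3)
      · exfalso
        rcases Finset.mem_insert.mp hu with h3 | h3
        · exact hda (h3 ▸ h.symm _ _ (hdy a h2))
        · exact hda (hWW u h3 a h2 hau.symm)
    have h2 : ({p, x} : Finset V).card ≤ 2 := Finset.card_le_two
    omega

/-- the number of good colours of a simple pair with one element in `W` -/
private theorem three (h : Loc K r dg P O I k) {a w : V} (ha : a ∈ K) (hlo : Lo K dg O I a)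
    (hw : w ∈ K) (haw : a ≠ w) (h1 : (O w).card ≤ 3) (h2 : (I w).card ≤ 3) :
    3 ≤ (G r P k a w).card := by
  have h3 := G_ge' h ha hw haw h1 h2
  have h4 := F_le h ha hlo
  have h5 := h.hk
  omega

/-- the exchange step -/
private theorem swap (h : Loc K r dg P O I k) (T : Tees K r dg P O I k)
    (hHi : (Hi K dg O I).card = 1) {a b : V} {W : Finset V} {C : Finset ℕ}
    (ha : a ∈ K \ Hi K dg O I) (hb : b ∈ K \ Hi K dg O I) (hab : a ≠ b)
    (hWK : ∀ w ∈ W, w ∈ K \ Hi K dg O I ∧ w ≠ a ∧ w ≠ b) (hW : 2 ≤ W.card)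
    (hWF : ∀ w ∈ W, F P k w = C) (hWW : ∀ w ∈ W, ∀ w' ∈ W, w ≠ w' → dg w w')
    (hOI : ∀ w ∈ W, (O w).card ≤ 3 ∧ (I w).card ≤ 3) {w : V} (hw : w ∈ W) (hwa : ¬ dg w a) :
    F P k b = C ∧ ∀ w' ∈ W, ¬ dg w' a := by
  obtain ⟨hwK, hwa', hwb⟩ := hWK w hw
  have haK := Finset.mem_sdiff.mp ha
  have h3 := three h haK.1 (lo_of haK.1 haK.2) (Finset.mem_sdiff.mp hwK).1 hwa'.symm
    (hOI w hw).1 (hOI w hw).2
  obtain ⟨β, hβ⟩ : (G r P k a w).Nonempty := by
    rw [← Finset.card_pos]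
    omega
  obtain ⟨C', -, -, hC'⟩ := T.t21 hHi a ha w hwK hwa'.symm (fun h1 => hwa (h.symm _ _ h1)) β hβ
  obtain ⟨w1, hw1, hne⟩ := Finset.exists_mem_ne (by omega : 1 < W.card) w
  obtain ⟨hw1K, hw1a, hw1b⟩ := hWK w1 hw1
  have hCC : C = C' := by
    rw [← hWF w1 hw1]
    exact (hC' w1 hw1K hw1a hne).1
  refine ⟨?_, ?_⟩
  · rw [hCC]
    exact (hC' b hb hab.symm hwb.symm).1
  · intro w' hw'
    by_cases hww : w' = w
    · rw [hww]
      exact hwa
    · obtain ⟨hw'K, hw'a, hw'b⟩ := hWK w' hw'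
      rcases (hC' w' hw'K hw'a hww).2 with h5 | h5
      · exact h5
      · exact absurd (hWW w' hw' w hw hww) h5

end J1b

open J1b in
theorem s_J1b : S_TRI → S_J1b := by
  intro hTRI V K r dg P O I k h T hHi x hx y hy hxy hdxy ⟨α, hα⟩
  have hk := h.hk
  obtain ⟨p, hp⟩ := Finset.card_eq_one.mp hHi
  have hxK := Finset.mem_sdiff.mp hx
  have hyK := Finset.mem_sdiff.mp hy
  obtain ⟨C, hC2, hαC, hC⟩ := T.t21 hHi x hx y hy hxy hdxy α hα
  obtain ⟨W, hWdef⟩ : ∃ W : Finset V, W = (K \ Hi K dg O I) \ {x, y} := ⟨_, rfl⟩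
  have hmem : ∀ w, w ∈ W ↔ w ∈ K \ Hi K dg O I ∧ w ≠ x ∧ w ≠ y := by
    intro w
    rw [hWdef, Finset.mem_sdiff]
    simp only [Finset.mem_insert, Finset.mem_singleton, not_or]
  have hWcard : W.card + 2 = k := by
    have h1 : ({x, y} : Finset V) ⊆ K \ Hi K dg O I := by
      intro v hv
      rw [Finset.mem_insert, Finset.mem_singleton] at hv
      rcases hv with rfl | rfl
      · exact hx
      · exact hy
    have h2 : Hi K dg O I ⊆ K := Finset.filter_subset _ _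
    rw [hWdef, Finset.card_sdiff_of_subset h1, Finset.card_sdiff_of_subset h2, hHi, h.card,
      Finset.card_pair hxy]
    omega
  have hWK : W ⊆ K := fun w hw => (Finset.mem_sdiff.mp ((hmem w).mp hw).1).1
  have hWlo : ∀ w ∈ W, Lo K dg O I w := fun w hw =>
    lo_of (hWK hw) (Finset.mem_sdiff.mp ((hmem w).mp hw).1).2
  have hWF : ∀ w ∈ W, F P k w = C := fun w hw =>
    (hC w ((hmem w).mp hw).1 ((hmem w).mp hw).2.1 ((hmem w).mp hw).2.2).1
  have hcov : ∀ v ∈ K, v = p ∨ v = x ∨ v = y ∨ v ∈ W := by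
    intro v hv
    by_cases h1 : v = p
    · exact Or.inl h1
    by_cases h2 : v = x
    · exact Or.inr (Or.inl h2)
    by_cases h3 : v = y
    · exact Or.inr (Or.inr (Or.inl h3))
    refine Or.inr (Or.inr (Or.inr ((hmem v).mpr ⟨Finset.mem_sdiff.mpr ⟨hv, ?_⟩, h2, h3⟩)))
    rw [hp, Finset.mem_singleton]
    exact h1
  -- (1)
  have hlarge : ∀ u ∈ W, ∀ v ∈ W, r u < r v → ¬ dg u v →
      k ≤ (O v).card + 1 ∧ k ≤ (I u).card + 1 := by
    intro u hu v hv huv hd
    obtain ⟨huK, hux, huy⟩ := (hmem u).mp hu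
    obtain ⟨hvK, hvx, hvy⟩ := (hmem v).mp hv
    have huvne : u ≠ v := by
      rintro rfl
      exact lt_irrefl _ huv
    have h1 : (G r P k u v).card ≤ 1 := by
      rw [Finset.card_le_one]
      intro β hβ γ hγ
      have h2 := T.t32 hHi x hx y hy u huK v hvK hxy huvne hux.symm hvx.symm huy.symm hvy.symm
        hdxy hd α hα
      rw [← h2 β hβ, ← h2 γ hγ]
    obtain ⟨h3, h4⟩ := G_ge h (hWK hu) (hWK hv) huv
    have h5 : F P k u ∪ O v = O v := by
      rw [Finset.union_eq_right, hWF u hu, ← hWF v hv]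
      exact F_subO h (hWK hv)
    have h6 : F P k v ∪ I u = I u := by
      rw [Finset.union_eq_right, hWF v hv, ← hWF u hu]
      exact F_subI h (hWK hu)
    rw [h5] at h3
    rw [h6] at h4
    omega
  have hWW' : ∀ w ∈ W, ∀ w' ∈ W, r w < r w' → dg w w' := by
    intro z hz z' hz' hzz
    by_contra hd
    have hne : z ≠ z' := by
      rintro rfl
      exact lt_irrefl _ hzz
    have h1 := hTRI V K r dg P O I k h W hWK hWlo (fun u hu v hv huv hd => by
      have := hlarge u hu v hv huv hd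
      omega) z hz z' hz' hne hd
    have h2 := hlarge z hz z' hz' hzz hd
    have h3 := (OI_le h (hWK hz')).1
    have h4 := (OI_le h (hWK hz)).2
    rw [hWF z' hz', hC2] at h3
    rw [hWF z hz, hC2] at h4
    have h5 := h1.1
    omega
  have hWW : ∀ w ∈ W, ∀ w' ∈ W, w ≠ w' → dg w w' := by
    intro w hw w' hw' hne
    rcases lt_trichotomy (r w) (r w') with h1 | h1 | h1
    · exact hWW' w hw w' hw' h1
    · exact absurd (h.inj w (hWK hw) w' (hWK hw') h1) hne
    · exact h.symm _ _ (hWW' w' hw' w hw h1)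
  -- (2)
  have hOI : ∀ w ∈ W, (O w).card ≤ 3 ∧ (I w).card ≤ 3 := by
    intro w hw
    have h1 : sd K dg w ≤ ({p, x, y} : Finset V).card := by
      refine sd_le fun a ha haw hda => ?_
      simp only [Finset.mem_insert, Finset.mem_singleton]
      rcases hcov a ha with h2 | h2 | h2 | h2
      · exact Or.inl h2
      · exact Or.inr (Or.inl h2)
      · exact Or.inr (Or.inr h2)
      · exact absurd (hWW w hw a h2 haw.symm) hda
    have h2 : ({p, x, y} : Finset V).card ≤ 3 := Finset.card_le_three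
    have h3 := OI_le h (hWK hw)
    rw [hWF w hw, hC2] at h3
    omega
  -- (3)
  have hsx : ∀ w ∈ W, ¬ dg w x → F P k y = C ∧ ∀ w' ∈ W, ¬ dg w' x := fun w hw hd =>
    swap h T hHi hx hy hxy (fun w hw => (hmem w).mp hw) (by omega) hWF hWW hOI hw hd
  have hsy : ∀ w ∈ W, ¬ dg w y → F P k x = C ∧ ∀ w' ∈ W, ¬ dg w' y := fun w hw hd =>
    swap h T hHi hy hx hxy.symm (fun w hw => ⟨((hmem w).mp hw).1, ((hmem w).mp hw).2.2,
      ((hmem w).mp hw).2.1⟩) (by omega) hWF hWW hOI hw hd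
  -- (4)
  have hnot : ¬ ((∃ w ∈ W, ¬ dg w x) ∧ ∃ w ∈ W, ¬ dg w y) := by
    rintro ⟨⟨w, hw, hwx⟩, w', hw', hwy⟩
    have h1 := (hsx w hw hwx).2
    have h2 := (hsy w' hw' hwy).2
    obtain ⟨w1, hw1, w2, hw2, h12⟩ := Finset.one_lt_card.mp (by omega : 1 < W.card)
    obtain ⟨h1K, h1x, h1y⟩ := (hmem w1).mp hw1
    obtain ⟨h2K, h2x, h2y⟩ := (hmem w2).mp hw2
    have h3 := three h hxK.1 (lo_of hxK.1 hxK.2) (hWK hw1) h1x.symm (hOI w1 hw1).1 (hOI w1 hw1).2
    have h4 := three h hyK.1 (lo_of hyK.1 hyK.2) (hWK hw2) h2y.symm (hOI w2 hw2).1 (hOI w2 hw2).2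
    obtain ⟨γ, hγ⟩ : (G r P k y w2).Nonempty := by
      rw [← Finset.card_pos]
      omega
    obtain ⟨β, hβ, β', hβ', hne⟩ := Finset.one_lt_card.mp (by omega : 1 < (G r P k x w1).card)
    have h5 : ∀ δ ∈ G r P k x w1, δ = γ := fun δ hδ =>
      T.t32 hHi x hx w1 h1K y hy w2 h2K h1x.symm h2y.symm hxy h2x.symm h1y h12
        (fun h6 => h1 w1 hw1 (h.symm _ _ h6)) (fun h6 => h2 w2 hw2 (h.symm _ _ h6)) δ hδ γ hγ
    exact hne ((h5 β hβ).trans (h5 β' hβ').symm)
  -- (5)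
  obtain ⟨w0, hw0⟩ : W.Nonempty := by
    rw [← Finset.card_pos]
    omega
  have hxW : x ∉ W := fun h1 => ((hmem x).mp h1).2.1 rfl
  have hyW : y ∉ W := fun h1 => ((hmem y).mp h1).2.2 rfl
  rcases (hC w0 ((hmem w0).mp hw0).1 ((hmem w0).mp hw0).2.1 ((hmem w0).mp hw0).2.2).2 with h1 | h1
  · obtain ⟨hFy, hall⟩ := hsx w0 hw0 h1
    refine fin h hcov hWK hxK.1 hyK.1 hxW hyW hWcard hC2 hWF hWW hFy hall ?_
    intro w hw
    by_contra h2
    exact hnot ⟨⟨w0, hw0, h1⟩, w, hw, h2⟩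
  · obtain ⟨hFx, hall⟩ := hsy w0 hw0 h1
    refine fin h (p := p) (x := y) (y := x) ?_ hWK hyK.1 hxK.1 hyW hxW hWcard hC2 hWF hWW hFx
      hall ?_
    · intro v hv
      rcases hcov v hv with h2 | h2 | h2 | h2
      · exact Or.inl h2
      · exact Or.inr (Or.inr (Or.inl h2))
      · exact Or.inr (Or.inl h2)
      · exact Or.inr (Or.inr (Or.inr h2))
    · intro w hw
      by_contra h2
      exact hnot ⟨⟨w, hw, h2⟩, w0, hw0, h1⟩

end Pool.Agent.Lib.MP_ee37cd_co.LL
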