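import Pool.Agent.Lib.MP_ee37cd_co.SpecL

/-!
# MP_ee37cd_co: the abstract local lemma, the case of two postponable vertices
-/

set_option autoImplicit false

namespace Pool.Agent.Lib.MP_ee37cd_co.LL

open Finset
open scoped Classical

theorem s_J2 : S_TRI → S_J2 := by
  intro hTRI V K r dg P O I k h hT hcard
  obtain ⟨C, hC2, hFC⟩ := hT.t20 hcard
  have hk := h.hk
  have hHK : Hi K dg O I ⊆ K := Finset.filter_subset _ _
  have hK' : (K \ Hi K dg O I).card = k - 1 := by
    rw [Finset.card_sdiff_of_subset hHK, h.card, hcard]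
    omega
  have hlo : ∀ v ∈ K \ Hi K dg O I, Lo K dg O I v := fun v hv =>
    lo_of (Finset.mem_sdiff.mp hv).1 (Finset.mem_sdiff.mp hv).2
  have hKK : ∀ v ∈ K \ Hi K dg O I, v ∈ K := fun v hv => (Finset.mem_sdiff.mp hv).1
  -- a simple pair of normal vertices forces large sets
  have key : ∀ u ∈ K \ Hi K dg O I, ∀ v ∈ K \ Hi K dg O I, r u < r v → ¬ dg u v →
      k ≤ (O v).card ∧ k ≤ (I u).card := by
    intro u hu v hv huv hd
    have hne : u ≠ v := by
      rintro rfl
      exact lt_irrefl _ huv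
    have hG := hT.t31 hcard u hu v hv hne hd
    obtain ⟨h1, h2⟩ := G_ge h (hKK u hu) (hKK v hv) huv
    rw [hG, Finset.card_empty, zero_add] at h1 h2
    have h3 : F P k u ∪ O v = O v := by
      rw [hFC u hu, ← hFC v hv]
      exact Finset.union_eq_right.mpr (F_subO h (hKK v hv))
    have h4 : F P k v ∪ I u = I u := by
      rw [hFC v hv, ← hFC u hu]
      exact Finset.union_eq_right.mpr (F_subI h (hKK u hu))
    rw [h3] at h1
    rw [h4] at h2
    exact ⟨h1, h2⟩
  have hlt : ∀ u ∈ K \ Hi K dg O I, ∀ v ∈ K \ Hi K dg O I, r u < r v → dg u v := by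
    intro u hu v hv huv
    by_contra hd
    have hne : u ≠ v := by
      rintro rfl
      exact lt_irrefl _ huv
    obtain ⟨h1, h2⟩ := key u hu v hv huv hd
    have h3 := (hTRI V K r dg P O I k h (K \ Hi K dg O I) Finset.sdiff_subset hlo
      (fun a ha b hb hab hd' => by
        have h5 := key a ha b hb hab hd'
        omega) u hu v hv hne hd).1
    have h4 := (OI_le h (hKK v hv)).1
    have h5 := (OI_le h (hKK u hu)).2
    rw [hFC v hv, hC2] at h4
    rw [hFC u hu, hC2] at h5
    omega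
  have hdig : ∀ u ∈ K \ Hi K dg O I, ∀ v ∈ K \ Hi K dg O I, u ≠ v → dg u v := by
    intro u hu v hv huv
    rcases lt_trichotomy (r u) (r v) with h1 | h1 | h1
    · exact hlt u hu v hv h1
    · exact absurd (h.inj u (hKK u hu) v (hKK v hv) h1) huv
    · exact h.symm _ _ (hlt v hv u hu h1)
  -- the simple neighbours of normal vertices are exactly the elements of `Hi`
  have hsub : ∀ w ∈ K \ Hi K dg O I,
      K.filter (fun u => u ≠ w ∧ ¬ dg w u) ⊆ Hi K dg O I := by
    intro w hw u hu
    rw [Finset.mem_filter] at hu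
    by_contra hcon
    exact hu.2.2 (hdig w hw u (Finset.mem_sdiff.mpr ⟨hu.1, hcon⟩) hu.2.1.symm)
  have heq : ∀ w ∈ K \ Hi K dg O I,
      K.filter (fun u => u ≠ w ∧ ¬ dg w u) = Hi K dg O I := by
    intro w hw
    refine Finset.eq_of_subset_of_card_le (hsub w hw) ?_
    have h1 := F_sd h (hKK w hw)
    rw [hFC w hw, hC2] at h1
    rw [hcard]
    unfold sd at h1
    omega
  have hsd : ∀ w ∈ K \ Hi K dg O I, sd K dg w = 2 := by
    intro w hw
    rw [sd, heq w hw, hcard]
  have hpos : 0 < (Hi K dg O I).card := by omega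
  obtain ⟨p, hp⟩ := Finset.card_pos.mp hpos
  have hps : k - 1 ≤ sd K dg p := by
    rw [← hK']
    refine le_sd Finset.sdiff_subset ?_
    intro a ha
    have h1 : p ∈ K.filter (fun u => u ≠ a ∧ ¬ dg a u) := by
      rw [heq a ha]
      exact hp
    rw [Finset.mem_filter] at h1
    exact ⟨h1.2.1.symm, fun h2 => h1.2.2 (h.symm _ _ h2)⟩
  refine ⟨K \ Hi K dg O I, C, Finset.sdiff_subset, ?_, ?_, ?_, hdig, ?_⟩
  · rw [← Finset.card_pos, hK']
    omega
  · rw [hK', hC2]
    omega
  · intro u hu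
    rw [hFC u hu]
  · intro u hu
    refine ⟨p, hHK hp, ?_⟩
    rw [hsd u hu]
    omega

end Pool.Agent.Lib.MP_ee37cd_co.LL
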