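import Pool.Agent.Lib.MP_ee37cd_co.SpecL

/-!
# MP_ee37cd_co: the obstruction, case distinction
-/

set_option autoImplicit false

namespace Pool.Agent.Lib.MP_ee37cd_co.LL

open Finset
open scoped Classical

theorem s_OBS : S_TEES → S_J2 → S_J1a → S_J1b → S_J0a → S_J0b → S_J0c → S_J0d → S_OBS := by
  intro hT h2 h1a h1b h0a h0b h0c h0d V K r dg P O I k h htwo hno
  have T := hT V K r dg P O I k h hno
  have hcard := T.hi
  rcases Nat.lt_or_ge (Hi K dg O I).card 1 with hc | hc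
  · have hHi : Hi K dg O I = ∅ := Finset.card_eq_zero.1 (by omega)
    obtain ⟨x, hx, y, hy, hxy, hdxy, hG⟩ := h0a V K r dg P O I k h hHi htwo
    by_cases hdis : ∀ x ∈ K, ∀ y ∈ K, ∀ x' ∈ K, ∀ y' ∈ K, x ≠ y → x' ≠ y' → x ≠ x' → x ≠ y' →
        y ≠ x' → y ≠ y' → ¬ dg x y → ¬ dg x' y' → ∀ α ∈ G r P k x y, ∀ α' ∈ G r P k x' y',
        α = α'
    · exact h0b V K r dg P O I k h T hHi htwo hdis x hx y hy hxy hdxy hG
    · push Not at hdis
      obtain ⟨x, hx, y, hy, x', hx', y', hy', a1, a2, a3, a4, a5, a6, d1, d2, α, hα, α', hα',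
        hne⟩ := hdis
      by_cases hW : ∀ w ∈ K, ∀ w' ∈ K, w ≠ x → w ≠ y → w ≠ x' → w ≠ y' → w' ≠ x → w' ≠ y →
          w' ≠ x' → w' ≠ y' → w ≠ w' → dg w w'
      · exact h0c V K r dg P O I k h T hHi x hx y hy x' hx' y' hy' a1 a2 a3 a4 a5 a6 d1 d2 α hα
          α' hα' hne hW
      · exfalso
        push Not at hW
        obtain ⟨w, hw, w', hw', b1, b2, b3, b4, b5, b6, b7, b8, hww, hdw⟩ := hW
        rcases lt_trichotomy (r w) (r w') with hlt | heq | hgt
        · exact h0d V K r dg P O I k h T hHi x hx y hy x' hx' y' hy' a1 a2 a3 a4 a5 a6 d1 d2 α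
            hα α' hα' hne w hw w' hw' b1 b2 b3 b4 b5 b6 b7 b8 hlt hdw
        · exact hww (h.inj w hw w' hw' heq)
        · exact h0d V K r dg P O I k h T hHi x hx y hy x' hx' y' hy' a1 a2 a3 a4 a5 a6 d1 d2 α
            hα α' hα' hne w' hw' w hw b5 b6 b7 b8 b1 b2 b3 b4 hgt
            (fun hd => hdw (h.symm _ _ hd))
  · rcases Nat.lt_or_ge (Hi K dg O I).card 2 with hc2 | hc2
    · have hc1 : (Hi K dg O I).card = 1 := by omega
      by_cases hG : ∀ x ∈ K \ Hi K dg O I, ∀ y ∈ K \ Hi K dg O I, x ≠ y → ¬ dg x y →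
          G r P k x y = ∅
      · exact h1a V K r dg P O I k h T hc1 htwo hG
      · push Not at hG
        obtain ⟨x, hx, y, hy, hxy, hdxy, hne⟩ := hG
        exact h1b V K r dg P O I k h T hc1 x hx y hy hxy hdxy
          hne
    · exact h2 V K r dg P O I k h T (by omega)

end Pool.Agent.Lib.MP_ee37cd_co.LL
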