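import Pool.Agent.Lib.MP_ee37cd_co.Spec

/-!
# MP_ee37cd_co: ONE, a near biclique from two different outside neighbours
-/

set_option autoImplicit false

namespace Pool.Agent.Lib.MP_ee37cd_co.BK

open Finset
open scoped Classical

namespace ONE

variable {V : Type} {E : V → V → Prop}

theorem outdeg_addArc {S R : Finset V} (hR : R ⊆ S) {z v0 w0 : V} (hz : z ∈ S) (hzR : z ∉ R)
    (h : E v0 z) (v : V) : outdeg (addArc E v0 w0) R v ≤ outdeg E S v := by
  unfold outdeg
  by_cases hv : v = v0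
  · subst hv
    have h1 : R.filter (fun w => addArc E v w0 v w) ⊆
        insert w0 (R.filter (fun w => E v w)) := by
      intro w hw
      rw [Finset.mem_filter] at hw
      rcases hw.2 with h2 | ⟨-, h2, -⟩
      · exact Finset.mem_insert_of_mem (Finset.mem_filter.mpr ⟨hw.1, h2⟩)
      · rw [h2]
        exact Finset.mem_insert_self _ _
    have h2 : insert z (R.filter (fun w => E v w)) ⊆ S.filter (fun w => E v w) := by
      intro w hw
      rcases Finset.mem_insert.mp hw with h3 | h3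
      · rw [h3]
        exact Finset.mem_filter.mpr ⟨hz, h⟩
      · rw [Finset.mem_filter] at h3
        exact Finset.mem_filter.mpr ⟨hR h3.1, h3.2⟩
    have h3 : z ∉ R.filter (fun w => E v w) := fun h4 => hzR (Finset.mem_filter.mp h4).1
    have h4 := Finset.card_le_card h1
    have h5 := Finset.card_le_card h2
    rw [Finset.card_insert_of_notMem h3] at h5
    exact h4.trans ((Finset.card_insert_le _ _).trans h5)
  · refine Finset.card_le_card ?_
    intro w hw
    rw [Finset.mem_filter] at hw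
    rcases hw.2 with h2 | ⟨h2, -⟩
    · exact Finset.mem_filter.mpr ⟨hR hw.1, h2⟩
    · exact absurd h2 hv

theorem indeg_addArc {S R : Finset V} (hR : R ⊆ S) {z v0 w0 : V} (hz : z ∈ S) (hzR : z ∉ R)
    (h : E z w0) (v : V) : indeg (addArc E v0 w0) R v ≤ indeg E S v := by
  unfold indeg
  by_cases hv : v = w0
  · subst hv
    have h1 : R.filter (fun w => addArc E v0 v w v) ⊆
        insert v0 (R.filter (fun w => E w v)) := by
      intro w hw
      rw [Finset.mem_filter] at hw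
      rcases hw.2 with h2 | ⟨h2, -, -⟩
      · exact Finset.mem_insert_of_mem (Finset.mem_filter.mpr ⟨hw.1, h2⟩)
      · rw [h2]
        exact Finset.mem_insert_self _ _
    have h2 : insert z (R.filter (fun w => E w v)) ⊆ S.filter (fun w => E w v) := by
      intro w hw
      rcases Finset.mem_insert.mp hw with h3 | h3
      · rw [h3]
        exact Finset.mem_filter.mpr ⟨hz, h⟩
      · rw [Finset.mem_filter] at h3
        exact Finset.mem_filter.mpr ⟨hR h3.1, h3.2⟩
    have h3 : z ∉ R.filter (fun w => E w v) := fun h4 => hzR (Finset.mem_filter.mp h4).1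
    have h4 := Finset.card_le_card h1
    have h5 := Finset.card_le_card h2
    rw [Finset.card_insert_of_notMem h3] at h5
    exact h4.trans ((Finset.card_insert_le _ _).trans h5)
  · refine Finset.card_le_card ?_
    intro w hw
    rw [Finset.mem_filter] at hw
    rcases hw.2 with h2 | ⟨-, h2, -⟩
    · exact Finset.mem_filter.mpr ⟨hR hw.1, h2⟩
    · exact absurd h2 hv

theorem acyc_le {E' : V → V → Prop} (h : ∀ a b, E a b → E' a b) {A : Finset V}
    (hA : Acyc E' A) : Acyc E A := fun v hv =>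
  hA v (tg_mono (fun a b ⟨h1, h2, h3⟩ => ⟨h a b h1, h2, h3⟩) hv)

theorem rtg_mono {r p : V → V → Prop} (h : ∀ a b, r a b → p a b) {x y : V}
    (hx : Relation.ReflTransGen r x y) : Relation.ReflTransGen p x y := by
  induction hx with
  | refl => exact Relation.ReflTransGen.refl
  | tail _ h1 ih => exact ih.tail (h _ _ h1)

theorem hasH_mono {E' : V → V → Prop} (h : ∀ a b, E a b → E' a b) {R S : Finset V} (hRS : R ⊆ S)
    {k : ℕ} (hH : HasH E R k) : HasH E' S k := by
  obtain ⟨a, b, c, X, ha, hb, hc, hX, h1, h2, h3, h4, h5, h6⟩ := hH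
  exact ⟨a, b, c, X, hRS ha, hRS hb, hRS hc, hX.trans hRS, h1,
    fun u hu v hv huv => h _ _ (h2 u hu v hv huv), h _ _ h3, h _ _ h4, h _ _ h5,
    fun x hx => ⟨⟨h _ _ (h6 x hx).1.1, h _ _ (h6 x hx).1.2⟩,
      ⟨h _ _ (h6 x hx).2.1.1, h _ _ (h6 x hx).2.1.2⟩,
      ⟨h _ _ (h6 x hx).2.2.1, h _ _ (h6 x hx).2.2.2⟩⟩⟩

end ONE

/-- ONE. If `p z ≠ q z` then there is a near biclique in `S \ K` with the simple arc
`p z → q z`. -/
theorem s_ONE : S_HM → S_ONE := by
  intro hHM V E S k x y Z p q hk hmin hnb hPQ z hz hne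
  obtain ⟨hP1, hP2⟩ := hPQ
  obtain ⟨hpR, hqR, hzp, hqz, -, -⟩ := hP1 z hz
  obtain ⟨R, hRdef⟩ : ∃ R : Finset V, R = S \ NBK x y Z := ⟨_, rfl⟩
  rw [← hRdef] at hpR hqR hP2 ⊢
  have hRS : R ⊆ S := by
    rw [hRdef]
    exact Finset.sdiff_subset
  have hzS : z ∈ S := hnb.ZS hz
  have hzR : z ∉ R := by
    rw [hRdef, Finset.mem_sdiff]
    intro h
    exact h.2 (mem_NBK.mpr (Or.inr (Or.inr hz)))
  have hss : R ⊂ S := by
    rw [Finset.ssubset_iff_subset_ne]
    refine ⟨hRS, ?_⟩
    intro h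
    exact hzR (h ▸ hzS)
  have hle : ∀ a b, E a b → addArc E (q z) (p z) a b := fun a b h => Or.inl h
  have hirr : ∀ v, ¬ addArc E (q z) (p z) v v := by
    rintro v (h | ⟨h1, h2, h3⟩)
    · exact hmin.irr v h
    · exact h3 (h1.symm.trans h2)
  have hnoD : ¬ Dicol (addArc E (q z) (p z)) R k := by
    intro hD
    obtain ⟨f, hf⟩ := hD.ex
    have hfE : IsDicol E R k f := ⟨hf.1, fun c => ONE.acyc_le hle (hf.2 c)⟩
    obtain ⟨d, hd⟩ := hP2 f hfE
    obtain ⟨hd1, hd2, hd3⟩ := hd z hz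
    refine hf.2 d (p z) (Relation.TransGen.tail' (ONE.rtg_mono ?_ hd3)
      ⟨Or.inr ⟨rfl, rfl, hne.symm⟩, mem_cls.mpr ⟨hqR, hd2⟩, mem_cls.mpr ⟨hpR, hd1⟩⟩)
    rintro a b ⟨h1, h2, h3⟩
    exact ⟨hle a b h1, h2, h3⟩
  have hnoH : ¬ HasH (addArc E (q z) (p z)) R (k + 1) := by
    intro hH
    refine hHM V E S k (q z) (p z) hk hmin (ONE.hasH_mono ?_ hRS hH)
    intro a b h
    exact Or.inl h
  have hB : ∃ B ⊆ R, Bic (addArc E (q z) (p z)) B ∧ k < B.card := by
    by_contra hcon
    push Not at hcon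
    refine hnoD (hmin.min _ R hirr hss ?_ hcon hnoH)
    intro v _
    exact ⟨ONE.outdeg_addArc hRS hzS hzR hqz v, ONE.indeg_addArc hRS hzS hzR hzp v⟩
  obtain ⟨B, hBR, hBic, hBk⟩ := hB
  have hnb1 : ¬ Bic E B := by
    intro h
    have := hmin.noK B (hBR.trans hRS) h
    omega
  have hex : p z ∈ B ∧ q z ∈ B ∧ ¬ E (q z) (p z) := by
    unfold Bic at hnb1
    push Not at hnb1
    obtain ⟨a, ha, b, hb, hab, hE⟩ := hnb1
    rcases hBic a ha b hb hab with h | ⟨h1, h2, -⟩
    · exact absurd h hE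
    · subst h1
      subst h2
      exact ⟨hb, ha, hE⟩
  obtain ⟨hpB, hqB, hnE⟩ := hex
  have hkey : ∀ a ∈ B, ∀ b ∈ B, a ≠ b → (a ≠ q z ∨ b ≠ p z) → E a b := by
    intro a ha b hb hab h
    rcases hBic a ha b hb hab with h1 | ⟨h1, h2, -⟩
    · exact h1
    · rcases h with h | h
      · exact absurd h1 h
      · exact absurd h2 h
  have hc1 : (B.erase (q z)).card ≤ k := by
    refine hmin.noK _ (((Finset.erase_subset _ _).trans hBR).trans hRS) ?_
    intro a ha b hb hab
    rw [Finset.mem_erase] at ha hb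
    exact hkey a ha.2 b hb.2 hab (Or.inl ha.1)
  rw [Finset.card_erase_of_mem hqB] at hc1
  have hpB' : p z ∈ B.erase (q z) := Finset.mem_erase.mpr ⟨hne, hpB⟩
  refine ⟨(B.erase (q z)).erase (p z), ?_, ?_⟩
  · exact ((Finset.erase_subset _ _).trans (Finset.erase_subset _ _)).trans hBR
  · have hmem : ∀ w, w ∈ (B.erase (q z)).erase (p z) ↔ w ≠ p z ∧ w ≠ q z ∧ w ∈ B := by
      intro w
      rw [Finset.mem_erase, Finset.mem_erase]
    constructor
    · exact hRS hpR
    · exact hRS hqR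
    · exact (((Finset.erase_subset _ _).trans (Finset.erase_subset _ _)).trans hBR).trans hRS
    · intro h
      exact ((hmem _).1 h).1 rfl
    · intro h
      exact ((hmem _).1 h).2.1 rfl
    · rw [Finset.card_erase_of_mem hpB', Finset.card_erase_of_mem hqB]
      omega
    · intro a ha b hb hab
      rw [hmem] at ha hb
      exact hkey a ha.2.2 b hb.2.2 hab (Or.inl ha.2.1)
    · intro w hw
      rw [hmem] at hw
      exact ⟨hkey _ hpB _ hw.2.2 hw.1.symm (Or.inl hne), hkey _ hw.2.2 _ hpB hw.1 (Or.inl hw.2.1)⟩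
    · intro w hw
      rw [hmem] at hw
      exact ⟨hkey _ hqB _ hw.2.2 hw.2.1.symm (Or.inr hw.1),
        hkey _ hw.2.2 _ hqB hw.2.1 (Or.inl hw.2.1)⟩
    · exact hkey _ hpB _ hqB hne (Or.inl hne)
    · exact hnE

end Pool.Agent.Lib.MP_ee37cd_co.BK
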