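import Pool.Agent.Lib.MP_ee37cd_co.Spec

/-!
# MP_ee37cd_co: the order with the fewest forward arcs
-/

set_option autoImplicit false

namespace Pool.Agent.Lib.MP_ee37cd_co.BK

open Finset
open scoped Classical

namespace ORD

/-- the indicator of a forward arc -/
private noncomputable def ind {V : Type} (E : V → V → Prop) (r : V → ℕ) (a b : V) : ℕ :=
  if E a b ∧ r a < r b then 1 else 0

/-- the number of forward arcs -/
private noncomputable def Phi {V : Type} (E : V → V → Prop) (S : Finset V) (r : V → ℕ) : ℕ :=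
  ∑ a ∈ S, ∑ b ∈ S, ind E r a b

private theorem split_sum {V : Type} (S : Finset V) {v : V} (hv : v ∈ S) (i : V → V → ℕ) :
    ∑ a ∈ S, ∑ b ∈ S, i a b = i v v + ∑ b ∈ S.erase v, i v b + ∑ a ∈ S.erase v, i a v +
      ∑ a ∈ S.erase v, ∑ b ∈ S.erase v, i a b := by
  have h1 : ∀ a, ∑ b ∈ S, i a b = i a v + ∑ b ∈ S.erase v, i a b := fun a =>
    (Finset.add_sum_erase S (fun b => i a b) hv).symm
  rw [← Finset.add_sum_erase S (fun a => ∑ b ∈ S, i a b) hv]
  simp only [h1]
  rw [Finset.sum_add_distrib]
  ring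

private theorem card_fwd {V : Type} (E : V → V → Prop) (S : Finset V) (hE : ∀ v, ¬ E v v)
    (r : V → ℕ) {v : V} (hv : v ∈ S) :
    (S.filter (fun w => (E v w ∧ r v < r w) ∨ (E w v ∧ r w < r v))).card =
      ∑ w ∈ S.erase v, ind E r v w + ∑ w ∈ S.erase v, ind E r w v := by
  rw [Finset.card_filter, ← Finset.add_sum_erase S _ hv, ← Finset.sum_add_distrib]
  have h0 : ¬ ((E v v ∧ r v < r v) ∨ (E v v ∧ r v < r v)) := by
    rintro (⟨h, -⟩ | ⟨h, -⟩) <;> exact hE v h
  rw [if_neg h0, zero_add]
  apply Finset.sum_congr rfl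
  intro w _
  unfold ind
  by_cases h1 : E v w ∧ r v < r w
  · have h2 : ¬ (E w v ∧ r w < r v) := fun h => by omega
    rw [if_pos (Or.inl h1), if_pos h1, if_neg h2]
  · by_cases h2 : E w v ∧ r w < r v
    · rw [if_pos (Or.inr h2), if_neg h1, if_pos h2]
    · rw [if_neg (by rintro (h | h) <;> contradiction), if_neg h1, if_neg h2]

private theorem outdeg_sum {V : Type} (E : V → V → Prop) (S : Finset V) (hE : ∀ v, ¬ E v v)
    {v : V} (hv : v ∈ S) : outdeg E S v = ∑ w ∈ S.erase v, if E v w then 1 else 0 := by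
  unfold outdeg
  rw [Finset.card_filter, ← Finset.add_sum_erase S _ hv, if_neg (hE v), zero_add]

private theorem indeg_sum {V : Type} (E : V → V → Prop) (S : Finset V) (hE : ∀ v, ¬ E v v)
    {v : V} (hv : v ∈ S) : indeg E S v = ∑ w ∈ S.erase v, if E w v then 1 else 0 := by
  unfold indeg
  rw [Finset.card_filter, ← Finset.add_sum_erase S _ hv, if_neg (hE v), zero_add]

private theorem Phi_bot {V : Type} (E : V → V → Prop) (S : Finset V) (hE : ∀ v, ¬ E v v)
    (r : V → ℕ) {v : V} (hv : v ∈ S) :
    Phi E S (fun w => if w = v then 0 else r w + 1) = outdeg E S v +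
      ∑ a ∈ S.erase v, ∑ b ∈ S.erase v, ind E r a b := by
  unfold Phi
  rw [split_sum S hv, outdeg_sum E S hE hv]
  have h0 : ind E (fun w => if w = v then 0 else r w + 1) v v = 0 := by
    unfold ind; rw [if_neg]; rintro ⟨h, -⟩; exact hE v h
  have h1 : ∑ b ∈ S.erase v, ind E (fun w => if w = v then 0 else r w + 1) v b =
      ∑ w ∈ S.erase v, if E v w then 1 else 0 := by
    apply Finset.sum_congr rfl
    intro b hb
    have hne : b ≠ v := Finset.ne_of_mem_erase hb
    unfold ind
    simp [hne]
  have h2 : ∑ a ∈ S.erase v, ind E (fun w => if w = v then 0 else r w + 1) a v = 0 := by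
    apply Finset.sum_eq_zero
    intro a ha
    unfold ind
    simp
  have h3 : ∑ a ∈ S.erase v, ∑ b ∈ S.erase v,
      ind E (fun w => if w = v then 0 else r w + 1) a b =
      ∑ a ∈ S.erase v, ∑ b ∈ S.erase v, ind E r a b := by
    apply Finset.sum_congr rfl
    intro a ha
    apply Finset.sum_congr rfl
    intro b hb
    have hna : a ≠ v := Finset.ne_of_mem_erase ha
    have hnb : b ≠ v := Finset.ne_of_mem_erase hb
    unfold ind
    simp [hna, hnb]
  rw [h0, h1, h2, h3]
  ring

private theorem Phi_top {V : Type} (E : V → V → Prop) (S : Finset V) (hE : ∀ v, ¬ E v v)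
    (r : V → ℕ) (M : ℕ) (hM : ∀ w ∈ S, r w < M) {v : V} (hv : v ∈ S) :
    Phi E S (fun w => if w = v then M else r w) = indeg E S v +
      ∑ a ∈ S.erase v, ∑ b ∈ S.erase v, ind E r a b := by
  unfold Phi
  rw [split_sum S hv, indeg_sum E S hE hv]
  have h0 : ind E (fun w => if w = v then M else r w) v v = 0 := by
    unfold ind; rw [if_neg]; rintro ⟨h, -⟩; exact hE v h
  have h1 : ∑ b ∈ S.erase v, ind E (fun w => if w = v then M else r w) v b = 0 := by
    apply Finset.sum_eq_zero
    intro b hb
    have hne : b ≠ v := Finset.ne_of_mem_erase hb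
    have := hM b (Finset.mem_of_mem_erase hb)
    unfold ind
    simp only [if_true, hne, if_false]
    rw [if_neg]
    rintro ⟨-, h⟩
    omega
  have h2 : ∑ a ∈ S.erase v, ind E (fun w => if w = v then M else r w) a v =
      ∑ w ∈ S.erase v, if E w v then 1 else 0 := by
    apply Finset.sum_congr rfl
    intro a ha
    have hne : a ≠ v := Finset.ne_of_mem_erase ha
    have := hM a (Finset.mem_of_mem_erase ha)
    unfold ind
    simp [hne, this]
  have h3 : ∑ a ∈ S.erase v, ∑ b ∈ S.erase v,
      ind E (fun w => if w = v then M else r w) a b =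
      ∑ a ∈ S.erase v, ∑ b ∈ S.erase v, ind E r a b := by
    apply Finset.sum_congr rfl
    intro a ha
    apply Finset.sum_congr rfl
    intro b hb
    have hna : a ≠ v := Finset.ne_of_mem_erase ha
    have hnb : b ≠ v := Finset.ne_of_mem_erase hb
    unfold ind
    simp [hna, hnb]
  rw [h0, h1, h2, h3]
  ring

private theorem Phi_self {V : Type} (E : V → V → Prop) (S : Finset V) (hE : ∀ v, ¬ E v v)
    (r : V → ℕ) {v : V} (hv : v ∈ S) :
    Phi E S r = (S.filter (fun w => (E v w ∧ r v < r w) ∨ (E w v ∧ r w < r v))).card +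
      ∑ a ∈ S.erase v, ∑ b ∈ S.erase v, ind E r a b := by
  unfold Phi
  rw [split_sum S hv, card_fwd E S hE r hv]
  have h0 : ind E r v v = 0 := by
    unfold ind; rw [if_neg]; rintro ⟨h, -⟩; exact hE v h
  rw [h0]
  ring

end ORD

open ORD in
/-- **ORD.** -/
theorem s_ORD : S_ORD := by
  intro V E S hE
  -- an injective ranking
  have hex : ∃ r : V → ℕ, ∀ a ∈ S, ∀ b ∈ S, r a = r b → a = b := by
    refine ⟨fun v => if h : v ∈ S then (S.equivFin ⟨v, h⟩ : ℕ) else 0, ?_⟩
    intro a ha b hb hab
    simp only [ha, hb, dif_pos] at hab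
    have h1 : S.equivFin ⟨a, ha⟩ = S.equivFin ⟨b, hb⟩ := Fin.ext hab
    have h2 := S.equivFin.injective h1
    exact congrArg Subtype.val h2
  -- minimal number of forward arcs
  have hex2 : ∃ n : ℕ, ∃ r : V → ℕ, (∀ a ∈ S, ∀ b ∈ S, r a = r b → a = b) ∧ Phi E S r = n := by
    obtain ⟨r, hr⟩ := hex
    exact ⟨_, r, hr, rfl⟩
  obtain ⟨r, hr, hn⟩ := Nat.find_spec hex2
  have hmin : ∀ r' : V → ℕ, (∀ a ∈ S, ∀ b ∈ S, r' a = r' b → a = b) →
      Phi E S r ≤ Phi E S r' := by
    intro r' hr'
    rw [hn]
    exact Nat.find_min' hex2 ⟨r', hr', rfl⟩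
  refine ⟨r, hr, fun v hv => ⟨?_, ?_⟩⟩
  · have h1 := hmin (fun w => if w = v then 0 else r w + 1) (by
      intro a ha b hb hab
      by_cases h1 : a = v
      · by_cases h2 : b = v
        · rw [h1, h2]
        · simp [h1, h2] at hab
      · by_cases h2 : b = v
        · simp [h1, h2] at hab
        · simp only [h1, h2, if_false] at hab
          exact hr a ha b hb (by omega))
    rw [Phi_self E S hE r hv, Phi_bot E S hE r hv] at h1
    omega
  · have hM : ∀ w ∈ S, r w < S.sup r + 1 := fun w hw =>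
      Nat.lt_succ_of_le (Finset.le_sup (f := r) hw)
    have h1 := hmin (fun w => if w = v then S.sup r + 1 else r w) (by
      intro a ha b hb hab
      by_cases h1 : a = v
      · by_cases h2 : b = v
        · rw [h1, h2]
        · simp only [h1, h2, if_true, if_false] at hab
          have := hM b hb
          omega
      · by_cases h2 : b = v
        · simp only [h1, h2, if_true, if_false] at hab
          have := hM a ha
          omega
        · simp only [h1, h2, if_false] at hab
          exact hr a ha b hb hab)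
    rw [Phi_self E S hE r hv, Phi_top E S hE r _ hM hv] at h1
    omega

end Pool.Agent.Lib.MP_ee37cd_co.BK
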