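import Pool.Agent.Lib.MP_ee37cd_co.Spec

/-!
# MP_ee37cd_co: the data p, q of a near biclique
-/

set_option autoImplicit false

namespace Pool.Agent.Lib.MP_ee37cd_co.BK

open Finset
open scoped Classical

namespace PQ

variable {V : Type} {E : V → V → Prop}

/-- If adding `z` to an acyclic set creates a cycle, there is a path from an out-neighbour of `z` to
an in-neighbour of `z`. -/
theorem path_of_not_acyc (irr : ∀ v, ¬ E v v) {A : Finset V} (hA : Acyc E A) {z : V}
    (h : ¬ Acyc E (A ∪ {z})) : ∃ u v, u ∈ A ∧ v ∈ A ∧ E z u ∧ E v z ∧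
      Relation.ReflTransGen (fun a b => E a b ∧ a ∈ A ∧ b ∈ A) u v := by
  by_contra hcon
  push Not at hcon
  apply h
  set B : Finset V := A.filter (fun a => ∃ u ∈ A, E z u ∧
    Relation.ReflTransGen (fun a b => E a b ∧ a ∈ A ∧ b ∈ A) u a) with hB
  have hBA : B ⊆ A := Finset.filter_subset _ _
  have hBac : Acyc E B := hA.mono hBA
  have h1 : Acyc E (insert z (A \ B)) := by
    refine acyc_insert_out irr (hA.mono Finset.sdiff_subset) ?_
    intro w hw hzw
    rw [Finset.mem_sdiff] at hw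
    apply hw.2
    rw [hB, Finset.mem_filter]
    exact ⟨hw.1, w, hw.1, hzw, Relation.ReflTransGen.refl⟩
  have h2 : Acyc E (insert z (A \ B) ∪ B) := by
    refine acyc_union_noout h1 hBac ?_
    intro b hb a ha hba
    have hb' := hb
    rw [hB, Finset.mem_filter] at hb'
    obtain ⟨hbA, u, hu, hzu, hub⟩ := hb'
    rcases Finset.mem_insert.mp ha with rfl | ha
    · exact hcon u b hu hbA hzu hba hub
    · rw [Finset.mem_sdiff] at ha
      apply ha.2
      rw [hB, Finset.mem_filter]
      exact ⟨ha.1, u, hu, hzu, hub.tail ⟨hba, hbA, ha.1⟩⟩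
  refine h2.mono ?_
  intro w hw
  rcases Finset.mem_union.mp hw with hw | hw
  · by_cases hwB : w ∈ B
    · exact Finset.mem_union_right _ hwB
    · exact Finset.mem_union_left _ (Finset.mem_insert_of_mem (Finset.mem_sdiff.mpr ⟨hw, hwB⟩))
  · rw [Finset.mem_singleton] at hw
    rw [hw]
    exact Finset.mem_union_left _ (Finset.mem_insert_self _ _)

section

variable {S : Finset V} {k : ℕ} {x y : V} {Z : Finset V}

theorem ne_xy (hM : MinCex E S k) (h : NB E S k x y Z) : x ≠ y := by
  rintro rfl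
  exact hM.irr _ h.xy

theorem sub_S (h : NB E S k x y Z) : NBK x y Z ⊆ S := by
  intro v hv
  rcases mem_NBK.mp hv with rfl | rfl | hv
  · exact h.xS
  · exact h.yS
  · exact h.ZS hv

theorem card_K (hM : MinCex E S k) (h : NB E S k x y Z) : (NBK x y Z).card = k + 1 := by
  rw [NBK, Finset.card_insert_of_notMem, Finset.card_insert_of_notMem h.yZ, h.card]
  rw [Finset.mem_insert]
  rintro (h1 | h1)
  · exact ne_xy hM h h1
  · exact h.xZ h1

theorem out_z (hk : 8 ≤ k) (hM : MinCex E S k) (h : NB E S k x y Z) {z : V} (hz : z ∈ Z) :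
    outdeg E (S \ NBK x y Z) z + indeg E (S \ NBK x y Z) z ≤ 2 := by
  have hzK : z ∈ NBK x y Z := mem_NBK.mpr (Or.inr (Or.inr hz))
  have h1 := deg_ge (E := E) (T := NBK x y Z) (A := (NBK x y Z).erase z) (B := ∅) (C := ∅)
    (v := z) (Finset.erase_subset _ _) (Finset.empty_subset _) (Finset.empty_subset _)
    (Finset.disjoint_empty_right _) (Finset.disjoint_empty_right _) (by
      intro a ha
      rw [Finset.mem_erase] at ha
      rcases mem_NBK.mp ha.2 with rfl | rfl | h2
      · exact (h.dx z hz).symm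
      · exact (h.dy z hz).symm
      · exact h.bic.dg hz h2 (fun h3 => ha.1 h3.symm)) (by simp) (by simp)
  rw [Finset.card_erase_of_mem hzK, card_K hM h] at h1
  simp only [Finset.card_empty] at h1
  have h2 := hM.outside (by omega) (sub_S h) (h.ZS hz) h1
  omega

theorem out_x (hk : 8 ≤ k) (hM : MinCex E S k) (h : NB E S k x y Z) :
    outdeg E (S \ NBK x y Z) x + indeg E (S \ NBK x y Z) x ≤ 3 := by
  have h1 := deg_ge (E := E) (T := NBK x y Z) (A := Z) (B := {y}) (C := ∅)
    (v := x) (fun v hv => mem_NBK.mpr (Or.inr (Or.inr hv)))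
    (fun v hv => mem_NBK.mpr (Or.inr (Or.inl (Finset.mem_singleton.mp hv))))
    (Finset.empty_subset _) (Finset.disjoint_singleton_right.mpr h.yZ)
    (Finset.disjoint_empty_right _) h.dx (by
      intro b hb
      rw [Finset.mem_singleton] at hb
      rw [hb]
      exact h.xy) (by simp)
  simp only [Finset.card_empty, Finset.card_singleton] at h1
  have h2 := hM.outside (by omega) (sub_S h) h.xS h1
  have h3 := h.card
  omega

theorem out_y (hk : 8 ≤ k) (hM : MinCex E S k) (h : NB E S k x y Z) :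
    outdeg E (S \ NBK x y Z) y + indeg E (S \ NBK x y Z) y ≤ 3 := by
  have h1 := deg_ge (E := E) (T := NBK x y Z) (A := Z) (B := ∅) (C := {x})
    (v := y) (fun v hv => mem_NBK.mpr (Or.inr (Or.inr hv)))
    (Finset.empty_subset _)
    (fun v hv => mem_NBK.mpr (Or.inl (Finset.mem_singleton.mp hv)))
    (Finset.disjoint_empty_right _) (Finset.disjoint_singleton_right.mpr h.xZ)
    h.dy (by simp) (by
      intro b hb
      rw [Finset.mem_singleton] at hb
      rw [hb]
      exact h.xy)
  simp only [Finset.card_empty, Finset.card_singleton] at h1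
  have h2 := hM.outside (by omega) (sub_S h) h.yS h1
  have h3 := h.card
  omega

theorem common_bad (hk : 8 ≤ k) (hM : MinCex E S k) (h : NB E S k x y Z) {f : V → ℕ}
    (hf : IsDicol E (S \ NBK x y Z) k f) :
    ∃ d : ℕ, ∀ z ∈ Z, d ∈ bad E (S \ NBK x y Z) f k {z} := by
  have hxy : Acyc E {x, y} := acyc_pair hM.irr (fun h1 => h.yx h1.2)
  have hb1 := card_bad (k := k) hf hxy
  rw [Finset.sum_pair (ne_xy hM h)] at hb1
  have hx3 := out_x hk hM h
  have hy3 := out_y hk hM h
  have hbz : ∀ z ∈ Z, (bad E (S \ NBK x y Z) f k {z}).card ≤ 1 := by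
    intro z hz
    have h1 := card_bad (k := k) hf (acyc_single hM.irr z)
    rw [Finset.sum_singleton] at h1
    have h2 := out_z hk hM h hz
    omega
  obtain ⟨c, hc1, hc2⟩ : ∃ c ∈ range k, c ∉ bad E (S \ NBK x y Z) f k {x, y} := by
    refine Finset.exists_mem_notMem_of_card_lt_card ?_
    rw [card_range]
    omega
  have hcac : Acyc E (cls (S \ NBK x y Z) f c ∪ {x, y}) := by
    by_contra hcon
    exact hc2 (Finset.mem_filter.mpr ⟨hc1, hcon⟩)
  set Γ : Finset ℕ := (range k).erase c with hΓ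
  have hΓc : Γ.card = k - 1 := by rw [hΓ, Finset.card_erase_of_mem hc1, card_range]
  have hZc := h.card
  by_cases hall : ∀ U : Finset {z // z ∈ Z},
      U.card ≤ (U.biUnion fun z => Γ \ bad E (S \ NBK x y Z) f k {z.1}).card
  · exfalso
    obtain ⟨g, hginj, hg⟩ :=
      (Finset.all_card_le_biUnion_card_iff_exists_injective
        (fun z : {z // z ∈ Z} => Γ \ bad E (S \ NBK x y Z) f k {z.1})).mp hall
    let gg : V → ℕ := fun v => if hv : v ∈ Z then g ⟨v, hv⟩ else c
    have hgg1 : ∀ v (hv : v ∈ Z), gg v = g ⟨v, hv⟩ := by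
      intro v hv
      simp only [gg, hv, dif_pos]
    have hgg2 : ∀ v, v ∉ Z → gg v = c := by
      intro v hv
      simp only [gg, hv, dif_neg, not_false_iff]
    have hgΓ : ∀ z : {z // z ∈ Z}, g z < k ∧ g z ≠ c := by
      intro z
      have h1 := (Finset.mem_sdiff.mp (hg z)).1
      rw [hΓ, Finset.mem_erase, Finset.mem_range] at h1
      exact ⟨h1.2, h1.1⟩
    refine hM.ncol (dicol_combine (g := gg) (sub_S h) hf ?_ ?_)
    · intro v _
      by_cases hv : v ∈ Z
      · rw [hgg1 v hv]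
        exact (hgΓ _).1
      · rw [hgg2 v hv]
        exact Finset.mem_range.mp hc1
    · intro d hd
      by_cases hdc : d = c
      · subst hdc
        refine hcac.mono (Finset.union_subset_union (Finset.Subset.refl _) ?_)
        intro v hv
        rw [mem_cls] at hv
        have hvZ : v ∉ Z := by
          intro hvZ
          rw [hgg1 v hvZ] at hv
          exact (hgΓ _).2 hv.2
        rcases mem_NBK.mp hv.1 with h1 | h1 | h1
        · simp [h1]
        · simp [h1]
        · exact absurd h1 hvZ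
      · rcases (cls (NBK x y Z) gg d).eq_empty_or_nonempty with h2 | ⟨z, hz⟩
        · rw [h2, Finset.union_empty]
          exact hf.2 d
        · rw [mem_cls] at hz
          have hzZ : z ∈ Z := by
            by_contra hcon
            rw [hgg2 z hcon] at hz
            exact hdc hz.2.symm
          rw [hgg1 z hzZ] at hz
          have h3 : Acyc E (cls (S \ NBK x y Z) f d ∪ {z}) := by
            by_contra hcon
            have h4 := (Finset.mem_sdiff.mp (hg ⟨z, hzZ⟩)).2
            apply h4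
            rw [hz.2]
            exact Finset.mem_filter.mpr ⟨Finset.mem_range.mpr hd, hcon⟩
          refine h3.mono (Finset.union_subset_union (Finset.Subset.refl _) ?_)
          intro v hv
          rw [mem_cls] at hv
          have hvZ : v ∈ Z := by
            by_contra hcon
            rw [hgg2 v hcon] at hv
            exact hdc hv.2.symm
          rw [hgg1 v hvZ] at hv
          have h4 : (⟨v, hvZ⟩ : {z // z ∈ Z}) = ⟨z, hzZ⟩ := hginj (hv.2.trans hz.2.symm)
          rw [Finset.mem_singleton]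
          exact congrArg Subtype.val h4
  · push Not at hall
    obtain ⟨U, hU⟩ := hall
    have hUne : U.Nonempty := by
      rw [Finset.nonempty_iff_ne_empty]
      rintro rfl
      simp at hU
    have hUc : U.card ≤ Z.card := by
      have := Finset.card_le_univ U
      simpa using this
    set W := U.biUnion fun z => Γ \ bad E (S \ NBK x y Z) f k {z.1} with hW
    have hge : ∀ z ∈ Z, k - 2 ≤ (Γ \ bad E (S \ NBK x y Z) f k {z}).card := by
      intro z hz
      have h1 := Finset.le_card_sdiff (bad E (S \ NBK x y Z) f k {z}) Γ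
      have h2 := hbz z hz
      omega
    have hsub : ∀ z ∈ U, Γ \ bad E (S \ NBK x y Z) f k {z.1} ⊆ W := by
      intro z hz
      exact Finset.subset_biUnion_of_mem
        (fun z : {z // z ∈ Z} => Γ \ bad E (S \ NBK x y Z) f k {z.1}) hz
    have hWge : k - 2 ≤ W.card := by
      obtain ⟨z, hz⟩ := hUne
      exact (hge z.1 z.2).trans (Finset.card_le_card (hsub z hz))
    have hWle : W.card ≤ k - 2 := by omega
    have hUuniv : U = univ := by
      apply Finset.eq_univ_of_card
      have h1 : Fintype.card {z // z ∈ Z} = Z.card := by simp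
      rw [h1]
      omega
    have hWΓ : W ⊆ Γ := by
      intro w hw
      rw [hW, Finset.mem_biUnion] at hw
      obtain ⟨z, -, hz⟩ := hw
      exact (Finset.mem_sdiff.mp hz).1
    obtain ⟨d, hd1, hd2⟩ : ∃ d ∈ Γ, d ∉ W := by
      refine Finset.exists_mem_notMem_of_card_lt_card ?_
      omega
    refine ⟨d, ?_⟩
    intro z hz
    by_contra hcon
    apply hd2
    refine hsub ⟨z, hz⟩ (by rw [hUuniv]; exact Finset.mem_univ _) ?_
    exact Finset.mem_sdiff.mpr ⟨hd1, hcon⟩

theorem core (hk : 8 ≤ k) (hM : MinCex E S k) (h : NB E S k x y Z) {f : V → ℕ}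
    (hf : IsDicol E (S \ NBK x y Z) k f) :
    ∃ d : ℕ, ∀ z ∈ Z, ∃ u v, u ∈ cls (S \ NBK x y Z) f d ∧ v ∈ cls (S \ NBK x y Z) f d ∧
      E z u ∧ E v z ∧ Relation.ReflTransGen (fun a b => E a b ∧ a ∈ cls (S \ NBK x y Z) f d ∧
        b ∈ cls (S \ NBK x y Z) f d) u v := by
  obtain ⟨d, hd⟩ := common_bad hk hM h hf
  refine ⟨d, ?_⟩
  intro z hz
  exact path_of_not_acyc hM.irr (hf.2 d) (Finset.mem_filter.mp (hd z hz)).2

theorem uniq (hk : 8 ≤ k) (hM : MinCex E S k) (h : NB E S k x y Z) {z : V} (hz : z ∈ Z)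
    {u v : V} (hu : u ∈ S \ NBK x y Z) (hv : v ∈ S \ NBK x y Z) (hzu : E z u) (hvz : E v z) :
    (∀ w ∈ S \ NBK x y Z, E z w → w = u) ∧ (∀ w ∈ S \ NBK x y Z, E w z → w = v) := by
  have h1 := out_z hk hM h hz
  have h2 : u ∈ (S \ NBK x y Z).filter (fun w => E z w) := Finset.mem_filter.mpr ⟨hu, hzu⟩
  have h3 : v ∈ (S \ NBK x y Z).filter (fun w => E w z) := Finset.mem_filter.mpr ⟨hv, hvz⟩
  have h4 : 1 ≤ outdeg E (S \ NBK x y Z) z := Finset.card_pos.mpr ⟨u, h2⟩
  have h5 : 1 ≤ indeg E (S \ NBK x y Z) z := Finset.card_pos.mpr ⟨v, h3⟩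
  have h6 : ((S \ NBK x y Z).filter (fun w => E z w)).card ≤ 1 := by
    change outdeg E (S \ NBK x y Z) z ≤ 1
    omega
  have h7 : ((S \ NBK x y Z).filter (fun w => E w z)).card ≤ 1 := by
    change indeg E (S \ NBK x y Z) z ≤ 1
    omega
  rw [Finset.card_le_one] at h6 h7
  exact ⟨fun w hw hzw => h6 w (Finset.mem_filter.mpr ⟨hw, hzw⟩) u h2,
    fun w hw hwz => h7 w (Finset.mem_filter.mpr ⟨hw, hwz⟩) v h3⟩

end

end PQ

theorem s_PQ : S_PQ := by
  intro V E S k x y Z hk hM h
  obtain ⟨f0, hf0⟩ := hM.sub (PQ.sub_S h) ⟨x, mem_NBK.mpr (Or.inl rfl)⟩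
  obtain ⟨d0, hd0⟩ := PQ.core hk hM h hf0
  have hex : ∀ z, ∃ u v, z ∈ Z → (u ∈ cls (S \ NBK x y Z) f0 d0 ∧
      v ∈ cls (S \ NBK x y Z) f0 d0 ∧ E z u ∧ E v z) := by
    intro z
    by_cases hz : z ∈ Z
    · obtain ⟨u, v, h1, h2, h3, h4, -⟩ := hd0 z hz
      exact ⟨u, v, fun _ => ⟨h1, h2, h3, h4⟩⟩
    · exact ⟨z, z, fun h1 => absurd h1 hz⟩
  choose p q hpq using hex
  refine ⟨p, q, ?_, ?_⟩
  · intro z hz
    obtain ⟨h1, h2, h3, h4⟩ := hpq z hz
    have h5 := (mem_cls.mp h1).1
    have h6 := (mem_cls.mp h2).1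
    obtain ⟨h7, h8⟩ := PQ.uniq hk hM h hz h5 h6 h3 h4
    exact ⟨h5, h6, h3, h4, h7, h8⟩
  · intro f hf
    obtain ⟨d, hd⟩ := PQ.core hk hM h hf
    refine ⟨d, ?_⟩
    intro z hz
    obtain ⟨h1, h2, h3, h4⟩ := hpq z hz
    have h5 := (mem_cls.mp h1).1
    have h6 := (mem_cls.mp h2).1
    obtain ⟨h7, h8⟩ := PQ.uniq hk hM h hz h5 h6 h3 h4
    obtain ⟨u, v, g1, g2, g3, g4, g5⟩ := hd z hz
    have e1 : u = p z := h7 u (mem_cls.mp g1).1 g3
    have e2 : v = q z := h8 v (mem_cls.mp g2).1 g4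
    subst e1
    subst e2
    exact ⟨(mem_cls.mp g1).2, (mem_cls.mp g2).2, g5⟩

end Pool.Agent.Lib.MP_ee37cd_co.BK
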