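import Pool.Agent.Lib.MP_ee37cd_co.Spec

set_option autoImplicit false

namespace Pool.Agent.Lib.MP_ee37cd_co.BK

open Finset
open scoped Classical

namespace RR

/-- Three vertices without digons and without directed triangle form an acyclic set. -/
theorem acyc3 {V : Type} {E : V → V → Prop} (hE : ∀ v, ¬ E v v) {a b c : V}
    (hab : ¬ Dg E a b) (hac : ¬ Dg E a c) (hbc : ¬ Dg E b c)
    (h1 : ¬ (E a b ∧ E b c ∧ E c a)) (h2 : ¬ (E a c ∧ E c b ∧ E b a)) :
    Acyc E {a, b, c} := by
  by_cases e1 : E a b
  · have e1' : ¬ E b a := fun h => hab ⟨e1, h⟩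
    by_cases e2 : E b c
    · -- c has no arc to a, so a has no in-neighbour
      have e3 : ¬ E c a := fun h => h1 ⟨e1, e2, h⟩
      exact acyc_insert_in hE (acyc_pair hE hbc) (v := a) (by
        intro w hw
        simp only [Finset.mem_insert, Finset.mem_singleton] at hw
        rcases hw with rfl | rfl
        · exact e1'
        · exact e3)
    · -- b has no out-neighbour
      have h := acyc_insert_out hE (acyc_pair hE hac) (v := b) (by
        intro w hw
        simp only [Finset.mem_insert, Finset.mem_singleton] at hw
        rcases hw with rfl | rfl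
        · exact e1'
        · exact e2)
      refine h.mono ?_
      intro w hw
      simp only [Finset.mem_insert, Finset.mem_singleton] at hw ⊢
      tauto
  · by_cases e2 : E a c
    · have e2' : ¬ E c a := fun h => hac ⟨e2, h⟩
      by_cases e3 : E c b
      · have e4 : ¬ E b a := fun h => h2 ⟨e2, e3, h⟩
        exact acyc_insert_in hE (acyc_pair hE hbc) (v := a) (by
          intro w hw
          simp only [Finset.mem_insert, Finset.mem_singleton] at hw
          rcases hw with rfl | rfl
          · exact e4
          · exact e2')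
      · -- c has no out-neighbour
        have h := acyc_insert_out hE (acyc_pair hE hab) (v := c) (by
          intro w hw
          simp only [Finset.mem_insert, Finset.mem_singleton] at hw
          rcases hw with rfl | rfl
          · exact e2'
          · exact e3)
        refine h.mono ?_
        intro w hw
        simp only [Finset.mem_insert, Finset.mem_singleton] at hw ⊢
        tauto
    · exact acyc_insert_out hE (acyc_pair hE hbc) (v := a) (by
        intro w hw
        simp only [Finset.mem_insert, Finset.mem_singleton] at hw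
        rcases hw with rfl | rfl
        · exact e1
        · exact e2)

end RR

theorem s_RR : S_RR := by
  intro V E S k w1 w2 w3 Q hk hM h1 h2 h3 hQ hc hB n12 n13 n23 d12 d13 d23 hD
  have irr := hM.irr
  have q1 : w1 ∉ Q := fun h => irr _ (hD w1 h).1.1
  have q2 : w2 ∉ Q := fun h => irr _ (hD w2 h).2.1.1
  have q3 : w3 ∉ Q := fun h => irr _ (hD w3 h).2.2.1
  set T : Finset V := insert w1 (insert w2 (insert w3 Q)) with hT
  have hTS : T ⊆ S := by
    intro v hv
    rw [hT] at hv
    simp only [Finset.mem_insert] at hv
    rcases hv with rfl | rfl | rfl | hv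
    · exact h1
    · exact h2
    · exact h3
    · exact hQ hv
  have hQT : Q ⊆ T := by
    intro v hv
    rw [hT]
    simp only [Finset.mem_insert]
    tauto
  have hne : T.Nonempty := ⟨w1, by rw [hT]; exact Finset.mem_insert_self _ _⟩
  obtain ⟨f, hf⟩ := hM.sub hTS hne
  have h2k : 2 ≤ k := by omega
  -- outside arcs of the vertices `w`
  have hw : ∀ w ∈ S, (∀ t ∈ Q, Dg E w t) → outdeg E (S \ T) w + indeg E (S \ T) w ≤ 4 := by
    intro w hwS hwQ
    have e1 := deg_ge (E := E) (T := T) (A := Q) (B := ∅) (C := ∅) (v := w) hQT
      (Finset.empty_subset _) (Finset.empty_subset _) (Finset.disjoint_empty_right _)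
      (Finset.disjoint_empty_right _) hwQ (by simp) (by simp)
    have e2 := hM.outside h2k hTS hwS e1
    simp only [Finset.card_empty] at e2
    omega
  have hw1 := hw w1 h1 (fun t ht => (hD t ht).1)
  have hw2 := hw w2 h2 (fun t ht => (hD t ht).2.1)
  have hw3 := hw w3 h3 (fun t ht => (hD t ht).2.2)
  -- the vertices of `Q` are full
  have hfull : ∀ x ∈ Q, outdeg E (S \ T) x + indeg E (S \ T) x = 0 := by
    intro x hx
    have hsub : insert w1 (insert w2 (insert w3 (Q.erase x))) ⊆ T := by
      intro v hv
      rw [hT]
      simp only [Finset.mem_insert, Finset.mem_erase] at hv ⊢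
      tauto
    have hdg : ∀ a ∈ insert w1 (insert w2 (insert w3 (Q.erase x))), Dg E x a := by
      intro a ha
      simp only [Finset.mem_insert, Finset.mem_erase] at ha
      rcases ha with rfl | rfl | rfl | ⟨ha1, ha2⟩
      · exact (hD x hx).1.symm
      · exact (hD x hx).2.1.symm
      · exact (hD x hx).2.2.symm
      · exact hB.dg hx ha2 (fun h => ha1 h.symm)
    have hcard : (insert w1 (insert w2 (insert w3 (Q.erase x)))).card = k + 1 := by
      rw [Finset.card_insert_of_notMem, Finset.card_insert_of_notMem,
        Finset.card_insert_of_notMem, Finset.card_erase_of_mem hx]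
      · have : 0 < Q.card := Finset.card_pos.mpr ⟨x, hx⟩
        omega
      · simp only [Finset.mem_erase]; tauto
      · simp only [Finset.mem_insert, Finset.mem_erase]; tauto
      · simp only [Finset.mem_insert, Finset.mem_erase]; tauto
    have e1 := deg_ge (E := E) (T := T) (B := ∅) (C := ∅) (v := x) hsub
      (Finset.empty_subset _) (Finset.empty_subset _) (Finset.disjoint_empty_right _)
      (Finset.disjoint_empty_right _) hdg (by simp) (by simp)
    have e2 := hM.outside h2k hTS (hQ hx) e1
    rw [hcard] at e2
    simp only [Finset.card_empty] at e2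
    omega
  -- no directed triangle
  have htri : ∀ a b c, a ∈ S → b ∈ S → c ∈ S → (∀ t ∈ Q, Dg E a t ∧ Dg E b t ∧ Dg E c t) →
      ¬ (E a b ∧ E b c ∧ E c a) := by
    intro a b c ha hb hc' hd h
    exact hM.noH ⟨a, b, c, Q, ha, hb, hc', hQ, by omega, hB, h.1, h.2.1, h.2.2, hd⟩
  have hac : Acyc E {w1, w2, w3} := RR.acyc3 irr d12 d13 d23
    (htri w1 w2 w3 h1 h2 h3 hD)
    (htri w1 w3 w2 h1 h3 h2 (fun t ht => ⟨(hD t ht).1, (hD t ht).2.2, (hD t ht).2.1⟩))
  refine hM.ncol (ext1 irr hTS hf {w1, w2, w3} Q ?_ hac ?_ hfull ?_)
  · intro v hv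
    rw [hT] at hv
    simp only [Finset.mem_insert, Finset.mem_singleton] at hv ⊢
    tauto
  · have hsum : ∑ v ∈ ({w1, w2, w3} : Finset V), (outdeg E (S \ T) v + indeg E (S \ T) v) =
        (outdeg E (S \ T) w1 + indeg E (S \ T) w1) + ((outdeg E (S \ T) w2 + indeg E (S \ T) w2) +
          (outdeg E (S \ T) w3 + indeg E (S \ T) w3)) := by
      rw [Finset.sum_insert, Finset.sum_insert, Finset.sum_singleton]
      · simpa using n23
      · simp only [Finset.mem_insert, Finset.mem_singleton]; tauto
    rw [hsum]
    omega
  · omega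

end Pool.Agent.Lib.MP_ee37cd_co.BK
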