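import Pool.Agent.Lib.MP_ee37cd_co.SpecL

/-!
# MP_ee37cd_co: TEES, the consequences of TG
-/

set_option autoImplicit false

namespace Pool.Agent.Lib.MP_ee37cd_co.LL

open Finset
open scoped Classical

namespace TEES

variable {V : Type} {K : Finset V} {r : V → ℕ} {dg : V → V → Prop} {P : ℕ → V → V → Prop}
  {O I : V → Finset ℕ} {k : ℕ}

/-- the data of TG for a fixed local configuration -/
def TG1 (K : Finset V) (r : V → ℕ) (dg : V → V → Prop) (P : ℕ → V → V → Prop)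
    (O I : V → Finset ℕ) (k : ℕ) : Prop :=
  ∀ (A Q : Finset V) (f : V → ℕ) (t : ℕ),
    A ⊆ K → Q ⊆ K → Disjoint A Q → Val r dg P k A f →
    (∀ v ∈ Q, (O v ∪ I v).card + 1 + ((nd K dg v ∩ A).image f).card ≤
      sd K dg v + (nd K dg v ∩ A).card) →
    (∀ w ∈ K \ (A ∪ Q), Lo K dg O I w) → A.card + Q.card = (A.image f).card + t →
    (3 ≤ t → False) ∧
    (t = 2 → ∃ C : Finset ℕ, C.card = 2 ∧ Disjoint C (A.image f) ∧
      ∀ w ∈ K \ (A ∪ Q), F P k w = C) ∧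
    (t = 1 → (∃ c, c ∉ A.image f ∧ ∀ w ∈ K \ (A ∪ Q), c ∈ F P k w) ∨
      ∃ (C : Finset ℕ) (r0 : V), C.card = 2 ∧ Disjoint C (A.image f) ∧
        ∀ w ∈ K \ (A ∪ Q), w ≠ r0 → F P k w = C)

theorem hi_sub : Hi K dg O I ⊆ K := Finset.filter_subset _ _

theorem postHi (A : Finset V) (f : V → ℕ) {v : V} (hv : v ∈ Hi K dg O I) :
    (O v ∪ I v).card + 1 + ((nd K dg v ∩ A).image f).card ≤ sd K dg v + (nd K dg v ∩ A).card := by
  have h1 := (mem_Hi.mp hv).2
  unfold Lo at h1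
  have h2 : ((nd K dg v ∩ A).image f).card ≤ (nd K dg v ∩ A).card := Finset.card_image_le
  omega

theorem image_lt {N : Finset V} {f : V → ℕ} {x y : V} (hx : x ∈ N) (hy : y ∈ N) (hxy : x ≠ y)
    (hf : f x = f y) : (N.image f).card + 1 ≤ N.card := by
  have h1 : N.image f ⊆ (N.erase x).image f := by
    intro c hc
    obtain ⟨v, hv, rfl⟩ := Finset.mem_image.mp hc
    by_cases h2 : v = x
    · exact Finset.mem_image.mpr ⟨y, Finset.mem_erase.mpr ⟨hxy.symm, hy⟩, by rw [h2, hf]⟩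
    · exact Finset.mem_image.mpr ⟨v, Finset.mem_erase.mpr ⟨h2, hv⟩, rfl⟩
  have h2 := (Finset.card_le_card h1).trans Finset.card_image_le
  have h3 := Finset.card_erase_of_mem hx
  have h4 : 0 < N.card := Finset.card_pos.mpr ⟨x, hx⟩
  omega

/-- a vertex with two bad colours joined by digons to a pair of one colour can be postponed -/
theorem post1 (h : Loc K r dg P O I k) {A : Finset V} {f : V → ℕ} {w x y : V} (hw : w ∈ K)
    (hF : (F P k w).card = 2) (hxK : x ∈ K) (hyK : y ∈ K) (hxA : x ∈ A) (hyA : y ∈ A)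
    (hxy : x ≠ y) (hwx : w ≠ x) (hwy : w ≠ y) (hdx : dg w x) (hdy : dg w y) (hf : f x = f y) :
    (O w ∪ I w).card + 1 + ((nd K dg w ∩ A).image f).card ≤ sd K dg w + (nd K dg w ∩ A).card := by
  have h1 := Finset.card_union_add_card_inter (O w) (I w)
  have h2 := h.deg w hw
  have h3 := Finset.card_le_card (F_sub h hw)
  have h4 := image_lt (N := nd K dg w ∩ A) (f := f)
    (Finset.mem_inter.mpr ⟨mem_nd.mpr ⟨hxK, hwx.symm, hdx⟩, hxA⟩)
    (Finset.mem_inter.mpr ⟨mem_nd.mpr ⟨hyK, hwy.symm, hdy⟩, hyA⟩) hxy hf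
  omega

theorem lo_rest {A Q : Finset V} (hQ : Hi K dg O I ⊆ Q) :
    ∀ w ∈ K \ (A ∪ Q), Lo K dg O I w := by
  intro w hw
  rw [Finset.mem_sdiff, Finset.mem_union] at hw
  exact lo_of hw.1 fun h1 => hw.2 (Or.inr (hQ h1))

/-- the empty set -/
theorem tg0 (tg : TG1 K r dg P O I k) :
    (3 ≤ (Hi K dg O I).card → False) ∧
    ((Hi K dg O I).card = 2 → ∃ C : Finset ℕ, C.card = 2 ∧
      ∀ w ∈ K \ Hi K dg O I, F P k w = C) ∧
    ((Hi K dg O I).card = 1 → (∃ c, ∀ w ∈ K \ Hi K dg O I, c ∈ F P k w) ∨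
      ∃ (C : Finset ℕ) (r0 : V), C.card = 2 ∧ ∀ w ∈ K \ Hi K dg O I, w ≠ r0 → F P k w = C) := by
  obtain ⟨h1, h2, h3⟩ := tg ∅ (Hi K dg O I) (fun _ => 0) (Hi K dg O I).card
    (Finset.empty_subset _) hi_sub (Finset.disjoint_empty_left _) val_empty
    (fun v hv => postHi _ _ hv) (lo_rest (Finset.Subset.refl _)) (by simp)
  rw [Finset.empty_union] at h2 h3
  refine ⟨h1, fun h4 => ?_, fun h4 => ?_⟩
  · obtain ⟨C, hC, -, hC2⟩ := h2 h4
    exact ⟨C, hC, hC2⟩
  · rcases h3 h4 with ⟨c, -, hc⟩ | ⟨C, r0, hC, -, hC2⟩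
    · exact Or.inl ⟨c, hc⟩
    · exact Or.inr ⟨C, r0, hC, hC2⟩

theorem pair_sub {x y : V} (hx : x ∈ K) (hy : y ∈ K) : ({x, y} : Finset V) ⊆ K := by
  intro v hv
  rw [Finset.mem_insert, Finset.mem_singleton] at hv
  rcases hv with rfl | rfl
  · exact hx
  · exact hy

theorem pair_card {x y : V} (hxy : x ≠ y) : ({x, y} : Finset V).card = 2 := Finset.card_pair hxy

theorem pair_image (x y : V) (α : ℕ) : ({x, y} : Finset V).image (fun _ => α) = {α} := by
  simp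

/-- one pair -/
theorem tg2 (h : Loc K r dg P O I k) (tg : TG1 K r dg P O I k) {x y : V} (hx : x ∈ K)
    (hy : y ∈ K) (hxH : x ∉ Hi K dg O I) (hyH : y ∉ Hi K dg O I) (hxy : x ≠ y) (hd : ¬ dg x y)
    {α : ℕ} (hα : α ∈ G r P k x y) :
    (3 ≤ 1 + (Hi K dg O I).card → False) ∧
    ((Hi K dg O I).card = 1 → ∃ C : Finset ℕ, C.card = 2 ∧ α ∉ C ∧
      ∀ w ∈ K \ Hi K dg O I, w ≠ x → w ≠ y → F P k w = C) ∧
    ((Hi K dg O I).card = 0 → (∃ c, c ≠ α ∧ ∀ w ∈ K \ Hi K dg O I, w ≠ x → w ≠ y →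
      c ∈ F P k w) ∨
      ∃ (C : Finset ℕ) (r0 : V), C.card = 2 ∧ α ∉ C ∧
        ∀ w ∈ K \ Hi K dg O I, w ≠ x → w ≠ y → w ≠ r0 → F P k w = C) := by
  have hdis : Disjoint ({x, y} : Finset V) (Hi K dg O I) := by
    rw [Finset.disjoint_left]
    intro v hv
    rw [Finset.mem_insert, Finset.mem_singleton] at hv
    rcases hv with rfl | rfl
    · exact hxH
    · exact hyH
  obtain ⟨h1, h2, h3⟩ := tg {x, y} (Hi K dg O I) (fun _ => α) (1 + (Hi K dg O I).card)
    (pair_sub hx hy) hi_sub hdis (val_pair h hd hα) (fun v hv => postHi _ _ hv)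
    (lo_rest (Finset.Subset.refl _)) (by
      rw [pair_card hxy, pair_image, Finset.card_singleton]
      omega)
  rw [pair_image] at h2 h3
  have hmem : ∀ w ∈ K \ Hi K dg O I, w ≠ x → w ≠ y → w ∈ K \ ({x, y} ∪ Hi K dg O I) := by
    intro w hw hwx hwy
    rw [Finset.mem_sdiff] at hw ⊢
    refine ⟨hw.1, fun h4 => ?_⟩
    rw [Finset.mem_union, Finset.mem_insert, Finset.mem_singleton] at h4
    rcases h4 with (h4 | h4) | h4
    · exact hwx h4
    · exact hwy h4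
    · exact hw.2 h4
  refine ⟨h1, fun h4 => ?_, fun h4 => ?_⟩
  · obtain ⟨C, hC, hC1, hC2⟩ := h2 (by omega)
    exact ⟨C, hC, Finset.disjoint_singleton_right.mp hC1,
      fun w hw hwx hwy => hC2 w (hmem w hw hwx hwy)⟩
  · rcases h3 (by omega) with ⟨c, hc1, hc⟩ | ⟨C, r0, hC, hC1, hC2⟩
    · exact Or.inl ⟨c, fun h5 => hc1 (Finset.mem_singleton.mpr h5),
        fun w hw hwx hwy => hc w (hmem w hw hwx hwy)⟩
    · exact Or.inr ⟨C, r0, hC, Finset.disjoint_singleton_right.mp hC1,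
        fun w hw hwx hwy => hC2 w (hmem w hw hwx hwy)⟩

/-- the colouring of two pairs -/
noncomputable def f4 (x y : V) (α α' : ℕ) : V → ℕ :=
  fun v => if v ∈ ({x, y} : Finset V) then α else α'

theorem f4x {x y : V} {α α' : ℕ} : f4 x y α α' x = α := by
  unfold f4
  simp

theorem f4y {x y : V} {α α' : ℕ} : f4 x y α α' y = α := by
  unfold f4
  simp

theorem f4z {x y z : V} {α α' : ℕ} (h1 : z ≠ x) (h2 : z ≠ y) : f4 x y α α' z = α' := by
  unfold f4
  simp [h1, h2]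

theorem dis4 {x y x' y' : V} (h1 : x ≠ x') (h2 : x ≠ y') (h3 : y ≠ x') (h4 : y ≠ y') :
    Disjoint ({x, y} : Finset V) {x', y'} := by
  rw [Finset.disjoint_left]
  intro v hv hv2
  rw [Finset.mem_insert, Finset.mem_singleton] at hv hv2
  rcases hv with rfl | rfl <;> rcases hv2 with h5 | h5
  · exact h1 h5
  · exact h2 h5
  · exact h3 h5
  · exact h4 h5

theorem image4 {x y x' y' : V} {α α' : ℕ} (h1 : x ≠ x') (h2 : x ≠ y') (h3 : y ≠ x')
    (h4 : y ≠ y') :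
    ((({x, y} : Finset V) ∪ {x', y'}).image (f4 x y α α')) = {α, α'} := by
  ext c
  rw [Finset.mem_image]
  constructor
  · rintro ⟨v, hv, rfl⟩
    simp only [Finset.mem_union, Finset.mem_insert, Finset.mem_singleton] at hv
    rcases hv with (rfl | rfl) | (rfl | rfl)
    · rw [f4x]
      exact Finset.mem_insert_self _ _
    · rw [f4y]
      exact Finset.mem_insert_self _ _
    · rw [f4z h1.symm h3.symm]
      exact Finset.mem_insert_of_mem (Finset.mem_singleton_self _)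
    · rw [f4z h2.symm h4.symm]
      exact Finset.mem_insert_of_mem (Finset.mem_singleton_self _)
  · intro hc
    rw [Finset.mem_insert, Finset.mem_singleton] at hc
    rcases hc with rfl | rfl
    · exact ⟨x, by simp, f4x⟩
    · exact ⟨x', by simp, f4z h1.symm h3.symm⟩

theorem val4 (h : Loc K r dg P O I k) {x y x' y' : V} (h1 : x ≠ x') (h2 : x ≠ y') (h3 : y ≠ x')
    (h4 : y ≠ y') (hd : ¬ dg x y) (hd' : ¬ dg x' y') {α α' : ℕ} (hα : α ∈ G r P k x y)
    (hα' : α' ∈ G r P k x' y') (hne : α ≠ α') :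
    Val r dg P k (({x, y} : Finset V) ∪ {x', y'}) (f4 x y α α') :=
  val_union (val_pair h hd hα) (val_pair h hd' hα') (dis4 h1 h2 h3 h4) fun _ _ _ _ => hne

theorem card4 {x y x' y' : V} (hxy : x ≠ y) (hxy' : x' ≠ y') (h1 : x ≠ x') (h2 : x ≠ y')
    (h3 : y ≠ x') (h4 : y ≠ y') : (({x, y} : Finset V) ∪ {x', y'}).card = 4 := by
  rw [Finset.card_union_of_disjoint (dis4 h1 h2 h3 h4), pair_card hxy, pair_card hxy']

/-- two pairs, with an additional postponed set `Q` -/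
theorem tg4 (h : Loc K r dg P O I k) (tg : TG1 K r dg P O I k) {x y x' y' : V} (hx : x ∈ K)
    (hy : y ∈ K) (hx' : x' ∈ K) (hy' : y' ∈ K) (hxy : x ≠ y) (hxy' : x' ≠ y') (h1 : x ≠ x')
    (h2 : x ≠ y') (h3 : y ≠ x') (h4 : y ≠ y') (hd : ¬ dg x y) (hd' : ¬ dg x' y') {α α' : ℕ}
    (hα : α ∈ G r P k x y) (hα' : α' ∈ G r P k x' y') (hne : α ≠ α') (Q : Finset V) (hQK : Q ⊆ K)
    (hQ : Hi K dg O I ⊆ Q) (hQA : ∀ v ∈ Q, v ≠ x ∧ v ≠ y ∧ v ≠ x' ∧ v ≠ y')
    (hpost : ∀ v ∈ Q, (O v ∪ I v).card + 1 +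
      ((nd K dg v ∩ (({x, y} : Finset V) ∪ {x', y'})).image (f4 x y α α')).card ≤
      sd K dg v + (nd K dg v ∩ (({x, y} : Finset V) ∪ {x', y'})).card) :
    (1 ≤ Q.card → False) ∧
    (Q.card = 0 → ∃ C : Finset ℕ, C.card = 2 ∧ α ∉ C ∧ α' ∉ C ∧
      ∀ w ∈ K, w ≠ x → w ≠ y → w ≠ x' → w ≠ y' → F P k w = C) := by
  have hdis : Disjoint (({x, y} : Finset V) ∪ {x', y'}) Q := by
    rw [Finset.disjoint_left]
    intro v hv hvQ
    obtain ⟨e1, e2, e3, e4⟩ := hQA v hvQ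
    simp only [Finset.mem_union, Finset.mem_insert, Finset.mem_singleton] at hv
    rcases hv with (hv | hv) | (hv | hv)
    · exact e1 hv
    · exact e2 hv
    · exact e3 hv
    · exact e4 hv
  obtain ⟨g1, g2, -⟩ := tg (({x, y} : Finset V) ∪ {x', y'}) Q (f4 x y α α') (2 + Q.card)
    (Finset.union_subset (pair_sub hx hy) (pair_sub hx' hy')) hQK hdis
    (val4 h h1 h2 h3 h4 hd hd' hα hα' hne) hpost (lo_rest hQ) (by
      rw [card4 hxy hxy' h1 h2 h3 h4, image4 h1 h2 h3 h4, Finset.card_pair hne]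
      omega)
  rw [image4 h1 h2 h3 h4] at g2
  refine ⟨fun h5 => g1 (by omega), fun h5 => ?_⟩
  have hQ0 : Q = ∅ := Finset.card_eq_zero.mp h5
  obtain ⟨C, hC, hC1, hC2⟩ := g2 (by omega)
  refine ⟨C, hC, fun h6 => ?_, fun h6 => ?_, fun w hw e1 e2 e3 e4 => hC2 w ?_⟩
  · exact Finset.disjoint_left.mp hC1 h6 (Finset.mem_insert_self _ _)
  · exact Finset.disjoint_left.mp hC1 h6 (Finset.mem_insert_of_mem (Finset.mem_singleton_self _))
  · rw [Finset.mem_sdiff]
    refine ⟨hw, fun h6 => ?_⟩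
    rw [hQ0] at h6
    simp only [Finset.mem_union, Finset.mem_insert, Finset.mem_singleton] at h6
    rcases h6 with ((h6 | h6) | (h6 | h6)) | h6
    · exact e1 h6
    · exact e2 h6
    · exact e3 h6
    · exact e4 h6
    · exact absurd h6 (Finset.notMem_empty _)

/-- three pairs -/
theorem tg6 (h : Loc K r dg P O I k) (tg : TG1 K r dg P O I k) (hHi : Hi K dg O I = ∅)
    {x1 y1 x2 y2 x3 y3 : V} (hx1 : x1 ∈ K) (hy1 : y1 ∈ K) (hx2 : x2 ∈ K) (hy2 : y2 ∈ K)
    (hx3 : x3 ∈ K) (hy3 : y3 ∈ K) (e1 : x1 ≠ y1) (e2 : x2 ≠ y2) (e3 : x3 ≠ y3)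
    (a1 : x1 ≠ x2) (a2 : x1 ≠ y2) (a3 : y1 ≠ x2) (a4 : y1 ≠ y2)
    (b1 : x1 ≠ x3) (b2 : x1 ≠ y3) (b3 : y1 ≠ x3) (b4 : y1 ≠ y3)
    (c1 : x2 ≠ x3) (c2 : x2 ≠ y3) (c3 : y2 ≠ x3) (c4 : y2 ≠ y3)
    (d1 : ¬ dg x1 y1) (d2 : ¬ dg x2 y2) (d3 : ¬ dg x3 y3) {α1 α2 α3 : ℕ}
    (m1 : α1 ∈ G r P k x1 y1) (m2 : α2 ∈ G r P k x2 y2) (m3 : α3 ∈ G r P k x3 y3)
    (n1 : α1 ≠ α2) (n2 : α1 ≠ α3) (n3 : α2 ≠ α3) : False := by
  have hdis : Disjoint (({x1, y1} : Finset V) ∪ {x2, y2}) {x3, y3} := by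
    rw [Finset.disjoint_union_left]
    exact ⟨dis4 b1 b2 b3 b4, dis4 c1 c2 c3 c4⟩
  have hval := val_union (val4 h a1 a2 a3 a4 d1 d2 m1 m2 n1) (val_pair h d3 m3) hdis (by
    intro a ha b _
    have h5 : f4 x1 y1 α1 α2 a ∈ ({α1, α2} : Finset ℕ) := by
      rw [← image4 (x := x1) (y := y1) (x' := x2) (y' := y2) a1 a2 a3 a4]
      exact Finset.mem_image_of_mem _ ha
    rw [Finset.mem_insert, Finset.mem_singleton] at h5
    rcases h5 with h5 | h5
    · rw [h5]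
      exact n2
    · rw [h5]
      exact n3)
  have himg : ((({x1, y1} : Finset V) ∪ {x2, y2}) ∪ {x3, y3}).image
      (fun v => if v ∈ (({x1, y1} : Finset V) ∪ {x2, y2}) then f4 x1 y1 α1 α2 v else α3) ⊆
      {α1, α2, α3} := by
    intro c hc
    obtain ⟨v, -, rfl⟩ := Finset.mem_image.mp hc
    by_cases hv2 : v ∈ (({x1, y1} : Finset V) ∪ {x2, y2})
    · simp only [hv2, if_true]
      have h5 : f4 x1 y1 α1 α2 v ∈ ({α1, α2} : Finset ℕ) := by
        rw [← image4 (x := x1) (y := y1) (x' := x2) (y' := y2) a1 a2 a3 a4]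
        exact Finset.mem_image_of_mem _ hv2
      rw [Finset.mem_insert, Finset.mem_singleton] at h5
      simp only [Finset.mem_insert, Finset.mem_singleton]
      rcases h5 with h5 | h5
      · exact Or.inl h5
      · exact Or.inr (Or.inl h5)
    · simp only [hv2, if_false]
      simp
  have hcard : ((({x1, y1} : Finset V) ∪ {x2, y2}) ∪ {x3, y3}).card = 6 := by
    rw [Finset.card_union_of_disjoint hdis, card4 e1 e2 a1 a2 a3 a4, pair_card e3]
  have hcard3 : ({α1, α2, α3} : Finset ℕ).card ≤ 3 := Finset.card_le_three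
  have himg' := (Finset.card_le_card himg).trans hcard3
  obtain ⟨t, ht⟩ := Nat.exists_eq_add_of_le himg'
  obtain ⟨g1, -, -⟩ := tg _ ∅ _ (3 + t)
    (Finset.union_subset (Finset.union_subset (pair_sub hx1 hy1) (pair_sub hx2 hy2))
      (pair_sub hx3 hy3)) (Finset.empty_subset _) (Finset.disjoint_empty_right _) hval
    (fun v hv => absurd hv (Finset.notMem_empty v))
    (lo_rest (by rw [hHi])) (by
      rw [hcard, Finset.card_empty]
      omega)
  exact g1 (by omega)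

/-- a valid triple of one colour -/
theorem tg3 (tg : TG1 K r dg P O I k) (hHi : Hi K dg O I = ∅) {x y w : V} (hx : x ∈ K)
    (hy : y ∈ K) (hw : w ∈ K) (hxy : x ≠ y) (hxw : x ≠ w) (hyw : y ≠ w) {β : ℕ}
    (hval : Val r dg P k {x, y, w} (fun _ => β)) : ∃ C : Finset ℕ, C.card = 2 ∧
      ∀ v ∈ K, v ≠ x → v ≠ y → v ≠ w → F P k v = C := by
  have hsub : ({x, y, w} : Finset V) ⊆ K := by
    intro v hv
    rw [Finset.mem_insert] at hv
    rcases hv with rfl | hv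
    · exact hx
    · exact pair_sub hy hw hv
  have himg : ({x, y, w} : Finset V).image (fun _ => β) = {β} := by simp
  have hcard : ({x, y, w} : Finset V).card = 3 := by
    rw [Finset.card_insert_of_notMem, pair_card hyw]
    intro hv
    rw [Finset.mem_insert, Finset.mem_singleton] at hv
    rcases hv with hv | hv
    · exact hxy hv
    · exact hxw hv
  obtain ⟨-, g2, -⟩ := tg {x, y, w} ∅ (fun _ => β) 2 hsub (Finset.empty_subset _)
    (Finset.disjoint_empty_right _) hval (fun v hv => absurd hv (Finset.notMem_empty v))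
    (lo_rest (by rw [hHi])) (by rw [hcard, himg, Finset.card_empty, Finset.card_singleton])
  obtain ⟨C, hC, -, hC2⟩ := g2 rfl
  refine ⟨C, hC, fun v hv h1 h2 h3 => hC2 v ?_⟩
  rw [Finset.mem_sdiff]
  refine ⟨hv, fun h4 => ?_⟩
  simp only [Finset.union_empty, Finset.mem_insert, Finset.mem_singleton] at h4
  rcases h4 with h4 | h4 | h4
  · exact h1 h4
  · exact h2 h4
  · exact h3 h4

/-- second part of `t21` -/
theorem tg21 (h : Loc K r dg P O I k) (tg : TG1 K r dg P O I k) (hHi : (Hi K dg O I).card = 1)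
    {x y : V} (hx : x ∈ K) (hy : y ∈ K) (hxH : x ∉ Hi K dg O I) (hyH : y ∉ Hi K dg O I)
    (hxy : x ≠ y) (hd : ¬ dg x y) {α : ℕ} (hα : α ∈ G r P k x y) {w : V} (hw : w ∈ K)
    (hwH : w ∉ Hi K dg O I) (hwx : w ≠ x) (hwy : w ≠ y) (hF : (F P k w).card = 2)
    (hdx : dg w x) (hdy : dg w y) : False := by
  have hdis : Disjoint ({x, y} : Finset V) (insert w (Hi K dg O I)) := by
    rw [Finset.disjoint_left]
    intro v hv hv2
    rw [Finset.mem_insert, Finset.mem_singleton] at hv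
    rw [Finset.mem_insert] at hv2
    rcases hv with rfl | rfl
    · rcases hv2 with h1 | h1
      · exact hwx h1.symm
      · exact hxH h1
    · rcases hv2 with h1 | h1
      · exact hwy h1.symm
      · exact hyH h1
  obtain ⟨g1, -, -⟩ := tg {x, y} (insert w (Hi K dg O I)) (fun _ => α) 3
    (pair_sub hx hy) (Finset.insert_subset hw hi_sub) hdis (val_pair h hd hα) (by
      intro v hv
      rw [Finset.mem_insert] at hv
      rcases hv with rfl | hv
      · exact post1 h hw hF hx hy (Finset.mem_insert_self _ _)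
          (Finset.mem_insert_of_mem (Finset.mem_singleton_self _)) hxy hwx hwy hdx hdy rfl
      · exact postHi _ _ hv)
    (lo_rest (Finset.subset_insert _ _)) (by
      rw [pair_card hxy, pair_image, Finset.card_singleton, Finset.card_insert_of_notMem hwH, hHi])
  exact g1 (le_refl 3)

end TEES

theorem s_TEES : S_TG → S_TEES := by
  intro hTG V K r dg P O I k h hno
  have tg : TEES.TG1 K r dg P O I k := fun A Q f t h1 h2 h3 h4 h5 h6 h7 =>
    hTG V K r dg P O I k A Q f t h hno h1 h2 h3 h4 h5 h6 h7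
  obtain ⟨h01, h02, h03⟩ := TEES.tg0 tg
  refine ⟨?_, ?_, ?_, ?_, h02, ?_, ?_, ?_, h03, ?_⟩
  · by_contra h1
    exact h01 (by omega)
  · intro hHi x hx y hy hxy hd
    rw [Finset.mem_sdiff] at hx hy
    by_contra hne
    obtain ⟨α, hα⟩ := Finset.nonempty_iff_ne_empty.mpr hne
    exact (TEES.tg2 h tg hx.1 hy.1 hx.2 hy.2 hxy hd hα).1 (by omega)
  · intro hHi x hx y hy x' hx' y' hy' hxy hxy' h1 h2 h3 h4 hd hd' α hα α' hα'
    rw [Finset.mem_sdiff] at hx hy hx' hy'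
    by_contra hne
    refine (TEES.tg4 h tg hx.1 hy.1 hx'.1 hy'.1 hxy hxy' h1 h2 h3 h4 hd hd' hα hα' hne
      (Hi K dg O I) TEES.hi_sub (Finset.Subset.refl _) ?_ fun v hv => TEES.postHi _ _ hv).1
      (by omega)
    intro v hv
    refine ⟨?_, ?_, ?_, ?_⟩
    · rintro rfl
      exact hx.2 hv
    · rintro rfl
      exact hy.2 hv
    · rintro rfl
      exact hx'.2 hv
    · rintro rfl
      exact hy'.2 hv
  · intro hHi x1 hx1 y1 hy1 x2 hx2 y2 hy2 x3 hx3 y3 hy3 e1 e2 e3 a1 a2 a3 a4 b1 b2 b3 b4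
      c1 c2 c3 c4 d1 d2 d3 α1 m1 α2 m2 α3 m3
    by_contra hcon
    push Not at hcon
    exact TEES.tg6 h tg hHi hx1 hy1 hx2 hy2 hx3 hy3 e1 e2 e3 a1 a2 a3 a4 b1 b2 b3 b4
      c1 c2 c3 c4 d1 d2 d3 m1 m2 m3 hcon.1 hcon.2.1 hcon.2.2
  · intro hHi x hx y hy hxy hd α hα
    rw [Finset.mem_sdiff] at hx hy
    obtain ⟨C, hC, hC1, hC2⟩ := (TEES.tg2 h tg hx.1 hy.1 hx.2 hy.2 hxy hd hα).2.1 hHi
    refine ⟨C, hC, hC1, fun w hw hwx hwy => ⟨hC2 w hw hwx hwy, ?_⟩⟩
    by_contra hcon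
    push Not at hcon
    have hw' := Finset.mem_sdiff.mp hw
    exact TEES.tg21 h tg hHi hx.1 hy.1 hx.2 hy.2 hxy hd hα hw'.1 hw'.2 hwx hwy
      (by rw [hC2 w hw hwx hwy, hC]) hcon.1 hcon.2
  · intro hHi x hx y hy x' hx' y' hy' hxy hxy' h1 h2 h3 h4 hd hd' α hα α' hα' hne
    obtain ⟨C, hC, hC1, hC3, hC2⟩ := (TEES.tg4 h tg hx hy hx' hy' hxy hxy' h1 h2 h3 h4 hd hd' hα hα'
      hne ∅ (Finset.empty_subset _) (by rw [hHi]) (fun v hv => absurd hv (Finset.notMem_empty v))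
      (fun v hv => absurd hv (Finset.notMem_empty v))).2 Finset.card_empty
    refine ⟨C, hC, hC1, hC3, fun w hw e1 e2 e3 e4 => ⟨hC2 w hw e1 e2 e3 e4, ?_, ?_⟩⟩
    · by_contra hcon
      push Not at hcon
      refine (TEES.tg4 h tg hx hy hx' hy' hxy hxy' h1 h2 h3 h4 hd hd' hα hα' hne {w}
        (Finset.singleton_subset_iff.mpr hw) (by rw [hHi]; exact Finset.empty_subset _) ?_ ?_).1
        (by rw [Finset.card_singleton])
      · intro v hv
        rw [Finset.mem_singleton] at hv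
        subst hv
        exact ⟨e1, e2, e3, e4⟩
      · intro v hv
        rw [Finset.mem_singleton] at hv
        subst hv
        exact TEES.post1 h hw (by rw [hC2 v hw e1 e2 e3 e4, hC]) hx hy (by simp) (by simp) hxy
          e1 e2 hcon.1 hcon.2 (by rw [TEES.f4x, TEES.f4y])
    · by_contra hcon
      push Not at hcon
      refine (TEES.tg4 h tg hx hy hx' hy' hxy hxy' h1 h2 h3 h4 hd hd' hα hα' hne {w}
        (Finset.singleton_subset_iff.mpr hw) (by rw [hHi]; exact Finset.empty_subset _) ?_ ?_).1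
        (by rw [Finset.card_singleton])
      · intro v hv
        rw [Finset.mem_singleton] at hv
        subst hv
        exact ⟨e1, e2, e3, e4⟩
      · intro v hv
        rw [Finset.mem_singleton] at hv
        subst hv
        exact TEES.post1 h hw (by rw [hC2 v hw e1 e2 e3 e4, hC]) hx' hy' (by simp) (by simp) hxy'
          e3 e4 hcon.1 hcon.2 (by
            rw [TEES.f4z h1.symm h3.symm, TEES.f4z h2.symm h4.symm])
  · intro hHi x hx y hy w hw hxy hxw hyw β hval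
    exact TEES.tg3 tg hHi hx hy hw hxy hxw hyw hval
  · intro hHi x hx y hy hxy hd α hα
    have hH0 : (Hi K dg O I).card = 0 := by rw [hHi, Finset.card_empty]
    have hxH : x ∉ Hi K dg O I := by
      rw [hHi]
      exact Finset.notMem_empty _
    have hyH : y ∉ Hi K dg O I := by
      rw [hHi]
      exact Finset.notMem_empty _
    have hK : ∀ w ∈ K, w ∈ K \ Hi K dg O I := by
      intro w hw
      rw [hHi, Finset.sdiff_empty]
      exact hw
    rcases (TEES.tg2 h tg hx hy hxH hyH hxy hd hα).2.2 hH0 with ⟨c, hc, hc2⟩ | ⟨C, r0, hC, hC1, hC2⟩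
    · exact Or.inl ⟨c, hc, fun w hw => hc2 w (hK w hw)⟩
    · exact Or.inr ⟨C, r0, hC, hC1, fun w hw => hC2 w (hK w hw)⟩

end Pool.Agent.Lib.MP_ee37cd_co.LL
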