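import Pool.Agent.Lib.MP_ee37cd_co.SpecL

/-!
# MP_ee37cd_co: TG, the general consequence of the extension engine and Hall's theorem
-/

set_option autoImplicit false

namespace Pool.Agent.Lib.MP_ee37cd_co.LL

open Finset
open scoped Classical

/-- TG. -/
theorem s_TG : S_ENG → S_HALL → S_TG := by
  intro hENG hHALL V K r dg P O I k A Q f t h hno hA hQ hAQ hf hQc hlo ht
  obtain ⟨W, hW⟩ : ∃ W : Finset V, W = K \ (A ∪ Q) := ⟨_, rfl⟩
  obtain ⟨Γ, hΓ⟩ : ∃ Γ : Finset ℕ, Γ = range k \ A.image f := ⟨_, rfl⟩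
  have himg : A.image f ⊆ range k := by
    intro c hc
    obtain ⟨v, hv, rfl⟩ := Finset.mem_image.mp hc
    exact Finset.mem_range.mpr (hf.1 v hv)
  have hΓc : Γ.card + (A.image f).card = k := by
    have h1 := Finset.card_sdiff_add_card_eq_card himg
    rw [card_range] at h1
    rw [hΓ]
    exact h1
  have hWc : W.card + (A.card + Q.card) = k + 1 := by
    have h1 := Finset.card_sdiff_add_card_eq_card (Finset.union_subset hA hQ)
    rw [Finset.card_union_of_disjoint hAQ, h.card] at h1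
    rw [hW]
    exact h1
  have hL : ∀ w ∈ W, (F P k w).card ≤ 2 := by
    intro w hw
    have hwK : w ∈ K := by
      rw [hW] at hw
      exact (Finset.mem_sdiff.mp hw).1
    exact F_le h hwK (hlo w (hW ▸ hw))
  have hnog : ¬ ∃ g : V → ℕ, (∀ w ∈ W, g w ∈ Γ ∧ g w ∉ F P k w) ∧
      ∀ w ∈ W, ∀ w' ∈ W, g w = g w' → w = w' := by
    rintro ⟨g, hg1, hg2⟩
    rw [hW] at hg1 hg2
    refine hno (hENG V K r dg P O I k A Q f g h hA hQ hAQ hf hQc ?_ hg2)
    intro w hw
    obtain ⟨h1, h2⟩ := hg1 w hw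
    rw [hΓ, Finset.mem_sdiff, Finset.mem_range] at h1
    exact ⟨h1.1, h1.2, h2⟩
  obtain ⟨h1, h2, h3⟩ := hHALL V W Γ (fun v => F P k v) hL hnog
  have hdis : ∀ C : Finset ℕ, C ⊆ Γ → Disjoint C (A.image f) := by
    intro C hC
    rw [Finset.disjoint_left]
    intro c hc
    have := hC hc
    rw [hΓ, Finset.mem_sdiff] at this
    exact this.2
  rw [← hW]
  refine ⟨fun h4 => h1 (by omega), fun h4 => ?_, fun h4 => ?_⟩
  · obtain ⟨C, hC1, hC2, hC3⟩ := h2 (by omega)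
    exact ⟨C, hC1, hdis C hC2, hC3⟩
  · rcases h3 (by omega) with ⟨c, hc1, hc2⟩ | ⟨C, r0, hC1, hC2, hC3⟩
    · left
      rw [hΓ, Finset.mem_sdiff] at hc1
      exact ⟨c, hc1.2, hc2⟩
    · right
      exact ⟨C, r0, hC1, hdis C hC2, hC3⟩

end Pool.Agent.Lib.MP_ee37cd_co.LL
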