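import Pool.Agent.Lib.MP_ee37cd_co.Spec

/-!
# MP_ee37cd_co: the transfer theorem TR
-/

set_option autoImplicit false

namespace Pool.Agent.Lib.MP_ee37cd_co.BK

open Finset
open scoped Classical

namespace TR

variable {V : Type}

/-- the pairs among which a smallest one is chosen -/
def Good (E : V → V → Prop) (S : Finset V) (k : ℕ) (n : ℕ) : Prop :=
  ∃ (E' : V → V → Prop) (S' : Finset V), S'.card = n ∧ (∀ v, ¬ E' v v) ∧ S' ⊆ S ∧
    (∀ v ∈ S', outdeg E' S' v ≤ outdeg E S v ∧ indeg E' S' v ≤ indeg E S v) ∧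
    (∀ B ⊆ S', Bic E' B → B.card ≤ k) ∧ ¬ HasH E' S' (k + 1) ∧ ¬ Dicol E' S' k

/-- the graph of the forward arcs -/
def fwd (E : V → V → Prop) (r : V → ℕ) : SimpleGraph V :=
  SimpleGraph.fromRel (fun a b => E a b ∧ r a < r b)

theorem fwd_adj (E : V → V → Prop) (r : V → ℕ) (u v : V) :
    (fwd E r).Adj u v ↔ u ≠ v ∧ ((E u v ∧ r u < r v) ∨ (E v u ∧ r v < r u)) := by
  unfold fwd
  rw [SimpleGraph.fromRel_adj]

theorem dec {E : V → V → Prop} {A : Finset V} {r : V → ℕ}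
    (h : ∀ a ∈ A, ∀ b ∈ A, E a b → r b < r a) {x y : V}
    (hxy : Relation.TransGen (fun a b => E a b ∧ a ∈ A ∧ b ∈ A) x y) : r y < r x := by
  induction hxy with
  | single h1 => exact h _ h1.2.1 _ h1.2.2 h1.1
  | tail _ h1 ih => exact (h _ h1.2.1 _ h1.2.2 h1.1).trans ih

end TR

open TR

theorem s_TR : S_ORD → S_LL → S_FIN → S_TR := by
  intro hORD hLL hFIN V E S D hD hE hBad
  obtain ⟨k, rfl⟩ : ∃ k, D = k + 1 := ⟨D - 1, by omega⟩
  obtain ⟨hsq, hK, hH, hcol⟩ := hBad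
  rw [Nat.add_sub_cancel] at hK hcol
  have hk : 8 ≤ k := by omega
  have hdeg : ∀ v ∈ S, outdeg E S v * indeg E S v ≤ (k + 1) ^ 2 := by
    intro v hv
    have h1 := (Real.sqrt_le_iff.1 (hsq v hv)).2
    exact_mod_cast h1
  have hex : ∃ n, Good E S k n :=
    ⟨S.card, E, S, rfl, hE, Finset.Subset.refl _, fun v _ => ⟨le_rfl, le_rfl⟩, hK, hH, hcol⟩
  obtain ⟨E', S', hc, hE', hSS, hdd, hK', hH', hcol'⟩ := Nat.find_spec hex
  have hmin : ∀ m, m < S'.card → ¬ Good E S k m := fun m hm =>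
    Nat.find_min hex (hc ▸ hm)
  have hM : MinCex E' S' k := by
    refine ⟨hE', fun v hv => ?_, hK', hH', hcol', ?_⟩
    · exact (Nat.mul_le_mul (hdd v hv).1 (hdd v hv).2).trans (hdeg v (hSS hv))
    · intro E'' S'' h1 h2 h3 h4 h5
      by_contra h6
      refine hmin S''.card (Finset.card_lt_card h2)
        ⟨E'', S'', rfl, h1, h2.1.trans hSS, fun v hv => ?_, h4, h5, h6⟩
      exact ⟨(h3 v hv).1.trans (hdd v (h2.1 hv)).1, (h3 v hv).2.trans (hdd v (h2.1 hv)).2⟩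
  obtain ⟨r, hinj, hr⟩ := hORD V E' S' hE'
  rw [Nat.add_sub_cancel]
  refine ⟨S', fwd E' r, hSS, fun v hv => ?_, fun B hB hcl => ?_, ?_⟩
  · have h1 : (S'.filter (fun w => (fwd E' r).Adj v w)).card ≤
        (S'.filter (fun w => (E' v w ∧ r v < r w) ∨ (E' w v ∧ r w < r v))).card := by
      refine Finset.card_le_card fun w hw => ?_
      rw [Finset.mem_filter] at hw ⊢
      exact ⟨hw.1, ((fwd_adj E' r v w).1 hw.2).2⟩
    exact ⟨h1.trans ((hr v hv).1.trans (hdd v hv).1), h1.trans ((hr v hv).2.trans (hdd v hv).2)⟩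
  · by_contra hcon
    obtain ⟨K, hKB, hKc⟩ := Finset.exists_subset_card_eq (show k + 1 ≤ B.card by omega)
    obtain ⟨x, y, Z, hNB⟩ := hLL V E' S' K k r hk hM (hKB.trans hB) hKc
      (fun a ha b hb => hinj a (hB (hKB ha)) b (hB (hKB hb)))
      (fun a ha b hb hab => by
        have hne : a ≠ b := by
          rintro rfl
          exact lt_irrefl _ hab
        rcases ((fwd_adj E' r a b).1 (hcl a (hKB ha) b (hKB hb) hne)).2 with h | h
        · exact h.1
        · exact absurd (hab.trans h.2) (lt_irrefl _))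
    exact hFIN V E' S' k x y Z hk hM hNB
  · rintro ⟨f, hf1, hf2⟩
    refine hcol' ⟨f, hf1, fun i A hA v hv => ?_⟩
    refine lt_irrefl _ (dec (E := E') (A := A) (r := r) (fun a ha b hb hab => ?_) hv)
    have hne : a ≠ b := by
      rintro rfl
      exact hE' _ hab
    have hrne : r a ≠ r b := fun h => hne (hinj a (hA a ha).1 b (hA b hb).1 h)
    rcases lt_or_gt_of_ne hrne with h | h
    · exact absurd ((hA a ha).2.trans (hA b hb).2.symm)
        (hf2 a (hA a ha).1 b (hA b hb).1 ((fwd_adj E' r a b).2 ⟨hne, Or.inl ⟨hab, h⟩⟩))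
    · exact h

end Pool.Agent.Lib.MP_ee37cd_co.BK
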