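import Pool.Agent.Lib.MP_ee37cd_co.Spec

/-!
# MP_ee37cd_co: TWO
-/

set_option autoImplicit false

namespace Pool.Agent.Lib.MP_ee37cd_co.BK

open Finset
open scoped Classical

private theorem deg_add {V : Type} {E E' : V → V → Prop} {S R : Finset V} (hR : R ⊆ S)
    {g1 u1 g2 u2 z1 z2 : V} (hz : z1 ≠ z2) (h1 : z1 ∈ S \ R) (h2 : z2 ∈ S \ R)
    (e1 : E g1 z1) (e2 : E g2 z2)
    (hE' : ∀ a b, E' a b → E a b ∨ (a = g1 ∧ b = u1) ∨ (a = g2 ∧ b = u2)) (v : V) :
    outdeg E' R v ≤ outdeg E S v := by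
  have hs := outdeg_split (E := E) hR v
  have ha : outdeg E' R v ≤ outdeg E R v + ((if v = g1 then 1 else 0) + (if v = g2 then 1 else 0)) := by
    have hsub : R.filter (fun w => E' v w) ⊆ R.filter (fun w => E v w) ∪
        ((if v = g1 then {u1} else ∅) ∪ (if v = g2 then {u2} else ∅)) := by
      intro w hw
      rw [Finset.mem_filter] at hw
      rw [Finset.mem_union, Finset.mem_union, Finset.mem_filter]
      rcases hE' v w hw.2 with h | ⟨h, h'⟩ | ⟨h, h'⟩
      · exact Or.inl ⟨hw.1, h⟩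
      · refine Or.inr (Or.inl ?_)
        rw [if_pos h, h']
        exact Finset.mem_singleton_self _
      · refine Or.inr (Or.inr ?_)
        rw [if_pos h, h']
        exact Finset.mem_singleton_self _
    refine (Finset.card_le_card hsub).trans ?_
    refine (Finset.card_union_le _ _).trans ?_
    refine Nat.add_le_add_left ?_ _
    refine (Finset.card_union_le _ _).trans ?_
    refine Nat.add_le_add ?_ ?_
    · split_ifs <;> simp
    · split_ifs <;> simp
  have hb : (if v = g1 then 1 else 0) + (if v = g2 then 1 else 0) ≤ outdeg E (S \ R) v := by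
    have hsub : (if v = g1 then {z1} else (∅ : Finset V)) ∪ (if v = g2 then {z2} else ∅) ⊆
        (S \ R).filter (fun w => E v w) := by
      intro w hw
      rw [Finset.mem_filter]
      rcases Finset.mem_union.mp hw with h | h
      · by_cases hv : v = g1
        · rw [if_pos hv, Finset.mem_singleton] at h
          rw [h, hv]
          exact ⟨h1, e1⟩
        · rw [if_neg hv] at h
          exact absurd h (Finset.notMem_empty _)
      · by_cases hv : v = g2
        · rw [if_pos hv, Finset.mem_singleton] at h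
          rw [h, hv]
          exact ⟨h2, e2⟩
        · rw [if_neg hv] at h
          exact absurd h (Finset.notMem_empty _)
    refine le_trans ?_ (Finset.card_le_card hsub)
    rw [Finset.card_union_of_disjoint]
    · refine Nat.add_le_add ?_ ?_
      · split_ifs <;> simp
      · split_ifs <;> simp
    · rw [Finset.disjoint_left]
      intro w hw hw'
      by_cases hv : v = g1
      · rw [if_pos hv, Finset.mem_singleton] at hw
        by_cases hv' : v = g2
        · rw [if_pos hv', Finset.mem_singleton] at hw'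
          exact hz (hw.symm.trans hw')
        · rw [if_neg hv'] at hw'
          exact absurd hw' (Finset.notMem_empty _)
      · rw [if_neg hv] at hw
        exact absurd hw (Finset.notMem_empty _)
  omega

private theorem walk {V : Type} {r : V → V → Prop} {a b c d : V} (h1 : Relation.ReflTransGen r a b)
    (h2 : Relation.ReflTransGen r b c) (h3 : Relation.ReflTransGen r c d)
    (h4 : Relation.ReflTransGen r d a) (hr : ∀ v, ¬ Relation.TransGen r v v) :
    a = b ∧ c = d ∧ a = c := by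
  rcases Relation.reflTransGen_iff_eq_or_transGen.mp h1 with e1 | e1
  · rcases Relation.reflTransGen_iff_eq_or_transGen.mp h2 with e2 | e2
    · rcases Relation.reflTransGen_iff_eq_or_transGen.mp h3 with e3 | e3
      · exact ⟨e1.symm, e3.symm, (e2.trans e1).symm⟩
      · exact absurd (e3.trans_left (h4.trans (h1.trans h2))) (hr _)
    · exact absurd (e2.trans_left (h3.trans (h4.trans h1))) (hr _)
  · exact absurd (e1.trans_left (h2.trans (h3.trans h4))) (hr _)

theorem s_TWO : S_TWO := by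
  intro V E S k x y Z p q hk hM hNB hPQ z1 hz1 z2 hz2 hz hne
  by_contra hcon
  rw [not_or] at hcon
  obtain ⟨hB, hH⟩ := hcon
  set R := S \ NBK x y Z with hR
  set E2 := addArc (addArc E (q z1) (p z2)) (q z2) (p z1) with hE2
  obtain ⟨hP, hcol⟩ := hPQ
  have hRS : R ⊆ S := Finset.sdiff_subset
  have hzS : ∀ z ∈ Z, z ∈ S \ R := by
    intro z hz
    rw [hR, Finset.mem_sdiff]
    refine ⟨hNB.ZS hz, fun h => (Finset.mem_sdiff.mp h).2 (mem_NBK.mpr (Or.inr (Or.inr hz)))⟩
  have hirr : ∀ v, ¬ E2 v v := by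
    intro v hv
    rcases hv with (hv | ⟨h1, h2, h3⟩) | ⟨h1, h2, h3⟩
    · exact hM.irr v hv
    · exact h3 (h1.symm.trans h2)
    · exact h3 (h1.symm.trans h2)
  have hsub : ∀ a b, E a b → E2 a b := fun a b h => Or.inl (Or.inl h)
  have hE2' : ∀ a b, E2 a b → E a b ∨ (a = q z1 ∧ b = p z2) ∨ (a = q z2 ∧ b = p z1) := by
    intro a b h
    rcases h with (h | ⟨h1, h2, -⟩) | ⟨h1, h2, -⟩
    · exact Or.inl h
    · exact Or.inr (Or.inl ⟨h1, h2⟩)
    · exact Or.inr (Or.inr ⟨h1, h2⟩)
  have hP1 := hP z1 hz1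
  have hP2 := hP z2 hz2
  have hdic : Dicol E2 R k := by
    refine hM.min E2 R hirr ?_ ?_ ?_ hH
    · rw [Finset.ssubset_iff_subset_ne]
      refine ⟨hRS, ?_⟩
      intro heq
      have h1 := hzS z1 hz1
      rw [heq] at h1
      simp at h1
    · intro v _
      constructor
      · exact deg_add hRS hz (hzS z1 hz1) (hzS z2 hz2) hP1.2.2.2.1 hP2.2.2.2.1 hE2' v
      · refine deg_add (E := fun a b => E b a) (E' := fun a b => E2 b a) (g1 := p z1) (u1 := q z2)
          (g2 := p z2) (u2 := q z1) hRS hz (hzS z1 hz1) (hzS z2 hz2) hP1.2.2.1 hP2.2.2.1 ?_ v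
        intro a b h
        rcases hE2' b a h with h | ⟨h1, h2⟩ | ⟨h1, h2⟩
        · exact Or.inl h
        · exact Or.inr (Or.inr ⟨h2, h1⟩)
        · exact Or.inr (Or.inl ⟨h2, h1⟩)
    · intro B hBR hBic
      by_contra hlt
      exact hB ⟨B, hBR, hBic, by omega⟩
  obtain ⟨f, hf⟩ := hdic.ex
  have hfE : IsDicol E R k f := by
    refine ⟨hf.1, fun c v hv => hf.2 c v ?_⟩
    exact tg_mono (fun a b ⟨h1, h2, h3⟩ => ⟨hsub a b h1, h2, h3⟩) hv
  obtain ⟨d, hd⟩ := hcol f hfE
  obtain ⟨hp1, hq1, hw1⟩ := hd z1 hz1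
  obtain ⟨hp2, hq2, hw2⟩ := hd z2 hz2
  have mono : ∀ s t, Relation.ReflTransGen (fun a b => E a b ∧ a ∈ cls R f d ∧ b ∈ cls R f d) s t →
      Relation.ReflTransGen (fun a b => E2 a b ∧ a ∈ cls R f d ∧ b ∈ cls R f d) s t := by
    intro s t h
    induction h with
    | refl => exact Relation.ReflTransGen.refl
    | tail _ h1 ih => exact ih.tail ⟨hsub _ _ h1.1, h1.2⟩
  have c1 : Relation.ReflTransGen (fun a b => E2 a b ∧ a ∈ cls R f d ∧ b ∈ cls R f d)
      (q z1) (p z2) := by
    by_cases h : q z1 = p z2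
    · rw [h]
    · exact Relation.ReflTransGen.single ⟨Or.inl (Or.inr ⟨rfl, rfl, h⟩),
        mem_cls.mpr ⟨hP1.2.1, hq1⟩, mem_cls.mpr ⟨hP2.1, hp2⟩⟩
  have c2 : Relation.ReflTransGen (fun a b => E2 a b ∧ a ∈ cls R f d ∧ b ∈ cls R f d)
      (q z2) (p z1) := by
    by_cases h : q z2 = p z1
    · rw [h]
    · exact Relation.ReflTransGen.single ⟨Or.inr ⟨rfl, rfl, h⟩,
        mem_cls.mpr ⟨hP2.2.1, hq2⟩, mem_cls.mpr ⟨hP1.1, hp1⟩⟩
  exact hne (walk (mono _ _ hw1) c1 (mono _ _ hw2) c2 (hf.2 d))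

end Pool.Agent.Lib.MP_ee37cd_co.BK
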