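import Pool.Agent.Lib.MP_ee37cd_co.HM1
import Pool.Agent.Lib.MP_ee37cd_co.HM2
import Pool.Agent.Lib.MP_ee37cd_co.HM3
import Pool.Agent.Lib.MP_ee37cd_co.HM
import Pool.Agent.Lib.MP_ee37cd_co.PQ
import Pool.Agent.Lib.MP_ee37cd_co.III
import Pool.Agent.Lib.MP_ee37cd_co.ONE
import Pool.Agent.Lib.MP_ee37cd_co.CK
import Pool.Agent.Lib.MP_ee37cd_co.CH
import Pool.Agent.Lib.MP_ee37cd_co.TWO
import Pool.Agent.Lib.MP_ee37cd_co.CNT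
import Pool.Agent.Lib.MP_ee37cd_co.RR
import Pool.Agent.Lib.MP_ee37cd_co.FIN
import Pool.Agent.Lib.MP_ee37cd_co.ORD
import Pool.Agent.Lib.MP_ee37cd_co.TR
import Pool.Agent.Lib.MP_ee37cd_co.EQ1
import Pool.Agent.Lib.MP_ee37cd_co.EQ2
import Pool.Agent.Lib.MP_ee37cd_co.ENG
import Pool.Agent.Lib.MP_ee37cd_co.HALL
import Pool.Agent.Lib.MP_ee37cd_co.TG
import Pool.Agent.Lib.MP_ee37cd_co.TEES
import Pool.Agent.Lib.MP_ee37cd_co.TRI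
import Pool.Agent.Lib.MP_ee37cd_co.J2
import Pool.Agent.Lib.MP_ee37cd_co.J1a
import Pool.Agent.Lib.MP_ee37cd_co.J1b
import Pool.Agent.Lib.MP_ee37cd_co.J0a
import Pool.Agent.Lib.MP_ee37cd_co.J0b
import Pool.Agent.Lib.MP_ee37cd_co.J0c
import Pool.Agent.Lib.MP_ee37cd_co.J0d
import Pool.Agent.Lib.MP_ee37cd_co.OBS
import Pool.Agent.Lib.MP_ee37cd_co.ALL
import Pool.Agent.Lib.MP_ee37cd_co.ACY
import Pool.Agent.Lib.MP_ee37cd_co.LINK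

/-!
# MP_ee37cd_co: assembly of the transfer theorem
-/

set_option autoImplicit false

namespace Pool.Agent.Lib.MP_ee37cd_co.BK

theorem hm : S_HM := s_HM s_HM1 s_HM2 s_HM3

theorem fin : S_FIN :=
  s_FIN s_PQ hm s_III s_TWO
    (s_CNT hm (s_ONE hm) (s_CK s_III) (s_CH s_PQ s_III) s_TWO) s_RR

theorem obs : LL.S_OBS :=
  LL.s_OBS (LL.s_TEES (LL.s_TG LL.s_ENG LL.s_HALL)) (LL.s_J2 LL.s_TRI) (LL.s_J1a LL.s_TRI)
    (LL.s_J1b LL.s_TRI) (LL.s_J0a LL.s_TRI) (LL.s_J0b LL.s_TRI) LL.s_J0c (LL.s_J0d LL.s_TRI)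

theorem ll : S_LL := s_LINK s_ACY (LL.s_ALL obs)

theorem tr : S_TR := s_TR s_ORD ll fin

theorem eq1 : S_EQ1 := s_EQ1 tr

end Pool.Agent.Lib.MP_ee37cd_co.BK
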