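import Pool.Agent.Lib.MP_ee37cd_co.SpecM

/-!
# MP_ee37cd_co: Brooks' theorem
-/

set_option autoImplicit false

namespace Pool.Agent.Lib.MP_ee37cd_co.BK

open Finset
open scoped Classical

namespace BR

variable {V : Type} {G : SimpleGraph V} {k : ℕ}

/-- `f` is a proper colouring of `A` with `k` colours -/
def PC (G : SimpleGraph V) (k : ℕ) (A : Finset V) (f : V → ℕ) : Prop :=
  (∀ v ∈ A, f v < k) ∧ ∀ u ∈ A, ∀ v ∈ A, G.Adj u v → f u ≠ f v

theorem PC.mono {A B : Finset V} {f : V → ℕ} (h : PC G k B f) (hAB : A ⊆ B) : PC G k A f :=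
  ⟨fun v hv => h.1 v (hAB hv), fun u hu v hv => h.2 u (hAB hu) v (hAB hv)⟩

theorem step {A : Finset V} {f : V → ℕ} (hf : PC G k A f) {v : V} (hv : v ∉ A)
    (hc : ((A.filter (fun w => G.Adj v w)).image f).card < k) :
    ∃ f' : V → ℕ, PC G k (insert v A) f' ∧ ∀ a ∈ A, f' a = f a := by
  have h1 : ((A.filter (fun w => G.Adj v w)).image f).card < (range k).card := by
    rwa [card_range]
  obtain ⟨c, hc1, hc2⟩ := Finset.exists_mem_notMem_of_card_lt_card h1
  rw [Finset.mem_range] at hc1
  have hA : ∀ a ∈ A, Function.update f v c a = f a := by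
    intro a ha
    rw [Function.update_of_ne]
    rintro rfl
    exact hv ha
  refine ⟨Function.update f v c, ⟨?_, ?_⟩, hA⟩
  · intro w hw
    rcases Finset.mem_insert.1 hw with rfl | hw
    · rw [Function.update_self]
      exact hc1
    · rw [hA w hw]
      exact hf.1 w hw
  · intro u hu w hw huw
    rcases Finset.mem_insert.1 hu with hu1 | hu1
    · rcases Finset.mem_insert.1 hw with hw1 | hw1
      · rw [hu1, hw1] at huw
        exact absurd huw (G.loopless.irrefl _)
      · rw [hu1, Function.update_self, hA w hw1]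
        rw [hu1] at huw
        intro e
        exact hc2 (Finset.mem_image.2 ⟨w, Finset.mem_filter.2 ⟨hw1, huw⟩, e.symm⟩)
    · rcases Finset.mem_insert.1 hw with hw1 | hw1
      · rw [hw1, Function.update_self, hA u hu1]
        rw [hw1] at huw
        intro e
        exact hc2 (Finset.mem_image.2 ⟨u, Finset.mem_filter.2 ⟨hu1, huw.symm⟩, e⟩)
      · rw [hA u hu1, hA w hw1]
        exact hf.2 u hu1 w hw1 huw

theorem deg_nb {T A : Finset V} (hAT : A ⊆ T) {f : V → ℕ} {v w : V}
    (hdeg : (T.filter (fun w => G.Adj v w)).card ≤ k) (hw : w ∈ T) (hwA : w ∉ A)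
    (hvw : G.Adj v w) : ((A.filter (fun w => G.Adj v w)).image f).card < k := by
  refine lt_of_le_of_lt Finset.card_image_le (lt_of_lt_of_le ?_ hdeg)
  refine Finset.card_lt_card ?_
  rw [Finset.ssubset_iff_subset_ne]
  refine ⟨Finset.filter_subset_filter _ hAT, ?_⟩
  intro e
  have h1 : w ∈ T.filter (fun w => G.Adj v w) := Finset.mem_filter.2 ⟨hw, hvw⟩
  rw [← e] at h1
  exact hwA (Finset.mem_filter.1 h1).1

theorem deg_same {T A : Finset V} (hAT : A ⊆ T) {f : V → ℕ} {v a b : V}
    (hdeg : (T.filter (fun w => G.Adj v w)).card ≤ k) (ha : a ∈ A) (hb : b ∈ A) (hab : a ≠ b)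
    (hva : G.Adj v a) (hvb : G.Adj v b) (hf : f a = f b) :
    ((A.filter (fun w => G.Adj v w)).image f).card < k := by
  have h1 : (A.filter (fun w => G.Adj v w)).image f ⊆
      ((A.filter (fun w => G.Adj v w)).erase a).image f := by
    intro c hc
    obtain ⟨w, hw, rfl⟩ := Finset.mem_image.1 hc
    by_cases hwa : w = a
    · subst hwa
      exact Finset.mem_image.2 ⟨b, Finset.mem_erase.2 ⟨hab.symm,
        Finset.mem_filter.2 ⟨hb, hvb⟩⟩, hf.symm⟩
    · exact Finset.mem_image.2 ⟨w, Finset.mem_erase.2 ⟨hwa, hw⟩, rfl⟩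
  have h2 := (Finset.card_le_card h1).trans Finset.card_image_le
  have ha' : a ∈ A.filter (fun w => G.Adj v w) := Finset.mem_filter.2 ⟨ha, hva⟩
  rw [Finset.card_erase_of_mem ha'] at h2
  have h3 : 0 < (A.filter (fun w => G.Adj v w)).card := Finset.card_pos.2 ⟨a, ha'⟩
  have h4 := (Finset.card_le_card (Finset.filter_subset_filter (fun w => G.Adj v w) hAT)).trans
    hdeg
  omega

theorem path_lemma {T : Finset V} (hdeg : ∀ v ∈ T, (T.filter (fun w => G.Adj v w)).card ≤ k) :
    ∀ (l : List V) (A : Finset V) (f : V → ℕ), A ⊆ T → PC G k A f → l.IsChain G.Adj → l.Nodup →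
      (∀ x ∈ l, x ∈ T ∧ x ∉ A) →
      ∃ f' : V → ℕ, PC G k (A ∪ l.dropLast.toFinset) f' ∧ ∀ a ∈ A, f' a = f a := by
  intro l
  induction l with
  | nil =>
    intro A f _ hf _ _ _
    exact ⟨f, by simpa using hf, fun _ _ => rfl⟩
  | cons x l ih =>
    intro A f hA hf hch hnd hT
    cases l with
    | nil => exact ⟨f, by simpa using hf, fun _ _ => rfl⟩
    | cons y l =>
      have hxy : G.Adj x y := (List.isChain_cons_cons.1 hch).1
      have hx := hT x (by simp)
      have hy := hT y (by simp)
      obtain ⟨f1, hf1, hf1'⟩ := step hf hx.2 (deg_nb hA (hdeg x hx.1) hy.1 hy.2 hxy)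
      obtain ⟨f2, hf2, hf2'⟩ := ih (insert x A) f1
        (Finset.insert_subset_iff.2 ⟨hx.1, hA⟩) hf1 (List.isChain_cons_cons.1 hch).2
        (List.nodup_cons.1 hnd).2 (fun z hz => ⟨(hT z (List.mem_cons_of_mem _ hz)).1, by
          intro h1
          rcases Finset.mem_insert.1 h1 with rfl | h1
          · exact (List.nodup_cons.1 hnd).1 hz
          · exact (hT z (List.mem_cons_of_mem _ hz)).2 h1⟩)
      refine ⟨f2, ?_, ?_⟩
      · convert hf2 using 1
        ext z
        simp only [List.dropLast_cons_cons, List.toFinset_cons, Finset.mem_union,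
          Finset.mem_insert]
        tauto
      · intro a ha
        rw [hf2' a (Finset.mem_insert_of_mem ha), hf1' a ha]

theorem max_path {T : Finset V} : ∀ (n : ℕ) (z : V) (m : List V),
    T.card ≤ (z :: m).length + n → (z :: m).IsChain G.Adj → (z :: m).Nodup →
    (∀ x ∈ z :: m, x ∈ T) → ∃ (z' : V) (m' s : List V), z' :: m' = s ++ z :: m ∧
      (z' :: m').IsChain G.Adj ∧ (z' :: m').Nodup ∧ (∀ x ∈ z' :: m', x ∈ T) ∧
      ∀ w ∈ T, G.Adj z' w → w ∈ z' :: m' := by
  intro n
  induction n with
  | zero =>
    intro z m hc hch hnd hT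
    refine ⟨z, m, [], rfl, hch, hnd, hT, ?_⟩
    intro w hw _
    have h1 : (z :: m).toFinset ⊆ T := by
      intro x hx
      exact hT x (List.mem_toFinset.1 hx)
    have h2 : T.card ≤ (z :: m).toFinset.card := by
      rw [List.toFinset_card_of_nodup hnd]
      omega
    have h3 := Finset.eq_of_subset_of_card_le h1 h2
    rw [← h3] at hw
    exact List.mem_toFinset.1 hw
  | succ n ih =>
    intro z m hc hch hnd hT
    by_cases h : ∀ w ∈ T, G.Adj z w → w ∈ z :: m
    · exact ⟨z, m, [], rfl, hch, hnd, hT, h⟩
    · push Not at h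
      obtain ⟨w, hw, hzw, hwn⟩ := h
      obtain ⟨z', m', s, h1, h2, h3, h4, h5⟩ := ih w (z :: m) (by
        rw [List.length_cons (a := w)]
        omega) (List.isChain_cons_cons.2 ⟨hzw.symm, hch⟩) (List.nodup_cons.2 ⟨hwn, hnd⟩)
        (by
          intro x hx
          rcases List.mem_cons.1 hx with rfl | hx
          · exact hw
          · exact hT x hx)
      refine ⟨z', m', s ++ [w], ?_, h2, h3, h4, h5⟩
      rw [h1]
      simp

/-- the last element of a list with a property -/
theorem exists_last {p : V → Prop} : ∀ l : List V, (∃ x ∈ l, p x) →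
    ∃ (a : List V) (x : V) (b : List V), l = a ++ x :: b ∧ p x ∧ ∀ y ∈ b, ¬ p y := by
  intro l
  induction l with
  | nil =>
    rintro ⟨x, hx, -⟩
    exact absurd hx (List.not_mem_nil)
  | cons y l ih =>
    intro h
    by_cases h1 : ∃ x ∈ l, p x
    · obtain ⟨a, x, b, h2, h3, h4⟩ := ih h1
      exact ⟨y :: a, x, b, by rw [h2]; rfl, h3, h4⟩
    · push Not at h1
      obtain ⟨x, hx, hpx⟩ := h
      rcases List.mem_cons.1 hx with rfl | hx
      · exact ⟨[], x, l, rfl, hpx, h1⟩
      · exact absurd hpx (h1 x hx)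

/-- the first element of a list with a property -/
theorem exists_first {p : V → Prop} : ∀ l : List V, (∃ x ∈ l, p x) →
    ∃ (a : List V) (x : V) (b : List V), l = a ++ x :: b ∧ p x ∧ ∀ y ∈ a, ¬ p y := by
  intro l
  induction l with
  | nil =>
    rintro ⟨x, hx, -⟩
    exact absurd hx (List.not_mem_nil)
  | cons y l ih =>
    intro h
    by_cases h1 : p y
    · exact ⟨[], y, l, rfl, h1, by simp⟩
    · obtain ⟨x, hx, hpx⟩ := h
      rcases List.mem_cons.1 hx with rfl | hx
      · exact absurd hpx h1
      · obtain ⟨a, x, b, h2, h3, h4⟩ := ih ⟨x, hx, hpx⟩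
        refine ⟨y :: a, x, b, by rw [h2]; rfl, h3, ?_⟩
        intro z hz
        rcases List.mem_cons.1 hz with rfl | hz
        · exact h1
        · exact h4 z hz

theorem chain_rev {l : List V} (h : l.IsChain G.Adj) : l.reverse.IsChain G.Adj := by
  rw [List.isChain_reverse]
  exact h.imp fun _ _ h => h.symm

/-- the case of a Hamiltonian path -/
theorem ham {T : Finset V} (hdeg : ∀ v ∈ T, (T.filter (fun w => G.Adj v w)).card ≤ k)
    (hk : 3 ≤ k) {v1 v2 v3 : V} (hreg : (T.filter (fun w => G.Adj v2 w)).card = k)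
    (h12 : G.Adj v2 v1) (h23 : G.Adj v2 v3) (hne : v1 ≠ v3) (h13 : ¬ G.Adj v1 v3)
    {p : List V} (hch : (p ++ [v3, v2, v1]).IsChain G.Adj) (hnd : (p ++ [v3, v2, v1]).Nodup)
    (hT : ∀ x, x ∈ p ++ [v3, v2, v1] ↔ x ∈ T) : ∃ f, PC G k T f := by
  have hv1 : v1 ∈ T := (hT v1).1 (by simp)
  have hv2 : v2 ∈ T := (hT v2).1 (by simp)
  have hv3 : v3 ∈ T := (hT v3).1 (by simp)
  obtain ⟨w, hw, hw13⟩ : ∃ w ∈ T.filter (fun w => G.Adj v2 w), w ∉ ({v1, v3} : Finset V) := by
    apply Finset.exists_mem_notMem_of_card_lt_card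
    rw [hreg, Finset.card_pair hne]
    omega
  rw [Finset.mem_filter] at hw
  simp only [Finset.mem_insert, Finset.mem_singleton, not_or] at hw13
  have hw2 : w ≠ v2 := by
    rintro rfl
    exact G.loopless.irrefl _ hw.2
  have hwp : w ∈ p := by
    have := (hT w).2 hw.1
    simp only [List.mem_append, List.mem_cons, List.not_mem_nil, or_false] at this
    rcases this with h | h | h | h
    · exact h
    · exact absurd h hw13.2
    · exact absurd h hw2
    · exact absurd h hw13.1
  obtain ⟨a, b, rfl⟩ := List.append_of_mem hwp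
  -- the colouring of v1, v3
  have hf0 : PC G k {v1, v3} (fun _ => 0) := by
    refine ⟨fun _ _ => by show 0 < k; omega, ?_⟩
    intro u hu v hv huv
    exfalso
    simp only [Finset.mem_insert, Finset.mem_singleton] at hu hv
    rcases hu with rfl | rfl <;> rcases hv with rfl | rfl
    · exact G.loopless.irrefl _ huv
    · exact h13 huv
    · exact h13 huv.symm
    · exact G.loopless.irrefl _ huv
  have hnd1 : (w :: b).Nodup := by
    have h1 : (a ++ w :: b).Nodup := (List.nodup_append.1 hnd).1
    exact (List.nodup_append.1 h1).2.1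
  have hch1 : (w :: b).IsChain G.Adj := by
    have h1 : (a ++ w :: b).IsChain G.Adj := hch.left_of_append
    exact h1.right_of_append
  have hnot : ∀ x ∈ a ++ w :: b, x ≠ v1 ∧ x ≠ v2 ∧ x ≠ v3 := by
    intro x hx
    have h1 := (List.nodup_append.1 hnd).2.2
    exact ⟨h1 x hx v1 (by simp), h1 x hx v2 (by simp), h1 x hx v3 (by simp)⟩
  obtain ⟨f1, hf1, hf1'⟩ := path_lemma hdeg (w :: b).reverse {v1, v3} (fun _ => 0)
    (by
      intro x hx
      simp only [Finset.mem_insert, Finset.mem_singleton] at hx
      rcases hx with rfl | rfl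
      · exact hv1
      · exact hv3) hf0 (chain_rev hch1) (List.nodup_reverse.2 hnd1) (by
      intro x hx
      rw [List.mem_reverse] at hx
      have hx2 : x ∈ a ++ w :: b := List.mem_append_right _ hx
      have h1 := hnot x hx2
      refine ⟨(hT x).1 (List.mem_append_left _ hx2), ?_⟩
      simp only [Finset.mem_insert, Finset.mem_singleton, not_or]
      exact ⟨h1.1, h1.2.2⟩)
  have hdl : (w :: b).reverse.dropLast = b.reverse := by
    rw [List.reverse_cons, List.dropLast_concat]
  rw [hdl] at hf1
  have hch2 : (a ++ [w, v2]).IsChain G.Adj := by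
    rw [List.isChain_append_cons_cons]
    refine ⟨?_, hw.2.symm, List.IsChain.singleton _⟩
    have h1 : (a ++ w :: b).IsChain G.Adj := hch.left_of_append
    rw [List.isChain_split] at h1
    exact h1.1
  have hnda : (a ++ w :: b).Nodup := (List.nodup_append.1 hnd).1
  obtain ⟨f2, hf2, hf2'⟩ := path_lemma hdeg (a ++ [w, v2]) ({v1, v3} ∪ b.reverse.toFinset) f1
    (by
      intro x hx
      rw [Finset.mem_union] at hx
      simp only [Finset.mem_insert, Finset.mem_singleton, List.mem_toFinset,
        List.mem_reverse] at hx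
      rcases hx with (rfl | rfl) | hx
      · exact hv1
      · exact hv3
      · exact (hT x).1 (by simp [hx])) hf1 hch2 (by
      have h1 : a ++ [w, v2] = (a ++ [w]) ++ [v2] := by simp
      rw [h1, List.nodup_append]
      refine ⟨?_, by simp, ?_⟩
      · have h2 : a ++ w :: b = (a ++ [w]) ++ b := by simp
        rw [h2] at hnda
        exact (List.nodup_append.1 hnda).1
      · intro x hx y hy
        rw [List.mem_singleton] at hy
        rw [hy]
        refine (hnot x ?_).2.1
        simp only [List.mem_append, List.mem_singleton] at hx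
        simp only [List.mem_append, List.mem_cons]
        tauto) (by
      intro x hx
      simp only [List.mem_append, List.mem_cons, List.not_mem_nil, or_false] at hx
      have hmem : ∀ x, (x ∈ a ∨ x = w) → x ∈ T ∧
          x ∉ ({v1, v3} : Finset V) ∪ b.reverse.toFinset := by
        intro x hx
        have hx2 : x ∈ a ++ w :: b := by
          simp only [List.mem_append, List.mem_cons]
          tauto
        have h1 := hnot x hx2
        refine ⟨(hT x).1 (List.mem_append_left _ hx2), ?_⟩
        simp only [Finset.mem_union, Finset.mem_insert, Finset.mem_singleton, List.mem_toFinset,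
          List.mem_reverse, not_or]
        refine ⟨⟨h1.1, h1.2.2⟩, ?_⟩
        intro hxb
        rcases hx with hx | rfl
        · exact (List.nodup_append.1 hnda).2.2 x hx x (List.mem_cons_of_mem _ hxb) rfl
        · exact (List.nodup_cons.1 hnd1).1 hxb
      rcases hx with hx | hx | rfl
      · exact hmem x (Or.inl hx)
      · exact hmem x (Or.inr hx)
      · refine ⟨hv2, ?_⟩
        simp only [Finset.mem_union, Finset.mem_insert, Finset.mem_singleton, List.mem_toFinset,
          List.mem_reverse, not_or]
        refine ⟨⟨h12.ne, h23.ne⟩, ?_⟩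
        intro hxb
        exact (hnot x (by simp [hxb])).2.1 rfl)
  have hdl2 : (a ++ [w, v2]).dropLast = a ++ [w] := by
    have h1 : a ++ [w, v2] = (a ++ [w]) ++ [v2] := by simp
    rw [h1, List.dropLast_concat]
  rw [hdl2] at hf2
  set A := ({v1, v3} : Finset V) ∪ b.reverse.toFinset ∪ (a ++ [w]).toFinset with hA
  have hmemA : ∀ x, x ∈ A ↔ (x = v1 ∨ x = v3) ∨ x ∈ a ∨ x = w ∨ x ∈ b := by
    intro x
    rw [hA]
    simp only [Finset.mem_union, Finset.mem_insert, Finset.mem_singleton, List.mem_toFinset,
      List.mem_reverse, List.mem_append, List.mem_singleton]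
    tauto
  have hAT : A ⊆ T := by
    intro x hx
    rw [hmemA] at hx
    rcases hx with (rfl | rfl) | hx
    · exact hv1
    · exact hv3
    · refine (hT x).1 (List.mem_append_left _ ?_)
      simp only [List.mem_append, List.mem_cons]
      exact hx
  have hv2A : v2 ∉ A := by
    rw [hmemA]
    rintro ((h | h) | h)
    · exact h12.ne h
    · exact h23.ne h
    · refine (hnot v2 ?_).2.1 rfl
      simp only [List.mem_append, List.mem_cons]
      exact h
  have hv1A : v1 ∈ A := (hmemA v1).2 (Or.inl (Or.inl rfl))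
  have hv3A : v3 ∈ A := (hmemA v3).2 (Or.inl (Or.inr rfl))
  have hcol : f2 v1 = f2 v3 := by
    have e1 : ∀ x, x = v1 ∨ x = v3 → f2 x = 0 := by
      intro x hx
      have hx2 : x ∈ ({v1, v3} : Finset V) := by simpa using hx
      rw [hf2' x (Finset.mem_union_left _ hx2), hf1' x hx2]
    rw [e1 v1 (Or.inl rfl), e1 v3 (Or.inr rfl)]
  obtain ⟨f3, hf3, -⟩ := step hf2 hv2A (deg_same hAT (hdeg v2 hv2) hv1A hv3A hne h12 h23 hcol)
  refine ⟨f3, hf3.mono ?_⟩
  intro x hx
  rw [Finset.mem_insert, hmemA]
  have := (hT x).2 hx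
  simp only [List.mem_append, List.mem_cons, List.not_mem_nil, or_false] at this
  tauto

/-- the case of a cycle `z :: q ++ [x]` which is not everything -/
theorem cyc {T : Finset V} (hdeg : ∀ v ∈ T, (T.filter (fun w => G.Adj v w)).card ≤ k)
    (hmin : ∀ T' ⊂ T, ∃ f, PC G k T' f) {C : List V} {z x : V}
    (hch : C.IsChain G.Adj) (hnd : C.Nodup) (hCT : ∀ u ∈ C, u ∈ T)
    (hz : C.head? = some z) (hx : C.getLast? = some x) (hxz : G.Adj x z)
    (hnz : ∀ w ∈ T, G.Adj z w → w ∈ C) (hne : ¬ T ⊆ C.toFinset) : ∃ f, PC G k T f := by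
  have hzC : z ∈ C := by
    rw [List.head?_eq_some_iff] at hz
    obtain ⟨l, rfl⟩ := hz
    exact List.mem_cons_self
  have hsub : C.toFinset ⊆ T := fun u hu => hCT u (List.mem_toFinset.1 hu)
  by_cases hout : ∃ u ∈ C, ∃ w ∈ T \ C.toFinset, G.Adj u w
  · obtain ⟨s, y, t, hC, ⟨y', hy', hyy'⟩, hs⟩ := exists_first
      (p := fun u => ∃ w ∈ T \ C.toFinset, G.Adj u w) C hout
    have hzn : ¬ ∃ w ∈ T \ C.toFinset, G.Adj z w := by
      rintro ⟨w, hw, hzw⟩
      rw [Finset.mem_sdiff, List.mem_toFinset] at hw
      exact hw.2 (hnz w hw.1 hzw)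
    -- `s` is not empty
    rcases List.eq_nil_or_concat s with rfl | ⟨s', x', rfl⟩
    · exfalso
      rw [hC] at hz
      simp only [List.nil_append, List.head?_cons, Option.some.injEq] at hz
      rw [hz] at hyy'
      exact hzn ⟨y', hy', hyy'⟩
    have hx'n : ¬ ∃ w ∈ T \ C.toFinset, G.Adj x' w := hs x' (by simp)
    have hC2 : C = (s' ++ [x']) ++ (y :: t) := by rw [hC, List.concat_eq_append]
    have hhead : (s' ++ [x']).head? = some z := by
      rw [hC2, List.head?_append] at hz
      cases h : (s' ++ [x']).head? with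
      | none => simp at h
      | some a => rw [h] at hz; simpa using hz
    have hlast : (y :: t).getLast? = some x := by
      rw [hC2, List.getLast?_append] at hx
      cases h : (y :: t).getLast? with
      | none => simp at h
      | some a => rw [h] at hx; simpa using hx
    have hx'y : G.Adj x' y := by
      have h1 : (s' ++ x' :: y :: t).IsChain G.Adj := by
        have : C = s' ++ x' :: y :: t := by rw [hC2]; simp
        rw [← this]
        exact hch
      exact (List.isChain_append_cons_cons.1 h1).2.1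
    have hch1 : (s' ++ [x']).IsChain G.Adj := by
      rw [hC2] at hch
      exact hch.left_of_append
    have hch2 : (y :: t).IsChain G.Adj := by
      rw [hC2] at hch
      exact hch.right_of_append
    have hD : ((s' ++ [x']).reverse ++ (y :: t).reverse).IsChain G.Adj := by
      rw [List.isChain_append]
      refine ⟨chain_rev hch1, chain_rev hch2, ?_⟩
      intro a ha b hb
      rw [List.getLast?_reverse, hhead] at ha
      rw [List.head?_reverse, hlast] at hb
      simp only [Option.mem_def, Option.some.injEq] at ha hb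
      rw [← ha, ← hb]
      exact hxz.symm
    have hD2 : (s' ++ [x']).reverse ++ (y :: t).reverse =
        x' :: (s'.reverse ++ (y :: t).reverse) := by
      simp
    rw [hD2] at hD
    have hDnd : (x' :: (s'.reverse ++ (y :: t).reverse)).Nodup := by
      rw [← hD2]
      have h1 : ((s' ++ [x']) ++ (y :: t)).Nodup := by rw [← hC2]; exact hnd
      rw [List.nodup_append] at h1 ⊢
      refine ⟨List.nodup_reverse.2 h1.1, List.nodup_reverse.2 h1.2.1, ?_⟩
      intro a ha b hb
      exact h1.2.2 a (List.mem_reverse.1 ha) b (List.mem_reverse.1 hb)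
    have hmemD : ∀ u, u ∈ x' :: (s'.reverse ++ (y :: t).reverse) ↔ u ∈ C := by
      intro u
      rw [hC2]
      simp only [List.mem_cons, List.mem_append, List.mem_reverse, List.not_mem_nil, or_false]
      tauto
    obtain ⟨f0, hf0⟩ := hmin (T \ C.toFinset) (by
      rw [Finset.ssubset_iff_subset_ne]
      refine ⟨Finset.sdiff_subset, ?_⟩
      intro e
      have h1 : z ∈ T \ C.toFinset := by
        rw [e]
        exact hCT z hzC
      exact (Finset.mem_sdiff.1 h1).2 (List.mem_toFinset.2 hzC))
    have hx'C : x' ∈ C := (hmemD x').1 List.mem_cons_self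
    have hx'A : x' ∉ T \ C.toFinset := fun h => (Finset.mem_sdiff.1 h).2
      (List.mem_toFinset.2 hx'C)
    have hyC : y ∈ C := by rw [hC2]; simp
    have hupd : ∀ a ∈ T \ C.toFinset, Function.update f0 x' (f0 y') a = f0 a := by
      intro a ha
      rw [Function.update_of_ne]
      rintro rfl
      exact hx'A ha
    have hf1 : PC G k (insert x' (T \ C.toFinset)) (Function.update f0 x' (f0 y')) := by
      refine ⟨?_, ?_⟩
      · intro v hv
        rcases Finset.mem_insert.1 hv with hv1 | hv1
        · rw [hv1, Function.update_self]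
          exact hf0.1 y' hy'
        · rw [hupd v hv1]
          exact hf0.1 v hv1
      · intro u hu v hv huv
        rcases Finset.mem_insert.1 hu with hu1 | hu1
        · rcases Finset.mem_insert.1 hv with hv1 | hv1
          · rw [hu1, hv1] at huv
            exact absurd huv (G.loopless.irrefl _)
          · rw [hu1] at huv
            exact absurd ⟨v, hv1, huv⟩ hx'n
        · rcases Finset.mem_insert.1 hv with hv1 | hv1
          · rw [hv1] at huv
            exact absurd ⟨u, hu1, huv.symm⟩ hx'n
          · rw [hupd u hu1, hupd v hv1]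
            exact hf0.2 u hu1 v hv1 huv
    obtain ⟨f2, hf2, hf2'⟩ := path_lemma hdeg (s'.reverse ++ (y :: t).reverse)
      (insert x' (T \ C.toFinset)) (Function.update f0 x' (f0 y'))
      (Finset.insert_subset_iff.2 ⟨hCT x' hx'C, Finset.sdiff_subset⟩) hf1
      (List.isChain_cons.1 hD).2 (List.nodup_cons.1 hDnd).2 (by
        intro u hu
        have h1 : u ∈ C := (hmemD u).1 (List.mem_cons_of_mem _ hu)
        refine ⟨hCT u h1, ?_⟩
        intro h2
        rcases Finset.mem_insert.1 h2 with h2 | h2
        · rw [h2] at hu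
          exact (List.nodup_cons.1 hDnd).1 hu
        · exact (Finset.mem_sdiff.1 h2).2 (List.mem_toFinset.2 h1))
    have hdl : (s'.reverse ++ (y :: t).reverse).dropLast = s'.reverse ++ t.reverse := by
      rw [List.reverse_cons, ← List.append_assoc, List.dropLast_concat]
    rw [hdl] at hf2
    set A := insert x' (T \ C.toFinset) ∪ (s'.reverse ++ t.reverse).toFinset with hA
    have hmemA : ∀ u, u ∈ A ↔ (u = x' ∨ u ∈ T \ C.toFinset) ∨ u ∈ s' ∨ u ∈ t := by
      intro u
      rw [hA]
      simp only [Finset.mem_union, Finset.mem_insert, List.mem_toFinset, List.mem_append,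
        List.mem_reverse]
    have hmemC : ∀ u, u ∈ C ↔ u ∈ s' ∨ u = x' ∨ u = y ∨ u ∈ t := by
      intro u
      rw [hC2]
      simp only [List.mem_append, List.mem_cons, List.not_mem_nil, or_false]
      tauto
    have hAT : A ⊆ T := by
      intro u hu
      rw [hmemA] at hu
      rcases hu with (h | h) | h | h
      · exact hCT u ((hmemC u).2 (Or.inr (Or.inl h)))
      · exact (Finset.mem_sdiff.1 h).1
      · exact hCT u ((hmemC u).2 (Or.inl h))
      · exact hCT u ((hmemC u).2 (Or.inr (Or.inr (Or.inr h))))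
    have hyA : y ∉ A := by
      rw [hmemA]
      have h1 : ((s' ++ [x']) ++ (y :: t)).Nodup := by rw [← hC2]; exact hnd
      rw [List.nodup_append] at h1
      rintro ((h | h) | h | h)
      · exact h1.2.2 x' (by simp) y (by simp) h.symm
      · exact (Finset.mem_sdiff.1 h).2 (List.mem_toFinset.2 hyC)
      · exact h1.2.2 y (by simp [h]) y (by simp) rfl
      · exact (List.nodup_cons.1 h1.2.1).1 h
    have hx'A' : x' ∈ A := (hmemA x').2 (Or.inl (Or.inl rfl))
    have hy'A : y' ∈ A := (hmemA y').2 (Or.inl (Or.inr hy'))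
    have hcol : f2 x' = f2 y' := by
      rw [hf2' x' (Finset.mem_insert_self _ _), hf2' y' (Finset.mem_insert_of_mem hy'),
        Function.update_self, hupd y' hy']
    have hxy' : x' ≠ y' := by
      intro e
      rw [← e] at hy'
      exact hx'A hy'
    obtain ⟨f3, hf3, -⟩ := step hf2 hyA
      (deg_same hAT (hdeg y (hCT y hyC)) hx'A' hy'A hxy' hx'y.symm hyy' hcol)
    refine ⟨f3, hf3.mono ?_⟩
    intro u hu
    rw [Finset.mem_insert, hmemA]
    by_cases huC : u ∈ C
    · have := (hmemC u).1 huC
      tauto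
    · right
      left
      right
      exact Finset.mem_sdiff.2 ⟨hu, fun h => huC (List.mem_toFinset.1 h)⟩
  · -- the cycle and the rest are coloured separately
    push Not at hout
    obtain ⟨f1, hf1⟩ := hmin (T \ C.toFinset) (by
      rw [Finset.ssubset_iff_subset_ne]
      refine ⟨Finset.sdiff_subset, ?_⟩
      intro e
      have h1 : z ∈ T \ C.toFinset := by
        rw [e]
        exact hCT z hzC
      exact (Finset.mem_sdiff.1 h1).2 (List.mem_toFinset.2 hzC))
    obtain ⟨f2, hf2⟩ := hmin C.toFinset (by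
      rw [Finset.ssubset_iff_subset_ne]
      refine ⟨hsub, ?_⟩
      intro e
      exact hne (by rw [e]))
    refine ⟨fun v => if v ∈ C.toFinset then f2 v else f1 v, ?_, ?_⟩
    · intro v hv
      by_cases h : v ∈ C.toFinset
      · simp only [h, if_true]
        exact hf2.1 v h
      · simp only [h, if_false]
        exact hf1.1 v (Finset.mem_sdiff.2 ⟨hv, h⟩)
    · intro u hu v hv huv
      by_cases h1 : u ∈ C.toFinset <;> by_cases h2 : v ∈ C.toFinset
      · simp only [h1, h2, if_true]
        exact hf2.2 u h1 v h2 huv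
      · exact absurd huv (hout u (List.mem_toFinset.1 h1) v (Finset.mem_sdiff.2 ⟨hv, h2⟩))
      · exact absurd huv.symm (hout v (List.mem_toFinset.1 h2) u (Finset.mem_sdiff.2 ⟨hu, h1⟩))
      · simp only [h1, h2, if_false]
        exact hf1.2 u (Finset.mem_sdiff.2 ⟨hu, h1⟩) v (Finset.mem_sdiff.2 ⟨hv, h2⟩) huv

theorem brooks (G : SimpleGraph V) (k : ℕ) (hk : 3 ≤ k) : ∀ T : Finset V,
    (∀ v ∈ T, (T.filter (fun w => G.Adj v w)).card ≤ k) →
    (∀ B ⊆ T, (∀ a ∈ B, ∀ b ∈ B, a ≠ b → G.Adj a b) → B.card ≤ k) → ∃ f, PC G k T f := by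
  intro T
  induction T using Finset.strongInduction with
  | H T ih =>
    intro hdeg hcl
    have hmin : ∀ T' ⊂ T, ∃ f, PC G k T' f := by
      intro T' hT'
      refine ih T' hT' ?_ ?_
      · intro v hv
        exact (Finset.card_le_card (Finset.filter_subset_filter _ hT'.subset)).trans
          (hdeg v (hT'.subset hv))
      · intro B hB
        exact hcl B (hB.trans hT'.subset)
    rcases T.eq_empty_or_nonempty with rfl | ⟨v2, hv2⟩
    · exact ⟨fun _ => 0, fun v hv => absurd hv (Finset.notMem_empty v),
        fun v hv => absurd hv (Finset.notMem_empty v)⟩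
    -- all degrees are equal to `k`
    by_cases hlow : ∃ v ∈ T, (T.filter (fun w => G.Adj v w)).card < k
    · obtain ⟨v, hv, hlt⟩ := hlow
      obtain ⟨f, hf⟩ := hmin (T.erase v) (Finset.erase_ssubset hv)
      obtain ⟨f', hf', -⟩ := step hf (Finset.notMem_erase v T) (by
        refine lt_of_le_of_lt Finset.card_image_le (lt_of_le_of_lt ?_ hlt)
        exact Finset.card_le_card (Finset.filter_subset_filter _ (Finset.erase_subset _ _)))
      rw [Finset.insert_erase hv] at hf'
      exact ⟨f', hf'⟩
    push Not at hlow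
    have hreg : ∀ v ∈ T, (T.filter (fun w => G.Adj v w)).card = k := fun v hv =>
      le_antisymm (hdeg v hv) (hlow v hv)
    obtain ⟨v1, v3, hv1, hv3, h12, h23, hne, h13⟩ : ∃ v1 v3, v1 ∈ T ∧ v3 ∈ T ∧ G.Adj v2 v1 ∧
        G.Adj v2 v3 ∧ v1 ≠ v3 ∧ ¬ G.Adj v1 v3 := by
      by_contra hcon
      push Not at hcon
      have h1 := hcl (insert v2 (T.filter (fun w => G.Adj v2 w))) (by
        intro x hx
        rcases Finset.mem_insert.1 hx with rfl | hx
        · exact hv2
        · exact (Finset.mem_filter.1 hx).1) (by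
        intro a ha b hb hab
        rcases Finset.mem_insert.1 ha with ha1 | ha1
        · rcases Finset.mem_insert.1 hb with hb1 | hb1
          · exact absurd (ha1.trans hb1.symm) hab
          · rw [ha1]
            exact (Finset.mem_filter.1 hb1).2
        · rcases Finset.mem_insert.1 hb with hb1 | hb1
          · rw [hb1]
            exact (Finset.mem_filter.1 ha1).2.symm
          · exact hcon a b (Finset.mem_filter.1 ha1).1 (Finset.mem_filter.1 hb1).1
              (Finset.mem_filter.1 ha1).2 (Finset.mem_filter.1 hb1).2 hab)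
      rw [Finset.card_insert_of_notMem, hreg v2 hv2] at h1
      · omega
      · intro h2
        exact G.loopless.irrefl _ (Finset.mem_filter.1 h2).2
    obtain ⟨z, m, s, hL, hch, hnd, hT, hmax⟩ := max_path (G := G) (T := T) T.card v3 [v2, v1]
      (by simp) (by
        rw [List.isChain_cons_cons, List.isChain_cons_cons]
        exact ⟨h23.symm, h12, List.IsChain.singleton _⟩) (by
        simp only [List.nodup_cons, List.mem_cons, List.not_mem_nil, or_false, not_or,
          List.nodup_nil, not_false_iff, and_true]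
        exact ⟨⟨h23.ne.symm, hne.symm⟩, h12.ne⟩) (by
        intro x hx
        simp only [List.mem_cons, List.not_mem_nil, or_false] at hx
        rcases hx with rfl | rfl | rfl
        · exact hv3
        · exact hv2
        · exact hv1)
    by_cases hall : ∀ x ∈ T, x ∈ z :: m
    · rw [hL] at hch hnd hT hall
      exact ham hdeg hk (hreg v2 hv2) h12 h23 hne h13 hch hnd
        (fun x => ⟨hT x, hall x⟩)
    · -- cycle case
      have hzT : z ∈ T := hT z List.mem_cons_self
      obtain ⟨w, hw⟩ : (T.filter (fun w => G.Adj z w)).Nonempty := by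
        rw [← Finset.card_pos, hreg z hzT]
        omega
      rw [Finset.mem_filter] at hw
      obtain ⟨q, x, b, hLx, hzx, hb⟩ := exists_last (p := fun u => G.Adj z u) (z :: m)
        ⟨w, hmax w hw.1 hw.2, hw.2⟩
      have hq : q ≠ [] := by
        rintro rfl
        simp only [List.nil_append, List.cons.injEq] at hLx
        rw [← hLx.1] at hzx
        exact G.loopless.irrefl _ hzx
      have hLx2 : z :: m = (q ++ [x]) ++ b := by rw [hLx]; simp
      refine cyc (C := q ++ [x]) (z := z) (x := x) hdeg hmin ?_ ?_ ?_ ?_ ?_ hzx.symm ?_ ?_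
      · rw [hLx2] at hch
        exact hch.left_of_append
      · rw [hLx2] at hnd
        exact (List.nodup_append.1 hnd).1
      · intro u hu
        exact hT u (by rw [hLx2]; exact List.mem_append_left _ hu)
      · have h1 : (z :: m).head? = some z := rfl
        rw [hLx, List.head?_append_of_ne_nil _ hq] at h1
        rw [List.head?_append_of_ne_nil _ hq]
        exact h1
      · simp
      · intro w hw hzw
        have h1 := hmax w hw hzw
        rw [hLx2] at h1
        rcases List.mem_append.1 h1 with h1 | h1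
        · exact h1
        · exact absurd hzw (hb w h1)
      · intro hsub
        apply hall
        intro x hx
        rw [hLx2]
        exact List.mem_append_left _ (List.mem_toFinset.1 (hsub hx))

end BR

theorem s_BR : S_BR := by
  intro V T G k hk hdeg hcl
  obtain ⟨f, h1, h2⟩ := BR.brooks G k hk T hdeg hcl
  exact ⟨f, h1, h2⟩

end Pool.Agent.Lib.MP_ee37cd_co.BK
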