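import Pool.Agent.Lib.MP_ee37cd_co.Defs

/-!
# MP_ee37cd_co: the extension lemma, first properties of smallest counterexamples
-/

set_option autoImplicit false

namespace Pool.Agent.Lib.MP_ee37cd_co.BK

open Finset
open scoped Classical

variable {V : Type} {E : V → V → Prop}

theorem inj_into {X : Finset V} {R : Finset ℕ} (h : X.card ≤ R.card) :
    ∃ g : V → ℕ, (∀ x ∈ X, g x ∈ R) ∧ ∀ x ∈ X, ∀ y ∈ X, g x = g y → x = y := by
  obtain ⟨R1, hR1, hc⟩ := Finset.exists_subset_card_eq h
  let e := Finset.equivOfCardEq hc.symm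
  refine ⟨fun v => if hv : v ∈ X then (e ⟨v, hv⟩ : ℕ) else 0, ?_, ?_⟩
  · intro x hx
    simp only [hx, dif_pos]
    exact hR1 (e ⟨x, hx⟩).2
  · intro x hx y hy hxy
    simp only [hx, hy, dif_pos] at hxy
    have := e.injective (Subtype.ext hxy)
    exact congrArg Subtype.val this

/-- EXTENSION LEMMA. `S \ T` is coloured by `f`; `T` is covered by acyclic sets `X i` with few bad
colours and a set `X0` of vertices without outside arcs. -/
theorem ext {S T : Finset V} (irr : ∀ v, ¬ E v v) (hT : T ⊆ S) {k : ℕ} {f : V → ℕ}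
    (hf : IsDicol E (S \ T) k f) (n : ℕ) (X : Fin n → Finset V) (X0 : Finset V)
    (hcov : ∀ v ∈ T, v ∈ X0 ∨ ∃ i, v ∈ X i) (hac : ∀ i, Acyc E (X i))
    (hbad : ∀ i, (bad E (S \ T) f k (X i)).card + n ≤ k)
    (hX0 : ∀ x ∈ X0, outdeg E (S \ T) x + indeg E (S \ T) x = 0) (hn : n + X0.card ≤ k) :
    Dicol E S k := by
  obtain ⟨c, hcinj, hc⟩ := (Finset.all_card_le_biUnion_card_iff_exists_injective
    (fun i : Fin n => range k \ bad E (S \ T) f k (X i))).mp (by
      intro s
      rcases s.eq_empty_or_nonempty with rfl | ⟨i, hi⟩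
      · simp
      · have h1 : s.card ≤ n := by
          have := Finset.card_le_univ s
          simpa using this
        have h2 : bad E (S \ T) f k (X i) ⊆ range k := Finset.filter_subset _ _
        have h3 : (range k \ bad E (S \ T) f k (X i)).card =
            k - (bad E (S \ T) f k (X i)).card := by
          rw [Finset.card_sdiff_of_subset h2, card_range]
        have h4 := hbad i
        have h5 : (range k \ bad E (S \ T) f k (X i)).card ≤
            (s.biUnion fun i : Fin n => range k \ bad E (S \ T) f k (X i)).card :=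
          Finset.card_le_card (Finset.subset_biUnion_of_mem
            (fun i : Fin n => range k \ bad E (S \ T) f k (X i)) hi)
        omega)
  set C := (univ : Finset (Fin n)).image c with hC
  have hCk : C ⊆ range k := by
    intro x hx
    obtain ⟨i, -, rfl⟩ := Finset.mem_image.mp hx
    exact (Finset.mem_sdiff.mp (hc i)).1
  have hCc : C.card = n := by
    rw [hC, Finset.card_image_of_injective _ hcinj]
    simp
  obtain ⟨g0, hg1, hg2⟩ := inj_into (X := X0) (R := range k \ C) (by
    rw [Finset.card_sdiff_of_subset hCk, hCc, card_range]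
    omega)
  let g : V → ℕ := fun v => if h : ∃ i, v ∈ X i then c (Classical.choose h) else g0 v
  have hgX : ∀ v, (∃ i, v ∈ X i) → ∃ i, v ∈ X i ∧ g v = c i := by
    intro v h
    refine ⟨Classical.choose h, Classical.choose_spec h, ?_⟩
    simp only [g, h, dif_pos]
  have hg0 : ∀ v, (¬ ∃ i, v ∈ X i) → g v = g0 v := by
    intro v h
    simp only [g, h, dif_neg, not_false_iff]
  refine dicol_combine (g := g) hT hf ?_ ?_
  · intro v hv
    by_cases h : ∃ i, v ∈ X i
    · obtain ⟨i, -, hi⟩ := hgX v h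
      rw [hi]
      exact Finset.mem_range.mp (Finset.mem_sdiff.mp (hc i)).1
    · rw [hg0 v h]
      have h1 := hg1 v ((hcov v hv).resolve_right h)
      exact Finset.mem_range.mp (Finset.mem_sdiff.mp h1).1
  · intro d hd
    by_cases hdC : d ∈ C
    · obtain ⟨i, -, rfl⟩ := Finset.mem_image.mp hdC
      have h1 : Acyc E (cls (S \ T) f (c i) ∪ X i) := by
        by_contra hcon
        have h2 := (Finset.mem_sdiff.mp (hc i)).2
        exact h2 (Finset.mem_filter.mpr ⟨Finset.mem_range.mpr hd, hcon⟩)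
      refine h1.mono (Finset.union_subset_union (Finset.Subset.refl _) ?_)
      intro v hv
      rw [mem_cls] at hv
      by_cases h : ∃ i, v ∈ X i
      · obtain ⟨j, hj1, hj2⟩ := hgX v h
        have : j = i := hcinj (hj2.symm.trans hv.2)
        rw [← this]
        exact hj1
      · exfalso
        have h3 := hg1 v ((hcov v hv.1).resolve_right h)
        rw [← hg0 v h, hv.2] at h3
        exact (Finset.mem_sdiff.mp h3).2 hdC
    · have h1 : ∀ v ∈ cls T g d, v ∈ X0 ∧ g0 v = d := by
        intro v hv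
        rw [mem_cls] at hv
        by_cases h : ∃ i, v ∈ X i
        · exfalso
          obtain ⟨j, -, hj2⟩ := hgX v h
          exact hdC (Finset.mem_image.mpr ⟨j, Finset.mem_univ _, hj2.symm.trans hv.2⟩)
        · exact ⟨(hcov v hv.1).resolve_right h, (hg0 v h).symm.trans hv.2⟩
      rcases (cls T g d).eq_empty_or_nonempty with h2 | ⟨x, hx⟩
      · rw [h2, Finset.union_empty]
        exact hf.2 d
      · have h3 : cls (S \ T) f d ∪ cls T g d ⊆ insert x (cls (S \ T) f d) := by
          intro v hv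
          rcases Finset.mem_union.mp hv with h4 | h4
          · exact Finset.mem_insert_of_mem h4
          · have h5 := h1 v h4
            have h6 := h1 x hx
            rw [hg2 v h5.1 x h6.1 (h5.2.trans h6.2.symm)]
            exact Finset.mem_insert_self _ _
        refine (acyc_insert_out irr (hf.2 d) ?_).mono h3
        intro w hw
        exact (no_arcs (hX0 x (h1 x hx).1) (mem_cls.mp hw).1).1

/-- one special class -/
theorem ext1 {S T : Finset V} (irr : ∀ v, ¬ E v v) (hT : T ⊆ S) {k : ℕ} {f : V → ℕ}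
    (hf : IsDicol E (S \ T) k f) (A X0 : Finset V) (hcov : ∀ v ∈ T, v ∈ X0 ∨ v ∈ A)
    (hA : Acyc E A) (hbA : ∑ v ∈ A, (outdeg E (S \ T) v + indeg E (S \ T) v) + 2 ≤ 2 * k)
    (hX0 : ∀ x ∈ X0, outdeg E (S \ T) x + indeg E (S \ T) x = 0) (hn : 1 + X0.card ≤ k) :
    Dicol E S k := by
  refine ext irr hT hf 1 (fun _ => A) X0 (fun v hv => (hcov v hv).imp id fun h => ⟨0, h⟩)
    (fun _ => hA) (fun _ => ?_) hX0 hn
  have := card_bad (k := k) hf hA
  omega

/-- two special classes -/
theorem ext2 {S T : Finset V} (irr : ∀ v, ¬ E v v) (hT : T ⊆ S) {k : ℕ} {f : V → ℕ}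
    (hf : IsDicol E (S \ T) k f) (A B X0 : Finset V) (hcov : ∀ v ∈ T, v ∈ X0 ∨ v ∈ A ∨ v ∈ B)
    (hA : Acyc E A) (hB : Acyc E B)
    (hbA : ∑ v ∈ A, (outdeg E (S \ T) v + indeg E (S \ T) v) + 4 ≤ 2 * k)
    (hbB : ∑ v ∈ B, (outdeg E (S \ T) v + indeg E (S \ T) v) + 4 ≤ 2 * k)
    (hX0 : ∀ x ∈ X0, outdeg E (S \ T) x + indeg E (S \ T) x = 0) (hn : 2 + X0.card ≤ k) :
    Dicol E S k := by
  have h1 := card_bad (k := k) hf hA
  have h2 := card_bad (k := k) hf hB
  refine ext irr hT hf 2 ![A, B] X0 ?_ ?_ ?_ hX0 hn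
  · intro v hv
    rcases hcov v hv with h | h | h
    · exact Or.inl h
    · exact Or.inr ⟨0, by simpa using h⟩
    · exact Or.inr ⟨1, by simpa using h⟩
  · intro i
    fin_cases i
    · simpa using hA
    · simpa using hB
  · intro i
    fin_cases i
    · simp only [Fin.zero_eta, Matrix.cons_val_zero]
      omega
    · simp only [Fin.mk_one, Matrix.cons_val_one]
      simp only [Matrix.cons_val_zero]
      omega

/-- three special classes -/
theorem ext3 {S T : Finset V} (irr : ∀ v, ¬ E v v) (hT : T ⊆ S) {k : ℕ} {f : V → ℕ}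
    (hf : IsDicol E (S \ T) k f) (A B C X0 : Finset V)
    (hcov : ∀ v ∈ T, v ∈ X0 ∨ v ∈ A ∨ v ∈ B ∨ v ∈ C)
    (hA : Acyc E A) (hB : Acyc E B) (hC : Acyc E C)
    (hbA : ∑ v ∈ A, (outdeg E (S \ T) v + indeg E (S \ T) v) + 6 ≤ 2 * k)
    (hbB : ∑ v ∈ B, (outdeg E (S \ T) v + indeg E (S \ T) v) + 6 ≤ 2 * k)
    (hbC : ∑ v ∈ C, (outdeg E (S \ T) v + indeg E (S \ T) v) + 6 ≤ 2 * k)
    (hX0 : ∀ x ∈ X0, outdeg E (S \ T) x + indeg E (S \ T) x = 0) (hn : 3 + X0.card ≤ k) :
    Dicol E S k := by
  have h1 := card_bad (k := k) hf hA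
  have h2 := card_bad (k := k) hf hB
  have h3 := card_bad (k := k) hf hC
  refine ext irr hT hf 3 ![A, B, C] X0 ?_ ?_ ?_ hX0 hn
  · intro v hv
    rcases hcov v hv with h | h | h | h
    · exact Or.inl h
    · exact Or.inr ⟨0, by simpa using h⟩
    · exact Or.inr ⟨1, by simpa using h⟩
    · exact Or.inr ⟨2, by simpa using h⟩
  · intro i
    fin_cases i
    · simpa using hA
    · simpa using hB
    · simpa using hC
  · intro i
    fin_cases i
    · show (bad E (S \ T) f k A).card + 3 ≤ k
      omega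
    · show (bad E (S \ T) f k B).card + 3 ≤ k
      omega
    · show (bad E (S \ T) f k C).card + 3 ≤ k
      omega

/-! ### smallest counterexamples -/

/-- every proper induced subdigraph is dicolourable -/
theorem MinCex.sub {S : Finset V} {k : ℕ} (h : MinCex E S k) {T : Finset V} (hT : T ⊆ S)
    (hne : T.Nonempty) : ∃ f, IsDicol E (S \ T) k f := by
  refine (h.min E (S \ T) h.irr ?_ ?_ ?_ ?_).ex
  · rw [Finset.ssubset_iff_subset_ne]
    refine ⟨Finset.sdiff_subset, ?_⟩
    intro heq
    obtain ⟨x, hx⟩ := hne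
    have h1 : x ∈ S \ T := by
      rw [heq]
      exact hT hx
    exact (Finset.mem_sdiff.mp h1).2 hx
  · intro v hv
    exact ⟨outdeg_mono Finset.sdiff_subset v, indeg_mono Finset.sdiff_subset v⟩
  · intro B hB hBic
    exact h.noK B (hB.trans Finset.sdiff_subset) hBic
  · rintro ⟨a, b, c, X, ha, hb, hc, hX, hH⟩
    exact h.noH ⟨a, b, c, X, Finset.sdiff_subset ha, Finset.sdiff_subset hb,
      Finset.sdiff_subset hc, hX.trans Finset.sdiff_subset, hH⟩

/-- all out-degrees are at least `k` -/
theorem MinCex.outmin {S : Finset V} {k : ℕ} (h : MinCex E S k) {v : V} (hv : v ∈ S) :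
    k ≤ outdeg E S v := by
  by_contra hcon
  push Not at hcon
  have hT : ({v} : Finset V) ⊆ S := Finset.singleton_subset_iff.mpr hv
  obtain ⟨f, hf⟩ := h.sub hT (Finset.singleton_nonempty v)
  have h1 : ((S.filter (fun w => E v w)).image f).card < (range k).card := by
    rw [card_range]
    exact lt_of_le_of_lt Finset.card_image_le hcon
  obtain ⟨c, hc1, hc2⟩ := Finset.exists_mem_notMem_of_card_lt_card h1
  rw [Finset.mem_range] at hc1
  refine h.ncol (dicol_combine (g := fun _ => c) hT hf (fun _ _ => hc1) ?_)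
  intro d hd
  by_cases hdc : d = c
  · subst hdc
    refine (acyc_insert_out h.irr (hf.2 d) (v := v) ?_).mono ?_
    · intro w hw hvw
      rw [mem_cls] at hw
      exact hc2 (Finset.mem_image.mpr ⟨w, Finset.mem_filter.mpr
        ⟨(Finset.mem_sdiff.mp hw.1).1, hvw⟩, hw.2⟩)
    · intro w hw
      rcases Finset.mem_union.mp hw with h2 | h2
      · exact Finset.mem_insert_of_mem h2
      · rw [mem_cls, Finset.mem_singleton] at h2
        rw [h2.1]
        exact Finset.mem_insert_self _ _
  · refine (hf.2 d).mono ?_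
    intro w hw
    rcases Finset.mem_union.mp hw with h2 | h2
    · exact h2
    · rw [mem_cls] at h2
      exact absurd h2.2.symm hdc

/-- all in-degrees are at least `k` -/
theorem MinCex.inmin {S : Finset V} {k : ℕ} (h : MinCex E S k) {v : V} (hv : v ∈ S) :
    k ≤ indeg E S v := by
  by_contra hcon
  push Not at hcon
  have hT : ({v} : Finset V) ⊆ S := Finset.singleton_subset_iff.mpr hv
  obtain ⟨f, hf⟩ := h.sub hT (Finset.singleton_nonempty v)
  have h1 : ((S.filter (fun w => E w v)).image f).card < (range k).card := by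
    rw [card_range]
    exact lt_of_le_of_lt Finset.card_image_le hcon
  obtain ⟨c, hc1, hc2⟩ := Finset.exists_mem_notMem_of_card_lt_card h1
  rw [Finset.mem_range] at hc1
  refine h.ncol (dicol_combine (g := fun _ => c) hT hf (fun _ _ => hc1) ?_)
  intro d hd
  by_cases hdc : d = c
  · subst hdc
    refine (acyc_insert_in h.irr (hf.2 d) (v := v) ?_).mono ?_
    · intro w hw hvw
      rw [mem_cls] at hw
      exact hc2 (Finset.mem_image.mpr ⟨w, Finset.mem_filter.mpr
        ⟨(Finset.mem_sdiff.mp hw.1).1, hvw⟩, hw.2⟩)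
    · intro w hw
      rcases Finset.mem_union.mp hw with h2 | h2
      · exact Finset.mem_insert_of_mem h2
      · rw [mem_cls, Finset.mem_singleton] at h2
        rw [h2.1]
        exact Finset.mem_insert_self _ _
  · refine (hf.2 d).mono ?_
    intro w hw
    rcases Finset.mem_union.mp hw with h2 | h2
    · exact h2
    · rw [mem_cls] at h2
      exact absurd h2.2.symm hdc

/-- the sum of the degrees is at most `2 k + 2` -/
theorem MinCex.dsum {S : Finset V} {k : ℕ} (h : MinCex E S k) (hk : 2 ≤ k) {v : V} (hv : v ∈ S) :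
    outdeg E S v + indeg E S v ≤ 2 * k + 2 := by
  by_contra hcon
  push Not at hcon
  obtain ⟨a, ha⟩ := Nat.exists_eq_add_of_le (h.outmin hv)
  obtain ⟨b, hb⟩ := Nat.exists_eq_add_of_le (h.inmin hv)
  have h1 := h.deg v hv
  rw [ha, hb] at h1 hcon
  have h2 : 3 ≤ a + b := by omega
  nlinarith [Nat.zero_le (a * b), Nat.mul_le_mul_left k h2]

/-- outside arcs: if `m` arcs lead to `T`, at most `2 k + 2 - m` lead outside -/
theorem MinCex.outside {S : Finset V} {k : ℕ} (h : MinCex E S k) (hk : 2 ≤ k) {T : Finset V}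
    (hT : T ⊆ S) {v : V} (hv : v ∈ S) {m : ℕ} (hm : m ≤ outdeg E T v + indeg E T v) :
    outdeg E (S \ T) v + indeg E (S \ T) v + m ≤ 2 * k + 2 := by
  have h1 := h.dsum hk hv
  have h2 := outdeg_split (E := E) hT v
  have h3 := indeg_split (E := E) hT v
  omega

/-- at most `k + 1` digons at a vertex -/
theorem MinCex.dgB {S : Finset V} {k : ℕ} (h : MinCex E S k) (hk : 2 ≤ k) {v : V} (hv : v ∈ S)
    {A : Finset V} (hA : A ⊆ S) (hd : ∀ a ∈ A, Dg E v a) : A.card ≤ k + 1 := by
  have h1 := deg_ge (E := E) (B := ∅) (C := ∅) hA (Finset.empty_subset _) (Finset.empty_subset _)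
    (Finset.disjoint_empty_right _) (Finset.disjoint_empty_right _) hd (by simp) (by simp)
  have h2 := h.dsum hk hv
  simp only [Finset.card_empty] at h1
  omega

/-! ### reversing all arcs -/

theorem outdeg_flip (S : Finset V) (v : V) : outdeg (fun a b => E b a) S v = indeg E S v := rfl

theorem indeg_flip (S : Finset V) (v : V) : indeg (fun a b => E b a) S v = outdeg E S v := rfl

theorem bic_flip {B : Finset V} (h : Bic E B) : Bic (fun a b => E b a) B :=
  fun a ha b hb hab => h b hb a ha hab.symm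

theorem hasH_flip {S : Finset V} {k : ℕ} (h : HasH E S k) : HasH (fun a b => E b a) S k := by
  obtain ⟨a, b, c, X, ha, hb, hc, hX, h1, h2, h3, h4, h5, h6⟩ := h
  exact ⟨c, b, a, X, hc, hb, ha, hX, h1, bic_flip h2, h4, h3, h5, fun x hx =>
    ⟨(h6 x hx).2.2.symm, (h6 x hx).2.1.symm, (h6 x hx).1.symm⟩⟩

theorem isDicol_flip {S : Finset V} {k : ℕ} {f : V → ℕ} (h : IsDicol E S k f) :
    IsDicol (fun a b => E b a) S k f := ⟨h.1, fun c => acyc_flip (h.2 c)⟩

theorem dicol_flip {S : Finset V} {k : ℕ} (h : Dicol E S k) : Dicol (fun a b => E b a) S k := by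
  obtain ⟨f, hf⟩ := h.ex
  exact (isDicol_flip hf).dicol

theorem MinCex.flip {S : Finset V} {k : ℕ} (h : MinCex E S k) : MinCex (fun a b => E b a) S k where
  irr := h.irr
  deg := fun v hv => by
    rw [outdeg_flip, indeg_flip, mul_comm]
    exact h.deg v hv
  noK := fun B hB hBic => h.noK B hB (bic_flip hBic)
  noH := fun hH => h.noH (hasH_flip hH)
  ncol := fun hc => h.ncol (dicol_flip hc)
  min := by
    intro E' S' hirr hS' hdeg hK hH
    refine dicol_flip (E := fun a b => E' b a) (h.min (fun a b => E' b a) S' hirr hS' ?_ ?_ ?_)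
    · intro v hv
      have := hdeg v hv
      rw [outdeg_flip, indeg_flip] at this
      rw [outdeg_flip, indeg_flip]
      exact ⟨this.2, this.1⟩
    · intro B hB hBic
      exact hK B hB (bic_flip hBic)
    · intro hcon
      exact hH (hasH_flip hcon)

theorem NB.flip {S : Finset V} {k : ℕ} {x y : V} {Z : Finset V} (h : NB E S k x y Z) :
    NB (fun a b => E b a) S k y x Z where
  xS := h.yS
  yS := h.xS
  ZS := h.ZS
  xZ := h.yZ
  yZ := h.xZ
  card := h.card
  bic := bic_flip h.bic
  dx := fun z hz => ⟨(h.dy z hz).2, (h.dy z hz).1⟩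
  dy := fun z hz => ⟨(h.dx z hz).2, (h.dx z hz).1⟩
  xy := h.xy
  yx := h.yx

end Pool.Agent.Lib.MP_ee37cd_co.BK
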