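import Pool.Agent.Lib.MP_ee37cd_co.Spec

/-!
# MP_ee37cd_co: module CNT
-/

set_option autoImplicit false

namespace Pool.Agent.Lib.MP_ee37cd_co.BK

open Finset
open scoped Classical

namespace CNT

variable {V : Type} {E : V → V → Prop}

/-- the first end of a near biclique has at most three outside in-neighbours -/
theorem in3 {S : Finset V} {k : ℕ} {x y : V} {Z : Finset V} (hk : 8 ≤ k) (hM : MinCex E S k)
    (hN : NB E S k x y Z) (A : Finset V) (hA : A ⊆ S \ NBK x y Z) (hAx : ∀ a ∈ A, E a x) :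
    A.card ≤ 3 := by
  have hT : NBK x y Z ⊆ S := by
    intro v hv
    rcases mem_NBK.mp hv with rfl | rfl | h
    · exact hN.xS
    · exact hN.yS
    · exact hN.ZS h
  have h1 := deg_ge (E := E) (T := NBK x y Z) (A := Z) (B := {y}) (C := ∅) (v := x)
    (fun v hv => mem_NBK.mpr (Or.inr (Or.inr hv)))
    (Finset.singleton_subset_iff.mpr (mem_NBK.mpr (Or.inr (Or.inl rfl))))
    (Finset.empty_subset _) (Finset.disjoint_singleton_right.mpr hN.yZ)
    (Finset.disjoint_empty_right _) hN.dx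
    (fun b hb => by rw [Finset.mem_singleton] at hb; rw [hb]; exact hN.xy)
    (fun c hc => absurd hc (Finset.notMem_empty _))
  have h2 := hM.outside (by omega) hT hN.xS h1
  have h3 : A.card ≤ indeg E (S \ NBK x y Z) x := by
    refine Finset.card_le_card fun a ha => ?_
    rw [Finset.mem_filter]
    exact ⟨hA ha, hAx a ha⟩
  have h4 := hN.card
  rw [Finset.card_singleton, Finset.card_empty] at h2
  omega

theorem main (hHM : S_HM) (hONE : S_ONE) (hCK : S_CK) (hCH : S_CH) (hTWO : S_TWO)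
    (S : Finset V) (k : ℕ) (x y : V) (Z : Finset V) (p q : V → V)
    (hk : 8 ≤ k) (hM : MinCex E S k) (hN : NB E S k x y Z) (hPQ : PQ E S k x y Z p q)
    (z1 : V) (hz1 : z1 ∈ Z) : p z1 = q z1 := by
  by_contra hne
  obtain ⟨Z1, hZ1, hNB⟩ := hONE V E S k x y Z p q hk hM hN hPQ z1 hz1 hne
  obtain ⟨hp1, hq1, hzp1, hqz1, -, -⟩ := hPQ.1 z1 hz1
  have hTR : NBK (p z1) (q z1) Z1 ⊆ S \ NBK x y Z := by
    intro v hv
    rcases mem_NBK.mp hv with rfl | rfl | h
    · exact hp1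
    · exact hq1
    · exact hZ1 h
  have hRS : S \ NBK x y Z ⊆ S := Finset.sdiff_subset
  have hZR : ∀ z ∈ Z, z ∉ S \ NBK x y Z := fun z hz h =>
    (Finset.mem_sdiff.mp h).2 (mem_NBK.mpr (Or.inr (Or.inr hz)))
  have claim : ∀ z2 ∈ Z, z2 ≠ z1 → p z2 = p z1 ∨ q z2 = q z1 := by
    intro z2 hz2 h21
    by_contra hcon
    rw [not_or] at hcon
    obtain ⟨hu, hg⟩ := hcon
    obtain ⟨hp2, hq2, hzp2, hqz2, -, -⟩ := hPQ.1 z2 hz2
    rcases hTWO V E S k x y Z p q hk hM hN hPQ z1 hz1 z2 hz2 h21.symm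
      (fun h => hne h.1) with ⟨B, hB, hBic, hBc⟩ | hH
    · have h1 := hCK V E S k (p z1) (q z1) Z1 (S \ NBK x y Z) (p z2) (q z2) z1 hk hM hNB hTR hRS
        (hN.ZS hz1) (hZR z1 hz1) hqz1 hp2 hu hg B hB hBic hBc
      have h2 := hCK V (fun a b => E b a) S k (q z1) (p z1) Z1 (S \ NBK x y Z) (q z2) (p z2) z1 hk
        hM.flip hNB.flip (fun v hv => hTR (by
          rcases mem_NBK.mp hv with h | h | h
          · exact mem_NBK.mpr (Or.inr (Or.inl h))
          · exact mem_NBK.mpr (Or.inl h)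
          · exact mem_NBK.mpr (Or.inr (Or.inr h)))) hRS
        (hN.ZS hz1) (hZR z1 hz1) hzp1 hq2 hg hu B hB (by
          intro a ha b hb hab
          rcases hBic b hb a ha hab.symm with (h | ⟨e1, e2, e3⟩) | ⟨e1, e2, e3⟩
          · exact Or.inl (Or.inl h)
          · exact Or.inr ⟨e2, e1, e3.symm⟩
          · exact Or.inl (Or.inr ⟨e2, e1, e3.symm⟩)) hBc
      have h3 : Bic E B := by
        intro a ha b hb hab
        rcases h1 a ha b hb hab with h | ⟨e1, e2, e3⟩
        · exact h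
        · rcases h2 b hb a ha hab.symm with h | ⟨e4, e5, e6⟩
          · exact h
          · exact absurd (e1.symm.trans e5) hg
      have h4 := hM.noK B (hB.trans hRS) h3
      omega
    · have h1 := hCH V E S k (p z1) (q z1) Z1 (S \ NBK x y Z) (p z2) (q z2) z1 hk hM hNB hTR hRS
        (hN.ZS hz1) (hZR z1 hz1) hqz1 hp2 hu hg hH
      refine hHM V E S k (q z2) (p z1) hk hM ?_
      obtain ⟨a, b, c, X, ha, hb, hc, hX, h2, h3, h4, h5, h6, h7⟩ := h1
      have hm : ∀ {s t : V}, addArc E (q z2) (p z1) s t → addDg E (q z2) (p z1) s t :=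
        fun h => Or.inl h
      exact ⟨a, b, c, X, hRS ha, hRS hb, hRS hc, hX.trans hRS, h2,
        fun s hs t ht hst => hm (h3 s hs t ht hst), hm h4, hm h5, hm h6, fun t ht =>
        ⟨⟨hm (h7 t ht).1.1, hm (h7 t ht).1.2⟩, ⟨hm (h7 t ht).2.1.1, hm (h7 t ht).2.1.2⟩,
          ⟨hm (h7 t ht).2.2.1, hm (h7 t ht).2.2.2⟩⟩⟩
  have hout : ∀ z ∈ Z, z ∈ S \ NBK (p z1) (q z1) Z1 := fun z hz =>
    Finset.mem_sdiff.mpr ⟨hN.ZS hz, fun h => hZR z hz (hTR h)⟩
  have c1 : (Z.filter (fun z => p z = p z1)).card ≤ 3 := by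
    refine in3 hk hM hNB _ (fun z hz => hout z (Finset.mem_filter.mp hz).1) ?_
    intro z hz
    obtain ⟨hz, he⟩ := Finset.mem_filter.mp hz
    rw [← he]
    exact (hPQ.1 z hz).2.2.1
  have c2 : (Z.filter (fun z => q z = q z1)).card ≤ 3 := by
    refine in3 (E := fun a b => E b a) hk hM.flip hNB.flip _ (fun z hz => ?_) ?_
    · have h1 := Finset.mem_sdiff.mp (hout z (Finset.mem_filter.mp hz).1)
      refine Finset.mem_sdiff.mpr ⟨h1.1, fun h => h1.2 ?_⟩
      rcases mem_NBK.mp h with h | h | h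
      · exact mem_NBK.mpr (Or.inr (Or.inl h))
      · exact mem_NBK.mpr (Or.inl h)
      · exact mem_NBK.mpr (Or.inr (Or.inr h))
    · intro z hz
      obtain ⟨hz, he⟩ := Finset.mem_filter.mp hz
      change E (q z1) z
      rw [← he]
      exact (hPQ.1 z hz).2.2.2.1
  have c3 : Z ⊆ Z.filter (fun z => p z = p z1) ∪ Z.filter (fun z => q z = q z1) := by
    intro z hz
    rw [Finset.mem_union, Finset.mem_filter, Finset.mem_filter]
    by_cases h : z = z1
    · exact Or.inl ⟨hz, by rw [h]⟩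
    · rcases claim z hz h with h2 | h2
      · exact Or.inl ⟨hz, h2⟩
      · exact Or.inr ⟨hz, h2⟩
  have c4 := (Finset.card_le_card c3).trans (Finset.card_union_le _ _)
  have c5 := hN.card
  omega

end CNT

theorem s_CNT : S_HM → S_ONE → S_CK → S_CH → S_TWO → S_CNT := by
  intro hHM hONE hCK hCH hTWO V E S k x y Z p q hk hM hN hPQ z hz
  exact CNT.main hHM hONE hCK hCH hTWO S k x y Z p q hk hM hN hPQ z hz

end Pool.Agent.Lib.MP_ee37cd_co.BK
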