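import Mathlib

/-!
# MP_ee37cd_co: definitions and basic lemmas

A finite digraph is given by a finite set `S` of vertices of a type `V` and a relation `E` on `V`
without loops: its arcs are the pairs `(a, b)`, `a, b ∈ S`, with `E a b`.
-/

set_option autoImplicit false

namespace Pool.Agent.Lib.MP_ee37cd_co.BK

open Finset
open scoped Classical

variable {V : Type}

/-- The number of out-neighbours of `v` in the digraph with vertex set `S`. -/
noncomputable def outdeg (E : V → V → Prop) (S : Finset V) (v : V) : ℕ :=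
  (S.filter (fun w => E v w)).card

/-- The number of in-neighbours of `v` in the digraph with vertex set `S`. -/
noncomputable def indeg (E : V → V → Prop) (S : Finset V) (v : V) : ℕ :=
  (S.filter (fun w => E w v)).card

/-- The digraph induced on `A` has no directed cycle (no nontrivial closed walk). -/
def Acyc (E : V → V → Prop) (A : Finset V) : Prop :=
  ∀ v, ¬ Relation.TransGen (fun a b => E a b ∧ a ∈ A ∧ b ∈ A) v v

/-- The digraph induced on `S` has a dicolouring with `k` colours. -/
def Dicol (E : V → V → Prop) (S : Finset V) (k : ℕ) : Prop :=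
  ∃ f : V → ℕ, (∀ v ∈ S, f v < k) ∧
    ∀ i : ℕ, ∀ A : Finset V, (∀ v ∈ A, v ∈ S ∧ f v = i) → Acyc E A

/-- Both arcs between `a` and `b` are present. -/
def Dg (E : V → V → Prop) (a b : V) : Prop := E a b ∧ E b a

/-- `B` is a biclique. -/
def Bic (E : V → V → Prop) (B : Finset V) : Prop := ∀ a ∈ B, ∀ b ∈ B, a ≠ b → E a b

/-- `a, b, c` and `X` form a copy of `H_k`: a directed triangle completely joined to a biclique with
`k - 2` vertices. -/
def IsH (E : V → V → Prop) (k : ℕ) (a b c : V) (X : Finset V) : Prop :=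
  X.card + 2 = k ∧ Bic E X ∧ E a b ∧ E b c ∧ E c a ∧ ∀ x ∈ X, Dg E a x ∧ Dg E b x ∧ Dg E c x

/-- The digraph induced on `S` contains `H_k`. -/
def HasH (E : V → V → Prop) (S : Finset V) (k : ℕ) : Prop :=
  ∃ (a b c : V) (X : Finset V), a ∈ S ∧ b ∈ S ∧ c ∈ S ∧ X ⊆ S ∧ IsH E k a b c X

/-- The digraph induced on `S` is a counterexample to the assertion with the parameter `k`. -/
def Bad (E : V → V → Prop) (S : Finset V) (k : ℕ) : Prop :=
  (∀ v ∈ S, Real.sqrt ((outdeg E S v : ℝ) * (indeg E S v : ℝ)) ≤ k) ∧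
    (∀ B ⊆ S, Bic E B → B.card ≤ k - 1) ∧ ¬ HasH E S k ∧ ¬ Dicol E S (k - 1)

/-! ### Auxiliary definitions -/

/-- a colour class -/
noncomputable def cls (S : Finset V) (f : V → ℕ) (c : ℕ) : Finset V := S.filter (fun v => f v = c)

/-- `f` is a dicolouring of the digraph on `S` with the colours `0, ..., k - 1`. -/
def IsDicol (E : V → V → Prop) (S : Finset V) (k : ℕ) (f : V → ℕ) : Prop :=
  (∀ v ∈ S, f v < k) ∧ ∀ c, Acyc E (cls S f c)

/-- A smallest counterexample to the assertion with the parameter `k + 1`: it is a counterexample,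
and no digraph on a proper subset of the vertices (with arbitrary arcs) whose degrees do not exceed
those of the digraph is a counterexample. -/
structure MinCex (E : V → V → Prop) (S : Finset V) (k : ℕ) : Prop where
  irr : ∀ v, ¬ E v v
  deg : ∀ v ∈ S, outdeg E S v * indeg E S v ≤ (k + 1) ^ 2
  noK : ∀ B ⊆ S, Bic E B → B.card ≤ k
  noH : ¬ HasH E S (k + 1)
  ncol : ¬ Dicol E S k
  min : ∀ (E' : V → V → Prop) (S' : Finset V), (∀ v, ¬ E' v v) → S' ⊂ S →
    (∀ v ∈ S', outdeg E' S' v ≤ outdeg E S v ∧ indeg E' S' v ≤ indeg E S v) →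
    (∀ B ⊆ S', Bic E' B → B.card ≤ k) → ¬ HasH E' S' (k + 1) → Dicol E' S' k

/-- `x, y` and `Z` form a biclique on `k + 1` vertices from which the arc `(y, x)` is missing. -/
structure NB (E : V → V → Prop) (S : Finset V) (k : ℕ) (x y : V) (Z : Finset V) : Prop where
  xS : x ∈ S
  yS : y ∈ S
  ZS : Z ⊆ S
  xZ : x ∉ Z
  yZ : y ∉ Z
  card : Z.card + 1 = k
  bic : Bic E Z
  dx : ∀ z ∈ Z, Dg E x z
  dy : ∀ z ∈ Z, Dg E y z
  xy : E x y
  yx : ¬ E y x

/-- the vertex set of the near biclique -/
noncomputable def NBK (x y : V) (Z : Finset V) : Finset V := insert x (insert y Z)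

/-- the digraph with the arc `(p, q)` added (if `p ≠ q`) -/
def addArc (E : V → V → Prop) (p q : V) : V → V → Prop :=
  fun a b => E a b ∨ (a = p ∧ b = q ∧ p ≠ q)

/-- the digraph with the arcs `(p, q)` and `(q, p)` added (if `p ≠ q`) -/
def addDg (E : V → V → Prop) (p q : V) : V → V → Prop := addArc (addArc E p q) q p

/-- the colours `c` which are bad for the set `X`, for the colouring `f` of `R` -/
noncomputable def bad (E : V → V → Prop) (R : Finset V) (f : V → ℕ) (k : ℕ) (X : Finset V) :
    Finset ℕ := (range k).filter (fun c => ¬ Acyc E (cls R f c ∪ X))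

section basic

variable {E : V → V → Prop}

theorem mem_cls {S : Finset V} {f : V → ℕ} {c : ℕ} {v : V} : v ∈ cls S f c ↔ v ∈ S ∧ f v = c := by
  simp [cls]

theorem mem_NBK {x y : V} {Z : Finset V} {v : V} : v ∈ NBK x y Z ↔ v = x ∨ v = y ∨ v ∈ Z := by
  simp [NBK]

theorem Dg.symm {a b : V} (h : Dg E a b) : Dg E b a := ⟨h.2, h.1⟩

theorem Dg.ne (hE : ∀ v, ¬ E v v) {a b : V} (h : Dg E a b) : a ≠ b := by
  rintro rfl
  exact hE _ h.1

theorem Bic.dg {B : Finset V} (h : Bic E B) {a b : V} (ha : a ∈ B) (hb : b ∈ B) (hab : a ≠ b) :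
    Dg E a b := ⟨h a ha b hb hab, h b hb a ha hab.symm⟩

theorem Bic.mono {A B : Finset V} (h : Bic E B) (hAB : A ⊆ B) : Bic E A :=
  fun a ha b hb hab => h a (hAB ha) b (hAB hb) hab

theorem Bic.insert {B : Finset V} (h : Bic E B) {y : V} (hy : ∀ x ∈ B, Dg E y x) :
    Bic E (insert y B) := by
  intro p hp q hq hpq
  rw [Finset.mem_insert] at hp hq
  rcases hp with rfl | hp
  · rcases hq with rfl | hq
    · exact absurd rfl hpq
    · exact (hy q hq).1
  · rcases hq with rfl | hq
    · exact (hy p hp).2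
    · exact h p hp q hq hpq

theorem tg_mono {r p : V → V → Prop} (h : ∀ a b, r a b → p a b) {x y : V}
    (hx : Relation.TransGen r x y) : Relation.TransGen p x y := by
  induction hx with
  | single h1 => exact Relation.TransGen.single (h _ _ h1)
  | tail _ h1 ih => exact ih.tail (h _ _ h1)

theorem Acyc.mono {A B : Finset V} (h : Acyc E B) (hAB : A ⊆ B) : Acyc E A := by
  intro v hv
  exact h v (tg_mono (fun a b ⟨h1, h2, h3⟩ => ⟨h1, hAB h2, hAB h3⟩) hv)

theorem acyc_empty : Acyc E (∅ : Finset V) := by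
  intro v hv
  obtain ⟨b, hb, -⟩ := Relation.TransGen.head'_iff.mp hv
  exact absurd hb.2.1 (Finset.notMem_empty _)

theorem not_acyc_digon {A : Finset V} {a b : V} (ha : a ∈ A) (hb : b ∈ A) (h : Dg E a b) :
    ¬ Acyc E A := by
  intro hA
  exact hA a (Relation.TransGen.tail (Relation.TransGen.single ⟨h.1, ha, hb⟩) ⟨h.2, hb, ha⟩)

theorem not_acyc_tri {A : Finset V} {a b c : V} (ha : a ∈ A) (hb : b ∈ A) (hc : c ∈ A)
    (h1 : E a b) (h2 : E b c) (h3 : E c a) : ¬ Acyc E A := by
  intro hA
  exact hA a (((Relation.TransGen.single ⟨h1, ha, hb⟩).tail ⟨h2, hb, hc⟩).tail ⟨h3, hc, ha⟩)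

/-- A vertex without out-neighbours can be added to an acyclic set. -/
theorem acyc_insert_out (hE : ∀ v, ¬ E v v) {A : Finset V} (hA : Acyc E A) {v : V}
    (hv : ∀ w ∈ A, ¬ E v w) : Acyc E (insert v A) := by
  have key : ∀ x y, Relation.TransGen (fun a b => E a b ∧ a ∈ insert v A ∧ b ∈ insert v A) x y →
      y ≠ v → Relation.TransGen (fun a b => E a b ∧ a ∈ A ∧ b ∈ A) x y := by
    intro x y h
    induction h with
    | single h =>
      rename_i y
      intro hy
      have h1 : y ∈ A := (Finset.mem_insert.mp h.2.2).resolve_left hy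
      have h2 : x ∈ A := by
        refine (Finset.mem_insert.mp h.2.1).resolve_left ?_
        rintro rfl
        exact hv _ h1 h.1
      exact Relation.TransGen.single ⟨h.1, h2, h1⟩
    | tail h' h ih =>
      rename_i b y
      intro hy
      have h1 : y ∈ A := (Finset.mem_insert.mp h.2.2).resolve_left hy
      have hb : b ≠ v := by
        rintro rfl
        exact hv _ h1 h.1
      have h2 : b ∈ A := (Finset.mem_insert.mp h.2.1).resolve_left hb
      exact (ih hb).tail ⟨h.1, h2, h1⟩
  intro x hx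
  by_cases hxv : x = v
  · subst hxv
    obtain ⟨b, hb, -⟩ := Relation.TransGen.head'_iff.mp hx
    rcases Finset.mem_insert.mp hb.2.2 with h | h
    · exact hE _ (h ▸ hb.1)
    · exact hv _ h hb.1
  · exact hA x (key x x hx hxv)

theorem acyc_flip {A : Finset V} (h : Acyc E A) : Acyc (fun a b => E b a) A := by
  intro x hx
  refine h x ?_
  rw [← Relation.transGen_swap] at hx
  exact tg_mono (fun a b ⟨h1, h2, h3⟩ => ⟨h1, h3, h2⟩) hx

/-- A vertex without in-neighbours can be added to an acyclic set. -/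
theorem acyc_insert_in (hE : ∀ v, ¬ E v v) {A : Finset V} (hA : Acyc E A) {v : V}
    (hv : ∀ w ∈ A, ¬ E w v) : Acyc E (insert v A) := by
  have h2 := acyc_insert_out (E := fun a b => E b a) hE (acyc_flip hA) hv
  exact acyc_flip h2

theorem acyc_single (hE : ∀ v, ¬ E v v) (v : V) : Acyc E {v} := by
  have h := acyc_insert_out (E := E) hE (A := ∅) acyc_empty (v := v) (by simp)
  simpa using h

theorem acyc_pair (hE : ∀ v, ¬ E v v) {a b : V} (h : ¬ Dg E a b) : Acyc E {a, b} := by
  by_cases h1 : E a b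
  · have h2 : ¬ E b a := fun h3 => h ⟨h1, h3⟩
    have h3 := acyc_insert_in (E := E) hE (acyc_single hE b) (v := a) (by simpa using h2)
    exact h3
  · exact acyc_insert_out (E := E) hE (acyc_single hE b) (v := a) (by simpa using h1)

/-- a cyclic union of two acyclic sets has arcs in both directions -/
theorem acyc_union_noout {A B : Finset V} (hA : Acyc E A) (hB : Acyc E B)
    (h : ∀ b ∈ B, ∀ a ∈ A, ¬ E b a) : Acyc E (A ∪ B) := by
  have key1 : ∀ x y, Relation.TransGen (fun a b => E a b ∧ a ∈ A ∪ B ∧ b ∈ A ∪ B) x y →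
      x ∈ B → Relation.TransGen (fun a b => E a b ∧ a ∈ B ∧ b ∈ B) x y ∧ y ∈ B := by
    intro x y hxy
    induction hxy with
    | single h1 =>
      rename_i y
      intro hx
      rcases Finset.mem_union.mp h1.2.2 with hy | hy
      · exact absurd h1.1 (h _ hx _ hy)
      · exact ⟨Relation.TransGen.single ⟨h1.1, hx, hy⟩, hy⟩
    | tail h' h1 ih =>
      rename_i b y
      intro hx
      obtain ⟨h2, hb⟩ := ih hx
      rcases Finset.mem_union.mp h1.2.2 with hy | hy
      · exact absurd h1.1 (h _ hb _ hy)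
      · exact ⟨h2.tail ⟨h1.1, hb, hy⟩, hy⟩
  have key2 : ∀ x y, Relation.TransGen (fun a b => E a b ∧ a ∈ A ∪ B ∧ b ∈ A ∪ B) x y →
      y ∈ A → Relation.TransGen (fun a b => E a b ∧ a ∈ A ∧ b ∈ A) x y := by
    intro x y hxy
    induction hxy with
    | single h1 =>
      rename_i y
      intro hy
      rcases Finset.mem_union.mp h1.2.1 with hx | hx
      · exact Relation.TransGen.single ⟨h1.1, hx, hy⟩
      · exact absurd h1.1 (h _ hx _ hy)
    | tail h' h1 ih =>
      rename_i b y
      intro hy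
      have hbA : b ∈ A := by
        rcases Finset.mem_union.mp h1.2.1 with hb | hb
        · exact hb
        · exact absurd h1.1 (h _ hb _ hy)
      exact (ih hbA).tail ⟨h1.1, hbA, hy⟩
  intro v hv
  obtain ⟨b, hb, -⟩ := Relation.TransGen.head'_iff.mp hv
  rcases Finset.mem_union.mp hb.2.1 with hvA | hvB
  · exact hA v (key2 v v hv hvA)
  · exact hB v (key1 v v hv hvB).1

/-! ### degrees -/

theorem outdeg_split {S T : Finset V} (h : T ⊆ S) (v : V) :
    outdeg E S v = outdeg E T v + outdeg E (S \ T) v := by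
  unfold outdeg
  rw [← Finset.card_union_of_disjoint]
  · congr 1
    ext w
    simp only [Finset.mem_filter, Finset.mem_union, Finset.mem_sdiff]
    constructor
    · rintro ⟨h1, h2⟩
      by_cases h3 : w ∈ T
      · exact Or.inl ⟨h3, h2⟩
      · exact Or.inr ⟨⟨h1, h3⟩, h2⟩
    · rintro (⟨h1, h2⟩ | ⟨⟨h1, -⟩, h2⟩)
      · exact ⟨h h1, h2⟩
      · exact ⟨h1, h2⟩
  · rw [Finset.disjoint_left]
    intro w hw hw2
    simp only [Finset.mem_filter, Finset.mem_sdiff] at hw hw2
    exact hw2.1.2 hw.1

theorem indeg_split {S T : Finset V} (h : T ⊆ S) (v : V) :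
    indeg E S v = indeg E T v + indeg E (S \ T) v :=
  outdeg_split (E := fun a b => E b a) h v

theorem outdeg_mono {S T : Finset V} (h : T ⊆ S) (v : V) : outdeg E T v ≤ outdeg E S v :=
  Finset.card_le_card (Finset.filter_subset_filter _ h)

theorem indeg_mono {S T : Finset V} (h : T ⊆ S) (v : V) : indeg E T v ≤ indeg E S v :=
  Finset.card_le_card (Finset.filter_subset_filter _ h)

/-- Arcs between `v` and three subsets of `T`: both arcs to `A`, arcs to `B`, arcs from `C`. -/
theorem deg_ge {T A B C : Finset V} {v : V} (hA : A ⊆ T) (hB : B ⊆ T) (hC : C ⊆ T)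
    (hAB : Disjoint A B) (hAC : Disjoint A C) (h1 : ∀ a ∈ A, Dg E v a) (h2 : ∀ b ∈ B, E v b)
    (h3 : ∀ c ∈ C, E c v) : 2 * A.card + B.card + C.card ≤ outdeg E T v + indeg E T v := by
  have h4 : A.card + B.card ≤ outdeg E T v := by
    rw [← Finset.card_union_of_disjoint hAB]
    refine Finset.card_le_card ?_
    intro w hw
    rw [Finset.mem_filter]
    rcases Finset.mem_union.mp hw with h | h
    · exact ⟨hA h, (h1 w h).1⟩
    · exact ⟨hB h, h2 w h⟩
  have h5 : A.card + C.card ≤ indeg E T v := by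
    rw [← Finset.card_union_of_disjoint hAC]
    refine Finset.card_le_card ?_
    intro w hw
    rw [Finset.mem_filter]
    rcases Finset.mem_union.mp hw with h | h
    · exact ⟨hA h, (h1 w h).2⟩
    · exact ⟨hC h, h3 w h⟩
  omega

/-- a vertex without outside arcs -/
theorem no_arcs {R : Finset V} {v : V} (h : outdeg E R v + indeg E R v = 0) {w : V} (hw : w ∈ R) :
    ¬ E v w ∧ ¬ E w v := by
  have h1 : outdeg E R v = 0 := by omega
  have h2 : indeg E R v = 0 := by omega
  unfold outdeg at h1
  unfold indeg at h2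
  rw [Finset.card_eq_zero, Finset.filter_eq_empty_iff] at h1 h2
  exact ⟨h1 hw, h2 hw⟩

/-! ### dicolourings -/

theorem IsDicol.dicol {S : Finset V} {k : ℕ} {f : V → ℕ} (h : IsDicol E S k f) : Dicol E S k :=
  ⟨f, h.1, fun i A hA => (h.2 i).mono fun v hv => mem_cls.mpr (hA v hv)⟩

theorem Dicol.ex {S : Finset V} {k : ℕ} (h : Dicol E S k) : ∃ f, IsDicol E S k f := by
  obtain ⟨f, h1, h2⟩ := h
  exact ⟨f, h1, fun c => h2 c _ fun v hv => mem_cls.mp hv⟩

theorem IsDicol.mono {S T : Finset V} {k : ℕ} {f : V → ℕ} (h : IsDicol E T k f) (hST : S ⊆ T) :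
    IsDicol E S k f :=
  ⟨fun v hv => h.1 v (hST hv), fun c => (h.2 c).mono fun v hv =>
    mem_cls.mpr ⟨hST (mem_cls.mp hv).1, (mem_cls.mp hv).2⟩⟩

theorem IsDicol.dg {S : Finset V} {k : ℕ} {f : V → ℕ} (h : IsDicol E S k f) {a b : V}
    (ha : a ∈ S) (hb : b ∈ S) (hab : Dg E a b) : f a ≠ f b := by
  intro h1
  exact not_acyc_digon (A := cls S f (f a)) (mem_cls.mpr ⟨ha, rfl⟩) (mem_cls.mpr ⟨hb, h1.symm⟩)
    hab (h.2 _)

/-- Combining a colouring `f` of `S \ T` with a colouring `g` of `T`. -/
theorem dicol_combine {S T : Finset V} (hT : T ⊆ S) {k : ℕ} {f g : V → ℕ}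
    (hf : IsDicol E (S \ T) k f) (hg : ∀ v ∈ T, g v < k)
    (h : ∀ c < k, Acyc E (cls (S \ T) f c ∪ cls T g c)) : Dicol E S k := by
  refine IsDicol.dicol (f := fun v => if v ∈ T then g v else f v) ⟨?_, ?_⟩
  · intro v hv
    by_cases h1 : v ∈ T
    · simp only [h1, if_true]
      exact hg v h1
    · simp only [h1, if_false]
      exact hf.1 v (Finset.mem_sdiff.mpr ⟨hv, h1⟩)
  · intro c
    by_cases hc : c < k
    · refine (h c hc).mono ?_
      intro v hv
      rw [mem_cls] at hv
      rw [Finset.mem_union, mem_cls, mem_cls, Finset.mem_sdiff]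
      by_cases h1 : v ∈ T
      · right
        simp only [h1, if_true] at hv
        exact ⟨h1, hv.2⟩
      · left
        simp only [h1, if_false] at hv
        exact ⟨⟨hv.1, h1⟩, hv.2⟩
    · have h2 : cls S (fun v => if v ∈ T then g v else f v) c = ∅ := by
        rw [Finset.eq_empty_iff_forall_notMem]
        intro v hv
        rw [mem_cls] at hv
        by_cases h1 : v ∈ T
        · simp only [h1, if_true] at hv
          have := hg v h1
          omega
        · simp only [h1, if_false] at hv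
          have := hf.1 v (Finset.mem_sdiff.mpr ⟨hv.1, h1⟩)
          omega
      rw [h2]
      exact acyc_empty

/-- The number of bad colours of an acyclic set is at most half the number of its outside arcs. -/
theorem card_bad {R X : Finset V} {f : V → ℕ} {k : ℕ} (hf : IsDicol E R k f) (hX : Acyc E X) :
    2 * (bad E R f k X).card ≤ ∑ v ∈ X, (outdeg E R v + indeg E R v) := by
  have h1 : (bad E R f k X).card ≤ ∑ v ∈ X, outdeg E R v := by
    have hsub : bad E R f k X ⊆ X.biUnion (fun v => (R.filter (fun w => E v w)).image f) := by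
      intro c hc
      rw [bad, Finset.mem_filter] at hc
      by_contra hcon
      apply hc.2
      refine acyc_union_noout (hf.2 c) hX ?_
      intro b hb a ha hba
      apply hcon
      rw [mem_cls] at ha
      rw [Finset.mem_biUnion]
      refine ⟨b, hb, Finset.mem_image.mpr ⟨a, ?_, ha.2⟩⟩
      rw [Finset.mem_filter]
      exact ⟨ha.1, hba⟩
    refine (Finset.card_le_card hsub).trans (Finset.card_biUnion_le.trans ?_)
    exact Finset.sum_le_sum fun v _ => Finset.card_image_le
  have h2 : (bad E R f k X).card ≤ ∑ v ∈ X, indeg E R v := by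
    have hsub : bad E R f k X ⊆ X.biUnion (fun v => (R.filter (fun w => E w v)).image f) := by
      intro c hc
      rw [bad, Finset.mem_filter] at hc
      by_contra hcon
      apply hc.2
      rw [Finset.union_comm]
      refine acyc_union_noout hX (hf.2 c) ?_
      intro b hb a ha hba
      apply hcon
      rw [mem_cls] at hb
      rw [Finset.mem_biUnion]
      refine ⟨a, ha, Finset.mem_image.mpr ⟨b, ?_, hb.2⟩⟩
      rw [Finset.mem_filter]
      exact ⟨hb.1, hba⟩
    refine (Finset.card_le_card hsub).trans (Finset.card_biUnion_le.trans ?_)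
    exact Finset.sum_le_sum fun v _ => Finset.card_image_le
  rw [Finset.sum_add_distrib]
  omega

end basic

end Pool.Agent.Lib.MP_ee37cd_co.BK
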