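import Pool.Agent.Lib.MP_ee37cd_co.Spec

/-!
# MP_ee37cd_co: HM1
-/

set_option autoImplicit false

namespace Pool.Agent.Lib.MP_ee37cd_co.BK

open Finset
open scoped Classical

namespace HM1

variable {V : Type} {E : V → V → Prop}

private theorem triv {S : Finset V} {k : ℕ} (hM : MinCex E S k) (hk : 8 ≤ k) {T Y : Finset V}
    (hT : T ⊆ S) {v s t : V} (hv : v ∈ S) (hY : Y ⊆ T) (hYc : Y.card + 1 = k)
    (hd : ∀ y ∈ Y, Dg E v y) (hs : s ∈ T) (ht : t ∈ T) (hsY : s ∉ Y) (htY : t ∉ Y)
    (h1 : E v s) (h2 : E t v) : outdeg E (S \ T) v + indeg E (S \ T) v ≤ 2 := by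
  have h3 := deg_ge (E := E) (T := T) (A := Y) (B := {s}) (C := {t}) (v := v) hY
    (Finset.singleton_subset_iff.mpr hs) (Finset.singleton_subset_iff.mpr ht)
    (Finset.disjoint_singleton_right.mpr hsY) (Finset.disjoint_singleton_right.mpr htY) hd
    (by simpa using h1) (by simpa using h2)
  rw [Finset.card_singleton, Finset.card_singleton] at h3
  have h4 := hM.outside (by omega) hT hv h3
  omega

private theorem full {S : Finset V} {k : ℕ} (hM : MinCex E S k) (hk : 8 ≤ k) {T Y : Finset V}
    (hT : T ⊆ S) {v : V} (hv : v ∈ S) (hY : Y ⊆ T) (hd : ∀ y ∈ Y, Dg E v y) :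
    outdeg E (S \ T) v + indeg E (S \ T) v + 2 * Y.card ≤ 2 * k + 2 := by
  have h3 := deg_ge (E := E) (T := T) (A := Y) (B := ∅) (C := ∅) (v := v) hY
    (Finset.empty_subset _) (Finset.empty_subset _)
    (Finset.disjoint_empty_right _) (Finset.disjoint_empty_right _) hd
    (by simp) (by simp)
  rw [Finset.card_empty] at h3
  have h4 := hM.outside (by omega) hT hv h3
  omega

private theorem core {S : Finset V} {k : ℕ} {a b c p q : V} {X0 : Finset V} (hk : 8 ≤ k)
    (hM : MinCex E S k) (ha : a ∈ S) (hb : b ∈ S) (hc : c ∈ S) (hp : p ∈ S) (hq : q ∈ S)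
    (hX : X0 ⊆ S) (hXc : X0.card + 3 = k) (hBic : Bic E X0) (hab : E a b) (hbc : E b c)
    (hca : E c a) (hpq : p ≠ q) (hnd : ¬ Dg E p q)
    (hx : ∀ x ∈ X0, Dg E a x ∧ Dg E b x ∧ Dg E c x ∧ Dg E p x ∧ Dg E q x)
    (hap : Dg E a p) (hbp : Dg E b p) (hcp : Dg E c p) (haq : Dg E a q) (hbq : Dg E b q)
    (hcq : Dg E c q) (hba : ¬ E b a) : False := by
  have irr := hM.irr
  have nab : a ≠ b := by
    rintro rfl
    exact irr _ hab
  have nbc : b ≠ c := by
    rintro rfl
    exact irr _ hbc
  have nca : c ≠ a := by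
    rintro rfl
    exact irr _ hca
  have nap := hap.ne irr
  have nbp := hbp.ne irr
  have ncp := hcp.ne irr
  have naq := haq.ne irr
  have nbq := hbq.ne irr
  have ncq := hcq.ne irr
  have aX : a ∉ X0 := fun h => (hx a h).1.ne irr rfl
  have bX : b ∉ X0 := fun h => (hx b h).2.1.ne irr rfl
  have cX : c ∉ X0 := fun h => (hx c h).2.2.1.ne irr rfl
  have pX : p ∉ X0 := fun h => (hx p h).2.2.2.1.ne irr rfl
  have qX : q ∉ X0 := fun h => (hx q h).2.2.2.2.ne irr rfl
  obtain ⟨T, hTdef⟩ : ∃ T : Finset V, T = insert a (insert b (insert c (insert p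
    (insert q X0)))) := ⟨_, rfl⟩
  have hmem : ∀ v, v ∈ T ↔ v = a ∨ v = b ∨ v = c ∨ v = p ∨ v = q ∨ v ∈ X0 := by
    intro v
    rw [hTdef]
    simp only [Finset.mem_insert]
  have hTS : T ⊆ S := by
    intro v hv
    rcases (hmem v).1 hv with rfl | rfl | rfl | rfl | rfl | h
    · exact ha
    · exact hb
    · exact hc
    · exact hp
    · exact hq
    · exact hX h
  have hTne : T.Nonempty := ⟨a, (hmem a).2 (Or.inl rfl)⟩
  obtain ⟨f, hf⟩ := hM.sub hTS hTne
  have aT : a ∈ T := (hmem a).2 (by simp)
  have bT : b ∈ T := (hmem b).2 (by simp)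
  have cT : c ∈ T := (hmem c).2 (by simp)
  -- the set of the digon neighbours of `a, b, c`
  obtain ⟨Y, hYdef⟩ : ∃ Y : Finset V, Y = insert p (insert q X0) := ⟨_, rfl⟩
  have hYmem : ∀ v, v ∈ Y ↔ v = p ∨ v = q ∨ v ∈ X0 := by
    intro v
    rw [hYdef]
    simp only [Finset.mem_insert]
  have hYT : Y ⊆ T := by
    intro v hv
    rw [hmem]
    rcases (hYmem v).1 hv with h | h | h <;> simp [h]
  have hYc : Y.card + 1 = k := by
    rw [hYdef, Finset.card_insert_of_notMem, Finset.card_insert_of_notMem qX]
    · omega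
    · rw [Finset.mem_insert, not_or]
      exact ⟨hpq, pX⟩
  have aY : a ∉ Y := by
    rw [hYmem]
    simp only [not_or]
    exact ⟨nap, naq, aX⟩
  have bY : b ∉ Y := by
    rw [hYmem]
    simp only [not_or]
    exact ⟨nbp, nbq, bX⟩
  have cY : c ∉ Y := by
    rw [hYmem]
    simp only [not_or]
    exact ⟨ncp, ncq, cX⟩
  have oa := triv hM hk hTS ha hYT hYc (fun y hy => by
    rcases (hYmem y).1 hy with rfl | rfl | h
    · exact hap
    · exact haq
    · exact (hx y h).1) bT cT bY cY hab hca
  have ob := triv hM hk hTS hb hYT hYc (fun y hy => by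
    rcases (hYmem y).1 hy with rfl | rfl | h
    · exact hbp
    · exact hbq
    · exact (hx y h).2.1) cT aT cY aY hbc hab
  have oc := triv hM hk hTS hc hYT hYc (fun y hy => by
    rcases (hYmem y).1 hy with rfl | rfl | h
    · exact hcp
    · exact hcq
    · exact (hx y h).2.2.1) aT bT aY bY hca hbc
  -- the digon neighbours of `p, q`
  obtain ⟨W, hWdef⟩ : ∃ W : Finset V, W = insert a (insert b (insert c X0)) := ⟨_, rfl⟩
  have hWmem : ∀ v, v ∈ W ↔ v = a ∨ v = b ∨ v = c ∨ v ∈ X0 := by
    intro v
    rw [hWdef]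
    simp only [Finset.mem_insert]
  have hWT : W ⊆ T := by
    intro v hv
    rw [hmem]
    rcases (hWmem v).1 hv with h | h | h | h <;> simp [h]
  have hWc : W.card = k := by
    rw [hWdef, Finset.card_insert_of_notMem, Finset.card_insert_of_notMem,
      Finset.card_insert_of_notMem cX]
    · omega
    · rw [Finset.mem_insert, not_or]
      exact ⟨nbc, bX⟩
    · rw [Finset.mem_insert, Finset.mem_insert, not_or, not_or]
      exact ⟨nab, nca.symm, aX⟩
  have op := full hM hk hTS hp hWT (fun y hy => by
    rcases (hWmem y).1 hy with rfl | rfl | rfl | h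
    · exact hap.symm
    · exact hbp.symm
    · exact hcp.symm
    · exact (hx y h).2.2.2.1)
  have oq := full hM hk hTS hq hWT (fun y hy => by
    rcases (hWmem y).1 hy with rfl | rfl | rfl | h
    · exact haq.symm
    · exact hbq.symm
    · exact hcq.symm
    · exact (hx y h).2.2.2.2)
  rw [hWc] at op oq
  have ox : ∀ x ∈ X0, outdeg E (S \ T) x + indeg E (S \ T) x = 0 := by
    intro x hxX
    obtain ⟨U, hUdef⟩ : ∃ U : Finset V, U = insert a (insert b (insert c (insert p
      (insert q (X0.erase x))))) := ⟨_, rfl⟩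
    have hUmem : ∀ v, v ∈ U ↔ v = a ∨ v = b ∨ v = c ∨ v = p ∨ v = q ∨ (v ≠ x ∧ v ∈ X0) := by
      intro v
      rw [hUdef]
      simp only [Finset.mem_insert, Finset.mem_erase]
    have hUT : U ⊆ T := by
      intro v hv
      rw [hmem]
      rcases (hUmem v).1 hv with h | h | h | h | h | h <;> simp [h]
    have hUc : U.card = k + 1 := by
      rw [hUdef, Finset.card_insert_of_notMem, Finset.card_insert_of_notMem,
        Finset.card_insert_of_notMem, Finset.card_insert_of_notMem,
        Finset.card_insert_of_notMem, Finset.card_erase_of_mem hxX]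
      · have : 0 < X0.card := Finset.card_pos.mpr ⟨x, hxX⟩
        omega
      · exact fun h => qX (Finset.mem_of_mem_erase h)
      · rw [Finset.mem_insert, not_or]
        exact ⟨hpq, fun h => pX (Finset.mem_of_mem_erase h)⟩
      · simp only [Finset.mem_insert, not_or]
        exact ⟨ncp, ncq, fun h => cX (Finset.mem_of_mem_erase h)⟩
      · simp only [Finset.mem_insert, not_or]
        exact ⟨nbc, nbp, nbq, fun h => bX (Finset.mem_of_mem_erase h)⟩
      · simp only [Finset.mem_insert, not_or]
        exact ⟨nab, nca.symm, nap, naq, fun h => aX (Finset.mem_of_mem_erase h)⟩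
    have h := full hM hk hTS (hX hxX) hUT (fun y hy => by
      obtain ⟨x1, x2, x3, x4, x5⟩ := hx x hxX
      rcases (hUmem y).1 hy with rfl | rfl | rfl | rfl | rfl | h
      · exact x1.symm
      · exact x2.symm
      · exact x3.symm
      · exact x4.symm
      · exact x5.symm
      · exact hBic.dg hxX h.2 h.1.symm)
    rw [hUc] at h
    omega
  refine hM.ncol (ext3 irr hTS hf {a, b} {p, q} {c} X0 ?_ ?_ ?_ ?_ ?_ ?_ ?_ ox (by omega))
  · intro v hv
    rcases (hmem v).1 hv with h | h | h | h | h | h <;> simp [h]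
  · exact acyc_pair irr (fun h => hba h.2)
  · exact acyc_pair irr hnd
  · exact acyc_single irr c
  · rw [Finset.sum_pair nab]
    omega
  · rw [Finset.sum_pair hpq]
    omega
  · rw [Finset.sum_singleton]
    omega

end HM1

open HM1 in
theorem s_HM1 : S_HM1 := by
  intro V E S k a b c p q X0 hk hM ha hb hc hp hq hX hXc hBic hab hbc hca hpq hnd hx hap hbp hcp
    haq hbq hcq
  have irr := hM.irr
  by_cases h1 : E b a
  · by_cases h2 : E c b
    · by_cases h3 : E a c
      · have hx1 : Bic E (insert p X0) := hBic.insert (fun x hxx => (hx x hxx).2.2.2.1)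
        have hx2 : Bic E (insert c (insert p X0)) := hx1.insert (fun x hxx => by
          rcases Finset.mem_insert.mp hxx with rfl | h
          · exact hcp
          · exact (hx x h).2.2.1)
        have hx3 : Bic E (insert b (insert c (insert p X0))) := hx2.insert (fun x hxx => by
          rcases Finset.mem_insert.mp hxx with rfl | hxx
          · exact ⟨hbc, h2⟩
          rcases Finset.mem_insert.mp hxx with rfl | h
          · exact hbp
          · exact (hx x h).2.1)
        have hx4 : Bic E (insert a (insert b (insert c (insert p X0)))) :=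
          hx3.insert (fun x hxx => by
          rcases Finset.mem_insert.mp hxx with rfl | hxx
          · exact ⟨hab, h1⟩
          rcases Finset.mem_insert.mp hxx with rfl | hxx
          · exact ⟨h3, hca⟩
          rcases Finset.mem_insert.mp hxx with rfl | h
          · exact hap
          · exact (hx x h).1)
        have hsub : insert a (insert b (insert c (insert p X0))) ⊆ S := by
          intro v hv
          simp only [Finset.mem_insert] at hv
          rcases hv with rfl | rfl | rfl | rfl | h
          · exact ha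
          · exact hb
          · exact hc
          · exact hp
          · exact hX h
        have hcard := hM.noK _ hsub hx4
        have pX : p ∉ X0 := fun h => (hx p h).2.2.2.1.ne irr rfl
        have cX : c ∉ X0 := fun h => (hx c h).2.2.1.ne irr rfl
        have bX : b ∉ X0 := fun h => (hx b h).2.1.ne irr rfl
        have aX : a ∉ X0 := fun h => (hx a h).1.ne irr rfl
        have nab : a ≠ b := by
          rintro rfl
          exact irr _ hab
        have nbc : b ≠ c := by
          rintro rfl
          exact irr _ hbc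
        have nca : c ≠ a := by
          rintro rfl
          exact irr _ hca
        rw [Finset.card_insert_of_notMem, Finset.card_insert_of_notMem,
          Finset.card_insert_of_notMem, Finset.card_insert_of_notMem pX] at hcard
        · omega
        · simp only [Finset.mem_insert, not_or]
          exact ⟨hcp.ne irr, cX⟩
        · simp only [Finset.mem_insert, not_or]
          exact ⟨nbc, hbp.ne irr, bX⟩
        · simp only [Finset.mem_insert, not_or]
          exact ⟨nab, nca.symm, hap.ne irr, aX⟩
      · exact core hk hM hc ha hb hp hq hX hXc hBic hca hab hbc hpq hnd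
          (fun x hxx => ⟨(hx x hxx).2.2.1, (hx x hxx).1, (hx x hxx).2.1, (hx x hxx).2.2.2⟩)
          hcp hap hbp hcq haq hbq h3
    · exact core hk hM hb hc ha hp hq hX hXc hBic hbc hca hab hpq hnd
        (fun x hxx => ⟨(hx x hxx).2.1, (hx x hxx).2.2.1, (hx x hxx).1, (hx x hxx).2.2.2⟩)
        hbp hcp hap hbq hcq haq h2
  · exact core hk hM ha hb hc hp hq hX hXc hBic hab hbc hca hpq hnd hx hap hbp hcp haq hbq hcq h1

end Pool.Agent.Lib.MP_ee37cd_co.BK
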