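import Mathlib

/-!
# MP_ee37cd_co: the abstract local lemma, definitions and toolkit

`K` is a finite set with `k + 1` elements, ordered by `r`; `dg` is a symmetric relation (digons), a
pair of distinct elements which is not a digon is called simple. `O v`, `I v` are sets of colours
(`< k`), and `P c u v` is a relation with `P c u v → c ∈ O u ∧ c ∈ I v` (there is a path of colour
`c` from an outside out-neighbour of `u` to an outside in-neighbour of `v`).
-/

set_option autoImplicit false

namespace Pool.Agent.Lib.MP_ee37cd_co.LL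

open Finset
open scoped Classical

variable {V : Type}

/-- the number of simple pairs at `v` -/
noncomputable def sd (K : Finset V) (dg : V → V → Prop) (v : V) : ℕ :=
  (K.filter (fun u => u ≠ v ∧ ¬ dg v u)).card

/-- the vertices joined to `v` by digons -/
noncomputable def nd (K : Finset V) (dg : V → V → Prop) (v : V) : Finset V :=
  K.filter (fun u => u ≠ v ∧ dg v u)

/-- the hypotheses of the local lemma -/
structure Loc (K : Finset V) (r : V → ℕ) (dg : V → V → Prop) (P : ℕ → V → V → Prop)
    (O I : V → Finset ℕ) (k : ℕ) : Prop where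
  hk : 8 ≤ k
  card : K.card = k + 1
  inj : ∀ a ∈ K, ∀ b ∈ K, r a = r b → a = b
  symm : ∀ a b, dg a b → dg b a
  O_lt : ∀ v ∈ K, O v ⊆ range k
  I_lt : ∀ v ∈ K, I v ⊆ range k
  PO : ∀ c, ∀ u ∈ K, ∀ v ∈ K, P c u v → c ∈ O u ∧ c ∈ I v
  deg : ∀ v ∈ K, (O v).card + (I v).card ≤ 2 + sd K dg v

/-- `f` is a valid colouring of `A`: the classes have only simple pairs, and there is no relation
`P (f u) u v` from `u` to a vertex `v` of the same class which is not later than `u`. -/
def Val (r : V → ℕ) (dg : V → V → Prop) (P : ℕ → V → V → Prop) (k : ℕ) (A : Finset V)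
    (f : V → ℕ) : Prop :=
  (∀ v ∈ A, f v < k) ∧ (∀ u ∈ A, ∀ v ∈ A, u ≠ v → f u = f v → ¬ dg u v) ∧
    ∀ u ∈ A, ∀ v ∈ A, f u = f v → r v ≤ r u → ¬ P (f u) u v

/-- the bad colours of a single vertex -/
noncomputable def F (P : ℕ → V → V → Prop) (k : ℕ) (v : V) : Finset ℕ :=
  (range k).filter (fun c => P c v v)

/-- the good colours of a pair -/
noncomputable def G (r : V → ℕ) (P : ℕ → V → V → Prop) (k : ℕ) (u v : V) : Finset ℕ :=
  (range k).filter (fun c => ¬ P c u u ∧ ¬ P c v v ∧ (r v ≤ r u → ¬ P c u v) ∧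
    (r u ≤ r v → ¬ P c v u))

/-- normal vertices -/
def Lo (K : Finset V) (dg : V → V → Prop) (O I : V → Finset ℕ) (v : V) : Prop :=
  sd K dg v ≤ (O v ∪ I v).card

/-- the vertices which are not normal: they can always be coloured last -/
noncomputable def Hi (K : Finset V) (dg : V → V → Prop) (O I : V → Finset ℕ) : Finset V :=
  K.filter (fun v => ¬ Lo K dg O I v)

variable {K : Finset V} {r : V → ℕ} {dg : V → V → Prop} {P : ℕ → V → V → Prop}
  {O I : V → Finset ℕ} {k : ℕ}

theorem mem_nd {v u : V} : u ∈ nd K dg v ↔ u ∈ K ∧ u ≠ v ∧ dg v u := by simp [nd]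

theorem mem_Hi {v : V} : v ∈ Hi K dg O I ↔ v ∈ K ∧ ¬ Lo K dg O I v := by simp [Hi]

theorem lo_of {v : V} (hv : v ∈ K) (h : v ∉ Hi K dg O I) : Lo K dg O I v := by
  by_contra hcon
  exact h (mem_Hi.mpr ⟨hv, hcon⟩)

theorem card_nd (h : Loc K r dg P O I k) {v : V} (hv : v ∈ K) :
    (nd K dg v).card + sd K dg v = k := by
  have h1 : (K.erase v).card = k := by
    rw [Finset.card_erase_of_mem hv, h.card]
    rfl
  rw [← h1, sd, nd, ← Finset.card_union_of_disjoint]
  · congr 1
    ext u
    simp only [Finset.mem_union, Finset.mem_filter, Finset.mem_erase]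
    tauto
  · rw [Finset.disjoint_left]
    intro u hu hu2
    simp only [Finset.mem_filter] at hu hu2
    exact hu2.2.2 hu.2.2

/-- a set of simple neighbours -/
theorem le_sd {v : V} {A : Finset V} (hA : A ⊆ K) (h1 : ∀ a ∈ A, a ≠ v ∧ ¬ dg v a) :
    A.card ≤ sd K dg v :=
  Finset.card_le_card fun a ha => Finset.mem_filter.mpr ⟨hA ha, h1 a ha⟩

/-- all simple neighbours of `v` are in `A` -/
theorem sd_le {v : V} {A : Finset V} (h1 : ∀ a ∈ K, a ≠ v → ¬ dg v a → a ∈ A) :
    sd K dg v ≤ A.card :=
  Finset.card_le_card fun a ha => by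
    rw [Finset.mem_filter] at ha
    exact h1 a ha.1 ha.2.1 ha.2.2

theorem F_sub (h : Loc K r dg P O I k) {v : V} (hv : v ∈ K) : F P k v ⊆ O v ∩ I v := by
  intro c hc
  rw [F, Finset.mem_filter] at hc
  exact Finset.mem_inter.mpr (h.PO c v hv v hv hc.2)

theorem F_subO (h : Loc K r dg P O I k) {v : V} (hv : v ∈ K) : F P k v ⊆ O v :=
  (F_sub h hv).trans Finset.inter_subset_left

theorem F_subI (h : Loc K r dg P O I k) {v : V} (hv : v ∈ K) : F P k v ⊆ I v :=
  (F_sub h hv).trans Finset.inter_subset_right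

theorem F_range {v : V} : F P k v ⊆ range k := Finset.filter_subset _ _

theorem inter_le (h : Loc K r dg P O I k) {v : V} (hv : v ∈ K) (hlo : Lo K dg O I v) :
    (O v ∩ I v).card ≤ 2 := by
  have h1 := Finset.card_union_add_card_inter (O v) (I v)
  have h2 := h.deg v hv
  unfold Lo at hlo
  omega

theorem F_le (h : Loc K r dg P O I k) {v : V} (hv : v ∈ K) (hlo : Lo K dg O I v) :
    (F P k v).card ≤ 2 := (Finset.card_le_card (F_sub h hv)).trans (inter_le h hv hlo)

/-- `|O v|` and `|I v|` are both at most `2 + sd v - |F v|` -/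
theorem OI_le (h : Loc K r dg P O I k) {v : V} (hv : v ∈ K) :
    (O v).card + (F P k v).card ≤ 2 + sd K dg v ∧
      (I v).card + (F P k v).card ≤ 2 + sd K dg v := by
  have h1 := Finset.card_le_card (F_subO h hv)
  have h2 := Finset.card_le_card (F_subI h hv)
  have h3 := h.deg v hv
  omega

/-- `2 |F v| ≤ 2 + sd v` -/
theorem F_sd (h : Loc K r dg P O I k) {v : V} (hv : v ∈ K) :
    2 * (F P k v).card ≤ 2 + sd K dg v := by
  have h1 := Finset.card_le_card (F_subO h hv)
  have h2 := Finset.card_le_card (F_subI h hv)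
  have h3 := h.deg v hv
  omega

/-- `|O v| + |I v| ≤ k + 2` for normal vertices -/
theorem sum_le (h : Loc K r dg P O I k) {v : V} (hv : v ∈ K) (hlo : Lo K dg O I v) :
    (O v).card + (I v).card ≤ k + 2 := by
  have h1 := Finset.card_union_add_card_inter (O v) (I v)
  have h2 := inter_le h hv hlo
  have h3 : (O v ∪ I v).card ≤ k := by
    have := Finset.card_le_card (Finset.union_subset (h.O_lt v hv) (h.I_lt v hv))
    rwa [card_range] at this
  omega

theorem G_comm (u v : V) : G r P k u v = G r P k v u := by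
  unfold G
  ext c
  simp only [Finset.mem_filter]
  tauto

theorem mem_G {u v : V} {c : ℕ} : c ∈ G r P k u v ↔ c < k ∧ ¬ P c u u ∧ ¬ P c v v ∧
    (r v ≤ r u → ¬ P c u v) ∧ (r u ≤ r v → ¬ P c v u) := by
  simp [G]

/-- the bad colours of a pair `u < v` -/
theorem G_compl (h : Loc K r dg P O I k) {u v : V} (hu : u ∈ K) (hv : v ∈ K) (huv : r u < r v)
    {c : ℕ} (hc : c < k) (hcG : c ∉ G r P k u v) :
    c ∈ F P k u ∪ O v ∧ c ∈ F P k v ∪ I u := by
  rw [mem_G] at hcG
  by_cases h1 : P c u u
  · have h2 : c ∈ F P k u := Finset.mem_filter.mpr ⟨Finset.mem_range.mpr hc, h1⟩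
    exact ⟨Finset.mem_union_left _ h2, Finset.mem_union_right _ (F_subI h hu h2)⟩
  by_cases h3 : P c v v
  · have h4 : c ∈ F P k v := Finset.mem_filter.mpr ⟨Finset.mem_range.mpr hc, h3⟩
    exact ⟨Finset.mem_union_right _ (F_subO h hv h4), Finset.mem_union_left _ h4⟩
  have h5 : P c v u := by
    by_contra hcon
    exact hcG ⟨hc, h1, h3, fun h6 => absurd huv (not_lt.mpr h6), fun _ => hcon⟩
  have h6 := h.PO c v hv u hu h5
  exact ⟨Finset.mem_union_right _ h6.1, Finset.mem_union_right _ h6.2⟩

/-- lower bound for the number of good colours of a pair `u < v` -/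
theorem G_ge (h : Loc K r dg P O I k) {u v : V} (hu : u ∈ K) (hv : v ∈ K) (huv : r u < r v) :
    k ≤ (G r P k u v).card + (F P k u ∪ O v).card ∧
      k ≤ (G r P k u v).card + (F P k v ∪ I u).card := by
  constructor
  · have h1 : range k ⊆ G r P k u v ∪ (F P k u ∪ O v) := by
      intro c hc
      by_cases h2 : c ∈ G r P k u v
      · exact Finset.mem_union_left _ h2
      · exact Finset.mem_union_right _ (G_compl h hu hv huv (Finset.mem_range.mp hc) h2).1
    have h3 := (Finset.card_le_card h1).trans (Finset.card_union_le _ _)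
    rwa [card_range] at h3
  · have h1 : range k ⊆ G r P k u v ∪ (F P k v ∪ I u) := by
      intro c hc
      by_cases h2 : c ∈ G r P k u v
      · exact Finset.mem_union_left _ h2
      · exact Finset.mem_union_right _ (G_compl h hu hv huv (Finset.mem_range.mp hc) h2).2
    have h3 := (Finset.card_le_card h1).trans (Finset.card_union_le _ _)
    rwa [card_range] at h3

/-- for a pair of vertices: the number of good colours is at least
`k - |F u| - max (|O w|, |I w|)` -/
theorem G_ge' (h : Loc K r dg P O I k) {u w : V} (hu : u ∈ K) (hw : w ∈ K) (huw : u ≠ w) {m : ℕ}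
    (h1 : (O w).card ≤ m) (h2 : (I w).card ≤ m) :
    k ≤ (G r P k u w).card + (F P k u).card + m := by
  rcases lt_trichotomy (r u) (r w) with h3 | h3 | h3
  · have h4 := (G_ge h hu hw h3).1
    have h5 := Finset.card_union_le (F P k u) (O w)
    omega
  · exact absurd (h.inj u hu w hw h3) huw
  · have h4 := (G_ge h hw hu h3).2
    have h5 := Finset.card_union_le (F P k u) (I w)
    rw [G_comm] at h4
    omega

theorem val_mono {A B : Finset V} {f : V → ℕ} (h : Val r dg P k B f) (hAB : A ⊆ B) :
    Val r dg P k A f :=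
  ⟨fun v hv => h.1 v (hAB hv), fun u hu v hv => h.2.1 u (hAB hu) v (hAB hv),
    fun u hu v hv => h.2.2 u (hAB hu) v (hAB hv)⟩

theorem val_congr {A : Finset V} {f g : V → ℕ} (h : Val r dg P k A f) (hfg : ∀ v ∈ A, f v = g v) :
    Val r dg P k A g := by
  refine ⟨fun v hv => ?_, fun u hu v hv huv h1 => ?_, fun u hu v hv h1 h2 => ?_⟩
  · rw [← hfg v hv]
    exact h.1 v hv
  · refine h.2.1 u hu v hv huv ?_
    rw [hfg u hu, hfg v hv]
    exact h1
  · rw [← hfg u hu]
    refine h.2.2 u hu v hv ?_ h2
    rw [hfg u hu, hfg v hv]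
    exact h1

/-- union of two valid colourings with disjoint sets of colours -/
theorem val_union {A B : Finset V} {f g : V → ℕ} (hf : Val r dg P k A f) (hg : Val r dg P k B g)
    (hAB : Disjoint A B) (hc : ∀ a ∈ A, ∀ b ∈ B, f a ≠ g b) :
    Val r dg P k (A ∪ B) (fun v => if v ∈ A then f v else g v) := by
  have hB : ∀ v ∈ B, v ∉ A := fun v hv hA => Finset.disjoint_left.mp hAB hA hv
  refine ⟨fun v hv => ?_, fun u hu v hv huv h1 => ?_, fun u hu v hv h1 h2 => ?_⟩
  · rcases Finset.mem_union.mp hv with h | h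
    · simp only [h, if_true]
      exact hf.1 v h
    · simp only [hB v h, if_false]
      exact hg.1 v h
  · rcases Finset.mem_union.mp hu with h3 | h3 <;> rcases Finset.mem_union.mp hv with h4 | h4
    · simp only [h3, h4, if_true] at h1
      exact hf.2.1 u h3 v h4 huv h1
    · simp only [h3, hB v h4, if_true, if_false] at h1
      exact absurd h1 (hc u h3 v h4)
    · simp only [hB u h3, h4, if_true, if_false] at h1
      exact absurd h1.symm (hc v h4 u h3)
    · simp only [hB u h3, hB v h4, if_false] at h1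
      exact hg.2.1 u h3 v h4 huv h1
  · rcases Finset.mem_union.mp hu with h3 | h3 <;> rcases Finset.mem_union.mp hv with h4 | h4
    · simp only [h3, h4, if_true] at h1 ⊢
      exact hf.2.2 u h3 v h4 h1 h2
    · simp only [h3, hB v h4, if_true, if_false] at h1
      exact absurd h1 (hc u h3 v h4)
    · simp only [hB u h3, h4, if_true, if_false] at h1
      exact absurd h1.symm (hc v h4 u h3)
    · simp only [hB u h3, hB v h4, if_false] at h1 ⊢
      exact hg.2.2 u h3 v h4 h1 h2

/-- a simple pair with a good colour is a valid class -/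
theorem val_pair (h : Loc K r dg P O I k) {x y : V} (hd : ¬ dg x y) {c : ℕ}
    (hc : c ∈ G r P k x y) : Val r dg P k {x, y} (fun _ => c) := by
  rw [mem_G] at hc
  refine ⟨fun v _ => hc.1, ?_, ?_⟩
  · intro u hu v hv huv _
    rw [Finset.mem_insert, Finset.mem_singleton] at hu hv
    rcases hu with rfl | rfl <;> rcases hv with rfl | rfl
    · exact absurd rfl huv
    · exact hd
    · exact fun h1 => hd (h.symm _ _ h1)
    · exact absurd rfl huv
  · intro u hu v hv _ h2
    rw [Finset.mem_insert, Finset.mem_singleton] at hu hv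
    rcases hu with rfl | rfl <;> rcases hv with rfl | rfl
    · exact hc.2.1
    · exact hc.2.2.2.1 h2
    · exact hc.2.2.2.2 h2
    · exact hc.2.2.1

theorem val_empty {f : V → ℕ} : Val r dg P k (∅ : Finset V) f := by
  refine ⟨?_, ?_, ?_⟩ <;> intro v hv <;> exact absurd hv (Finset.notMem_empty v)

end Pool.Agent.Lib.MP_ee37cd_co.LL
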