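import Pool.Agent.Lib.MP_ee37cd_co.SpecM

/-!
# MP_ee37cd_co: module LINK
-/

set_option autoImplicit false

namespace Pool.Agent.Lib.MP_ee37cd_co.BK

open Finset
open scoped Classical

namespace LINK

/-- the paths of the colour `c` outside -/
def PP {V : Type} (E : V → V → Prop) (R : Finset V) (f : V → ℕ) (c : ℕ) (u v : V) : Prop :=
  ∃ a ∈ cls R f c, ∃ b ∈ cls R f c, E u a ∧ E b v ∧
    Relation.ReflTransGen (fun s t => E s t ∧ s ∈ cls R f c ∧ t ∈ cls R f c) a b

/-- exactly one simple pair -/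
theorem one_pair {V : Type} {E : V → V → Prop} {S K : Finset V} {k : ℕ} {r : V → ℕ}
    (hk : 8 ≤ k) (hM : MinCex E S k) (hKS : K ⊆ S) (hKc : K.card = k + 1)
    (hinj : ∀ a ∈ K, ∀ b ∈ K, r a = r b → a = b)
    (hfwd : ∀ a ∈ K, ∀ b ∈ K, r a < r b → E a b) (h2 : ¬ LL.TwoPairs K (Dg E)) :
    ∃ x y Z, NB E S k x y Z := by
  by_cases h1 : ∃ a ∈ K, ∃ b ∈ K, a ≠ b ∧ ¬ Dg E a b
  · have h3 : ∃ x ∈ K, ∃ y ∈ K, x ≠ y ∧ ¬ Dg E x y ∧ r x < r y := by
      obtain ⟨a, ha, b, hb, hab, hd⟩ := h1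
      rcases lt_trichotomy (r a) (r b) with h | h | h
      · exact ⟨a, ha, b, hb, hab, hd, h⟩
      · exact absurd (hinj a ha b hb h) hab
      · exact ⟨b, hb, a, ha, hab.symm, fun h4 => hd h4.symm, h⟩
    obtain ⟨x, hx, y, hy, hxy, hd, hr⟩ := h3
    have hE : E x y := hfwd x hx y hy hr
    have hother : ∀ p ∈ K, ∀ q ∈ K, p ≠ q → ¬ (x = p ∧ y = q) → ¬ (x = q ∧ y = p) → Dg E p q := by
      intro p hp q hq hpq h4 h5
      by_contra hcon
      exact h2 ⟨x, hx, y, hy, p, hp, q, hq, hxy, hpq, hd, hcon, h4, h5⟩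
    refine ⟨x, y, (K.erase x).erase y, ?_⟩
    have hmem : ∀ z, z ∈ (K.erase x).erase y ↔ z ≠ y ∧ z ≠ x ∧ z ∈ K := by
      intro z
      rw [Finset.mem_erase, Finset.mem_erase]
    refine ⟨hKS hx, hKS hy, ?_, ?_, ?_, ?_, ?_, ?_, ?_, hE, fun h => hd ⟨hE, h⟩⟩
    · intro z hz
      exact hKS ((hmem z).mp hz).2.2
    · intro h
      exact ((hmem x).mp h).2.1 rfl
    · intro h
      exact ((hmem y).mp h).1 rfl
    · rw [Finset.card_erase_of_mem (Finset.mem_erase.mpr ⟨hxy.symm, hy⟩),
        Finset.card_erase_of_mem hx]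
      omega
    · intro p hp q hq hpq
      rw [hmem] at hp hq
      exact (hother p hp.2.2 q hq.2.2 hpq (fun h => hp.2.1 h.1.symm)
        (fun h => hq.2.1 h.1.symm)).1
    · intro z hz
      rw [hmem] at hz
      exact hother x hx z hz.2.2 (Ne.symm hz.2.1) (fun h => hz.1 h.2.symm)
        (fun h => hz.2.1 h.1.symm)
    · intro z hz
      rw [hmem] at hz
      exact hother y hy z hz.2.2 (Ne.symm hz.1) (fun h => hxy h.1)
        (fun h => hz.2.1 h.1.symm)
  · exfalso
    push Not at h1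
    have h3 := hM.noK K hKS (fun a ha b hb hab => (h1 a ha b hb hab).1)
    omega

/-- the hypotheses of the local lemma -/
theorem loc {V : Type} {E : V → V → Prop} {S K : Finset V} {k : ℕ} {r : V → ℕ}
    (hk : 8 ≤ k) (hM : MinCex E S k) (hKS : K ⊆ S) (hKc : K.card = k + 1)
    (hinj : ∀ a ∈ K, ∀ b ∈ K, r a = r b → a = b)
    (hfwd : ∀ a ∈ K, ∀ b ∈ K, r a < r b → E a b) {f : V → ℕ} (hf : IsDicol E (S \ K) k f) :
    LL.Loc K r (Dg E) (PP E (S \ K) f)
      (fun v => ((S \ K).filter (fun w => E v w)).image f)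
      (fun v => ((S \ K).filter (fun w => E w v)).image f) k where
  hk := hk
  card := hKc
  inj := hinj
  symm := fun a b h => h.symm
  O_lt := by
    intro v _ c hc
    obtain ⟨w, hw, rfl⟩ := Finset.mem_image.mp hc
    exact Finset.mem_range.mpr (hf.1 w (Finset.mem_filter.mp hw).1)
  I_lt := by
    intro v _ c hc
    obtain ⟨w, hw, rfl⟩ := Finset.mem_image.mp hc
    exact Finset.mem_range.mpr (hf.1 w (Finset.mem_filter.mp hw).1)
  PO := by
    rintro c u _ v _ ⟨a, ha, b, hb, h1, h2, -⟩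
    rw [mem_cls] at ha hb
    exact ⟨Finset.mem_image.mpr ⟨a, Finset.mem_filter.mpr ⟨ha.1, h1⟩, ha.2⟩,
      Finset.mem_image.mpr ⟨b, Finset.mem_filter.mpr ⟨hb.1, h2⟩, hb.2⟩⟩
  deg := by
    intro v hv
    have h1 : (((S \ K).filter (fun w => E v w)).image f).card ≤ outdeg E (S \ K) v :=
      Finset.card_image_le
    have h2 : (((S \ K).filter (fun w => E w v)).image f).card ≤ indeg E (S \ K) v :=
      Finset.card_image_le
    have h3 := hM.dsum (by omega) (hKS hv)
    have h4 := outdeg_split (E := E) hKS v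
    have h5 := indeg_split (E := E) hKS v
    -- the degrees in `K`
    have h6 : (LL.nd K (Dg E) v).card + LL.sd K (Dg E) v = k := by
      have h7 : (K.erase v).card = k := by
        rw [Finset.card_erase_of_mem hv, hKc]
        rfl
      rw [← h7, LL.sd, LL.nd, ← Finset.card_union_of_disjoint]
      · congr 1
        ext u
        simp only [Finset.mem_union, Finset.mem_filter, Finset.mem_erase]
        tauto
      · rw [Finset.disjoint_left]
        intro u hu hu2
        simp only [Finset.mem_filter] at hu hu2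
        exact hu2.2.2 hu.2.2
    set B : Finset V := K.filter (fun u => u ≠ v ∧ ¬ Dg E v u ∧ r v < r u) with hB
    set C : Finset V := K.filter (fun u => u ≠ v ∧ ¬ Dg E v u ∧ r u < r v) with hC
    have h8 : B.card + C.card = LL.sd K (Dg E) v := by
      rw [LL.sd, ← Finset.card_union_of_disjoint]
      · congr 1
        ext u
        simp only [hB, hC, Finset.mem_union, Finset.mem_filter]
        constructor
        · rintro (⟨h9, h10, h11, -⟩ | ⟨h9, h10, h11, -⟩)
          · exact ⟨h9, h10, h11⟩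
          · exact ⟨h9, h10, h11⟩
        · rintro ⟨h9, h10, h11⟩
          rcases lt_trichotomy (r v) (r u) with h | h | h
          · exact Or.inl ⟨h9, h10, h11, h⟩
          · exact absurd (hinj v hv u h9 h).symm h10
          · exact Or.inr ⟨h9, h10, h11, h⟩
      · rw [Finset.disjoint_left]
        intro u hu hu2
        simp only [hB, hC, Finset.mem_filter] at hu hu2
        omega
    have h9 := deg_ge (E := E) (T := K) (A := LL.nd K (Dg E) v) (B := B) (C := C) (v := v)
      (Finset.filter_subset _ _) (Finset.filter_subset _ _) (Finset.filter_subset _ _)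
      (by
        rw [Finset.disjoint_left]
        intro u hu hu2
        rw [LL.mem_nd] at hu
        simp only [hB, Finset.mem_filter] at hu2
        exact hu2.2.2.1 hu.2.2)
      (by
        rw [Finset.disjoint_left]
        intro u hu hu2
        rw [LL.mem_nd] at hu
        simp only [hC, Finset.mem_filter] at hu2
        exact hu2.2.2.1 hu.2.2)
      (fun u hu => (LL.mem_nd.mp hu).2.2)
      (fun u hu => by
        simp only [hB, Finset.mem_filter] at hu
        exact hfwd v hv u hu.1 hu.2.2.2)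
      (fun u hu => by
        simp only [hC, Finset.mem_filter] at hu
        exact hfwd u hu.1 v hv hu.2.2.2)
    show _ ≤ 2 + LL.sd K (Dg E) v
    omega

end LINK

open LINK

theorem s_LINK : S_ACY → S_LINK := by
  intro hACY hALL V E S K k r hk hM hKS hKc hinj hfwd
  by_cases h2 : LL.TwoPairs K (Dg E)
  swap
  · exact one_pair hk hM hKS hKc hinj hfwd h2
  exfalso
  have hne : K.Nonempty := by
    rw [← Finset.card_pos, hKc]
    omega
  obtain ⟨v0, hv0, hmax⟩ := Finset.exists_max_image K (fun v => LL.sd K (Dg E) v) hne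
  have hv0S : ({v0} : Finset V) ⊆ S := Finset.singleton_subset_iff.mpr (hKS hv0)
  obtain ⟨f, hf⟩ := hM.sub hv0S (Finset.singleton_nonempty v0)
  have hRsub : S \ K ⊆ S \ {v0} := by
    intro v hv
    rw [Finset.mem_sdiff] at hv ⊢
    refine ⟨hv.1, ?_⟩
    rw [Finset.mem_singleton]
    rintro rfl
    exact hv.2 hv0
  have hfR : IsDicol E (S \ K) k f := hf.mono hRsub
  have hKsub : ∀ v ∈ K.erase v0, v ∈ S \ {v0} := by
    intro v hv
    rw [Finset.mem_erase] at hv
    rw [Finset.mem_sdiff, Finset.mem_singleton]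
    exact ⟨hKS hv.2, hv.1⟩
  have hLoc := loc hk hM hKS hKc hinj hfwd hfR
  -- `f` is valid on `K.erase v0`
  have hVal : LL.Val r (Dg E) (PP E (S \ K) f) k (K.erase v0) f := by
    refine ⟨fun v hv => hf.1 v (hKsub v hv), fun u hu v hv huv h1 hd => ?_, ?_⟩
    · exact hf.dg (hKsub u hu) (hKsub v hv) hd h1
    · rintro u hu v hv h1 h3 ⟨a, ha, b, hb, h4, h5, h6⟩
      have hcl : ∀ w ∈ cls (S \ K) f (f u), w ∈ cls (S \ {v0}) f (f u) := by
        intro w hw
        rw [mem_cls] at hw ⊢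
        exact ⟨hRsub hw.1, hw.2⟩
      have hu' : u ∈ cls (S \ {v0}) f (f u) := mem_cls.mpr ⟨hKsub u hu, rfl⟩
      have hv' : v ∈ cls (S \ {v0}) f (f u) := mem_cls.mpr ⟨hKsub v hv, h1.symm⟩
      have h7 : Relation.ReflTransGen (fun s t => E s t ∧ s ∈ cls (S \ {v0}) f (f u) ∧
          t ∈ cls (S \ {v0}) f (f u)) a b := by
        refine Relation.ReflTransGen.mono ?_ _ _ h6
        rintro s t ⟨h8, h9, h10⟩
        exact ⟨h8, hcl s h9, hcl t h10⟩
      have h8 : Relation.TransGen (fun s t => E s t ∧ s ∈ cls (S \ {v0}) f (f u) ∧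
          t ∈ cls (S \ {v0}) f (f u)) u b :=
        Relation.TransGen.head' ⟨h4, hu', hcl a ha⟩ h7
      have h9 := h8.tail (⟨h5, hcl b hb, hv'⟩ : E b v ∧ b ∈ cls (S \ {v0}) f (f u) ∧
        v ∈ cls (S \ {v0}) f (f u))
      by_cases huv : u = v
      · subst huv
        exact hf.2 _ _ h9
      · have h10 : r v < r u := by
          refine lt_of_le_of_ne h3 ?_
          intro h11
          exact huv (hinj v (Finset.mem_of_mem_erase hv) u (Finset.mem_of_mem_erase hu) h11).symm
        have h11 : E v u := hfwd v (Finset.mem_of_mem_erase hv) u (Finset.mem_of_mem_erase hu) h10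
        exact hf.2 _ _ (h9.tail ⟨h11, hv', hu'⟩)
  obtain ⟨f', hf'⟩ := hALL V K r (Dg E) (PP E (S \ K) f) _ _ k v0 f hLoc h2 hv0 hmax hVal
  refine hM.ncol (dicol_combine hKS hfR hf'.1 ?_)
  intro c _
  refine hACY V E (cls (S \ K) f c) (cls K f' c) r hM.irr (hfR.2 c) ?_ ?_ ?_ ?_ ?_
  · rw [Finset.disjoint_left]
    intro v hv hv2
    rw [mem_cls] at hv hv2
    exact (Finset.mem_sdiff.mp hv.1).2 hv2.1
  · intro a ha b hb hab
    exact hinj a (mem_cls.mp ha).1 b (mem_cls.mp hb).1 hab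
  · intro a ha b hb hab
    rw [mem_cls] at ha hb
    exact hf'.2.1 a ha.1 b hb.1 hab (ha.2.trans hb.2.symm)
  · intro a ha b hb hab
    exact hfwd a (mem_cls.mp ha).1 b (mem_cls.mp hb).1 hab
  · rintro u hu v hv hr ⟨a, ha, b, hb, h4, h5, h6⟩
    rw [mem_cls] at hu hv
    have h7 := hf'.2.2 u hu.1 v hv.1 (hu.2.trans hv.2.symm) hr
    rw [hu.2] at h7
    exact h7 ⟨a, ha, b, hb, h4, h5, h6⟩

end Pool.Agent.Lib.MP_ee37cd_co.BK
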