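import Pool.Agent.Lib.MP_ee37cd_co.Asm
import Pool.Agent.Lib.MP_ee37cd_co.BR

/-!
# MP_ee37cd_co: digraphs with small biclique number
-/

set_option autoImplicit false

namespace Pool.Agent.Lib.MP_ee37cd_co.BK

open Finset
open scoped Classical

variable {V : Type} {E : V → V → Prop}

/-- digraphs with total degrees at most `2 r + 1` and biclique number at most `r` -/
theorem brooksPlus {S : Finset V} {r : ℕ} (hr : 8 ≤ r) (hE : ∀ v, ¬ E v v)
    (hdeg : ∀ v ∈ S, outdeg E S v + indeg E S v ≤ 2 * r + 1)
    (hbic : ∀ B ⊆ S, Bic E B → B.card ≤ r) : Dicol E S r := by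
  by_contra hcon
  have hH : ¬ HasH E S (r + 1) := by
    rintro ⟨a, b, c, X, ha, hb, hc, hX, h1, h2, h3, h4, h5, h6⟩
    have hXne : X.Nonempty := by
      rw [← Finset.card_pos]
      omega
    obtain ⟨x, hx⟩ := hXne
    have hab : a ≠ b := fun h => hE b (h ▸ h3)
    have hbc : b ≠ c := fun h => hE c (h ▸ h4)
    have hca : c ≠ a := fun h => hE a (h ▸ h5)
    have haX : a ∉ X := fun h => hE a (h6 a h).1.1
    have hbX : b ∉ X := fun h => hE b (h6 b h).2.1.1
    have hcX : c ∉ X := fun h => hE c (h6 c h).2.2.1
    have hcard : (insert a (insert b (insert c (X.erase x)))).card = r + 1 := by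
      rw [Finset.card_insert_of_notMem, Finset.card_insert_of_notMem,
        Finset.card_insert_of_notMem, Finset.card_erase_of_mem hx]
      · omega
      · simp [hcX]
      · simp [hbX, hbc]
      · simp [haX, hab, hca.symm]
    have hsub : insert a (insert b (insert c (X.erase x))) ⊆ S := by
      intro w hw
      simp only [Finset.mem_insert, Finset.mem_erase] at hw
      rcases hw with rfl | rfl | rfl | hw
      · exact ha
      · exact hb
      · exact hc
      · exact hX hw.2
    have hd : ∀ w ∈ insert a (insert b (insert c (X.erase x))), Dg E x w := by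
      intro w hw
      simp only [Finset.mem_insert, Finset.mem_erase] at hw
      rcases hw with rfl | rfl | rfl | hw
      · exact (h6 x hx).1.symm
      · exact (h6 x hx).2.1.symm
      · exact (h6 x hx).2.2.symm
      · exact ⟨h2 x hx w hw.2 hw.1.symm, h2 w hw.2 x hx hw.1⟩
    have h7 := deg_ge (E := E) (v := x) (B := ∅) (C := ∅) hsub
      (Finset.empty_subset _) (Finset.empty_subset _) (Finset.disjoint_empty_right _)
      (Finset.disjoint_empty_right _) hd (by simp) (by simp)
    have h8 := hdeg x (hX hx)
    rw [hcard] at h7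
    simp only [Finset.card_empty] at h7
    omega
  have hs : ∀ v ∈ S, Real.sqrt ((outdeg E S v : ℝ) *
      (indeg E S v : ℝ)) ≤ ((r + 1 : ℕ) : ℝ) := by
    intro v hv
    have h6 := hdeg v hv
    rw [Real.sqrt_le_left (by positivity)]
    have h7 : outdeg E S v * indeg E S v ≤ (r + 1) ^ 2 := by
      generalize outdeg E S v = a at h6 ⊢
      generalize indeg E S v = b at h6 ⊢
      have h8 : 4 * (a * b) ≤ (a + b) * (a + b) := by
        rcases le_total a b with h | h
        · obtain ⟨d, rfl⟩ := Nat.exists_eq_add_of_le h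
          nlinarith
        · obtain ⟨d, hd⟩ := Nat.exists_eq_add_of_le h
          rw [hd]
          nlinarith
      have h9 : (a + b) * (a + b) ≤ (2 * r + 1) * (2 * r + 1) := Nat.mul_le_mul h6 h6
      nlinarith
    exact_mod_cast h7
  have hb : ∀ B ⊆ S, Bic E B → B.card ≤ r + 1 - 1 := by
    intro B hB hBic
    rw [Nat.add_sub_cancel]
    exact hbic B hB hBic
  have hc : ¬ Dicol E S (r + 1 - 1) := by
    rw [Nat.add_sub_cancel]
    exact hcon
  obtain ⟨T, G, hT, h1, h2, h3⟩ := tr V E S (r + 1) (by omega) hE
    ⟨hs, hb, hH, hc⟩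
  apply h3
  refine s_BR V T G (r + 1 - 1) (by omega) ?_ h2
  intro v hv
  obtain ⟨h4, h5⟩ := h1 v hv
  have h6 := hdeg v (hT hv)
  omega

theorem arcs_erase (hE : ∀ v, ¬ E v v) {A : Finset V} {v : V} (hv : v ∈ A) :
    ∑ u ∈ A, outdeg E A u =
      ∑ u ∈ A.erase v, outdeg E (A.erase v) u + (outdeg E A v + indeg E A v) := by
  rw [← Finset.add_sum_erase A _ hv]
  have h1 : ∀ u ∈ A.erase v, outdeg E A u =
      outdeg E (A.erase v) u + if E u v then 1 else 0 := by
    intro u hu
    unfold outdeg
    by_cases h : E u v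
    · have h2 : A.filter (fun w => E u w) = insert v ((A.erase v).filter (fun w => E u w)) := by
        ext w
        simp only [Finset.mem_filter, Finset.mem_insert, Finset.mem_erase]
        constructor
        · rintro ⟨h3, h4⟩
          by_cases h5 : w = v
          · exact Or.inl h5
          · exact Or.inr ⟨⟨h5, h3⟩, h4⟩
        · rintro (rfl | ⟨⟨-, h3⟩, h4⟩)
          · exact ⟨hv, h⟩
          · exact ⟨h3, h4⟩
      rw [h2, Finset.card_insert_of_notMem (by simp), if_pos h]
    · have h2 : A.filter (fun w => E u w) = (A.erase v).filter (fun w => E u w) := by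
        ext w
        simp only [Finset.mem_filter, Finset.mem_erase]
        constructor
        · rintro ⟨h3, h4⟩
          exact ⟨⟨fun h5 => h (h5 ▸ h4), h3⟩, h4⟩
        · rintro ⟨⟨-, h3⟩, h4⟩
          exact ⟨h3, h4⟩
      rw [h2, if_neg h, add_zero]
  rw [Finset.sum_congr rfl h1, Finset.sum_add_distrib]
  have h3 : ∑ u ∈ A.erase v, (if E u v then 1 else 0) = indeg E A v := by
    rw [← Finset.card_filter]
    unfold indeg
    congr 1
    ext w
    simp only [Finset.mem_filter, Finset.mem_erase]
    constructor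
    · rintro ⟨⟨-, h3⟩, h4⟩
      exact ⟨h3, h4⟩
    · rintro ⟨h3, h4⟩
      exact ⟨⟨fun h5 => hE v (by rw [h5] at h4; exact h4), h3⟩, h4⟩
  rw [h3]
  omega

theorem outdeg_insert (hE : ∀ v, ¬ E v v) (B : Finset V) (v : V) :
    outdeg E (insert v B) v = outdeg E B v := by
  unfold outdeg
  congr 1
  ext w
  simp only [Finset.mem_filter, Finset.mem_insert]
  constructor
  · rintro ⟨h1 | h1, h2⟩
    · exact absurd (h1 ▸ h2) (hE v)
    · exact ⟨h1, h2⟩
  · rintro ⟨h1, h2⟩
    exact ⟨Or.inr h1, h2⟩

theorem indeg_insert (hE : ∀ v, ¬ E v v) (B : Finset V) (v : V) :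
    indeg E (insert v B) v = indeg E B v :=
  outdeg_insert (E := fun a b => E b a) hE B v

theorem lovasz (hE : ∀ v, ¬ E v v) (S : Finset V) (c1 c2 : ℕ)
    (hdeg : ∀ v ∈ S, outdeg E S v + indeg E S v ≤ c1 + c2 + 1) :
    ∃ A ⊆ S, (∀ v ∈ A, outdeg E A v + indeg E A v ≤ c1) ∧
      ∀ v ∈ S \ A, outdeg E (S \ A) v + indeg E (S \ A) v ≤ c2 := by
  obtain ⟨A, hA, hmin⟩ := Finset.exists_min_image S.powerset
    (fun A => ∑ u ∈ A, outdeg E A u + ∑ u ∈ S \ A, outdeg E (S \ A) u + c2 * A.card +
      c1 * (S \ A).card) ⟨∅, Finset.empty_mem_powerset S⟩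
  rw [Finset.mem_powerset] at hA
  have hsplit : ∀ v, outdeg E S v + indeg E S v = (outdeg E A v + indeg E A v) +
      (outdeg E (S \ A) v + indeg E (S \ A) v) := by
    intro v
    have h1 := outdeg_split (E := E) hA v
    have h2 := indeg_split (E := E) hA v
    have h3 : outdeg E S v + indeg E S v =
        (outdeg E A v + indeg E A v) +
        (outdeg E (S \ A) v + indeg E (S \ A) v) := by
      omega
    exact h3
  refine ⟨A, hA, ?_, ?_⟩
  · intro v hv
    by_contra hcon
    push Not at hcon
    have h1 := hmin (A.erase v) (Finset.mem_powerset.mpr ((Finset.erase_subset _ _).trans hA))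
    have h2 : S \ A.erase v = insert v (S \ A) := by
      ext w
      simp only [Finset.mem_sdiff, Finset.mem_erase, Finset.mem_insert]
      constructor
      · rintro ⟨h3, h4⟩
        by_cases h5 : w = v
        · exact Or.inl h5
        · exact Or.inr ⟨h3, fun h6 => h4 ⟨h5, h6⟩⟩
      · rintro (rfl | ⟨h3, h4⟩)
        · exact ⟨hA hv, fun h => h.1 rfl⟩
        · exact ⟨h3, fun h => h4 h.2⟩
    have hvn : v ∉ S \ A := fun h => (Finset.mem_sdiff.mp h).2 hv
    have h3 := arcs_erase hE hv
    have h4 := arcs_erase hE (Finset.mem_insert_self v (S \ A))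
    rw [Finset.erase_insert hvn, outdeg_insert hE, indeg_insert hE] at h4
    have h5 := hsplit v
    have h6 := hdeg v (hA hv)
    simp only [h2, Finset.card_insert_of_notMem hvn] at h1
    have h7 : (A.erase v).card + 1 = A.card := Finset.card_erase_add_one hv
    rw [h3, h4, ← h7] at h1
    have e1 : c2 * ((A.erase v).card + 1) = c2 * (A.erase v).card + c2 := by ring
    have e2 : c1 * ((S \ A).card + 1) = c1 * (S \ A).card + c1 := by ring
    rw [e1, e2] at h1
    omega
  · intro v hv
    by_contra hcon
    push Not at hcon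
    obtain ⟨hvS, hvA⟩ := Finset.mem_sdiff.mp hv
    have h1 := hmin (insert v A) (Finset.mem_powerset.mpr (Finset.insert_subset hvS hA))
    have h2 : S \ insert v A = (S \ A).erase v := by
      ext w
      simp only [Finset.mem_sdiff, Finset.mem_erase, Finset.mem_insert]
      tauto
    have h3 := arcs_erase hE hv
    have h4 := arcs_erase hE (Finset.mem_insert_self v A)
    rw [Finset.erase_insert hvA, outdeg_insert hE, indeg_insert hE] at h4
    have h5 := hsplit v
    have h6 := hdeg v hvS
    simp only [h2, Finset.card_insert_of_notMem hvA] at h1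
    have h7 : ((S \ A).erase v).card + 1 = (S \ A).card := Finset.card_erase_add_one hv
    rw [h3, h4, ← h7] at h1
    have e1 : c2 * (A.card + 1) = c2 * A.card + c2 := by ring
    have e2 : c1 * (((S \ A).erase v).card + 1) = c1 * ((S \ A).erase v).card + c1 := by ring
    rw [e1, e2] at h1
    omega

theorem low_out (hE : ∀ v, ¬ E v v) {S : Finset V} {k : ℕ} {v : V} (hv : v ∈ S)
    (h : Dicol E (S \ {v}) k) (hd : outdeg E S v < k) : Dicol E S k := by
  have hT : ({v} : Finset V) ⊆ S := Finset.singleton_subset_iff.mpr hv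
  obtain ⟨f, hf⟩ := Dicol.ex h
  have h1 : ((S.filter (fun w => E v w)).image f).card < (range k).card := by
    rw [card_range]
    exact lt_of_le_of_lt Finset.card_image_le hd
  obtain ⟨c, hc1, hc2⟩ := Finset.exists_mem_notMem_of_card_lt_card h1
  rw [Finset.mem_range] at hc1
  refine dicol_combine (g := fun _ => c) hT hf (fun _ _ => hc1) ?_
  intro d hd
  by_cases hdc : d = c
  · subst hdc
    refine (acyc_insert_out hE (hf.2 d) (v := v) ?_).mono ?_
    · intro w hw hvw
      rw [mem_cls] at hw
      exact hc2 (Finset.mem_image.mpr ⟨w, Finset.mem_filter.mpr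
        ⟨(Finset.mem_sdiff.mp hw.1).1, hvw⟩, hw.2⟩)
    · intro w hw
      rcases Finset.mem_union.mp hw with h2 | h2
      · exact Finset.mem_insert_of_mem h2
      · rw [mem_cls, Finset.mem_singleton] at h2
        rw [h2.1]
        exact Finset.mem_insert_self _ _
  · refine (hf.2 d).mono ?_
    intro w hw
    rcases Finset.mem_union.mp hw with h2 | h2
    · exact h2
    · rw [mem_cls] at h2
      exact absurd h2.2.symm hdc

theorem low_in (hE : ∀ v, ¬ E v v) {S : Finset V} {k : ℕ} {v : V} (hv : v ∈ S)
    (h : Dicol E (S \ {v}) k) (hd : indeg E S v < k) : Dicol E S k := by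
  have h1 : Dicol (fun a b => E b a) (S \ {v}) k := dicol_flip h
  have h2 : Dicol (fun a b => E b a) S k := low_out (E := fun a b => E b a) hE hv h1 hd
  exact dicol_flip h2

theorem dicol_two {S A : Finset V} {r1 r2 : ℕ} (h1 : Dicol E A r1) (h2 : Dicol E (S \ A) r2) :
    Dicol E S (r1 + r2) := by
  obtain ⟨f, hf1, hf2⟩ := h1
  obtain ⟨g, hg1, hg2⟩ := h2
  refine ⟨fun v => if v ∈ A then f v else r1 + g v, ?_, ?_⟩
  · intro v hv
    by_cases h : v ∈ A
    · simp only [h, if_true]
      have := hf1 v h
      omega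
    · simp only [h, if_false]
      have := hg1 v (Finset.mem_sdiff.mpr ⟨hv, h⟩)
      omega
  · intro i B hB
    by_cases hi : i < r1
    · refine hf2 i B fun v hv => ?_
      obtain ⟨h3, h4⟩ := hB v hv
      by_cases h : v ∈ A
      · simp only [h, if_true] at h4
        exact ⟨h, h4⟩
      · simp only [h, if_false] at h4
        omega
    · refine hg2 (i - r1) B fun v hv => ?_
      obtain ⟨h3, h4⟩ := hB v hv
      by_cases h : v ∈ A
      · simp only [h, if_true] at h4
        have := hf1 v h
        omega
      · simp only [h, if_false] at h4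
        exact ⟨Finset.mem_sdiff.mpr ⟨h3, h⟩, by omega⟩

theorem smallBiclique_main (hE : ∀ v, ¬ E v v) (D : ℕ) (hD : 17 ≤ D) :
    ∀ (n : ℕ) (S : Finset V), S.card = n →
      (∀ v ∈ S, outdeg E S v * indeg E S v ≤ D ^ 2) →
      (∀ B ⊆ S, Bic E B → 2 * B.card + 1 ≤ D) → Dicol E S (D - 1) := by
  intro n
  induction n with
  | zero =>
    intro S hS _ _
    rw [Finset.card_eq_zero] at hS
    subst hS
    refine ⟨fun _ => 0, fun v hv => absurd hv (Finset.notMem_empty v), fun i A hA => ?_⟩
    have : A = ∅ := Finset.eq_empty_of_forall_notMem fun v hv =>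
      Finset.notMem_empty v (hA v hv).1
    rw [this]
    exact acyc_empty
  | succ n ih =>
    intro S hS hdeg hbic
    by_cases hlow : ∃ v ∈ S, outdeg E S v < D - 1 ∨ indeg E S v < D - 1
    · obtain ⟨v, hv, hlow⟩ := hlow
      have hsub : S \ {v} ⊆ S := Finset.sdiff_subset
      have h1 : Dicol E (S \ {v}) (D - 1) := by
        refine ih (S \ {v}) ?_ ?_ ?_
        · rw [Finset.card_sdiff_of_subset (Finset.singleton_subset_iff.mpr hv), hS,
            Finset.card_singleton]
          omega
        · intro w hw
          exact le_trans (Nat.mul_le_mul (outdeg_mono hsub w)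
            (indeg_mono hsub w)) (hdeg w (hsub hw))
        · intro B hB hBic
          exact hbic B (hB.trans hsub) hBic
      rcases hlow with h2 | h2
      · exact low_out hE hv h1 h2
      · exact low_in hE hv h1 h2
    · push Not at hlow
      have hsum : ∀ v ∈ S, outdeg E S v + indeg E S v ≤ 2 * D := by
        intro v hv
        obtain ⟨h1, h2⟩ := hlow v hv
        have h3 := hdeg v hv
        by_contra hcon
        push Not at hcon
        obtain ⟨a, ha⟩ := Nat.exists_eq_add_of_le h1
        obtain ⟨b, hb⟩ := Nat.exists_eq_add_of_le h2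
        obtain ⟨k, rfl⟩ : ∃ k, D = k + 1 := ⟨D - 1, by omega⟩
        simp only [Nat.add_sub_cancel] at ha hb
        rw [ha, hb] at h3 hcon
        have h4 : 3 ≤ a + b := by omega
        nlinarith [Nat.zero_le (a * b), Nat.mul_le_mul_left k h4]
      obtain ⟨A, hA, hA1, hA2⟩ := lovasz hE S (2 * ((D - 1) / 2)) (2 * (D - 1 - (D - 1) / 2) + 1)
        (by
          intro v hv
          have := hsum v hv
          omega)
      have h3 : Dicol E A ((D - 1) / 2) := by
        refine brooksPlus (by omega) hE ?_ ?_
        · intro v hv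
          have h4 := hA1 v hv
          exact le_trans h4 (by omega)
        · intro B hB hBic
          have := hbic B (hB.trans hA) hBic
          omega
      have h4 : Dicol E (S \ A) (D - 1 - (D - 1) / 2) := by
        refine brooksPlus (by omega) hE ?_ ?_
        · intro v hv
          exact hA2 v hv
        · intro B hB hBic
          have := hbic B (hB.trans Finset.sdiff_subset) hBic
          omega
      have h5 := dicol_two (S := S) h3 h4
      rwa [Nat.add_sub_cancel' (Nat.div_le_self _ _)] at h5

end Pool.Agent.Lib.MP_ee37cd_co.BK
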