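import Pool.Agent.Lib.MP_ee37cd_co.Basic

/-!
# MP_ee37cd_co: statements of the modules (complete proofs in the docstrings)

Notation of the docstrings. `E, S` is a smallest counterexample for `k + 1` (`MinCex E S k`),
`8 ≤ k`. Digon: `Dg E a b`. A pair of adjacent vertices is simple if it is not a digon. For `T ⊆ S`
a vertex `v` has outside arcs: the arcs between `v` and `S \ T`; if `m` arcs lead from and to `T`
then at most `2 k + 2 - m` are outside arcs (`MinCex.outside`, `deg_ge`). A vertex of `T` joined by
digons to `k + 1` vertices of `T` has no outside arcs (it is full).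
EXTENSION: `S \ T` has a dicolouring with `k` colours (`MinCex.sub`). If `T` is covered by one, two
or three acyclic sets with few outside arcs and by a set `X0` of full vertices, `ext1`, `ext2`,
`ext3` of Basic.lean colour `S`, which contradicts `MinCex.ncol`. A set of two vertices which is not
a digon is acyclic (`acyc_pair`).
-/

set_option autoImplicit false

namespace Pool.Agent.Lib.MP_ee37cd_co.BK

open Finset
open scoped Classical

/-! ### Copies of `H` minus arcs -/

/-- HM1. Let `a, b, c` and `X0 ∪ {p, q}` be as follows: `X0` a biclique with `k - 3` vertices,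
`p ≠ q` outside `X0`, `p` and `q` joined by digons to all vertices of `X0` and to `a, b, c`, the
vertices `a, b, c` joined by digons to all vertices of `X0`, and `a → b → c → a`; and `p, q` is not
a digon. Then `E, S` is not a smallest counterexample.
PROOF. `T = X0 ∪ {p, q} ∪ {a, b, c}` (`k + 2` vertices, all distinct as `E` has no loops: a vertex
joined to another by an arc is different from it; `a, b, c` are distinct since they form a triangle:
if `a = c` then `c → a` is a loop, and so on). The vertices of `X0` have digons to the other `k + 1`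
vertices of `T`: full. Not all three pairs of `{a, b, c}` are digons: otherwise
`{a, b, c} ∪ X0 ∪ {p}` is a biclique with `k + 1` vertices (`MinCex.noK`). By rotation let `{a, b}`
be simple, that is `¬ E b a` (prove the claim for this case as a lemma and apply it three times).
Extension with the three classes `{a, b}`, `{p, q}`, `{c}` and `X0` (`3 + (k - 3) ≤ k`): `a`, `b`
and `c` have digons to the `k - 1` vertices of `X0 ∪ {p, q}` and at least two more arcs (in the
triangle): `2 k` arcs in `T`, at most `2` outside. `p` has digons to the `k - 3` vertices of `X0`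
and to `a, b, c`: at most `2` outside arcs; the same for `q`. The sums over the classes are at most
`4, 4, 2`, and `4 + 6 ≤ 2 k`. -/
def S_HM1 : Prop :=
  ∀ (V : Type) (E : V → V → Prop) (S : Finset V) (k : ℕ) (a b c p q : V) (X0 : Finset V),
    8 ≤ k → MinCex E S k → a ∈ S → b ∈ S → c ∈ S → p ∈ S → q ∈ S → X0 ⊆ S →
    X0.card + 3 = k → Bic E X0 → E a b → E b c → E c a → p ≠ q → ¬ Dg E p q →
    (∀ x ∈ X0, Dg E a x ∧ Dg E b x ∧ Dg E c x ∧ Dg E p x ∧ Dg E q x) →
    Dg E a p → Dg E b p → Dg E c p → Dg E a q → Dg E b q → Dg E c q → False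

/-- HM2. `X0` a biclique with `k - 2` vertices, `p` joined by digons to all vertices of `X0` and to
`b, c`; `a, b, c` joined by digons to all vertices of `X0`; `a → b → c → a`, and `p ≠ a` is not a
digon. Then `E, S` is not a smallest counterexample.
PROOF. `T = X0 ∪ {p, a, b, c}`, `k + 2` distinct vertices. The vertices of `X0` have digons to the
other `k - 3` vertices of `X0` and to `p, a, b, c`: full. `{b, c}` is not a digon: otherwise
`{b, c, p} ∪ X0` is a biclique with `k + 1` vertices. Extension with the two classes `{b, c}`,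
`{a, p}` and `X0`: `b` and `c` have digons to `X0 ∪ {p}` (`k - 1` vertices) and two more arcs in the
triangle: at most `2` outside arcs each. `a` has digons to the `k - 2` vertices of `X0` and two arcs
in the triangle (`E a b`, `E c a`): at most `2 k + 2 - (2 (k - 2) + 2) = 4` outside arcs. `p` has
digons to `X0` and `b, c`: `k` digons, at most `2` outside arcs. The sums over the classes are at
most `4` and `6`, and `6 + 4 ≤ 2 k`; `2 + (k - 2) ≤ k`. -/
def S_HM2 : Prop :=
  ∀ (V : Type) (E : V → V → Prop) (S : Finset V) (k : ℕ) (a b c p : V) (X0 : Finset V),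
    8 ≤ k → MinCex E S k → a ∈ S → b ∈ S → c ∈ S → p ∈ S → X0 ⊆ S →
    X0.card + 2 = k → Bic E X0 → E a b → E b c → E c a → p ≠ a → ¬ Dg E p a →
    (∀ x ∈ X0, Dg E a x ∧ Dg E b x ∧ Dg E c x ∧ Dg E p x) → Dg E b p → Dg E c p → False

/-- HM3. `X` a biclique with `k - 1` vertices, `a, b, c` distinct, joined by digons to all vertices
of `X`, `b → c → a`, and `¬ E a b`. Then `E, S` is not a smallest counterexample.
PROOF. `T = X ∪ {a, b, c}`. The vertices of `X` are full (`k - 2 + 3` digons). `{b, c}` and
`{c, a}` are not digons (otherwise with `X` they form a biclique with `k + 1` vertices). So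
`{a, b, c}` is acyclic: `c` has no out-neighbour in `{b}` ... in detail: `¬ E c b`, `¬ E a c`,
`¬ E a b`: `a` has no out-neighbour in `{b, c}`, so `{a, b, c}` is acyclic by `acyc_insert_out` and
`acyc_pair`. Extension with the one class `{a, b, c}` (`ext1`, `1 + (k - 1) ≤ k`): each of
`a, b, c` has `k - 1` digons to `X`, and at least one more arc in `{a, b, c}`: at most
`2 k + 2 - (2 (k - 1) + 1) = 3` outside arcs; the sum is at most `9` and `9 + 2 ≤ 2 k`. -/
def S_HM3 : Prop :=
  ∀ (V : Type) (E : V → V → Prop) (S : Finset V) (k : ℕ) (a b c : V) (X : Finset V),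
    8 ≤ k → MinCex E S k → a ∈ S → b ∈ S → c ∈ S → X ⊆ S →
    X.card + 1 = k → Bic E X → a ≠ b → E b c → E c a → ¬ E a b →
    (∀ x ∈ X, Dg E a x ∧ Dg E b x ∧ Dg E c x) → False

/-- HM. Adding the two arcs between two vertices `p, q` never creates a copy of `H_{k+1}`.
PROOF from HM1, HM2, HM3. Let `a, b, c, X` be a copy of `H_{k+1}` in `addDg E p q` (so
`|X| = k - 1`), all vertices in `S`. `addDg E p q u v` means: `E u v`, or `p ≠ q` and
`(u, v) = (p, q)` or `(u, v) = (q, p)`. If `p = q` or `Dg E p q` then `addDg E p q` has the same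
arcs as `E` and `MinCex.noH` gives a contradiction. So `p ≠ q`, `¬ Dg E p q`. `a, b, c` are
distinct and not in `X` (as `addDg E p q` has no loops).
Case 1: `p, q ∈ X`. All arcs of the copy not between `p` and `q` are arcs of `E`; HM1 with
`X0 = X \ {p, q}`.
Case 2: exactly one of `p, q` is in `X`, the other is one of `a, b, c` (if the other one is not in
the copy then no arc of the copy is new and `MinCex.noH` applies). By symmetry (`p`, `q` can be
exchanged) let `p ∈ X`, and by rotation (`(a, b, c) → (b, c, a)`) let `q = a`: HM2 with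
`X0 = X \ {p}`.
Case 3: `p, q ∉ X`, both in `{a, b, c}` (otherwise no arc of the copy is new). By rotation the pair
is `{a, b}`; if `E a b` all the arcs `a → b → c → a` of the copy are in `E` (the arcs `b → c`,
`c → a` are not between `p` and `q`), contradiction with `MinCex.noH`; so `¬ E a b`: HM3.
(To organise the rotations: prove first a lemma: if in a copy all the arcs between `p` and `q` that
the copy needs are in `E` then `HasH E S (k + 1)`.) -/
def S_HM : Prop :=
  ∀ (V : Type) (E : V → V → Prop) (S : Finset V) (k : ℕ) (p q : V),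
    8 ≤ k → MinCex E S k → ¬ HasH (addDg E p q) S (k + 1)

/-! ### Near bicliques -/

/-- The data `p, q` of a near biclique: for every `z ∈ Z` the vertex `p z` is the only
out-neighbour of `z` outside `K = NBK x y Z` and `q z` the only in-neighbour of `z` outside `K`, and
for every dicolouring `f` of `S \ K` with `k` colours there is one colour `d` such that for all
`z ∈ Z` there is a path from `p z` to `q z` all whose vertices have the colour `d`. -/
def PQ {V : Type} (E : V → V → Prop) (S : Finset V) (k : ℕ) (x y : V) (Z : Finset V)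
    (p q : V → V) : Prop :=
  (∀ z ∈ Z, p z ∈ S \ NBK x y Z ∧ q z ∈ S \ NBK x y Z ∧ E z (p z) ∧ E (q z) z ∧
    (∀ w ∈ S \ NBK x y Z, E z w → w = p z) ∧ ∀ w ∈ S \ NBK x y Z, E w z → w = q z) ∧
  ∀ f : V → ℕ, IsDicol E (S \ NBK x y Z) k f → ∃ d : ℕ, ∀ z ∈ Z, f (p z) = d ∧ f (q z) = d ∧
    Relation.ReflTransGen (fun a b => E a b ∧ a ∈ cls (S \ NBK x y Z) f d ∧
      b ∈ cls (S \ NBK x y Z) f d) (p z) (q z)

/-- PQ exists.
PROOF. `K = NBK x y Z`, `|K| = k + 1`, `|Z| = k - 1`, `R = S \ K`. Each `z ∈ Z` is joined by
digons to the other `k` vertices of `K`, so it has at most `2` outside arcs; `x` has `k - 1` digons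
to `Z` and the arc to `y`, so at most `3` outside arcs, and the same for `y`. `{x, y}` is acyclic
(`acyc_pair`), so it has at most `3` bad colours (`card_bad`, sum at most `6`).
Let `f` be any dicolouring of `R` with `k` colours (one exists by `MinCex.sub`). For `z ∈ Z` let
`F z = bad E R f k {z}`, so `|F z| ≤ 1` (`card_bad`, sum at most `2`). CLAIM: there is a colour `d`
with `F z = {d}` for all `z ∈ Z`. Proof: let `c` be a colour not in `bad E R f k {x, y}` and let
`Γ = range k \ {c}`, `|Γ| = k - 1 = |Z|`. If the sets `Γ \ F z`, `z ∈ Z`, have a system of distinct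
representatives `g` then `{x, y}` with colour `c` and `z` with colour `g z` give a dicolouring of
`S` (`dicol_combine`), contradiction. So by Hall's theorem
(`Finset.all_card_le_biUnion_card_iff_exists_injective`, over the subtype of `Z`) there is `U ⊆ Z`
with `|⋃_{z ∈ U} (Γ \ F z)| < |U|`; `U ≠ ∅`, each set has at least `k - 2` elements, so
`|U| = k - 1`, `U = Z` and the union has exactly `k - 2` elements, hence all the sets `Γ \ F z`
are equal to the union, which is `Γ` without one element `d`, and `F z = {d}` for all `z ∈ Z`.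
So every `z ∈ Z` has a bad colour `d`: the set `cls R f d ∪ {z}` is not acyclic, although
`cls R f d` is; so there are arcs `z → u`, `v → z` with `u, v ∈ cls R f d` and a path from `u` to
`v` inside `cls R f d` (take a closed walk in `cls R f d ∪ {z}`; it passes through `z`; cut it at
the visits of `z`: prove by induction on `TransGen` the statement: if there is a walk from `s` to
`t` in `cls ∪ {z}` then there is one in `cls`, or `s` reaches `z` and `z` reaches `t` ...; a
convenient lemma: if there is no pair `u, v` in `cls` with `E z u`, `E v z` and `ReflTransGen` from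
`u` to `v` inside `cls`, then `insert z cls` is acyclic). As `z` has at most two outside arcs,
`u` is its only outside out-neighbour and `v` its only outside in-neighbour. Take one colouring `f0`
to define `p z = u`, `q z = v` (by choice); for every other colouring `f` the vertices `u, v`
obtained are the same by uniqueness. -/
def S_PQ : Prop :=
  ∀ (V : Type) (E : V → V → Prop) (S : Finset V) (k : ℕ) (x y : V) (Z : Finset V),
    8 ≤ k → MinCex E S k → NB E S k x y Z → ∃ p q : V → V, PQ E S k x y Z p q

/-- III. No vertex `w` outside `K = NBK x y Z` is joined by digons to all vertices of `Z`.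
PROOF. Suppose it is. `T = insert w K`. Every `z ∈ Z` has digons to `Z \ {z}`, `x`, `y`, `w`:
`k - 2 + 3 = k + 1` digons: full. `w, x` is not a digon: otherwise `{w, x} ∪ Z` is a biclique with
`k + 1` vertices; `w, y` is not a digon. Not both `E y w` and `E w x`: otherwise
`x → y → w → x` and `Z` form a copy of `H_{k+1}` (`MinCex.noH`). So `{x, y, w}` is acyclic: if
`¬ E y w` then `y` has no out-neighbour in `{x, w}` (`NB.yx`): `acyc_insert_out` and `acyc_pair`
for `{x, w}`; if `¬ E w x` then `x` has no in-neighbour in `{y, w}`: `acyc_insert_in`.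
Extension with the one class `{x, y, w}` and `X0 = Z` (`1 + (k - 1) ≤ k`): `x` has `k - 1` digons
to `Z` and the arc to `y`: at most `3` outside arcs; `y` the same; `w` has `k - 1` digons to `Z`: at
most `4` outside arcs. The sum is at most `10` and `10 + 2 ≤ 2 k`. -/
def S_III : Prop :=
  ∀ (V : Type) (E : V → V → Prop) (S : Finset V) (k : ℕ) (x y : V) (Z : Finset V) (w : V),
    8 ≤ k → MinCex E S k → NB E S k x y Z → w ∈ S \ NBK x y Z → ¬ ∀ z ∈ Z, Dg E z w

/-- ONE. If `p z ≠ q z` then there is a near biclique in `S \ K` with the simple arc `p z → q z`.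
PROOF from HM. `K = NBK x y Z`, `R = S \ K`, `E' = addArc E (q z) (p z)`. `MinCex.min` is applied
to `E', R`: `R ⊂ S`. Degrees: for `v ∈ R`, the out-neighbours of `v` in `R` for `E'` are those for
`E`, and `p z` if `v = q z`; as `q z` has the out-neighbour `z ∈ S \ R` for `E`, the out-degree of
`v` in `E', R` is at most that in `E, S`; the same for the in-degree (`p z` has the in-neighbour
`z`). If `E', R` has a dicolouring `f` with `k` colours then `f` is a dicolouring of `E, R`, so by
PQ there is a path from `p z` to `q z` in one colour class, and with the arc `q z → p z` of `E'` it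
is a closed walk in this class, contradiction. `E', R` has no `H_{k+1}`: it would be one of
`addDg E (q z) (p z), S` (S_HM). So by `MinCex.min` there is a biclique `B ⊆ R` of `E'` with more
than `k` vertices. If `p z ∉ B` or `q z ∉ B` or `E (q z) (p z)` then `B` is a biclique of `E`,
contradiction to `MinCex.noK`. So `p z, q z ∈ B`, `¬ E (q z) (p z)`. `B.erase (q z)` is a biclique
of `E`, so `|B| = k + 1`; `Z' = B \ {p z, q z}`; `E (p z) (q z)` since it is an arc of `E'` and not
the new one. -/
def S_ONE : Prop :=
  ∀ (V : Type) (E : V → V → Prop) (S : Finset V) (k : ℕ) (x y : V) (Z : Finset V) (p q : V → V),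
    8 ≤ k → MinCex E S k → NB E S k x y Z → PQ E S k x y Z p q → ∀ z ∈ Z, p z ≠ q z →
    ∃ Z' : Finset V, Z' ⊆ S \ NBK x y Z ∧ NB E S k (p z) (q z) Z'

/-- CK. Let `T = NBK x y Z` be a near biclique, `T ⊆ R ⊆ S`, and let `y` have an out-neighbour
`z1 ∈ S \ R`. Let `u ∈ R`, `u ≠ x` and `g ≠ y`. Let `E2` be `E` with the arcs `y → u` and `g → x`
added. Every biclique `B ⊆ R` of `E2` with at least `k + 1` vertices is a biclique of `E` with only
the arc `g → x` added.
PROOF from III. Suppose not. Then `y ≠ u`, `y, u ∈ B` and `¬ E y u` (the only pair which can be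
missing in `addArc E g x` and present in `E2` is `(y, u)`). `u ∉ T`: `u ≠ x`, `u ≠ y`, and `u ∉ Z`
as `y` is joined by digons to `Z`. `x ∉ B`: otherwise `E2 y x`, but `¬ E y x` (`NB.yx`),
`(y, x) ≠ (y, u)` and `(y, x) ≠ (g, x)`. Every `t ∈ B \ T` satisfies `E t y` (it is an arc of `E2`,
and the new arcs end in `u ≠ y` and `x ≠ y`), and `E y t` if `t ≠ u` (new arcs starting in `y` end
in `u`). `y` has `k - 1` digons to `Z` and the arc `x → y`, so at most
`2 k + 2 - (2 (k - 1) + 1) = 3` arcs between `y` and `S \ T`. These include `y → z1` (`z1 ∉ R`),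
`t → y` for `t ∈ B \ T`, and `y → t` for `t ∈ B \ T`, `t ≠ u`: `1 + 2 |B \ T| - 1 ≤ 3`, so
`|B \ T| ≤ 1`, `B \ T = {u}`. `B ⊆ {y, u} ∪ Z` and `|B| ≥ k + 1` give `Z ⊆ B`. For `z ∈ Z` we have
`z ≠ u`, so `E2 z u` and `E2 u z`; these are arcs of `E`: `z → u` is not `y → u` (`z ≠ y`) and not
`g → x` (`u ≠ x`); `u → z` is not `y → u`, and not `g → x` (`z ≠ x`). So `u ∈ S \ T` is joined by
digons to all of `Z`, contradiction to III. -/
def S_CK : Prop :=
  ∀ (V : Type) (E : V → V → Prop) (S : Finset V) (k : ℕ) (x y : V) (Z R : Finset V) (u g z1 : V),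
    8 ≤ k → MinCex E S k → NB E S k x y Z → NBK x y Z ⊆ R → R ⊆ S → z1 ∈ S → z1 ∉ R → E y z1 →
    u ∈ R → u ≠ x → g ≠ y → ∀ B ⊆ R, Bic (addArc (addArc E y u) g x) B → k + 1 ≤ B.card →
    Bic (addArc E g x) B

/-- CH. The same for copies of `H_{k+1}`.
PROOF from PQ and III. Let `a, b, c, X` be a copy of `H_{k+1}` in `E2, R`, and
`W = {a, b, c} ∪ X`, `|W| = k + 2` (`E2` has no loops since `addArc` does not add loops). Suppose it
is not a copy in `addArc E g x, R`. Then one of the arcs of the copy is the arc `y → u`, it is not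
in `E`, `y ≠ u`, `y, u ∈ W`, and either both `y, u ∈ {a, b, c}` and `y → u` is one of the arcs
`a → b, b → c, c → a`, or at least one of `y, u` is in `X`. `T = NBK x y Z`; `u ∉ T` as in CK. The
only new arc starting in `y` is `y → u`, no new arc ends in `y`.
(1) `y` has at most `3` arcs between `y` and `S \ T`, one of them is `y → z1`, `z1 ∉ R`. So in `E2`
at most `3` arcs join `y` with `W \ T`, including `y → u`.
(2) every `t ∈ Z` has at most one out-neighbour and at most one in-neighbour in `S \ T` (PQ for
`x, y, Z`), also in `E2` among `R \ T`: new arcs between `t ∈ Z` and `R \ T` do not exist (`y → u`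
starts in `y`, and `g → x` ends in `x ∈ T`: `t = g` gives an arc inside `T`).
Every pair of distinct vertices of `W` is adjacent in `E2`, and it is a digon of `E2` unless both
are in `{a, b, c}`.
Case A: `y ∈ X`. Then `y` is joined by digons of `E2` to all of `W`. So `x ∉ W` (`E2 y x` fails as
in CK), `|W ∩ T| ≤ k`, `|W \ T| ≥ 2`, at least `4` arcs join `y` with `W \ T`: contradiction to (1).
Case B: `y ∈ {a, b, c}`; by rotation `y = a`, so `y → b`, `c → y`.
 Case B1: `x ∉ W`. Then `|W \ T| ≥ 2`. The vertices of `W \ T` in `X` use `2` arcs with `y`, those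
 in `{b, c}` at least `1`. By (1) `|W \ T| = 2`, so `W ∩ T = Z ∪ {y}`. Take `t ∈ Z ∩ X` (exists:
 `|Z| = k - 1 ≥ 7`, and at most two elements of `Z` are in `{b, c}`). `t` is joined by digons of
 `E2` to both vertices of `W \ T`, contradiction to (2).
 Case B2: `x ∈ W`. `y, x` is not a digon of `E2`, so `x ∈ {b, c}`, and `E2 y x` fails, so `x ≠ b`:
 `x = c`, the triangle is `x → y → b → x`. Note `b ≠ x`, `b ≠ y`.
  Case B2a: `u = b`. If some `v ∈ X` is not in `T`: take `t ∈ X ∩ Z`: such `t` exists, since by (1)
  at most one element of `X` is outside `T` (each uses `2` arcs, `u` uses one) and the others are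
  in `T \ {x, y} = Z`, `|X| = k - 1`; `t` is joined by digons of `E2` to `u` and to `v`, both in
  `R \ T`, contradiction to (2). So `X ⊆ T`, `X ⊆ Z`, `X = Z` (same cardinality), and `u = b` is
  joined by digons of `E2` to all of `Z`; these are arcs of `E` by (2)'s remark: contradiction to
  III.
  Case B2b: `u ≠ b`; then `u ∈ X` (`u ≠ y = a`, `u ≠ x = c`). `u ∉ T` uses two arcs with `y`. So no
  other element of `X` is outside `T`: `X \ {u} ⊆ Z`. Take `t ∈ X`, `t ≠ u`: it is joined by a
  digon of `E2` to `u ∈ R \ T`. If `b ∉ T` it is also joined by a digon to `b ∈ R \ T`,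
  contradiction to (2). So `b ∈ T`, `b ∈ Z` and `Z = (X \ {u}) ∪ {b}` (cardinalities; `b ∉ X`).
  `u ∈ X` is joined by digons of `E2` to all of `X \ {u}` and to `b`, that is to all of `Z`; these
  are arcs of `E`: contradiction to III. -/
def S_CH : Prop :=
  ∀ (V : Type) (E : V → V → Prop) (S : Finset V) (k : ℕ) (x y : V) (Z R : Finset V) (u g z1 : V),
    8 ≤ k → MinCex E S k → NB E S k x y Z → NBK x y Z ⊆ R → R ⊆ S → z1 ∈ S → z1 ∉ R → E y z1 →
    u ∈ R → u ≠ x → g ≠ y → HasH (addArc (addArc E y u) g x) R (k + 1) →
    HasH (addArc E g x) R (k + 1)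

/-- TWO. Let `z1 ≠ z2` in `Z`, not all of `p z1, q z1, p z2, q z2` equal, and let `E2` be `E` with
the arcs `q z1 → p z2` and `q z2 → p z1` added. Then `E2` on `R = S \ K` has a biclique with
`k + 1` vertices or a copy of `H_{k+1}`.
PROOF. `MinCex.min` for `E2, R`. Degrees: for `v ∈ R` the out-degree in `E2, R` is at most the
out-degree in `E, R` plus the number of `i ∈ {1, 2}` with `v = q z_i`, and `v` has the
out-neighbours `z_i ∈ K`, `i` with `v = q z_i`, in `S \ R` for `E`; so it is at most the out-degree
in `E, S`; the same for in-degrees. Suppose `f` is a dicolouring of `E2, R` with `k` colours; it is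
one of `E, R`, so PQ gives `d` and paths from `p z1` to `q z1` and from `p z2` to `q z2` in the
class of `d`. With the arcs `q z1 → p z2` (or `q z1 = p z2`) and `q z2 → p z1` (or equality) we get
a closed walk in the class of `d` for `E2`. It has at least one arc, as otherwise the four vertices
are equal. Contradiction. -/
def S_TWO : Prop :=
  ∀ (V : Type) (E : V → V → Prop) (S : Finset V) (k : ℕ) (x y : V) (Z : Finset V) (p q : V → V),
    8 ≤ k → MinCex E S k → NB E S k x y Z → PQ E S k x y Z p q → ∀ z1 ∈ Z, ∀ z2 ∈ Z, z1 ≠ z2 →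
    ¬ (p z1 = q z1 ∧ p z2 = q z2 ∧ p z1 = p z2) →
    (∃ B ⊆ S \ NBK x y Z, Bic (addArc (addArc E (q z1) (p z2)) (q z2) (p z1)) B ∧
      k + 1 ≤ B.card) ∨
    HasH (addArc (addArc E (q z1) (p z2)) (q z2) (p z1)) (S \ NBK x y Z) (k + 1)

/-- CNT. `p z = q z` for all `z ∈ Z`.
PROOF from HM, ONE, CK, CH, TWO. Suppose `p1 = p z1 ≠ q1 = q z1` for some `z1 ∈ Z`. By ONE there is
a near biclique `T = NBK p1 q1 Z1` in `R = S \ K`. CLAIM: for every `z2 ∈ Z`, `z2 ≠ z1`, we have
`p z2 = p1` or `q z2 = q1`. Suppose not; `u = p z2 ≠ p1`, `g = q z2 ≠ q1`. TWO: `E2` (the arcs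
`q1 → u`, `g → p1` added) has a biclique `B ⊆ R` with `k + 1` vertices or a copy of `H_{k+1}`.
If a copy of `H_{k+1}`: by CH (for `T`, `z1` as the out-neighbour of `q1` outside `R`) there is a
copy in `addArc E g p1, R`, so one in `addDg E g p1, S`, contradiction to HM.
If a biclique `B`: by CK it is a biclique of `addArc E g p1`. By CK for the reversed digraph
(`MinCex.flip`, `NB.flip`; there the near biclique is `q1, p1, Z1`, `y` of CK is `p1`, with the
out-neighbour `z1` in the reversed digraph, `u` of CK is `g`, `g` of CK is `u`, `x` of CK is `q1`)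
it is a biclique of `addArc E q1 u` (translate `addArc` of the reversed digraph). So every pair of
`B` is an arc of `E` or both `(g, p1)` and `(q1, u)`, impossible as `g ≠ q1`. So `B` is a biclique
of `E`, contradiction to `MinCex.noK`.
COUNT: `Z ⊆ {z : p z = p1} ∪ {z : q z = q1}`. `p1` has `k - 1` digons to `Z1` and the arc to `q1`, so
at most `3` arcs between `p1` and `S \ T`, and these include the arcs `z → p1`, `z ∈ Z`,
`p z = p1` (`K` and `T` are disjoint); so at most `3` such `z`. In the same way at most `3`
vertices `z ∈ Z` have `q z = q1`. So `k - 1 = |Z| ≤ 6`, contradiction. -/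
def S_CNT : Prop :=
  ∀ (V : Type) (E : V → V → Prop) (S : Finset V) (k : ℕ) (x y : V) (Z : Finset V) (p q : V → V),
    8 ≤ k → MinCex E S k → NB E S k x y Z → PQ E S k x y Z p q → ∀ z ∈ Z, p z = q z

/-- RR. Three vertices `w1, w2, w3`, pairwise distinct and not digons, with a biclique `Q` on
`k - 1` vertices all joined to `w1, w2, w3` by digons: impossible.
PROOF. `T = Q ∪ {w1, w2, w3}`, `k + 2` vertices (`w_i ∉ Q`: no loops). The vertices of `Q` are full.
`{w1, w2, w3}` contains no directed triangle (with `Q` it would be a copy of `H_{k+1}`), and no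
digon, so it is acyclic (a vertex of `{w1, w2, w3}` without out-neighbours in it or the three
out-arcs form a triangle: case distinction on the three pairs, each pair has at most one arc).
Extension with the class `{w1, w2, w3}` and `X0 = Q`: each `w_i` has `k - 1` digons to `Q`, at most
`4` outside arcs; the sum is at most `12`, `12 + 2 ≤ 2 k`. -/
def S_RR : Prop :=
  ∀ (V : Type) (E : V → V → Prop) (S : Finset V) (k : ℕ) (w1 w2 w3 : V) (Q : Finset V),
    8 ≤ k → MinCex E S k → w1 ∈ S → w2 ∈ S → w3 ∈ S → Q ⊆ S → Q.card + 1 = k → Bic E Q →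
    w1 ≠ w2 → w1 ≠ w3 → w2 ≠ w3 → ¬ Dg E w1 w2 → ¬ Dg E w1 w3 → ¬ Dg E w2 w3 →
    (∀ t ∈ Q, Dg E w1 t ∧ Dg E w2 t ∧ Dg E w3 t) → False

/-- FIN. There is no near biclique in a smallest counterexample.
PROOF from PQ, HM, III, TWO, CNT, RR. Let `x, y, Z` be one, `K = NBK x y Z`, `R = S \ K`, `p, q`
from PQ, `w z = p z = q z` (CNT), so `z, w z` is a digon, `w z ∈ R`.
(1) For `z1, z2 ∈ Z` with `w1 = w z1 ≠ w2 = w z2` there is `Q ⊆ R`, `|Q| = k - 1`, `Q` a biclique,
`w1, w2 ∉ Q`, all vertices of `Q` joined by digons to `w1` and to `w2`; and `w1, w2` is not a digon.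
Proof: TWO with `q z1 = w1`, `p z2 = w2`, `q z2 = w2`, `p z1 = w1`: `E2 = addDg E w1 w2` on `R`
contains a copy of `H_{k+1}` (excluded by HM) or a biclique `B` with at least `k + 1` vertices. As
`B` is not a biclique of `E`, `w1, w2 ∈ B` and `w1, w2` is not a digon; `B.erase w1` is a biclique
of `E`, so `|B| = k + 1`; `Q = B \ {w1, w2}`.
(2) For `w0 = w z0` the number of `z ∈ Z` with `w z = w0` is at most `2` if some `w z2 ≠ w0`: `w0`
is joined by digons to these `z` and to the `k - 1` vertices of a `Q ⊆ R` from (1), so
`k - 1 + n ≤ k + 1` (`MinCex.dgB`).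
(3) `w` is not constant on `Z` (III: otherwise the constant value is joined by digons to all of
`Z`). By (2) and `|Z| ≥ 7` there are `z1, z2, z3 ∈ Z` with `w1, w2, w3` distinct.
(4) Let `Q12`, `Q13` be the sets of (1) for `w1, w2` and `w1, w3`. `w2 ∉ Q13` and `w3 ∉ Q12`, as
the `w_i, w_j` are not digons. `w1` is joined by digons to `Q12 ∪ Q13` and to `z1 ∉ R`, so
`|Q12 ∪ Q13| ≤ k` and `|Q12 ∩ Q13| ≥ 2 (k - 1) - k > 0`. Let `t` be in the intersection: it is joined
by digons to `(Q12 ∪ Q13) \ {t}` and to `w1, w2, w3` (not in `Q12 ∪ Q13`), so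
`|Q12 ∪ Q13| - 1 + 3 ≤ k + 1`, `|Q12 ∪ Q13| ≤ k - 1`, so `Q12 = Q13`. RR with `Q = Q12`. -/
def S_FIN : Prop :=
  ∀ (V : Type) (E : V → V → Prop) (S : Finset V) (k : ℕ) (x y : V) (Z : Finset V),
    8 ≤ k → MinCex E S k → NB E S k x y Z → False

/-! ### The order with the fewest forward arcs -/

/-- ORD. There is an injective ranking `r` of `S` such that at every vertex the number of forward
arcs is at most the out-degree and at most the in-degree.
PROOF. For `r : V → ℕ` injective on `S` let `Φ r` be the number of pairs `(a, b) ∈ S × S` with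
`E a b` and `r a < r b`. Such `r` exist (`S` is finite), and we take one with `Φ r` minimal
(well-foundedness of `ℕ`). Let `v ∈ S` and `r' w = if w = v then 0 else r w + 1`: injective on `S`,
`Φ r' = Φ r - (number of forward arcs at v) + outdeg E S v`: the pairs not containing `v` contribute
the same; the pairs `(a, b)` with `a = v` contribute `outdeg E S v` to `Φ r'`, those with `b = v`
nothing. So the number of forward arcs at `v` is at most `outdeg E S v`. With
`r' w = if w = v then M else r w`, `M` larger than all `r w`, `w ∈ S`, it is at most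
`indeg E S v`. -/
def S_ORD : Prop :=
  ∀ (V : Type) (E : V → V → Prop) (S : Finset V), (∀ v, ¬ E v v) → ∃ r : V → ℕ,
    (∀ a ∈ S, ∀ b ∈ S, r a = r b → a = b) ∧ ∀ v ∈ S,
      (S.filter (fun w => (E v w ∧ r v < r w) ∨ (E w v ∧ r w < r v))).card ≤ outdeg E S v ∧
      (S.filter (fun w => (E v w ∧ r v < r w) ∨ (E w v ∧ r w < r v))).card ≤ indeg E S v

/-! ### The local lemma -/

/-- LL (concrete form). A set `K ⊆ S` of `k + 1` vertices with a ranking all of whose forward pairs
are arcs is a near biclique. (Proved by helper74 from the abstract local lemma.) -/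
def S_LL : Prop :=
  ∀ (V : Type) (E : V → V → Prop) (S K : Finset V) (k : ℕ) (r : V → ℕ),
    8 ≤ k → MinCex E S k → K ⊆ S → K.card = k + 1 → (∀ a ∈ K, ∀ b ∈ K, r a = r b → a = b) →
    (∀ a ∈ K, ∀ b ∈ K, r a < r b → E a b) → ∃ x y Z, NB E S k x y Z

/-! ### The transfer theorem and the equivalence -/

/-- TR. If `E, S` is a counterexample to the assertion for `D ≥ 9` then there is a graph `G` on a
subset `T` of `S` such that the degree in `G` of every vertex is at most its out-degree and at most
its in-degree in `E, S`, without cliques on `D` vertices and without proper colouring with `D - 1`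
colours.
PROOF from ORD, LL, FIN. `k = D - 1 ≥ 8`. Among all pairs `E', S'` such that `E'` has no loops,
`S' ⊆ S`, the degrees of `E', S'` are at most those of `E, S` on `S'`, every biclique of `E', S'`
has at most `k` vertices, `¬ HasH E' S' (k + 1)`, `¬ Dicol E' S' k` (there is one: `E, S`) take one
with `|S'|` minimal (`Nat.find` or well-foundedness). Then `MinCex E' S' k`: for `deg` note that
`sqrt (d+ d-) ≤ D` gives `d+ d- ≤ (k + 1)^2` for `E, S`, hence for `E', S'`; for `min`, the degrees
are compared with those of `E, S` by transitivity. Let `r` be as in ORD for `E', S'` and `G` the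
graph with `G.Adj u v` iff `u ≠ v` and (`E' u v` and `r u < r v`, or `E' v u` and `r v < r u`), and
`T = S'`. The degree bound is ORD (for `v ∈ T` the filter sets agree: `w ≠ v` follows from
`r v < r w`). A clique `B ⊆ T` of `G` with at least `k + 1` vertices contains one, `K`, with exactly
`k + 1` (a subset of a clique is a clique); for `a, b ∈ K` with `r a < r b` we have `G.Adj a b`, so
`E' a b`; LL gives a near biclique and FIN a contradiction. A proper colouring `f` of `G` on `T` with
`k` colours is a dicolouring of `E', S'`: in a colour class all arcs `a → b` satisfy `r b < r a`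
(`r a ≠ r b` by injectivity and `a ≠ b`), so `TransGen` decreases `r` and there is no closed walk. -/
def S_TR : Prop :=
  ∀ (V : Type) (E : V → V → Prop) (S : Finset V) (D : ℕ), 9 ≤ D → (∀ v, ¬ E v v) → Bad E S D →
    ∃ (T : Finset V) (G : SimpleGraph V), T ⊆ S ∧
      (∀ v ∈ T, (T.filter (fun w => G.Adj v w)).card ≤ outdeg E S v ∧
        (T.filter (fun w => G.Adj v w)).card ≤ indeg E S v) ∧
      (∀ B ⊆ T, (∀ a ∈ B, ∀ b ∈ B, a ≠ b → G.Adj a b) → B.card ≤ D - 1) ∧
      ¬ ∃ f : V → ℕ, (∀ v ∈ T, f v < D - 1) ∧ ∀ u ∈ T, ∀ v ∈ T, G.Adj u v → f u ≠ f v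

/-- The assertion of Q1 for the parameter `D` and all finite digraphs. -/
def Q1 (D : ℕ) : Prop :=
  ∀ (V : Type) (E : V → V → Prop) (S : Finset V), (∀ v, ¬ E v v) →
    (∀ v ∈ S, Real.sqrt ((outdeg E S v : ℝ) * (indeg E S v : ℝ)) ≤ D) →
    (∀ B ⊆ S, Bic E B → B.card ≤ D - 1) → Dicol E S (D - 1) ∨ HasH E S D

/-- The assertion of Borodin and Kostochka for the parameter `D` and all finite graphs. -/
def BorodinKostochka (D : ℕ) : Prop :=
  ∀ (V : Type) [Fintype V] (G : SimpleGraph V) [DecidableRel G.Adj], (∀ v, G.degree v ≤ D) →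
    G.CliqueFree D → G.Colorable (D - 1)

/-- EQ1. `BorodinKostochka D → Q1 D` from TR.
PROOF. Let `E, S` violate Q1; then `Bad E S D` (if neither `Dicol` nor `HasH`). TR gives `T, G`.
Apply `BorodinKostochka D` to the type `{v // v ∈ T}` and the induced graph
`G.comap (Subtype.val)`: the degree of `v` is the cardinality of the filter set (map the
neighbour finset by `Subtype.val`), at most `min (d+ v, d- v) ≤ D`: `min(d+, d-)^2 ≤ d+ d- ≤ D^2`.
Clique free: a clique of size `D` is mapped to a clique `B ⊆ T` with `D` elements, but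
`B.card ≤ D - 1`, `9 ≤ D`. The colouring `Fin (D - 1)` gives `f`, contradiction. -/
def S_EQ1 : Prop := ∀ D : ℕ, 9 ≤ D → BorodinKostochka D → Q1 D

/-- EQ2. `Q1 D → BorodinKostochka D`.
PROOF. Let `G` be a graph on the finite type `V` with degrees at most `D`, without clique of size
`D`. `E = G.Adj`, `S = univ`: no loops; `outdeg = indeg = degree ≤ D`, so the square root is the
degree. A biclique `B` is a clique of `G`; if `|B| ≥ D` it contains a clique of size `D`. Q1:
either `Dicol E S (D - 1)` with a colouring `f`: for `G.Adj u v`, `f u = f v` the set `{u, v}` would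
be acyclic, but it contains a digon; so `f` is a proper colouring (build
`G.Coloring (Fin (D - 1))`). Or `HasH E S D`: `a, b, c, X` with `|X| = D - 2` and
`G.Adj a b`: then `{a, b} ∪ X` is a clique of size `D`, contradiction. -/
def S_EQ2 : Prop := ∀ D : ℕ, 9 ≤ D → Q1 D → BorodinKostochka D

end Pool.Agent.Lib.MP_ee37cd_co.BK
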