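import Pool.Agent.Lib.MP_ee37cd_co.LDefs

/-!
# MP_ee37cd_co: the abstract local lemma, statements of the modules (complete proofs in docstrings)

Notation of the docstrings. `h : Loc K r dg P O I k`, `|K| = k + 1`, `k ≥ 8`. A pair `u ≠ v` of `K`
is simple if `¬ dg u v`; `s(v) = sd K dg v` is the number of simple pairs at `v`, `F(v)` the set of
bad colours of the single vertex `v`, `G(u, v)` the set of good colours of a pair. `K'` is the set of
the vertices of `K` not in `Hi K dg O I`: the normal vertices. Facts proved in LDefs.lean: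
`F(v) ⊆ O(v) ∩ I(v)`; `|O(v)| + |F(v)| ≤ 2 + s(v)`, `|I(v)| + |F(v)| ≤ 2 + s(v)` (`OI_le`);
`2 |F(v)| ≤ 2 + s(v)` (`F_sd`); for normal `v`: `|O(v) ∩ I(v)| ≤ 2`, `|F(v)| ≤ 2`,
`|O(v)| + |I(v)| ≤ k + 2`; for `u < v` (that is `r u < r v`) every colour not in `G(u, v)` is in
`F(u) ∪ O(v)` and in `F(v) ∪ I(u)` (`G_compl`, `G_ge`); for any pair
`k ≤ |G(u, w)| + |F(u)| + max(|O(w)|, |I(w)|)` (`G_ge'`).
-/

set_option autoImplicit false

namespace Pool.Agent.Lib.MP_ee37cd_co.LL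

open Finset
open scoped Classical

/-- ENG, the extension engine. `A` is validly coloured by `f`, the vertices of `W = K \ (A ∪ Q)` get
distinct colours `g w` not used by `f` on `A` and not bad for `w`, and the vertices of `Q` are
coloured last.
PROOF. First `f` on `A` and `g` on `W` form a valid colouring of `A ∪ W` (`val_union`; `g` is valid
on `W`, all its classes are singletons and `P (g w) w w` is excluded by `g w ∉ F P k w`). Then by
induction on `Q' ⊆ Q` (`Finset.induction_on`): there is a valid colouring `f'` of `A ∪ W ∪ Q'`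
which agrees with `f` on `A`. Step: let `v ∈ Q`, `v ∉ Q'`. The colours of `O v ∪ I v` and those of
`f'` on `nd K dg v ∩ (A ∪ W ∪ Q')` are forbidden: their number is at most
`|O v ∪ I v| + |f (nd v ∩ A)| + |nd v \ A|`, and `|nd v \ A| = |nd v| - |nd v ∩ A|`,
`|nd v| = k - sd v` (`card_nd`), so by the hypothesis on `v` it is less than `k`, and there is a
colour `c < k` which is not forbidden. Put `f' v = c`: no vertex of colour `c` is joined to `v` by a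
digon, and `P c u v → c ∈ I v`, `P c v u → c ∈ O v`, `P c v v → c ∈ O v` are excluded. -/
def S_ENG : Prop :=
  ∀ (V : Type) (K : Finset V) (r : V → ℕ) (dg : V → V → Prop) (P : ℕ → V → V → Prop)
    (O I : V → Finset ℕ) (k : ℕ) (A Q : Finset V) (f g : V → ℕ), Loc K r dg P O I k →
    A ⊆ K → Q ⊆ K → Disjoint A Q → Val r dg P k A f →
    (∀ v ∈ Q, (O v ∪ I v).card + 1 + ((nd K dg v ∩ A).image f).card ≤
      sd K dg v + (nd K dg v ∩ A).card) →
    (∀ w ∈ K \ (A ∪ Q), g w < k ∧ g w ∉ A.image f ∧ g w ∉ F P k w) →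
    (∀ w ∈ K \ (A ∪ Q), ∀ w' ∈ K \ (A ∪ Q), g w = g w' → w = w') →
    ∃ f' : V → ℕ, Val r dg P k K f'

/-- HALL. Lists missing at most two colours of `Γ`.
PROOF. Hall's theorem (`Finset.all_card_le_biUnion_card_iff_exists_injective`) for the sets
`Γ \ L w`, `w ∈ W` (subtype): there is a nonempty `U ⊆ W` with `|⋃_{w ∈ U} (Γ \ L w)| < |U|`. Each
set has at least `|Γ| - 2` elements, so `|U| ≥ |Γ| - 1`. First case impossible. Second case: `U = W`,
the union `N` has exactly `|Γ| - 2` elements, all `Γ \ L w` equal `N`; `C = Γ \ N`, `C ⊆ L w`, so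
`L w = C` (`|L w| ≤ 2`). Third case: either `|U| = |Γ| - 1`, then as before `L w = C` for `w ∈ U` and
`W \ U = {r0}`; or `U = W` and the union has at most `|Γ| - 1` elements, there is
`c ∈ Γ` outside the union, so `c ∈ L w` for all `w ∈ W`. (If `|Γ| ≤ 1` or `|U|` is small use
truncated subtraction with care: `|U| > |N| ≥ |Γ| - 2`.) -/
def S_HALL : Prop :=
  ∀ (V : Type) (W : Finset V) (Γ : Finset ℕ) (L : V → Finset ℕ), (∀ w ∈ W, (L w).card ≤ 2) →
    (¬ ∃ g : V → ℕ, (∀ w ∈ W, g w ∈ Γ ∧ g w ∉ L w) ∧ ∀ w ∈ W, ∀ w' ∈ W, g w = g w' → w = w') →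
    (W.card + 2 ≤ Γ.card → False) ∧
    (W.card + 1 = Γ.card → ∃ C : Finset ℕ, C.card = 2 ∧ C ⊆ Γ ∧ ∀ w ∈ W, L w = C) ∧
    (W.card = Γ.card → (∃ c ∈ Γ, ∀ w ∈ W, c ∈ L w) ∨
      ∃ (C : Finset ℕ) (r0 : V), C.card = 2 ∧ C ⊆ Γ ∧ ∀ w ∈ W, w ≠ r0 → L w = C)

/-- TG. The general consequence of ENG and HALL if `K` has no valid colouring: `A` is validly
coloured, the vertices of `Q` can be postponed, all other vertices outside `A` are normal, and
`t = |A| + |Q| - |f(A)|` is the number of colours saved.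
PROOF. `W = K \ (A ∪ Q)`, `Γ = range k \ f(A)`: `|Γ| = k - |f(A)|`, `|W| = k + 1 - |A| - |Q|`, so
`|Γ| = |W| + t - 1`. By ENG there is no `g` as in HALL with `L w = F P k w`. Apply HALL. -/
def S_TG : Prop :=
  ∀ (V : Type) (K : Finset V) (r : V → ℕ) (dg : V → V → Prop) (P : ℕ → V → V → Prop)
    (O I : V → Finset ℕ) (k : ℕ) (A Q : Finset V) (f : V → ℕ) (t : ℕ), Loc K r dg P O I k →
    (¬ ∃ f' : V → ℕ, Val r dg P k K f') →
    A ⊆ K → Q ⊆ K → Disjoint A Q → Val r dg P k A f →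
    (∀ v ∈ Q, (O v ∪ I v).card + 1 + ((nd K dg v ∩ A).image f).card ≤
      sd K dg v + (nd K dg v ∩ A).card) →
    (∀ w ∈ K \ (A ∪ Q), Lo K dg O I w) → A.card + Q.card = (A.image f).card + t →
    (3 ≤ t → False) ∧
    (t = 2 → ∃ C : Finset ℕ, C.card = 2 ∧ Disjoint C (A.image f) ∧
      ∀ w ∈ K \ (A ∪ Q), F P k w = C) ∧
    (t = 1 → (∃ c, c ∉ A.image f ∧ ∀ w ∈ K \ (A ∪ Q), c ∈ F P k w) ∨
      ∃ (C : Finset ℕ) (r0 : V), C.card = 2 ∧ Disjoint C (A.image f) ∧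
        ∀ w ∈ K \ (A ∪ Q), w ≠ r0 → F P k w = C)

/-- The consequences of TG which are used: see `S_TEES`. -/
structure Tees {V : Type} (K : Finset V) (r : V → ℕ) (dg : V → V → Prop)
    (P : ℕ → V → V → Prop) (O I : V → Finset ℕ) (k : ℕ) : Prop where
  hi : (Hi K dg O I).card ≤ 2
  t31 : (Hi K dg O I).card = 2 → ∀ x ∈ K \ Hi K dg O I, ∀ y ∈ K \ Hi K dg O I, x ≠ y →
    ¬ dg x y → G r P k x y = ∅
  t32 : (Hi K dg O I).card = 1 → ∀ x ∈ K \ Hi K dg O I, ∀ y ∈ K \ Hi K dg O I,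
    ∀ x' ∈ K \ Hi K dg O I, ∀ y' ∈ K \ Hi K dg O I, x ≠ y → x' ≠ y' → x ≠ x' → x ≠ y' →
    y ≠ x' → y ≠ y' → ¬ dg x y → ¬ dg x' y' → ∀ α ∈ G r P k x y, ∀ α' ∈ G r P k x' y', α = α'
  t33 : (Hi K dg O I) = ∅ → ∀ x1 ∈ K, ∀ y1 ∈ K, ∀ x2 ∈ K, ∀ y2 ∈ K, ∀ x3 ∈ K, ∀ y3 ∈ K,
    x1 ≠ y1 → x2 ≠ y2 → x3 ≠ y3 → x1 ≠ x2 → x1 ≠ y2 → y1 ≠ x2 → y1 ≠ y2 → x1 ≠ x3 → x1 ≠ y3 →
    y1 ≠ x3 → y1 ≠ y3 → x2 ≠ x3 → x2 ≠ y3 → y2 ≠ x3 → y2 ≠ y3 → ¬ dg x1 y1 → ¬ dg x2 y2 →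
    ¬ dg x3 y3 → ∀ α1 ∈ G r P k x1 y1, ∀ α2 ∈ G r P k x2 y2, ∀ α3 ∈ G r P k x3 y3,
    α1 = α2 ∨ α1 = α3 ∨ α2 = α3
  t20 : (Hi K dg O I).card = 2 → ∃ C : Finset ℕ, C.card = 2 ∧
    ∀ w ∈ K \ Hi K dg O I, F P k w = C
  t21 : (Hi K dg O I).card = 1 → ∀ x ∈ K \ Hi K dg O I, ∀ y ∈ K \ Hi K dg O I, x ≠ y →
    ¬ dg x y → ∀ α ∈ G r P k x y, ∃ C : Finset ℕ, C.card = 2 ∧ α ∉ C ∧
      ∀ w ∈ K \ Hi K dg O I, w ≠ x → w ≠ y → F P k w = C ∧ (¬ dg w x ∨ ¬ dg w y)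
  t22 : (Hi K dg O I) = ∅ → ∀ x ∈ K, ∀ y ∈ K, ∀ x' ∈ K, ∀ y' ∈ K, x ≠ y → x' ≠ y' → x ≠ x' →
    x ≠ y' → y ≠ x' → y ≠ y' → ¬ dg x y → ¬ dg x' y' → ∀ α ∈ G r P k x y,
    ∀ α' ∈ G r P k x' y', α ≠ α' → ∃ C : Finset ℕ, C.card = 2 ∧ α ∉ C ∧ α' ∉ C ∧
      ∀ w ∈ K, w ≠ x → w ≠ y → w ≠ x' → w ≠ y' →
        F P k w = C ∧ (¬ dg w x ∨ ¬ dg w y) ∧ (¬ dg w x' ∨ ¬ dg w y')
  t23 : (Hi K dg O I) = ∅ → ∀ x ∈ K, ∀ y ∈ K, ∀ w ∈ K, x ≠ y → x ≠ w → y ≠ w →
    ∀ β : ℕ, Val r dg P k {x, y, w} (fun _ => β) → ∃ C : Finset ℕ, C.card = 2 ∧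
      ∀ v ∈ K, v ≠ x → v ≠ y → v ≠ w → F P k v = C
  t11 : (Hi K dg O I).card = 1 → (∃ c, ∀ w ∈ K \ Hi K dg O I, c ∈ F P k w) ∨
    ∃ (C : Finset ℕ) (r0 : V), C.card = 2 ∧ ∀ w ∈ K \ Hi K dg O I, w ≠ r0 → F P k w = C
  t10 : (Hi K dg O I) = ∅ → ∀ x ∈ K, ∀ y ∈ K, x ≠ y → ¬ dg x y → ∀ α ∈ G r P k x y,
    (∃ c, c ≠ α ∧ ∀ w ∈ K, w ≠ x → w ≠ y → c ∈ F P k w) ∨
    ∃ (C : Finset ℕ) (r0 : V), C.card = 2 ∧ α ∉ C ∧
      ∀ w ∈ K, w ≠ x → w ≠ y → w ≠ r0 → F P k w = C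

/-- TEES.
PROOF from TG. A vertex `v` of `Hi` satisfies `|O v ∪ I v| + 1 ≤ sd v`, so it can be postponed for
every `A` not containing it: `|f (nd v ∩ A)| ≤ |nd v ∩ A|` (`card_image_le`). In all items except
the second parts of `t21`, `t22` take `Q = Hi K dg O I`.
`hi`, `t20`, `t11`: `A = ∅`, `t = |Hi|`.
`t31`, first part of `t21`: `A = {x, y}`, `f = fun _ => α` (`val_pair`), `|f(A)| = 1`,
`t = 1 + |Hi|`. `t10` the same with `Hi = ∅`, `t = 1`.
`t32`, first part of `t22`: `A = {x, y, x', y'}`, coloured `α` on `{x, y}` and `α'` on `{x', y'}`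
(`val_union` of two `val_pair`), `α ≠ α'`, `|f(A)| = 2`, `t = 2 + |Hi|`.
`t33`: `A` has six elements, `|f(A)| = 3`, `t = 3`. `t23`: `A = {x, y, w}`, `|f(A)| = 1`, `t = 2`.
Second part of `t21`: suppose `dg w x` and `dg w y` for some `w ∈ K \ Hi`, `w ≠ x, y`. Since
`F(w) = C` has two elements, `|O(w) ∩ I(w)| ≥ 2`, so `|O(w) ∪ I(w)| ≤ sd w` (`h.deg`). Then `w` can
be postponed together with `Hi`: `nd w ∩ A = {x, y}` has two elements and one colour, so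
`|O ∪ I| + 1 + 1 ≤ sd w + 2`. With `Q = insert w Hi` we get `t = 3`, contradiction. Second part of
`t22`: the same with `A = {x, y, x', y'}`, `Q = {w}`, `t = 3`: if `dg w x`, `dg w y`, then
`|f (nd w ∩ A)| + 1 ≤ |nd w ∩ A|` since `x, y ∈ nd w ∩ A` have the same colour
(`nd w ∩ A = insert x ((nd w ∩ A).erase x)` and the colour of `x` is also that of `y`). -/
def S_TEES : Prop :=
  ∀ (V : Type) (K : Finset V) (r : V → ℕ) (dg : V → V → Prop) (P : ℕ → V → V → Prop)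
    (O I : V → Finset ℕ) (k : ℕ), Loc K r dg P O I k → (¬ ∃ f' : V → ℕ, Val r dg P k K f') →
    Tees K r dg P O I k

/-- TRI. Let `B ⊆ K` be a set of normal vertices such that for every simple pair `u < v` in `B` we
have `|O(v)| ≥ k - 2` and `|I(u)| ≥ k - 2`. Then `|B| + s(z) + s(z') ≤ 2 k + 2` for every simple pair
`z, z'` in `B`, and `B \ {z, z'} ⊆ nd z ∪ nd z'`.
PROOF. Suppose `z'' ∈ B \ {z, z'}` is simple to both `z` and `z'`. The middle one `m` of the three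
vertices in the order `r` (injective on `K`) is the upper end of one simple pair and the lower end of
another: `|O(m)| ≥ k - 2`, `|I(m)| ≥ k - 2`, `|O(m)| + |I(m)| ≤ k + 2` (`sum_le`), so `k ≤ 6`,
contradiction. So `B \ {z, z'} ⊆ nd z ∪ nd z'` and `|B| - 2 ≤ (k - s(z)) + (k - s(z'))`
(`card_nd`). -/
def S_TRI : Prop :=
  ∀ (V : Type) (K : Finset V) (r : V → ℕ) (dg : V → V → Prop) (P : ℕ → V → V → Prop)
    (O I : V → Finset ℕ) (k : ℕ), Loc K r dg P O I k → ∀ B ⊆ K, (∀ v ∈ B, Lo K dg O I v) →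
    (∀ u ∈ B, ∀ v ∈ B, r u < r v → ¬ dg u v → k ≤ (O v).card + 2 ∧ k ≤ (I u).card + 2) →
    ∀ z ∈ B, ∀ z' ∈ B, z ≠ z' → ¬ dg z z' →
      B.card + sd K dg z + sd K dg z' ≤ 2 * k + 2 ∧
      ∀ w ∈ B, w ≠ z → w ≠ z' → dg w z ∨ dg w z'

/-- The obstruction: a nonempty set `U` of pairwise digons and a set `C` of colours bad for all its
vertices with `|U| + |C| ≥ k + 1`; and no vertex of `U` has the largest number of simple pairs. -/
def Obs {V : Type} (K : Finset V) (dg : V → V → Prop) (P : ℕ → V → V → Prop) (k : ℕ) : Prop :=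
  ∃ (U : Finset V) (C : Finset ℕ), U ⊆ K ∧ U.Nonempty ∧ k + 1 ≤ U.card + C.card ∧
    (∀ u ∈ U, C ⊆ F P k u) ∧
    (∀ u ∈ U, ∀ u' ∈ U, u ≠ u' → dg u u') ∧ ∀ u ∈ U, ∃ v ∈ K, sd K dg u < sd K dg v

/-- `K` has at least two simple pairs. -/
def TwoPairs {V : Type} (K : Finset V) (dg : V → V → Prop) : Prop :=
  ∃ a ∈ K, ∃ b ∈ K, ∃ c ∈ K, ∃ d ∈ K, a ≠ b ∧ c ≠ d ∧ ¬ dg a b ∧ ¬ dg c d ∧
    ¬ (a = c ∧ b = d) ∧ ¬ (a = d ∧ b = c)

/-- J2, the case `|Hi| = 2`.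
PROOF. By `t20`, `F(w) = C` for all `w ∈ K' = K \ Hi`, `|C| = 2`; `|K'| = k - 1`. For a simple pair
`u < v` in `K'`: `G(u, v) = ∅` (`t31`), so by `G_ge` `k ≤ |F(u) ∪ O(v)|`, and `F(u) = C = F(v) ⊆ O(v)`,
so `|O(v)| ≥ k`; similarly `|I(u)| ≥ k`. By `OI_le` (`|F| = 2`) `s(v) ≥ k` and `s(u) ≥ k`. TRI with
`B = K'`: `k - 1 + 2 k ≤ 2 k + 2`, contradiction. So there are no simple pairs in `K'`. By `F_sd`
`s(w) ≥ 2` for `w ∈ K'`, and all simple neighbours of `w` are in `Hi`, which has two elements, so `w`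
is simple to both elements `p, q` of `Hi`, and `s(w) = 2`. Obstruction: `U = K'`, `C`;
`|U| + |C| = k + 1`; `s(p) ≥ |K'| = k - 1 > 2 = s(w)`. -/
def S_J2 : Prop :=
  ∀ (V : Type) (K : Finset V) (r : V → ℕ) (dg : V → V → Prop) (P : ℕ → V → V → Prop)
    (O I : V → Finset ℕ) (k : ℕ), Loc K r dg P O I k → Tees K r dg P O I k →
    (Hi K dg O I).card = 2 → Obs K dg P k

/-- J1a, `|Hi| = 1` and no simple pair of `K' = K \ Hi` has a good colour.
PROOF from TRI. `Hi = {p}`, `|K'| = k`.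
(1) There is no simple pair in `K'`. Suppose there is one, and use `t11`.
Case (B): `c ∈ F(w)` for all `w ∈ K'`. For a simple pair `u < v` in `K'`: `k ≤ |F(u) ∪ O(v)|` (`G_ge`,
`G(u, v) = ∅`), `c ∈ F(u) ∩ O(v)` and `|F(u)| ≤ 2`, so `|O(v)| ≥ k - 1`; similarly `|I(u)| ≥ k - 1`.
As `|F| ≥ 1`, `s(v), s(u) ≥ k - 2` (`OI_le`). TRI with `B = K'`: `k + 2 (k - 2) ≤ 2 k + 2`, so
`k ≤ 6`, contradiction.
Case (A): `F(w) = C`, `|C| = 2`, for all `w ∈ K' \ {r0}`. If `u < v` is a simple pair in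
`K' \ {r0}` then `|O(v)| ≥ k`, `|I(u)| ≥ k`, `s(u), s(v) ≥ k` as in J2; TRI with `B = K' \ {r0}`
(`|B| ≥ k - 1`): contradiction. So every simple pair in `K'` contains `r0`. Let `w, r0` be one:
`F(w) = C`, the simple neighbours of `w` are in `{p, r0}`, `s(w) ≤ 2`, `|O(w)|, |I(w)| ≤ 2`
(`OI_le`), so by `G_ge'` (with `u = r0`) `k ≤ 0 + 2 + 2`, contradiction.
(2) So all simple neighbours of every `w ∈ K'` are in `{p}`: `s(w) ≤ 1`, so `|F(w)| ≤ 1` (`F_sd`).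
Case (A) of `t11` is impossible (take `w ∈ K'`, `w ≠ r0`). Case (B): `c ∈ F(w)` for all `w ∈ K'`.
Obstruction `U = K'`, `C = {c}`, `|U| + 1 = k + 1`; `K` has at least two simple pairs, all contain
`p`, so `s(p) ≥ 2 > 1 ≥ s(w)`. -/
def S_J1a : Prop :=
  ∀ (V : Type) (K : Finset V) (r : V → ℕ) (dg : V → V → Prop) (P : ℕ → V → V → Prop)
    (O I : V → Finset ℕ) (k : ℕ), Loc K r dg P O I k → Tees K r dg P O I k →
    (Hi K dg O I).card = 1 → TwoPairs K dg →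
    (∀ x ∈ K \ Hi K dg O I, ∀ y ∈ K \ Hi K dg O I, x ≠ y → ¬ dg x y → G r P k x y = ∅) →
    Obs K dg P k

/-- J1b, `|Hi| = 1` and a simple pair `x, y` of `K' = K \ Hi` has a good colour `α`.
PROOF from TRI. `Hi = {p}`, `W = K' \ {x, y}`, `|W| = k - 2`. `t21`: `F(w) = C`, `|C| = 2`,
`α ∉ C`, for `w ∈ W`.
(1) No simple pairs in `W`: for a simple pair `u < v` in `W`, `t32` gives `G(u, v) ⊆ {α}`, so
`|O(v)| ≥ k - 1` (`G_ge`, `F(u) = C ⊆ O(v)`), `|I(u)| ≥ k - 1`, `s(u), s(v) ≥ k - 1` (`OI_le`). TRI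
with `B = W`: `k - 2 + 2 (k - 1) ≤ 2 k + 2`, so `k ≤ 6`, contradiction.
(2) So the simple neighbours of `w ∈ W` are in `{p, x, y}`: `s(w) ≤ 3`, `|O(w)|, |I(w)| ≤ 3`
(`OI_le`), and `s(w) ≥ 2` (`F_sd`).
(3) SWAP: let `(a, b)` be `(x, y)` or `(y, x)` and `w ∈ W` simple to `a`. By `G_ge'`
`|G(a, w)| ≥ k - 2 - 3 ≥ 3`. Take `β ∈ G(a, w)`; `t21` for the pair `a, w`: there is `C'`, equal to
`C` (compare on an element of `W \ {w}`), with `F(b) = C`, and every `w' ∈ W \ {w}` is simple to `a`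
or to `w`, hence to `a` by (1). So all `w ∈ W` are simple to `a`.
(4) Not both `x` and `y` have simple neighbours in `W`: otherwise take `w1 ≠ w2` in `W`, `w1` simple
to `x`, `w2` simple to `y` (all are), and distinct colours of `G(x, w1)`, `G(y, w2)` (each has at
least `3`): contradiction to `t32`.
(5) Every `w ∈ W` is simple to `x` or `y` (`t21`), so exactly one of them, say `x` (the argument for
`y` is symmetric; `dg` is symmetric, `G_comm`), is simple to all of `W`, and `y` is joined by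
digons to `W`. The simple neighbours of `w ∈ W` are in `{p, x}`, `s(w) ≥ 2`: it is simple to both.
`F(y) = C` by (3). Obstruction: `U = W ∪ {y}`, `|U| = k - 1`, `C`: pairwise digons by (1) and (5).
Simple neighbours of `y` are in `{x, p}`: so `s(u) ≤ 2` for `u ∈ U`, and
`s(x) ≥ |W| = k - 2 > 2`. -/
def S_J1b : Prop :=
  ∀ (V : Type) (K : Finset V) (r : V → ℕ) (dg : V → V → Prop) (P : ℕ → V → V → Prop)
    (O I : V → Finset ℕ) (k : ℕ), Loc K r dg P O I k → Tees K r dg P O I k →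
    (Hi K dg O I).card = 1 → ∀ x ∈ K \ Hi K dg O I, ∀ y ∈ K \ Hi K dg O I, x ≠ y →
    ¬ dg x y → (G r P k x y).Nonempty → Obs K dg P k

/-- J0a. `Hi = ∅` and there is a simple pair: some simple pair has a good colour.
PROOF from TRI. Otherwise for every simple pair `u < v`: `k ≤ |F(u) ∪ O(v)|`, `|F(u)| ≤ 2`, so
`|O(v)| ≥ k - 2`; similarly `|I(u)| ≥ k - 2`. Moreover no colour is good: every colour is in
`F(u) ∪ O(v)` and in `F(v) ∪ I(u)`. `2 k ≤ |F(u) ∪ O(v)| + |F(v) ∪ I(u)| ≤ |F(u)| + |O(v)| +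
|F(v)| + |I(u)| ≤ (|O(u)| + |I(u)|) + (|O(v)| + |I(v)|) ≤ 4 + s(u) + s(v)` (`F(u) ⊆ O(u)`,
`F(v) ⊆ I(v)`). TRI with `B = K`: `k + 1 + s(u) + s(v) ≤ 2 k + 2`, so `2 k - 4 ≤ k + 1`,
`k ≤ 5`, contradiction. -/
def S_J0a : Prop :=
  ∀ (V : Type) (K : Finset V) (r : V → ℕ) (dg : V → V → Prop) (P : ℕ → V → V → Prop)
    (O I : V → Finset ℕ) (k : ℕ), Loc K r dg P O I k → Hi K dg O I = ∅ → TwoPairs K dg →
    ∃ x ∈ K, ∃ y ∈ K, x ≠ y ∧ ¬ dg x y ∧ (G r P k x y).Nonempty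

/-- J0b. `Hi = ∅`, the simple pair `x, y` has the good colour `α`, and there are no two disjoint
simple pairs with distinct good colours.
PROOF from TRI. `W = K \ {x, y}`, `|W| = k - 1`.
(1) There is no simple pair in `W`. For a simple pair `u < v` in `W` we have `G(u, v) ⊆ {α}`, so
`k - 1 ≤ |F(u) ∪ O(v)|`, `k - 1 ≤ |F(v) ∪ I(u)|`. Use `t10`.
Case (B): `c ≠ α`, `c ∈ F(w)` for all `w ∈ W`. `c ∈ F(u) ∩ O(v)`: with `a = |F(u)|`, `b = |F(v)|`
(both in `{1, 2}`), `|O(v)| ≥ k - 1 - (a - 1) = k - a`, `|I(u)| ≥ k - b`; so `|O(v)|, |I(u)| ≥ k - 2`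
and TRI applies with `B = W`. By `OI_le` `s(v) ≥ k - a + b - 2`, `s(u) ≥ k - b + a - 2`, so
`s(u) + s(v) ≥ 2 k - 4`, and TRI: `k - 1 + 2 k - 4 ≤ 2 k + 2`, `k ≤ 7`, contradiction.
Case (A): `F(w) = C ∌ α`, `|C| = 2`, for `w ∈ W \ {r0}`. Simple pairs `u < v` in `B = W \ {r0}`
have `|O(v)| ≥ k - 1`, `|I(u)| ≥ k - 1` (`F(u) = C ⊆ O(v)`), `s(u), s(v) ≥ k - 1`; TRI:
`k - 2 + 2 (k - 1) ≤ 2 k + 2`, contradiction. So every simple pair of `W` contains `r0`; let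
`w, r0` be one: the simple neighbours of `w` are in `{x, y, r0}`, `s(w) ≤ 3`, `|F(w)| = 2`,
`|O(w)|, |I(w)| ≤ 3`, so by `G_ge'` (`u = r0`) `|G(r0, w)| ≥ k - 2 - 3 ≥ 3`, but
`G(r0, w) ⊆ {α}`, contradiction.
(2) So every `w ∈ W` has its simple neighbours in `{x, y}`: `s(w) ≤ 2`, `|O(w)|, |I(w)| ≤ 4`, and
for `a ∈ {x, y}` simple to `w`: `|G(a, w)| ≥ k - 2 - 4 ≥ 2` (`G_ge'`). If `w1 ≠ w2` in `W`, `w1`
simple to `x`, `w2` simple to `y`, then there are distinct good colours of the disjoint pairs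
`x, w1` and `y, w2`: contradiction to the hypothesis. As `K` has two simple pairs, at least one of
`x, y` has a simple neighbour in `W`. So either (i) exactly one of them, say `x` (the other case is
symmetric), or (ii) each of them has exactly the same single simple neighbour `w0` in `W`.
(3) Case (i): `y` is joined by digons to `W`, so every `v ≠ x` has all its simple neighbours in
`{x}`: `s(v) ≤ 1`, `|F(v)| ≤ 1` (`F_sd`). In `t10` for `x, y, α` case (A) is impossible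
(`|W| ≥ 2`), so `c ∈ F(w)` for all `w ∈ W`, so `F(w) = {c}`. Let `w1 ∈ W` be simple to `x` and
`β ∈ G(x, w1)`: `t10` for `x, w1, β`: case (A) is impossible again, so there is `c'` with
`c' ∈ F(v)` for all `v ≠ x, w1`; compare on `W \ {w1}`: `c' = c`, so `c ∈ F(y)`. Obstruction:
`U = K \ {x}`, `C = {c}`, `|U| = k`; pairwise digons; `s(x) ≥ 2 > s(v)` (`x` is simple to `y` and
`w1`).
(4) Case (ii): the simple pairs of `K` are exactly the three pairs of `{x, y, w0}`. All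
`v ∈ K \ {x, y, w0}` have `s(v) = 0`, `|F(v)| ≤ 1`. There is a colour `β` for which the three
vertices form a valid class: the colour `β < k` is excluded only if `P β u v` for some
`u, v ∈ {x, y, w0}`, so only if `β ∈ O(x) ∪ O(y) ∪ O(w0)` and `β ∈ I(x) ∪ I(y) ∪ I(w0)`; twice the
number of excluded colours is at most the sum of the six cardinalities, at most `3 (2 + 2) = 12`,
so at most `6 < k` colours are excluded. `t23`: `F(v) = C` with `|C| = 2` for the other vertices,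
contradiction. -/
def S_J0b : Prop :=
  ∀ (V : Type) (K : Finset V) (r : V → ℕ) (dg : V → V → Prop) (P : ℕ → V → V → Prop)
    (O I : V → Finset ℕ) (k : ℕ), Loc K r dg P O I k → Tees K r dg P O I k →
    Hi K dg O I = ∅ → TwoPairs K dg →
    (∀ x ∈ K, ∀ y ∈ K, ∀ x' ∈ K, ∀ y' ∈ K, x ≠ y → x' ≠ y' → x ≠ x' → x ≠ y' → y ≠ x' →
      y ≠ y' → ¬ dg x y → ¬ dg x' y' → ∀ α ∈ G r P k x y, ∀ α' ∈ G r P k x' y', α = α') →
    ∀ x ∈ K, ∀ y ∈ K, x ≠ y → ¬ dg x y → (G r P k x y).Nonempty → Obs K dg P k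

/-- J0c. `Hi = ∅`, two disjoint simple pairs `x, y` and `x', y'` with distinct good colours `α`,
`α'`, and there is no simple pair in `W = K \ {x, y, x', y'}`.
PROOF. `|W| = k - 3 ≥ 5`. `t22`: `F(w) = C`, `|C| = 2`, `α, α' ∉ C` for `w ∈ W`, and `w` is simple to
`x` or `y` and to `x'` or `y'`. The simple neighbours of `w` are in `{x, y, x', y'}`: `s(w) ≤ 4`,
`|O(w)|, |I(w)| ≤ 4` (`OI_le`).
(1) SWAP: let `{a, b}` be one of the two pairs (in any order), `{a', b'}` the other one with the good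
colour `α''`, and `w ∈ W` simple to `a`. `|G(a, w)| ≥ k - 2 - 4 ≥ 2` (`G_ge'`), so there is
`β ∈ G(a, w)`, `β ≠ α''`. `t22` for `a, w` and `a', b'`: the set is again `C` (compare on
`W \ {w}`), so `F(b) = C`; and every `w' ∈ W \ {w}` is simple to `a` or `w`, hence to `a`. So all of
`W` is simple to `a`.
(2) For each of the two pairs `{a, b}` exactly one vertex has simple neighbours in `W`: at least one
by `t22`. Suppose both have; then by (1) `F(a) = F(b) = C`, all of `W` is simple to both. Take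
`w1 ≠ w2` in `W`. `|G(a, w1)| ≥ k - 4`: let `a, w1` be ordered: for `a < w1` every colour outside `G`
is in `F(a) ∪ O(w1) = C ∪ O(w1) = O(w1)` (`G_ge`, `C = F(w1) ⊆ O(w1)`), `|O(w1)| ≤ 4`; for
`w1 < a` it is in `F(a) ∪ I(w1) = I(w1)`. The same for `G(b, w2)`. As `k - 4 ≥ 4 ≥ 3` there are
`β1 ∈ G(a, w1)`, `β2 ∈ G(b, w2)` with `β1, β2, α''` distinct (`α''` the good colour of the other
pair): contradiction to `t33` with the pairs `(a, w1)`, `(b, w2)`, `(a', b')`.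
(3) So by renaming (the cases are symmetric) `x` and `x'` are simple to all of `W`, and `y`, `y'` are
joined by digons to all of `W`; `F(y) = F(y') = C` by (1). The simple neighbours of `w ∈ W` are `x`
and `x'`: `s(w) ≤ 2`, `|O(w)|, |I(w)| ≤ 2`.
(4) `y, y'` is a digon: otherwise take `w1 ≠ w2` in `W` and the pairs `(x, w1)`, `(x', w2)`,
`(y, y')`: `|G(x, w1)| ≥ k - 2 - 2 ≥ 4` (`G_ge'`), `|G(x', w2)| ≥ 4`; the simple neighbours of `y`
and of `y'` are in `{x, x', y, y'}`, so `s(y'), s(y) ≤ 3`, `|O|, |I| ≤ 3` for `y'` (`OI_le` with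
`|F(y')| = 2`), `|G(y, y')| ≥ k - 2 - 3 ≥ 3` (`G_ge'` with `u = y`, `w = y'`). So there are three
distinct good colours, contradiction to `t33`.
(5) Obstruction: `U = W ∪ {y, y'}`, `|U| = k - 1`, `C`. Pairwise digons. The simple neighbours of
`u ∈ U` are in `{x, x'}`, so `s(u) ≤ 2`, and `s(x) ≥ |W| ≥ 5`. -/
def S_J0c : Prop :=
  ∀ (V : Type) (K : Finset V) (r : V → ℕ) (dg : V → V → Prop) (P : ℕ → V → V → Prop)
    (O I : V → Finset ℕ) (k : ℕ), Loc K r dg P O I k → Tees K r dg P O I k →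
    Hi K dg O I = ∅ → ∀ x ∈ K, ∀ y ∈ K, ∀ x' ∈ K, ∀ y' ∈ K, x ≠ y → x' ≠ y' → x ≠ x' →
    x ≠ y' → y ≠ x' → y ≠ y' → ¬ dg x y → ¬ dg x' y' → ∀ α ∈ G r P k x y,
    ∀ α' ∈ G r P k x' y', α ≠ α' →
    (∀ w ∈ K, ∀ w' ∈ K, w ≠ x → w ≠ y → w ≠ x' → w ≠ y' → w' ≠ x → w' ≠ y → w' ≠ x' → w' ≠ y' →
      w ≠ w' → dg w w') → Obs K dg P k

/-- J0d. `Hi = ∅`, two disjoint simple pairs `x, y` and `x', y'` with distinct good colours `α`,
`α'`, and a simple pair in `W = K \ {x, y, x', y'}`: impossible.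
PROOF from TRI. `|W| = k - 3`. `t22`: `F(w) = C`, `|C| = 2`, for `w ∈ W`. For a simple pair `u < v`
in `W`: by `t33` `G(u, v) ⊆ {α, α'}`, so `k - 2 ≤ |F(u) ∪ O(v)| = |O(v)|` (`F(u) = C = F(v) ⊆ O(v)`)
and `k - 2 ≤ |I(u)|`; by `OI_le` `s(u), s(v) ≥ k - 2`. Let `z < z'` be a simple pair in `W`.
TRI with `B = W`: every `w ∈ W \ {z, z'}` is joined by a digon to `z` or to `z'`. `z` has at most
`2` digons in `K` (`card_nd`), `z'` as well, so `k - 5 ≤ 4`, `k ≤ 9`, and at most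
`4 - (k - 5) = 9 - k ≤ 1` of these digons go to `{x, y, x', y'}`. So for one of the two pairs
`{x, y}`, `{x', y'}` both vertices are simple to `z` and to `z'`. Call it `{a, b}`, the other one
`{a', b'}` with the good colour `γ` (`α'` or `α`).
(1) Let `u ∈ {a, b}`. As `|O(u) ∩ I(u)| ≤ 2`, `|O(u) \ C| + |I(u) \ C| ≤ (k - 2) + 2 = k ≤ 9`, so
one of them is at most `4`. If `|O(u) \ C| ≤ 4` then `|G(u, z)| ≥ 2`: if `z < u` the colours outside
`G` are in `F(z) ∪ O(u) = C ∪ O(u)`, at most `6`, and `k ≥ 8`; if `u < z` they are in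
`F(u) ∪ O(z)`, and `|O(z)| ≤ 2 + s(z) - ...`: by `h.deg` `|O(z)| + |I(z)| ≤ 2 + s(z) ≤ 2 + k`,
`|I(z)| ≥ k - 2`, so `|O(z)| ≤ 4`, at most `6` colours. If `|I(u) \ C| ≤ 4` then
`|G(u, z')| ≥ 2` in the same way (`u < z'`: colours outside `G` in `F(z') ∪ I(u)`; `z' < u`: in
`F(u) ∪ I(z')`, `|I(z')| ≤ 4`).
(2) `F(a) = F(b) = C`: for `u = a` take the good colour `β ≠ γ` of the pair `a, z` or `a, z'` from
(1) and apply `t22` to this pair and `{a', b'}`: `F` is constant, equal to `C` (compare on an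
element of `W` other than `z, z'`, `|W| ≥ 5`), on the remaining vertices, one of which is `b`. The
same with `a` and `b` exchanged.
(3) Now `C ⊆ O(u) ∩ I(u)`, so `O(u) ∩ I(u) = C` and `|O(u) \ C| + |I(u) \ C| ≤ k - 2 ≤ 7`, one of
them is at most `3`. If `|O(u) \ C| ≤ 3` then `|G(u, l)| ≥ 3` for every `l ∈ W` which is the lower
end of a simple pair in `W` and simple to `u` (`l < u`: colours outside `G` in `C ∪ O(u)`, at most
`5`; `u < l`: in `F(u) ∪ O(l) = O(l)` as `F(u) = C = F(l)`, at most `4` as in (1)). If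
`|I(u) \ C| ≤ 3` then `|G(u, l)| ≥ 3` for every `l ∈ W` which is the upper end of a simple pair in
`W` and simple to `u`.
(4) There are distinct `w1, w2 ∈ W` with `|G(a, w1)| ≥ 3`, `|G(b, w2)| ≥ 3`, `a, w1` and `b, w2`
simple. If `|O(a) \ C| ≤ 3` and `|I(b) \ C| ≤ 3`: `w1 = z`, `w2 = z'`. If `|I(a) \ C| ≤ 3` and
`|O(b) \ C| ≤ 3`: `w1 = z'`, `w2 = z`. If both `|O(a) \ C|, |O(b) \ C| ≤ 3`: there is `l ∈ W`,
`l ≠ z`, simple to `z'` (`z'` has at most `2` digons and `|W \ {z, z'}| ≥ 3`); `l < z'`: otherwise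
`z' < l` and `|I(z')| ≥ k - 2`, `|O(z')| ≥ k - 2` contradicts `sum_le`. So `l` is a lower end,
`s(l) ≥ k - 2`, `l` has at most two digons, one of them with `z` (TRI for the simple pair `l, z'`
applied to `w = z`: `dg z l` or `dg z z'`, and `z, z'` is simple). So `l` is simple to `a` or to
`b`: if to `b` take `w1 = z`, `w2 = l`; if to `a` take `w1 = l`, `w2 = z`. If both
`|I(a) \ C|, |I(b) \ C| ≤ 3`: symmetric, with `l ≠ z'` simple to `z`, an upper end.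
(5) Three distinct good colours of the disjoint pairs `(a, w1)`, `(b, w2)`, `(a', b')`:
`γ`, one of `G(b, w2) \ {γ}`, one of `G(a, w1)` different from both. Contradiction to `t33`. -/
def S_J0d : Prop :=
  ∀ (V : Type) (K : Finset V) (r : V → ℕ) (dg : V → V → Prop) (P : ℕ → V → V → Prop)
    (O I : V → Finset ℕ) (k : ℕ), Loc K r dg P O I k → Tees K r dg P O I k →
    Hi K dg O I = ∅ → ∀ x ∈ K, ∀ y ∈ K, ∀ x' ∈ K, ∀ y' ∈ K, x ≠ y → x' ≠ y' → x ≠ x' →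
    x ≠ y' → y ≠ x' → y ≠ y' → ¬ dg x y → ¬ dg x' y' → ∀ α ∈ G r P k x y,
    ∀ α' ∈ G r P k x' y', α ≠ α' → ∀ z ∈ K, ∀ z' ∈ K, z ≠ x → z ≠ y → z ≠ x' → z ≠ y' →
    z' ≠ x → z' ≠ y → z' ≠ x' → z' ≠ y' → r z < r z' → ¬ dg z z' → False

/-- OBS: if `K` has two simple pairs and no valid colouring then there is an obstruction.
PROOF from TEES, J2, J1a, J1b, J0a, J0b, J0c, J0d: case distinction on `|Hi| ∈ {0, 1, 2}`; in the
case `1` whether some simple pair of `K \ Hi` has a good colour; in the case `0` J0a gives a simple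
pair with a good colour, then whether there are two disjoint simple pairs with distinct good colours
and whether there is a simple pair in the rest (order it by `r`, `h.inj`). -/
def S_OBS : Prop :=
  ∀ (V : Type) (K : Finset V) (r : V → ℕ) (dg : V → V → Prop) (P : ℕ → V → V → Prop)
    (O I : V → Finset ℕ) (k : ℕ), Loc K r dg P O I k → TwoPairs K dg →
    (¬ ∃ f' : V → ℕ, Val r dg P k K f') → Obs K dg P k

/-- ALL: the abstract local lemma. If `K` has at least two simple pairs, `v0` has the largest number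
of simple pairs and `K \ {v0}` has a valid colouring `f0` then `K` has a valid colouring.
PROOF from OBS. Otherwise let `U, C` be the obstruction; `v0 ∉ U`, so `U ⊆ K.erase v0`; `f0` is
injective on `U` (pairwise digons), and `f0 u ∉ C` for `u ∈ U` (`c ∈ C ⊆ F P k u` means
`P c u u`, which contradicts `Val` for `u = v`). So `|U| ≤ |range k \ C| = k - |C|`
(`C ⊆ F P k u ⊆ range k` for some `u ∈ U`), contradiction. -/
def S_ALL : Prop :=
  ∀ (V : Type) (K : Finset V) (r : V → ℕ) (dg : V → V → Prop) (P : ℕ → V → V → Prop)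
    (O I : V → Finset ℕ) (k : ℕ) (v0 : V) (f0 : V → ℕ), Loc K r dg P O I k → TwoPairs K dg →
    v0 ∈ K → (∀ v ∈ K, sd K dg v ≤ sd K dg v0) → Val r dg P k (K.erase v0) f0 →
    ∃ f' : V → ℕ, Val r dg P k K f'

end Pool.Agent.Lib.MP_ee37cd_co.LL
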