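import Pool.Agent.Lib.MP_ee37cd_co.Spec
import Pool.Agent.Lib.MP_ee37cd_co.SpecL

/-!
# MP_ee37cd_co: link between the abstract local lemma and digraphs; Brooks; the corollary
-/

set_option autoImplicit false

namespace Pool.Agent.Lib.MP_ee37cd_co.BK

open Finset
open scoped Classical

/-- ACY. Gluing lemma. `A` is acyclic, `r` is injective on `X`, the pairs of `X` are not digons and
all forward pairs `r u < r v` of `X` are arcs; `A` and `X` are disjoint; and for `u, v ∈ X` with
`r v ≤ r u` there is no walk `u → a ⇝ b → v` with all inner vertices in `A`. Then `A ∪ X` is acyclic.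
PROOF. Claim: let `u ∈ X` and a walk (`TransGen`) from `u` to `t` in `A ∪ X`. If `t ∈ X` then
`r u < r t`; if `t ∈ A` then there are `u' ∈ X` with `r u ≤ r u'` and `a ∈ A` with `E u' a` and
`ReflTransGen` from `a` to `t` inside `A`. Induction on the walk. One arc `u → t`: if `t ∈ X`,
`t ≠ u` (no loops), `r t < r u` would give the arc `t → u`, a digon; so `r u < r t` (`r` is
injective). If `t ∈ A`: `u' = u`, `a = t`. Last arc `s → t`: if `s ∈ X` and `t ∈ X`:
`r u < r s < r t`; if `s ∈ X`, `t ∈ A`: `u' = s`, `a = t`. If `s ∈ A` with `u', a`: `t ∈ X` gives a walk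
`u' → a ⇝ s → t`, so `r u' < r t`; `t ∈ A`: extend the walk inside `A`. So there is no closed walk
through a vertex of `X`. Let there be a closed walk at `x ∈ A`. Claim: a walk from `x ∈ A` to `t` is
a walk inside `A`, or there is `u ∈ X` with `TransGen` from `x` to `u` and `ReflTransGen` from `u` to
`t`. So either `A` is not acyclic or there is a closed walk at some `u ∈ X`. -/
def S_ACY : Prop :=
  ∀ (V : Type) (E : V → V → Prop) (A X : Finset V) (r : V → ℕ), (∀ v, ¬ E v v) → Acyc E A →
    Disjoint A X → (∀ a ∈ X, ∀ b ∈ X, r a = r b → a = b) →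
    (∀ a ∈ X, ∀ b ∈ X, a ≠ b → ¬ Dg E a b) → (∀ a ∈ X, ∀ b ∈ X, r a < r b → E a b) →
    (∀ u ∈ X, ∀ v ∈ X, r v ≤ r u → ¬ ∃ a ∈ A, ∃ b ∈ A, E u a ∧ E b v ∧
      Relation.ReflTransGen (fun s t => E s t ∧ s ∈ A ∧ t ∈ A) a b) →
    Acyc E (A ∪ X)

/-- LINK. The concrete local lemma from the abstract one.
PROOF from ACY and ALL. Let `dg = Dg E`. If `K` has no simple pair it is a biclique with `k + 1`
vertices, contradiction to `MinCex.noK`. If it has exactly one simple pair `x, y`, `r x < r y`, then
`E x y`, so `¬ E y x`, and `NB E S k x y Z` with `Z = K \ {x, y}`. Otherwise `TwoPairs K (Dg E)`, and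
we derive a contradiction. Let `v0 ∈ K` have the largest `sd K (Dg E)` (`Finset.exists_max_image`),
`f` a dicolouring of `S \ {v0}` with `k` colours (`MinCex.sub`), `R = S \ K`; `f` is also a
dicolouring of `R`. Put `O v = (R.filter (E v ·)).image f`, `I v = (R.filter (E · v)).image f`,
`P c u v` = there are `a, b ∈ cls R f c` with `E u a`, `E b v` and `ReflTransGen` from `a` to `b`
inside `cls R f c`. `Loc`: `deg`: `|O v| + |I v| ≤ outdeg E R v + indeg E R v`
`= outdeg E S v + indeg E S v - (outdeg E K v + indeg E K v)` (`outdeg_split`), the first sum is at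
most `2 k + 2` (`MinCex.dsum`), and `K` contains at `v` the `|nd v| = k - sd v` digons and one arc
for each of the `sd v` simple pairs (`deg_ge` with `A = nd`, `B` the later, `C` the earlier simple
neighbours): at least `2 (k - sd v) + sd v` arcs. So `|O v| + |I v| ≤ 2 + sd v`.
`f` is valid on `K.erase v0`: two vertices of one class form no digon (`IsDicol.dg`); if
`r v ≤ r u`, `f u = f v = c` and `P c u v`, then `u → a ⇝ b → v` is a walk in the class of `c` in
`S \ {v0}`, closed if `u = v`, and otherwise `r v < r u`, `E v u` closes it; contradiction.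
ALL gives a valid `f'` on `K`. `dicol_combine` with `f` on `R` and `f'` on `K`: for each colour `c`
apply ACY to `A = cls R f c`, `X = cls K f' c`: contradiction to `MinCex.ncol`. -/
def S_LINK : Prop := LL.S_ALL → S_LL

/-- BR, Brooks' theorem, for a graph `G` on the finite set `T` of vertices.
PROOF (after Zajac). Suppose it fails; take a counterexample `T` with `|T|` minimal (same `V`, `G`,
`k`). Every proper subset `T' ⊂ T` has a proper colouring with `k` colours (degrees and cliques only
become smaller). (0) Every vertex has degree exactly `k` in `T`: otherwise colour `T.erase v` and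
then `v`. (1) PATH LEMMA: let `A ⊆ T` be properly coloured by `f` and let `u_1, ..., u_m` be distinct
vertices of `T \ A` with `u_i` adjacent to `u_{i+1}` for all `i < m`. Then `A ∪ {u_1, ..., u_{m-1}}`
has a proper colouring which agrees with `f` on `A`: colour `u_1, u_2, ...` in this order; when
`u_i` is coloured its neighbour `u_{i+1}` is not coloured, so at most `k - 1` colours are forbidden
(induction on the list). (2) There are `v_1, v_2, v_3` in `T` with `v_2` adjacent to `v_1` and `v_3`,
`v_1 ≠ v_3` not adjacent: otherwise for any `v_2` the `k` neighbours and `v_2` form a clique with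
`k + 1` vertices. (3) Take a path `v_1, v_2, v_3, ..., v_m` in `T` (distinct vertices, consecutive
ones adjacent) of maximal length starting with these three; all neighbours of `v_m` are on the path.
(4) If the path contains all vertices of `T`: `v_2` has degree `k ≥ 3`, so a neighbour `v_j`, `j ≥ 4`.
Colour `v_1, v_3` with the colour `0`, apply the path lemma to `v_4, ..., v_{j-1}, v_j` (all but `v_j`
get coloured), then to `v_m, v_{m-1}, ..., v_j, v_2` (all but `v_2` get coloured), finally `v_2`: its
neighbours `v_1`, `v_3` have the same colour, so at most `k - 1` colours are forbidden.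
(5) Otherwise let `v_j` be the neighbour of `v_m` with the smallest index and
`C = {v_j, ..., v_m}`, a cycle (`v_m` adjacent to `v_j`); `C ≠ T`. `T \ C` is nonempty and has a
proper colouring `f` by minimality. Some vertex of `C` has a neighbour in `T \ C`: otherwise colour
`C` and `T \ C` separately (both proper subsets). `v_m` has none. So going around the cycle there
are neighbours `x, y` on the cycle such that `x` has no neighbour in `T \ C` and `y` has a neighbour
`y'` in `T \ C`. Let `x = c_0, c_1, ..., c_l = y` be the cycle, starting from `x` in the direction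
away from `y`. Give `x` the colour of `y'` and apply the path lemma to `c_1, ..., c_l` (`A` is
`(T \ C) ∪ {x}`); finally `y` has the two neighbours `x` and `y'` of the same colour. -/
def S_BR : Prop :=
  ∀ (V : Type) (T : Finset V) (G : SimpleGraph V) (k : ℕ), 3 ≤ k →
    (∀ v ∈ T, (T.filter (fun w => G.Adj v w)).card ≤ k) →
    (∀ B ⊆ T, (∀ a ∈ B, ∀ b ∈ B, a ≠ b → G.Adj a b) → B.card ≤ k) →
    ∃ f : V → ℕ, (∀ v ∈ T, f v < k) ∧ ∀ u ∈ T, ∀ v ∈ T, G.Adj u v → f u ≠ f v

end Pool.Agent.Lib.MP_ee37cd_co.BK
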