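import Pool.Agent.Lib.MP_ee37cd_co.SpecL

/-!
# MP_ee37cd_co: TRI, no triangle of simple pairs
-/

set_option autoImplicit false

namespace Pool.Agent.Lib.MP_ee37cd_co.LL

open Finset
open scoped Classical

namespace TRI

theorem mid {V : Type} {K : Finset V} {r : V → ℕ} {dg : V → V → Prop} {P : ℕ → V → V → Prop}
    {O I : V → Finset ℕ} {k : ℕ} (h : Loc K r dg P O I k) {B : Finset V} (hB : B ⊆ K)
    (hlo : ∀ v ∈ B, Lo K dg O I v)
    (hP : ∀ u ∈ B, ∀ v ∈ B, r u < r v → ¬ dg u v → k ≤ (O v).card + 2 ∧ k ≤ (I u).card + 2)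
    {a b c : V} (ha : a ∈ B) (hb : b ∈ B) (hc : c ∈ B) (hab : r a < r b) (hbc : r b < r c)
    (h1 : ¬ dg a b) (h2 : ¬ dg b c) : False := by
  have h3 := (hP a ha b hb hab h1).1
  have h4 := (hP b hb c hc hbc h2).2
  have h5 := sum_le h (hB hb) (hlo b hb)
  have h6 := h.hk
  omega

end TRI

theorem s_TRI : S_TRI := by
  intro V K r dg P O I k h B hB hlo hP z hz z' hz' hne hd
  have key : ∀ w ∈ B, w ≠ z → w ≠ z' → dg w z ∨ dg w z' := by
    intro w hw hwz hwz'
    by_contra hcon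
    rw [not_or] at hcon
    obtain ⟨h1, h2⟩ := hcon
    have s1 : ¬ dg z w := fun h3 => h1 (h.symm _ _ h3)
    have s2 : ¬ dg z' w := fun h3 => h2 (h.symm _ _ h3)
    have s3 : ¬ dg z' z := fun h3 => hd (h.symm _ _ h3)
    have i1 : r z ≠ r z' := fun h3 => hne (h.inj z (hB hz) z' (hB hz') h3)
    have i2 : r w ≠ r z := fun h3 => hwz (h.inj w (hB hw) z (hB hz) h3)
    have i3 : r w ≠ r z' := fun h3 => hwz' (h.inj w (hB hw) z' (hB hz') h3)
    rcases lt_or_gt_of_ne i1 with j1 | j1 <;> rcases lt_or_gt_of_ne i2 with j2 | j2 <;>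
      rcases lt_or_gt_of_ne i3 with j3 | j3
    · exact TRI.mid h hB hlo hP hw hz hz' j2 j1 h1 hd
    · omega
    · exact TRI.mid h hB hlo hP hz hw hz' j2 j3 s1 h2
    · exact TRI.mid h hB hlo hP hz hz' hw j1 j3 hd s2
    · exact TRI.mid h hB hlo hP hw hz' hz j3 j1 h2 s3
    · exact TRI.mid h hB hlo hP hz' hw hz j3 j2 s2 h1
    · omega
    · exact TRI.mid h hB hlo hP hz' hz hw j1 j2 s3 s1
  refine ⟨?_, key⟩
  have hsub : B ⊆ {z, z'} ∪ (nd K dg z ∪ nd K dg z') := by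
    intro w hw
    by_cases h1 : w = z
    · simp [h1]
    by_cases h2 : w = z'
    · simp [h2]
    rw [Finset.mem_union, Finset.mem_union]
    right
    rcases key w hw h1 h2 with h3 | h3
    · left
      exact mem_nd.mpr ⟨hB hw, h1, h.symm _ _ h3⟩
    · right
      exact mem_nd.mpr ⟨hB hw, h2, h.symm _ _ h3⟩
  have c1 := Finset.card_le_card hsub
  have c2 := Finset.card_union_le ({z, z'} : Finset V) (nd K dg z ∪ nd K dg z')
  have c3 := Finset.card_union_le (nd K dg z) (nd K dg z')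
  have c4 : ({z, z'} : Finset V).card ≤ 2 := Finset.card_le_two
  have c5 := card_nd h (hB hz)
  have c6 := card_nd h (hB hz')
  omega

end Pool.Agent.Lib.MP_ee37cd_co.LL
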